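import Mathlib

/-!
# The 3x+1 map on the integers, one-sided counts and densities
-/

set_option autoImplicit false

namespace Pool.Agent.Lib.MP_edb5be_nt.CO

/-- the 3x+1 map on the integers (the same text as in the result file) -/
def T (x : ℤ) : ℤ := if x % 2 = 0 then x / 2 else (3 * x + 1) / 2

/-- number of the `x ∈ S` with `0 < e x ≤ X` -/
noncomputable def count (e : ℤ) (S : Set ℤ) (X : ℝ) : ℝ :=
  ({x : ℤ | x ∈ S ∧ 0 < e * x ∧ ((e * x : ℤ) : ℝ) ≤ X}.ncard : ℝ)

/-- `S` has the natural density `D` in the integers of sign `e`. -/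
def HasDensity (e : ℤ) (S : Set ℤ) (D : ℝ) : Prop :=
  Filter.Tendsto (fun X : ℝ => count e S X / X) Filter.atTop (nhds D)

/-- `S` is `T`-invariant outside `(-y, y)` -/
def InvAbove (y : ℝ) (S : Set ℤ) : Prop := ∀ x : ℤ, y ≤ |(x : ℝ)| → (x ∈ S ↔ T x ∈ S)

end Pool.Agent.Lib.MP_edb5be_nt.CO
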