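import Mathlib

/-!
# The potentials `Theta` and `J`
-/

namespace Pool.Agent.Lib.MP_edb5be_nt.CO

open Finset

/-- the exponent of `2` in `3 ^ D - 1` -/
def v (D : ℕ) : ℕ := padicValNat 2 (3 ^ D - 1)

/-- upper bound for the waiting potential -/
def wm : ℕ → ℕ
  | 0 => 0
  | D + 1 => v (D + 1) + 1

theorem v_le (D : ℕ) : v D ≤ 2 + padicValNat 2 D := by
  rcases Nat.eq_zero_or_pos D with h0 | h0
  · subst h0
    simp [v]
  rcases Nat.even_or_odd D with h | h
  · have h1 := padicValNat.pow_two_sub_pow (x := 3) (y := 1) (by norm_num) (by norm_num)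
      (by norm_num) (n := D) h0.ne' h
    rw [one_pow] at h1
    have h2 : padicValNat 2 (3 + 1) = 2 := by
      rw [show (3 + 1 : ℕ) = 2 ^ 2 by norm_num]
      exact padicValNat.prime_pow 2
    have h3 : padicValNat 2 (3 - 1) = 1 := by
      rw [show (3 - 1 : ℕ) = 2 by norm_num]
      exact padicValNat_self
    rw [h2, h3] at h1
    rw [v]
    omega
  · have h1 : ¬ 2 ^ 2 ∣ 3 ^ D - 1 := by
      obtain ⟨m, rfl⟩ := h
      intro hd
      have h2 : (3 : ℕ) ^ (2 * m + 1) % 4 = 3 := by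
        rw [pow_add, pow_mul, Nat.mul_mod, Nat.pow_mod]
        norm_num
      have h3 : 1 ≤ 3 ^ (2 * m + 1) := Nat.one_le_pow _ _ (by norm_num)
      generalize (3 : ℕ) ^ (2 * m + 1) = z at h2 h3 hd
      omega
    have h2 : v D < 2 := by
      rw [v]
      by_contra h3
      rw [not_lt] at h3
      exact h1 ((pow_dvd_pow 2 h3).trans pow_padicValNat_dvd)
    omega

theorem v_one : v 1 = 1 := by
  rw [v, show 3 ^ 1 - 1 = 2 by norm_num]
  exact padicValNat_self

theorem wm_one : wm 1 = 2 := by rw [wm, v_one]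

theorem v_le_two_mul (D : ℕ) : v D ≤ 2 * D := by
  rcases Nat.eq_zero_or_pos D with h0 | h0
  · subst h0
    simp [v]
  have h3 : 0 < 3 ^ D - 1 := by
    have : 3 ^ 1 ≤ 3 ^ D := Nat.pow_le_pow_right (by norm_num) h0
    omega
  have h1 : 2 ^ v D ∣ 3 ^ D - 1 := pow_padicValNat_dvd
  have h2 := Nat.le_of_dvd h3 h1
  by_contra hlt
  rw [not_le] at hlt
  have h4 : 2 ^ (2 * D) ≤ 2 ^ v D := Nat.pow_le_pow_right (by norm_num) hlt.le
  rw [pow_mul] at h4
  have h5 : 3 ^ D ≤ (2 ^ 2) ^ D := Nat.pow_le_pow_left (by norm_num) D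
  omega

theorem wm_le (D : ℕ) : wm D ≤ 2 * D + 1 := by
  cases D with
  | zero => simp [wm]
  | succ D =>
    rw [wm]
    have := v_le_two_mul (D + 1)
    omega

theorem sum_v_le (n : ℕ) : ∑ d ∈ range n, v (d + 1) ≤ 3 * n := by
  have h1 : ∀ n : ℕ, ∑ d ∈ range n, padicValNat 2 (d + 1) = padicValNat 2 n.factorial := by
    intro n
    induction n with
    | zero => simp
    | succ n ih =>
      rw [sum_range_succ, ih, Nat.factorial_succ, padicValNat.mul (Nat.succ_ne_zero n)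
        (Nat.factorial_ne_zero n), add_comm]
  have h2 : padicValNat 2 n.factorial ≤ n := by
    have := sub_one_mul_padicValNat_factorial (p := 2) n
    omega
  calc ∑ d ∈ range n, v (d + 1) ≤ ∑ d ∈ range n, (2 + padicValNat 2 (d + 1)) :=
        sum_le_sum fun d _ => v_le (d + 1)
    _ = 2 * n + padicValNat 2 n.factorial := by
        rw [sum_add_distrib, h1, sum_const, card_range, smul_eq_mul, mul_comm]
    _ ≤ 3 * n := by omega

/-- the second difference of `Theta` -/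
noncomputable def mu (D : ℕ) : ℝ := 1 + ((wm (D + 1) : ℝ) + wm (D - 1)) / 2

/-- the quadratic potential -/
noncomputable def Theta (D : ℕ) : ℝ := 2 * ∑ j ∈ range D, ((D : ℝ) - j) * (if j = 0 then 0 else mu j)

theorem mu_nonneg (D : ℕ) : 0 ≤ mu D := by
  rw [mu]; positivity

theorem Theta_zero : Theta 0 = 0 := by simp [Theta]

theorem Theta_one : Theta 1 = 0 := by simp [Theta]

theorem Theta_second {D : ℕ} (hD : 1 ≤ D) :
    (Theta (D + 1) + Theta (D - 1)) / 2 - Theta D = mu D := by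
  obtain ⟨D, rfl⟩ : ∃ E, D = E + 1 := ⟨D - 1, by omega⟩
  rw [Nat.add_sub_cancel]
  have h1 : Theta (D + 1 + 1) = 2 * (∑ j ∈ range D, ((D : ℝ) - j) * (if j = 0 then 0 else mu j)
      + 2 * ∑ j ∈ range D, (if j = 0 then 0 else mu j)
      + 2 * (if D = 0 then 0 else mu D) + mu (D + 1)) := by
    rw [Theta, sum_range_succ, sum_range_succ, if_neg (Nat.succ_ne_zero D)]
    have : ∀ j ∈ range D, (((D + 1 + 1 : ℕ) : ℝ) - j) * (if j = 0 then 0 else mu j)
        = ((D : ℝ) - j) * (if j = 0 then 0 else mu j) + 2 * (if j = 0 then 0 else mu j) := by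
      intro j _
      push_cast
      ring
    rw [sum_congr rfl this, sum_add_distrib, ← mul_sum]
    push_cast
    ring
  have h2 : Theta (D + 1) = 2 * (∑ j ∈ range D, ((D : ℝ) - j) * (if j = 0 then 0 else mu j)
      + ∑ j ∈ range D, (if j = 0 then 0 else mu j) + (if D = 0 then 0 else mu D)) := by
    rw [Theta, sum_range_succ]
    have : ∀ j ∈ range D, (((D + 1 : ℕ) : ℝ) - j) * (if j = 0 then 0 else mu j)
        = ((D : ℝ) - j) * (if j = 0 then 0 else mu j) + (if j = 0 then 0 else mu j) := by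
      intro j _
      push_cast
      ring
    rw [sum_congr rfl this, sum_add_distrib]
    push_cast
    ring
  rw [h1, h2, Theta]
  ring

theorem Theta_nonneg (D : ℕ) : 0 ≤ Theta D := by
  rw [Theta]
  refine mul_nonneg (by norm_num) (sum_nonneg fun j hj => ?_)
  rw [mem_range] at hj
  have h1 : (0 : ℝ) ≤ (D : ℝ) - j := sub_nonneg.2 (by exact_mod_cast hj.le)
  split_ifs
  · simp
  · exact mul_nonneg h1 (mu_nonneg j)

theorem sum_mu_le (D : ℕ) : ∑ j ∈ range D, (if j = 0 then 0 else mu j) ≤ 8 * D := by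
  have h1 : ∀ j ∈ range D, (if j = 0 then 0 else mu j)
      ≤ 2 + ((v (j + 1) : ℝ) + (if j ≤ 1 then 0 else (v (j - 1) : ℝ))) / 2 := by
    intro j _
    by_cases h0 : j = 0
    · rw [if_pos h0]; split_ifs <;> positivity
    · rw [if_neg h0, mu]
      obtain ⟨i, rfl⟩ : ∃ i, j = i + 1 := ⟨j - 1, by omega⟩
      rw [Nat.add_sub_cancel]
      rcases Nat.eq_zero_or_pos i with h2 | h2
      · subst h2
        simp only [wm]
        norm_num
        linarith
      · obtain ⟨l, rfl⟩ : ∃ l, i = l + 1 := ⟨i - 1, by omega⟩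
        rw [if_neg (by omega)]
        simp only [wm]
        push_cast
        linarith
  have h2 : ∑ j ∈ range D, (v (j + 1) : ℝ) ≤ 3 * D := by exact_mod_cast sum_v_le D
  have h3 : ∑ j ∈ range D, (if j ≤ 1 then 0 else (v (j - 1) : ℝ)) ≤ 3 * D := by
    rcases Nat.lt_or_ge D 2 with h | h
    · have : ∀ j ∈ range D, (if j ≤ 1 then 0 else (v (j - 1) : ℝ)) = 0 := by
        intro j hj
        rw [mem_range] at hj
        rw [if_pos (by omega)]
      rw [sum_congr rfl this, sum_const_zero]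
      positivity
    · obtain ⟨E, rfl⟩ : ∃ E, D = E + 2 := ⟨D - 2, by omega⟩
      rw [sum_range_succ', sum_range_succ']
      simp only [zero_add, Nat.zero_le, if_true, le_refl, add_zero]
      have h4 : ∀ j ∈ range E, (if j + 1 + 1 ≤ 1 then 0 else (v (j + 1 + 1 - 1) : ℝ))
          = (v (j + 1) : ℝ) := by
        intro j _
        rw [if_neg (by omega), Nat.add_sub_cancel]
      rw [sum_congr rfl h4]
      have h5 : ∑ j ∈ range E, (v (j + 1) : ℝ) ≤ 3 * E := by exact_mod_cast sum_v_le E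
      push_cast
      linarith
  calc ∑ j ∈ range D, (if j = 0 then 0 else mu j)
      ≤ ∑ j ∈ range D, (2 + ((v (j + 1) : ℝ) + (if j ≤ 1 then 0 else (v (j - 1) : ℝ))) / 2) :=
        sum_le_sum h1
    _ = 2 * D + ((∑ j ∈ range D, (v (j + 1) : ℝ))
        + ∑ j ∈ range D, (if j ≤ 1 then 0 else (v (j - 1) : ℝ))) / 2 := by
        rw [sum_add_distrib, sum_const, card_range, ← sum_div, sum_add_distrib]
        simp only [nsmul_eq_mul]
        ring
    _ ≤ 8 * D := by
        have : (0 : ℝ) ≤ D := Nat.cast_nonneg D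
        linarith

theorem Theta_le (D : ℕ) : Theta D ≤ 16 * (D : ℝ) ^ 2 := by
  have h1 : ∑ j ∈ range D, ((D : ℝ) - j) * (if j = 0 then 0 else mu j)
      ≤ D * ∑ j ∈ range D, (if j = 0 then 0 else mu j) := by
    rw [mul_sum]
    refine sum_le_sum fun j _ => ?_
    refine mul_le_mul_of_nonneg_right ?_ ?_
    · have : (0 : ℝ) ≤ j := Nat.cast_nonneg j
      linarith
    · split_ifs
      · exact le_rfl
      · exact mu_nonneg j
  have h2 : (D : ℝ) * ∑ j ∈ range D, (if j = 0 then 0 else mu j) ≤ D * (8 * D) :=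
    mul_le_mul_of_nonneg_left (sum_mu_le D) (Nat.cast_nonneg D)
  rw [Theta]
  nlinarith

/-- the bounded potential -/
noncomputable def J (D : ℕ) : ℝ := D / (D + 1)

theorem J_zero : J 0 = 0 := by simp [J]

theorem J_one : J 1 = 1 / 2 := by norm_num [J]

theorem J_nonneg (D : ℕ) : 0 ≤ J D := by rw [J]; positivity

theorem J_le_one (D : ℕ) : J D ≤ 1 := by
  rw [J, div_le_one (by positivity)]
  linarith

theorem J_second {D : ℕ} (hD : 1 ≤ D) :
    (J (D + 1) + J (D - 1)) / 2 - J D = -1 / ((D : ℝ) * (D + 1) * (D + 2)) := by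
  obtain ⟨D, rfl⟩ : ∃ E, D = E + 1 := ⟨D - 1, by omega⟩
  rw [Nat.add_sub_cancel, J, J, J]
  have h1 : (D : ℝ) + 1 ≠ 0 := by positivity
  have h2 : (D : ℝ) + 1 + 1 ≠ 0 := by positivity
  have h3 : (D : ℝ) + 1 + 2 ≠ 0 := by positivity
  have h4 : (D : ℝ) + 1 + 1 + 1 ≠ 0 := by positivity
  push_cast
  field_simp
  ring

/-- a polynomial times a decaying exponential is bounded -/
theorem exists_C2 {g : ℝ} (h0 : 0 ≤ g) (h1 : g < 1) : ∃ C2 : ℝ, 0 ≤ C2 ∧ ∀ D : ℕ,
    (D : ℝ) * (D + 1) * (D + 2) * (3 * D + 3) * g ^ D ≤ C2 := by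
  have h2 : Filter.Tendsto (fun n : ℕ => (n : ℝ) ^ 4 * g ^ n) Filter.atTop (nhds 0) :=
    tendsto_pow_const_mul_const_pow_of_lt_one 4 h0 h1
  obtain ⟨B, hB⟩ := h2.bddAbove_range
  refine ⟨max (36 * B) 0, le_max_right _ _, fun D => ?_⟩
  rcases Nat.eq_zero_or_pos D with hD | hD
  · subst hD
    simp
  · have h3 : (1 : ℝ) ≤ D := by exact_mod_cast hD
    have h4 : (D : ℝ) ^ 4 * g ^ D ≤ B := hB ⟨D, rfl⟩
    have h5 : (D : ℝ) * (D + 1) * (D + 2) * (3 * D + 3) ≤ 36 * (D : ℝ) ^ 4 := by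
      have e1 : (D : ℝ) + 1 ≤ 2 * D := by linarith
      have e2 : (D : ℝ) + 2 ≤ 3 * D := by linarith
      have e3 : 3 * (D : ℝ) + 3 ≤ 6 * D := by linarith
      calc (D : ℝ) * (D + 1) * (D + 2) * (3 * D + 3) ≤ D * (2 * D) * (3 * D) * (6 * D) := by
            gcongr
        _ = 36 * (D : ℝ) ^ 4 := by ring
    have h6 : (0 : ℝ) ≤ g ^ D := pow_nonneg h0 D
    calc (D : ℝ) * (D + 1) * (D + 2) * (3 * D + 3) * g ^ D ≤ 36 * (D : ℝ) ^ 4 * g ^ D := by
          gcongr
      _ = 36 * ((D : ℝ) ^ 4 * g ^ D) := by ring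
      _ ≤ 36 * B := by linarith
      _ ≤ max (36 * B) 0 := le_max_left _ _

end Pool.Agent.Lib.MP_edb5be_nt.CO
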