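import Pool.Agent.Lib.MP_edb5be_nt.CO.State
import Pool.Agent.Lib.MP_edb5be_nt.CO.Theta
import Pool.Agent.Lib.MP_edb5be_nt.CO.Defs

/-!
# Coalescence for the 3x+1 map with exponent 1/2: the potentials and the statements of the rows

Proof: finding 4830.  `T`, `count`, `HasDensity`, `InvAbove` are in `CO/Defs.lean`; `st`, `f`, `nx`,
`nm` in `CO/State.lean`; `v`, `wm`, `mu`, `Theta`, `J` in `CO/Theta.lean`.  A row that needs another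
row takes its statement as a hypothesis.
-/

set_option autoImplicit false

namespace Pool.Agent.Lib.MP_edb5be_nt.CO

/-- The potential of the even steps. -/
def w (p : ℕ × ℤ) : ℕ :=
  if p.1 = 0 then 0
  else ((Finset.Icc 1 (v p.1)).filter (fun m => (2 : ℤ) ^ m ∣ p.2)).card +
    (if (2 : ℤ) ^ v p.1 ∣ p.2 then 1 else 0)

/-- The constant `g`; `g ^ 2 ≥ 25 / 27`. -/
noncomputable def g : ℝ := 963 / 1000

/-- The size potential `(5/9) ^ D * √|s|`. -/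
noncomputable def r (p : ℕ × ℤ) : ℝ := (5 / 9 : ℝ) ^ p.1 * Real.sqrt |(p.2 : ℝ)|

/-! ## Row RR (helper26) -/

/-- The mean of `r` after one step. -/
def RRStatement : Prop :=
  (∀ (D : ℕ) (s : ℤ), s % 2 = 0 →
    (r (st false (D, s)) + r (st true (D, s))) / 2 ≤ 967 / 1000 * r (D, s) + 36 / 100 * g ^ D) ∧
  (∀ s : ℤ, s % 2 = 0 →
    (r (st false (0, s)) + r (st true (0, s))) / 2 ≤ 967 / 1000 * r (0, s)) ∧
  (∀ (D : ℕ) (s : ℤ), 1 ≤ D → s % 2 ≠ 0 →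
    (r (st false (D, s)) + r (st true (D, s))) / 2 ≤ 978 / 1000 * r (D, s) + 6 / 10 * g ^ D) ∧
  (∀ s : ℤ, s % 2 ≠ 0 →
    (r (st false (0, s)) + r (st true (0, s))) / 2 ≤ 69 / 100 * r (0, s) + 4 / 10)

/-! ## Row WW (helper12) -/

/-- The potential `w`: its maximum, its zeros and its mean after an even step. -/
def WWStatement : Prop :=
  (∀ (D : ℕ) (s : ℤ), w (D, s) ≤ wm D) ∧
  (∀ (D : ℕ) (s : ℤ), s % 2 ≠ 0 → w (D, s) = 0) ∧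
  (∀ (D : ℕ) (s : ℤ), 1 ≤ D → s % 2 = 0 →
    w (st false (D, s)) + w (st true (D, s)) + 2 = 2 * w (D, s))

/-! ## Row PP (helper76, `CO/Paths.lean`) -/

/-- From every state `(0, s)` there is a path to `(0, 0)`. -/
def PPStatement : Prop := ∀ s : ℤ, ∃ n : ℕ, f n (0, s) < 1

/-! ## Row LY (helper26): Theorem 1 -/

/-- Theorem 1. -/
def LYStatement : Prop :=
  ∃ C : ℝ, 0 < C ∧ ∀ t : ℕ, 1 ≤ t → ∀ (D : ℕ) (s : ℤ),
    f t (D, s) ≤ C * (1 + D + r (D, s)) / Real.sqrt t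

/-! ## Row PH: Theorem 2 -/

/-- Theorem 2. -/
def PHStatement : Prop :=
  ∃ C : ℝ, 0 < C ∧ ∀ t : ℕ, 1 ≤ t → ∀ (D : ℕ) (s : ℤ),
    f t (D, s) ≤ C * Real.sqrt ((1 + (D : ℝ) ^ 2 + Real.log (2 + |(s : ℝ)|)) / t)

/-! ## Row CT (helper19): the counting -/

/-- In every interval of `2 ^ t` integers exactly `2 ^ t * f t p` numbers do not reach `(0, 0)`
within `t` steps, and a run that reaches `(0, 0)` gives a common iterate at the same time. -/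
def CTStatement : Prop :=
  (∀ (t : ℕ) (p : ℕ × ℤ) (a : ℤ),
    (({x : ℤ | a ≤ x ∧ x < a + 2 ^ t ∧ nm t p x}.ncard : ℕ) : ℝ) = 2 ^ t * f t p) ∧
  (∀ (t D : ℕ) (s x : ℤ), ¬ nm t (D, s) x → ∃ i ≤ t, T^[i] x = T^[i] (3 ^ D * x - s))

/-! ## Row T3 (helper19): Theorem 3 -/

/-- Theorem 3, (iv), with a free time `t`. -/
def T3Statement : Prop :=
  ∃ C : ℝ, 0 < C ∧ ∀ (t j : ℕ) (b : ℤ) (X : ℝ), 1 ≤ t → (2 : ℝ) ^ t ≤ X →
    (({n : ℤ | |(n : ℝ)| ≤ X ∧ ∀ i ≤ t, T^[i] n ≠ T^[i] (3 ^ j * n + b)}.ncard : ℕ) : ℝ) ≤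
      C * X * Real.sqrt ((1 + (j : ℝ) ^ 2 + Real.log (2 + |(b : ℝ)|)) / t)

/-- Theorem 3, (iv), with all times up to `log X / log 2` (the form of the hand-in). -/
def T3LogStatement : Prop :=
  ∃ C : ℝ, 0 < C ∧ ∀ (j : ℕ) (b : ℤ) (X : ℝ), 2 ≤ X →
    (({n : ℤ | |(n : ℝ)| ≤ X ∧ ∀ i : ℕ, (2 : ℝ) ^ i ≤ X →
        T^[i] n ≠ T^[i] (3 ^ j * n + b)}.ncard : ℕ) : ℝ) ≤
      C * X * Real.sqrt (((j : ℝ) ^ 2 + Real.log (2 + |(b : ℝ)|)) / Real.log X)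

/-! ## Row T4 (helper63): Theorem 4 -/

/-- Theorem 4, (v). -/
def T4Statement : Prop :=
  ∃ C : ℝ, 0 < C ∧ ∀ (y : ℝ) (S : Set ℤ), 1 ≤ y → InvAbove y S →
    ∀ (i j : ℕ) (b : ℤ) (X : ℝ), 2 ≤ X →
      (({n : ℤ | |(n : ℝ)| ≤ X ∧ ¬ (n ∈ S ↔ 2 ^ i * 3 ^ j * n + b ∈ S)}.ncard : ℕ) : ℝ) ≤
        C * (X * Real.sqrt ((((i : ℝ) + j) ^ 2 + Real.log (2 + |(b : ℝ)|)) / Real.log X) +
          y * Real.sqrt X + y)

end Pool.Agent.Lib.MP_edb5be_nt.CO
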