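import Pool.Agent.Lib.MP_edb5be_nt.CO.Rows

/-!
# Pairs of trajectories of the 3x+1 map: counting the integers whose pair does not merge

`count_gen`: among integers distinct modulo `2 ^ t` at most `2 ^ t * f t p` do not merge within `t`
steps (and at most `2 ^ t * (1 - f t p)` merge). `meet`: a pair that reaches the state `(0, 0)` has
met.
-/

set_option autoImplicit false

namespace Pool.Agent.Lib.MP_edb5be_nt.CO

open Classical in
/-- The elements of `I` with `P t p`. -/
noncomputable def sel (P : ℕ → ℕ × ℤ → ℤ → Prop) (t : ℕ) (p : ℕ × ℤ) (I : Finset ℤ) : Finset ℤ :=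
  I.filter (fun x => P t p x)

theorem mem_sel {P : ℕ → ℕ × ℤ → ℤ → Prop} {t : ℕ} {p : ℕ × ℤ} {I : Finset ℤ} {x : ℤ} :
    x ∈ sel P t p I ↔ x ∈ I ∧ P t p x := by
  classical
  simp [sel]

theorem nm_zero_state (t : ℕ) (x : ℤ) : ¬ nm t (0, 0) x := by
  cases t <;> simp [nm]

theorem nm_succ {t : ℕ} {p : ℕ × ℤ} {x : ℤ} :
    nm (t + 1) p x ↔ p ≠ (0, 0) ∧ nm t (st (decide (x % 2 ≠ 0)) p) (nx p x) := by
  simp [nm]

/-- The residue of `x` modulo `2 ^ t` is injective on `I`. -/
def InjMod (t : ℕ) (I : Finset ℤ) : Prop :=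
  ∀ x ∈ I, ∀ y ∈ I, (2 : ℤ) ^ t ∣ x - y → x = y

theorem InjMod.mono {t : ℕ} {I J : Finset ℤ} (h : InjMod t I) (hJ : J ⊆ I) : InjMod t J :=
  fun x hx y hy => h x (hJ hx) y (hJ hy)

theorem nx_even {p : ℕ × ℤ} {x : ℤ} (hx : x % 2 = 0) : nx p x = x / 2 := by
  simp [nx, hx]

theorem two_pow_dvd_even {t : ℕ} {x y : ℤ} (hx : x % 2 = 0) (hy : y % 2 = 0)
    (h : (2 : ℤ) ^ t ∣ x / 2 - y / 2) : (2 : ℤ) ^ (t + 1) ∣ x - y := by
  obtain ⟨k, hk⟩ := h
  refine ⟨k, ?_⟩
  have h1 : x = 2 * (x / 2) := by omega
  have h2 : y = 2 * (y / 2) := by omega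
  rw [h1, h2, pow_succ]
  linear_combination 2 * hk

theorem two_pow_dvd_odd {t : ℕ} {p : ℕ × ℤ} {x y : ℤ} (hx : x % 2 ≠ 0) (hy : y % 2 ≠ 0)
    (h : (2 : ℤ) ^ t ∣ nx p x - nx p y) : (2 : ℤ) ^ (t + 1) ∣ x - y := by
  unfold nx at h
  rw [if_neg hx, if_neg hy] at h
  split_ifs at h with hc
  · obtain ⟨k, hk⟩ := h
    refine ⟨k, ?_⟩
    have h1 : x - p.2 = 2 * ((x - p.2) / 2) := by omega
    have h2 : y - p.2 = 2 * ((y - p.2) / 2) := by omega
    have h3 : x - y = 2 * ((x - p.2) / 2 - (y - p.2) / 2) := by linear_combination h1 - h2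
    rw [h3, hk, pow_succ]
    ring
  · have h1 : 3 * x + 1 = 2 * ((3 * x + 1) / 2) := by omega
    have h2 : 3 * y + 1 = 2 * ((3 * y + 1) / 2) := by omega
    have h3 : 3 * (x - y) = 2 * ((3 * x + 1) / 2 - (3 * y + 1) / 2) := by
      linear_combination h1 - h2
    have h4 : (2 : ℤ) ^ (t + 1) ∣ 3 * (x - y) := by
      rw [h3, pow_succ, mul_comm ((2 : ℤ) ^ t) 2]
      exact mul_dvd_mul_left 2 h
    have hcop : IsCoprime ((2 : ℤ) ^ (t + 1)) 3 := by
      apply IsCoprime.pow_left
      exact ⟨-1, 1, by norm_num⟩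
    exact hcop.dvd_of_dvd_mul_left h4

theorem InjMod.card_le {t : ℕ} {I : Finset ℤ} (h : InjMod t I) : I.card ≤ 2 ^ t := by
  have h1 : I.card ≤ (Finset.Ico (0 : ℤ) (2 ^ t)).card := by
    apply Finset.card_le_card_of_injOn (fun x => x % 2 ^ t)
    · intro x _
      rw [Finset.mem_coe, Finset.mem_Ico]
      exact ⟨Int.emod_nonneg _ (by positivity), Int.emod_lt_of_pos _ (by positivity)⟩
    · intro x hx y hy hxy
      exact h x hx y hy (Int.ModEq.dvd (Int.ModEq.symm hxy))
  rw [Int.card_Ico, sub_zero] at h1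
  have h2 : ((2 : ℤ) ^ t).toNat = 2 ^ t := by
    have : ((2 : ℤ) ^ t) = ((2 ^ t : ℕ) : ℤ) := by push_cast; rfl
    rw [this, Int.toNat_natCast]
  rwa [h2] at h1

/-- Among the integers of a finite set that is injective modulo `2 ^ t`, at most `2 ^ t * F t p`
have the property `P t p`. -/
theorem count_gen (P : ℕ → ℕ × ℤ → ℤ → Prop) (F : ℕ → ℕ × ℤ → ℝ)
    (hF0 : ∀ t p, 0 ≤ F t p)
    (h0 : ∀ p x, P 0 p x → 1 ≤ F 0 p)
    (hz : ∀ t x, P t (0, 0) x → 1 ≤ F t (0, 0))
    (hs : ∀ t p x, p ≠ (0, 0) → P (t + 1) p x → P t (st (decide (x % 2 ≠ 0)) p) (nx p x))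
    (hF : ∀ t p, p ≠ (0, 0) → (F t (st false p) + F t (st true p)) / 2 ≤ F (t + 1) p)
    (t : ℕ) : ∀ (p : ℕ × ℤ) (I : Finset ℤ), InjMod t I →
    ((sel P t p I).card : ℝ) ≤ 2 ^ t * F t p := by
  classical
  have key : ∀ (t : ℕ) (p : ℕ × ℤ) (I : Finset ℤ), InjMod t I → (∀ x, P t p x → 1 ≤ F t p) →
      ((sel P t p I).card : ℝ) ≤ 2 ^ t * F t p := by
    intro t p I hI h
    by_cases hne : ∃ x, P t p x
    · obtain ⟨x, hx⟩ := hne
      have h1 := h x hx
      have h2 : (sel P t p I).card ≤ 2 ^ t :=
        le_trans (Finset.card_le_card (fun y hy => (mem_sel.mp hy).1)) hI.card_le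
      have h3 : ((sel P t p I).card : ℝ) ≤ 2 ^ t := by exact_mod_cast h2
      have h4 : (0 : ℝ) < 2 ^ t := by positivity
      nlinarith
    · have : sel P t p I = ∅ := by
        apply Finset.eq_empty_of_forall_notMem
        intro x hx
        exact hne ⟨x, (mem_sel.mp hx).2⟩
      rw [this]
      have := hF0 t p
      have h4 : (0 : ℝ) < 2 ^ t := by positivity
      simp only [Finset.card_empty, Nat.cast_zero]
      positivity
  induction t with
  | zero => exact fun p I hI => key 0 p I hI (h0 p)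
  | succ t ih =>
    intro p I hI
    by_cases hp : p = (0, 0)
    · rw [hp]
      exact key (t + 1) (0, 0) I hI (hz (t + 1))
    · set E : Finset ℤ := I.filter (fun x => x % 2 = 0) with hE
      set O : Finset ℤ := I.filter (fun x => ¬ x % 2 = 0) with hO
      have hEi : Set.InjOn (nx p) (E : Set ℤ) := by
        intro x hx y hy hxy
        rw [Finset.mem_coe, hE, Finset.mem_filter] at hx hy
        apply hI x hx.1 y hy.1
        apply two_pow_dvd_even hx.2 hy.2
        rw [nx_even hx.2, nx_even hy.2] at hxy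
        rw [hxy, sub_self]
        exact dvd_zero _
      have hOi : Set.InjOn (nx p) (O : Set ℤ) := by
        intro x hx y hy hxy
        rw [Finset.mem_coe, hO, Finset.mem_filter] at hx hy
        apply hI x hx.1 y hy.1
        apply two_pow_dvd_odd (p := p) hx.2 hy.2
        rw [hxy, sub_self]
        exact dvd_zero _
      have hE2 : InjMod t (E.image (nx p)) := by
        intro a ha b hb hab
        obtain ⟨x, hx, rfl⟩ := Finset.mem_image.mp ha
        obtain ⟨y, hy, rfl⟩ := Finset.mem_image.mp hb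
        rw [hE, Finset.mem_filter] at hx hy
        have := hI x hx.1 y hy.1 (two_pow_dvd_even hx.2 hy.2 (by
          rw [nx_even hx.2, nx_even hy.2] at hab
          exact hab))
        rw [this]
      have hO2 : InjMod t (O.image (nx p)) := by
        intro a ha b hb hab
        obtain ⟨x, hx, rfl⟩ := Finset.mem_image.mp ha
        obtain ⟨y, hy, rfl⟩ := Finset.mem_image.mp hb
        rw [hO, Finset.mem_filter] at hx hy
        have := hI x hx.1 y hy.1 (two_pow_dvd_odd hx.2 hy.2 hab)
        rw [this]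
      have h1 : (sel P (t + 1) p I).card ≤
          (sel P t (st false p) (E.image (nx p))).card +
            (sel P t (st true p) (O.image (nx p))).card := by
        have hsub : sel P (t + 1) p I ⊆
            (E.filter (fun x => P t (st false p) (nx p x))) ∪
              (O.filter (fun x => P t (st true p) (nx p x))) := by
          intro x hx
          obtain ⟨hxI, hx1⟩ := mem_sel.mp hx
          have hx2 := hs t p x hp hx1
          rw [Finset.mem_union]
          by_cases hx0 : x % 2 = 0
          · left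
            have hd : decide (x % 2 ≠ 0) = false := by simp [hx0]
            rw [hd] at hx2
            exact Finset.mem_filter.mpr ⟨Finset.mem_filter.mpr ⟨hxI, hx0⟩, hx2⟩
          · right
            have hd : decide (x % 2 ≠ 0) = true := by simp [hx0]
            rw [hd] at hx2
            exact Finset.mem_filter.mpr ⟨Finset.mem_filter.mpr ⟨hxI, hx0⟩, hx2⟩
        have hc1 : (E.filter (fun x => P t (st false p) (nx p x))).card ≤
            (sel P t (st false p) (E.image (nx p))).card := by
          apply Finset.card_le_card_of_injOn (nx p)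
          · intro x hx
            rw [Finset.mem_coe, Finset.mem_filter] at hx
            rw [Finset.mem_coe, mem_sel]
            exact ⟨Finset.mem_image_of_mem _ hx.1, hx.2⟩
          · exact hEi.mono (fun x hx => (Finset.mem_filter.mp hx).1)
        have hc2 : (O.filter (fun x => P t (st true p) (nx p x))).card ≤
            (sel P t (st true p) (O.image (nx p))).card := by
          apply Finset.card_le_card_of_injOn (nx p)
          · intro x hx
            rw [Finset.mem_coe, Finset.mem_filter] at hx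
            rw [Finset.mem_coe, mem_sel]
            exact ⟨Finset.mem_image_of_mem _ hx.1, hx.2⟩
          · exact hOi.mono (fun x hx => (Finset.mem_filter.mp hx).1)
        calc (sel P (t + 1) p I).card ≤ _ := Finset.card_le_card hsub
          _ ≤ _ := Finset.card_union_le _ _
          _ ≤ _ := add_le_add hc1 hc2
      have h1' : ((sel P (t + 1) p I).card : ℝ) ≤
          ((sel P t (st false p) (E.image (nx p))).card : ℝ) +
            ((sel P t (st true p) (O.image (nx p))).card : ℝ) := by exact_mod_cast h1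
      have h2 := ih (st false p) _ hE2
      have h3 := ih (st true p) _ hO2
      have h4 := hF t p hp
      have h5 : (0 : ℝ) < 2 ^ t := by positivity
      calc ((sel P (t + 1) p I).card : ℝ) ≤ 2 ^ t * F t (st false p) + 2 ^ t * F t (st true p) := by
            linarith
        _ = 2 ^ (t + 1) * ((F t (st false p) + F t (st true p)) / 2) := by
            rw [pow_succ]; ring
        _ ≤ 2 ^ (t + 1) * F (t + 1) p := by
            apply mul_le_mul_of_nonneg_left h4
            positivity

/-- Among the integers of a finite set that is injective modulo `2 ^ t`, at most `2 ^ t * f t p`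
do not merge within `t` steps. -/
theorem nm_count (t : ℕ) (p : ℕ × ℤ) (I : Finset ℤ) (hI : InjMod t I) :
    ((sel nm t p I).card : ℝ) ≤ 2 ^ t * f t p := by
  apply count_gen nm f f_nonneg
  · intro p x hx
    rw [f_zero hx]
  · intro t x hx
    exact absurd hx (nm_zero_state t x)
  · intro t p x _ hx
    exact hx.2
  · intro t p hp
    rw [f_succ hp]
  · exact hI

/-- Among the integers of a finite set that is injective modulo `2 ^ t`, at most
`2 ^ t * (1 - f t p)` merge within `t` steps. -/
theorem mg_count (t : ℕ) (p : ℕ × ℤ) (I : Finset ℤ) (hI : InjMod t I) :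
    ((sel (fun t p x => ¬ nm t p x) t p I).card : ℝ) ≤ 2 ^ t * (1 - f t p) := by
  apply count_gen (fun t p x => ¬ nm t p x) (fun t p => 1 - f t p)
  · intro t p
    have := f_le_one t p
    linarith
  · intro p x hx
    have h1 : p = (0, 0) := not_not.mp hx
    rw [h1, f_zero_state]
    simp
  · intro t x _
    rw [f_zero_state]
    simp
  · intro t p x hp hx
    rw [nm_succ, not_and_or, not_not] at hx
    rcases hx with hx | hx
    · exact absurd hx hp
    · exact hx
  · intro t p hp
    rw [f_succ hp]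
    linarith
  · exact hI

theorem injMod_Ico (t : ℕ) (a : ℤ) : InjMod t (Finset.Ico a (a + 2 ^ t)) := by
  intro x hx y hy hxy
  rw [Finset.mem_Ico] at hx hy
  have h1 : |x - y| < 2 ^ t := by
    rw [abs_lt]
    constructor <;> linarith [hx.1, hx.2, hy.1, hy.2]
  have h2 := Int.eq_zero_of_abs_lt_dvd hxy h1
  linarith

/-- The exact number of the integers of an interval of length `2 ^ t` that do not merge within `t`
steps. -/
theorem count_Ico (t : ℕ) (p : ℕ × ℤ) (a : ℤ) :
    ((sel nm t p (Finset.Ico a (a + 2 ^ t))).card : ℝ) = 2 ^ t * f t p := by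
  classical
  have h1 := nm_count t p _ (injMod_Ico t a)
  have h2 := mg_count t p _ (injMod_Ico t a)
  have h3 : (sel nm t p (Finset.Ico a (a + 2 ^ t))).card +
      (sel (fun t p x => ¬ nm t p x) t p (Finset.Ico a (a + 2 ^ t))).card = 2 ^ t := by
    have h4 : ((2 : ℤ) ^ t).toNat = 2 ^ t := by
      have : ((2 : ℤ) ^ t) = ((2 ^ t : ℕ) : ℤ) := by push_cast; rfl
      rw [this, Int.toNat_natCast]
    have h5 : (Finset.Ico a (a + 2 ^ t)).card = 2 ^ t := by
      rw [Int.card_Ico, add_sub_cancel_left, h4]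
    rw [← h5]
    unfold sel
    have h6 := Finset.card_filter_add_card_filter_not (s := Finset.Ico a (a + 2 ^ t))
      (fun x => nm t p x)
    convert h6
  have h3' : ((sel nm t p (Finset.Ico a (a + 2 ^ t))).card : ℝ) +
      ((sel (fun t p x => ¬ nm t p x) t p (Finset.Ico a (a + 2 ^ t))).card : ℝ) = 2 ^ t := by
    exact_mod_cast h3
  nlinarith

/-- The pair after one step of the state, up to the order of its two numbers. -/
theorem pair_step (D : ℕ) (s x : ℤ) :
    (nx (D, s) x = T x ∧
      3 ^ (st (decide (x % 2 ≠ 0)) (D, s)).1 * nx (D, s) x - (st (decide (x % 2 ≠ 0)) (D, s)).2 =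
        T (3 ^ D * x - s)) ∨
    (nx (D, s) x = T (3 ^ D * x - s) ∧
      3 ^ (st (decide (x % 2 ≠ 0)) (D, s)).1 * nx (D, s) x - (st (decide (x % 2 ≠ 0)) (D, s)).2 =
        T x) := by
  have h3 : (3 : ℤ) ^ D % 2 = 1 := by
    have : Odd ((3 : ℤ) ^ D) := Odd.pow (by decide)
    exact Int.odd_iff.mp this
  obtain ⟨m, hm⟩ : ∃ m : ℤ, (3 : ℤ) ^ D = 2 * m + 1 := ⟨(3 : ℤ) ^ D / 2, by omega⟩
  rcases Int.even_or_odd' x with ⟨a, rfl | rfl⟩ <;> rcases Int.even_or_odd' s with ⟨c, rfl | rfl⟩
  · -- x even, s even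
    left
    have e1 : decide ((2 * a) % 2 ≠ 0) = false := by simp
    have e2 : st false (D, 2 * c) = (D, c) := by simp [st]
    have e3 : nx (D, 2 * c) (2 * a) = a := by simp [nx]
    have e4 : T (2 * a) = a := by simp [T]
    have e5 : T (3 ^ D * (2 * a) - 2 * c) = 3 ^ D * a - c := by
      have : (3 : ℤ) ^ D * (2 * a) - 2 * c = 2 * (3 ^ D * a - c) := by ring
      rw [this]
      simp [T]
    rw [e1, e2, e3, e4, e5]
    exact ⟨rfl, rfl⟩
  · -- x even, s odd
    left
    have e1 : decide ((2 * a) % 2 ≠ 0) = false := by simp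
    have e2 : st false (D, 2 * c + 1) = (D + 1, 3 * c + 1) := by
      unfold st
      rw [if_neg (by show ¬ (2 * c + 1) % 2 = 0; omega)]
      simp only [Bool.false_eq_true, if_false]
      congr 1
      omega
    have e3 : nx (D, 2 * c + 1) (2 * a) = a := by simp [nx]
    have e4 : T (2 * a) = a := by simp [T]
    have e5 : T (3 ^ D * (2 * a) - (2 * c + 1)) = 3 ^ (D + 1) * a - (3 * c + 1) := by
      have : (3 : ℤ) ^ D * (2 * a) - (2 * c + 1) = 2 * (3 ^ D * a - c) - 1 := by ring
      rw [this]
      unfold T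
      rw [if_neg (by omega)]
      have h : (3 * (2 * ((3 : ℤ) ^ D * a - c) - 1) + 1) / 2 = 3 * ((3 : ℤ) ^ D * a - c) - 1 := by
        omega
      rw [h, pow_succ]
      ring
    rw [e1, e2, e3, e4, e5]
    exact ⟨rfl, rfl⟩
  · -- x odd, s even
    left
    have e1 : decide ((2 * a + 1) % 2 ≠ 0) = true := by
      rw [decide_eq_true_iff]
      omega
    have e2 : st true (D, 2 * c) = (D, 3 * c + m) := by
      unfold st
      rw [if_pos (by show (2 * c) % 2 = 0; omega)]
      simp only [if_true]
      congr 1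
      rw [hm]
      omega
    have e3 : nx (D, 2 * c) (2 * a + 1) = 3 * a + 2 := by
      unfold nx
      rw [if_neg (by omega), if_neg (by rintro ⟨h, -⟩; apply h; show (2 * c) % 2 = 0; omega)]
      omega
    have e4 : T (2 * a + 1) = 3 * a + 2 := by
      unfold T
      rw [if_neg (by omega)]
      omega
    have e5 : T (3 ^ D * (2 * a + 1) - 2 * c) = 3 ^ D * (3 * a + 2) - (3 * c + m) := by
      have h1 : (3 : ℤ) ^ D * (2 * a + 1) - 2 * c = 2 * (3 ^ D * a + m - c) + 1 := by
        linear_combination hm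
      have h2 : (3 : ℤ) ^ D * (3 * a + 2) - (3 * c + m) = 3 * (3 ^ D * a + m - c) + 2 := by
        linear_combination 2 * hm
      rw [h1, h2]
      unfold T
      rw [if_neg (by omega)]
      omega
    rw [e1, e2, e3, e4, e5]
    exact ⟨rfl, rfl⟩
  · -- x odd, s odd
    have e1 : decide ((2 * a + 1) % 2 ≠ 0) = true := by
      rw [decide_eq_true_iff]
      omega
    rcases D with _ | D
    · right
      have e2 : st true (0, 2 * c + 1) = (1, -(3 * c + 2)) := by
        unfold st
        rw [if_neg (by show ¬ (2 * c + 1) % 2 = 0; omega)]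
        simp only [if_true]
        congr 2
        omega
      have e3 : nx (0, 2 * c + 1) (2 * a + 1) = a - c := by
        unfold nx
        rw [if_neg (by omega), if_pos ⟨by show (2 * c + 1) % 2 ≠ 0; omega, rfl⟩]
        show (2 * a + 1 - (2 * c + 1)) / 2 = a - c
        omega
      have e4 : T (2 * a + 1) = 3 * a + 2 := by
        unfold T
        rw [if_neg (by omega)]
        omega
      have e5 : T (3 ^ 0 * (2 * a + 1) - (2 * c + 1)) = a - c := by
        have : (3 : ℤ) ^ 0 * (2 * a + 1) - (2 * c + 1) = 2 * (a - c) := by ring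
        rw [this]
        simp [T]
      rw [e1, e2, e3, e4, e5]
      refine ⟨rfl, ?_⟩
      show (3 : ℤ) ^ 1 * (a - c) - -(3 * c + 2) = 3 * a + 2
      ring
    · left
      have h3' : (3 : ℤ) ^ D % 2 = 1 := by
        have : Odd ((3 : ℤ) ^ D) := Odd.pow (by decide)
        exact Int.odd_iff.mp this
      obtain ⟨l, hl⟩ : ∃ l : ℤ, (3 : ℤ) ^ D = 2 * l + 1 := ⟨(3 : ℤ) ^ D / 2, by omega⟩
      have e2 : st true (D + 1, 2 * c + 1) = (D, c + l + 1) := by
        unfold st
        rw [if_neg (by show ¬ (2 * c + 1) % 2 = 0; omega)]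
        simp only [if_true, Nat.add_eq_zero_iff, one_ne_zero, and_false, if_false,
          Nat.add_sub_cancel]
        congr 1
        rw [hl]
        omega
      have e3 : nx (D + 1, 2 * c + 1) (2 * a + 1) = 3 * a + 2 := by
        unfold nx
        rw [if_neg (by omega), if_neg (by rintro ⟨-, h⟩; exact absurd h (Nat.succ_ne_zero D))]
        omega
      have e4 : T (2 * a + 1) = 3 * a + 2 := by
        unfold T
        rw [if_neg (by omega)]
        omega
      have e5 : T (3 ^ (D + 1) * (2 * a + 1) - (2 * c + 1)) =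
          3 ^ D * (3 * a + 2) - (c + l + 1) := by
        have h1 : (3 : ℤ) ^ (D + 1) * (2 * a + 1) - (2 * c + 1) =
            2 * (3 ^ D * (3 * a + 2) - (c + l + 1)) := by
          rw [pow_succ]
          linear_combination (-1 : ℤ) * hl
        rw [h1]
        simp [T]
      rw [e1, e2, e3, e4, e5]
      exact ⟨rfl, rfl⟩

/-- A pair whose run reaches the state `(0, 0)` within `t` steps has met within `t` steps. -/
theorem meet (t : ℕ) : ∀ (D : ℕ) (s x : ℤ), ¬ nm t (D, s) x →
    ∃ i ≤ t, T^[i] x = T^[i] (3 ^ D * x - s) := by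
  induction t with
  | zero =>
    intro D s x h
    have h1 : (D, s) = (0, 0) := not_not.mp h
    obtain ⟨rfl, rfl⟩ := Prod.mk.inj h1
    exact ⟨0, le_refl _, by simp⟩
  | succ t ih =>
    intro D s x h
    rw [nm_succ, not_and_or, not_not] at h
    rcases h with h | h
    · obtain ⟨rfl, rfl⟩ := Prod.mk.inj h
      exact ⟨0, Nat.zero_le _, by simp⟩
    · obtain ⟨i, hi, hi2⟩ := ih (st (decide (x % 2 ≠ 0)) (D, s)).1
        (st (decide (x % 2 ≠ 0)) (D, s)).2 (nx (D, s) x) h
      refine ⟨i + 1, Nat.succ_le_succ hi, ?_⟩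
      rw [Function.iterate_succ_apply, Function.iterate_succ_apply]
      rcases pair_step D s x with ⟨h1, h2⟩ | ⟨h1, h2⟩
      · rw [h2, h1] at hi2
        exact hi2
      · rw [h2, h1] at hi2
        exact hi2.symm

/-- Row CT. -/
theorem ct : CTStatement := by
  classical
  refine ⟨fun t p a => ?_, fun t D s x h => meet t D s x h⟩
  have h1 : {x : ℤ | a ≤ x ∧ x < a + 2 ^ t ∧ nm t p x} =
      ((sel nm t p (Finset.Ico a (a + 2 ^ t)) : Finset ℤ) : Set ℤ) := by
    ext x
    rw [Set.mem_ofPred_eq, Finset.mem_coe, mem_sel, Finset.mem_Ico, and_assoc]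
  rw [h1, Set.ncard_coe_finset]
  exact count_Ico t p a

end Pool.Agent.Lib.MP_edb5be_nt.CO
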