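import Pool.Agent.Lib.MP_edb5be_nt.CO.Mod

/-!
# Row COR: all correlations of an invariant set, in every residue class
-/

set_option autoImplicit false

namespace Pool.Agent.Lib.MP_edb5be_nt.CO

open Filter Topology

/-- The exceptional sets of the affine maps have density `0`. -/
theorem aff_zero (h5 : FiveStatement) {e : ℤ} (he : e = 1 ∨ e = -1) {y : ℝ} {S : Set ℤ}
    (hy : 1 ≤ y) (hS : InvAbove y S) (i j : ℕ) (b : ℤ) :
    Tendsto (fun X : ℝ => count e {n : ℤ | ¬ (n ∈ S ↔ 2 ^ i * 3 ^ j * n + b ∈ S)} X / X) atTop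
      (𝓝 0) := by
  obtain ⟨C, hC, h⟩ := h5
  have hlim : Tendsto (fun X : ℝ => C * (Real.sqrt ((((i : ℝ) + j) ^ 2 +
      Real.log (2 + |(b : ℝ)|)) / Real.log X) + y / Real.sqrt X)) atTop (𝓝 0) := by
    have h1 : Tendsto (fun X : ℝ => Real.sqrt ((((i : ℝ) + j) ^ 2 +
        Real.log (2 + |(b : ℝ)|)) / Real.log X)) atTop (𝓝 0) := by
      have := (Real.continuous_sqrt.tendsto 0).comp
        (tendsto_const_nhds (x := (((i : ℝ) + j) ^ 2 + Real.log (2 + |(b : ℝ)|))) |>.div_atTop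
          Real.tendsto_log_atTop)
      rw [Real.sqrt_zero] at this
      exact this
    have h2 : Tendsto (fun X : ℝ => y / Real.sqrt X) atTop (𝓝 0) :=
      tendsto_const_nhds.div_atTop Real.tendsto_sqrt_atTop
    have h3 := (h1.add h2).const_mul C
    simpa using h3
  refine squeeze_zero' ?_ ?_ hlim
  · filter_upwards [eventually_ge_atTop (2 : ℝ)] with X hX
    exact div_nonneg (count_nonneg _ _ _) (by linarith)
  · filter_upwards [eventually_ge_atTop (2 : ℝ)] with X hX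
    have h1 := h e he y S hy hS i j b X hX
    have hX0 : 0 < X := by linarith
    rw [div_le_iff₀ hX0]
    refine h1.trans (le_of_eq ?_)
    have hs : Real.sqrt X * Real.sqrt X = X := Real.mul_self_sqrt hX0.le
    have hs0 : Real.sqrt X ≠ 0 := (Real.sqrt_pos.2 hX0).ne'
    field_simp
    nlinarith [hs]

theorem count_le_add_sum {e : ℤ} (he : e = 1 ∨ e = -1) {ι : Type*} (F : Finset ι) (P Q : Set ℤ)
    (E : ι → Set ℤ) (h : ∀ n, n ∈ P → n ∉ Q → ∃ p ∈ F, n ∈ E p) (X : ℝ) :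
    count e P X ≤ count e Q X + ∑ p ∈ F, count e (E p) X := by
  classical
  have hfin := finite_count e he X
  have hsub : {x : ℤ | x ∈ P ∧ 0 < e * x ∧ ((e * x : ℤ) : ℝ) ≤ X} ⊆
      {x : ℤ | x ∈ Q ∧ 0 < e * x ∧ ((e * x : ℤ) : ℝ) ≤ X} ∪
      ⋃ p ∈ F, {x : ℤ | x ∈ E p ∧ 0 < e * x ∧ ((e * x : ℤ) : ℝ) ≤ X} := by
    rintro x ⟨hx, h2⟩
    by_cases hQ : x ∈ Q
    · exact Or.inl ⟨hQ, h2⟩
    · obtain ⟨p, hp, hxp⟩ := h x hx hQ
      refine Or.inr ?_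
      simp only [Set.mem_iUnion]
      exact ⟨p, hp, hxp, h2⟩
  have hf1 : ∀ R : Set ℤ, {x : ℤ | x ∈ R ∧ 0 < e * x ∧ ((e * x : ℤ) : ℝ) ≤ X}.Finite :=
    fun R => hfin.subset fun x hx => hx.2
  have hf2 : (⋃ p ∈ F, {x : ℤ | x ∈ E p ∧ 0 < e * x ∧ ((e * x : ℤ) : ℝ) ≤ X}).Finite :=
    Set.Finite.biUnion (Finset.finite_toSet F) fun p _ => hf1 (E p)
  have h1 := Set.ncard_le_ncard hsub ((hf1 Q).union hf2)
  have h2 := h1.trans (Set.ncard_union_le _ _)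
  have h3 : (⋃ p ∈ F, {x : ℤ | x ∈ E p ∧ 0 < e * x ∧ ((e * x : ℤ) : ℝ) ≤ X}).ncard ≤
      ∑ p ∈ F, {x : ℤ | x ∈ E p ∧ 0 < e * x ∧ ((e * x : ℤ) : ℝ) ≤ X}.ncard := by
    clear h1 h2 hf2 hsub h
    induction F using Finset.induction_on with
    | empty => simp
    | insert a F ha ih =>
      rw [Finset.sum_insert ha, Finset.set_biUnion_insert]
      exact (Set.ncard_union_le _ _).trans (Nat.add_le_add_left ih _)
  unfold count
  have h4 := h2.trans (Nat.add_le_add_left h3 _)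
  exact_mod_cast h4

/-- Row COR with a side condition `n ∈ A`. -/
theorem cor_gen (h5 : FiveStatement) {e : ℤ} (he : e = 1 ∨ e = -1) {y : ℝ} {S : Set ℤ}
    (hy : 1 ≤ y) (hS : InvAbove y S) {A : Set ℤ} {d : ℝ}
    (hd : HasDensity e {n : ℤ | n ∈ S ∧ n ∈ A} d) (F : Finset (ℕ × ℕ × ℤ)) (hF : F.Nonempty) :
    HasDensity e {n : ℤ | n ∈ A ∧ ∀ p ∈ F, 2 ^ p.1 * 3 ^ p.2.1 * n + p.2.2 ∈ S} d := by
  unfold HasDensity at hd ⊢
  set P : Set ℤ := {n : ℤ | n ∈ S ∧ n ∈ A} with hP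
  set Q : Set ℤ := {n : ℤ | n ∈ A ∧ ∀ p ∈ F, 2 ^ p.1 * 3 ^ p.2.1 * n + p.2.2 ∈ S} with hQ
  set E : ℕ × ℕ × ℤ → Set ℤ :=
    fun p => {n : ℤ | ¬ (n ∈ S ↔ 2 ^ p.1 * 3 ^ p.2.1 * n + p.2.2 ∈ S)} with hE
  have hPQ : ∀ n, n ∈ P → n ∉ Q → ∃ p ∈ F, n ∈ E p := by
    rintro n ⟨h1, h2⟩ h3
    simp only [hQ, Set.mem_ofPred_eq, not_and, not_forall] at h3
    obtain ⟨p, hp, hpS⟩ := h3 h2
    exact ⟨p, hp, fun h => hpS (h.1 h1)⟩
  have hQP : ∀ n, n ∈ Q → n ∉ P → ∃ p ∈ F, n ∈ E p := by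
    rintro n ⟨h1, h2⟩ h3
    obtain ⟨p, hp⟩ := hF
    exact ⟨p, hp, fun h => h3 ⟨h.2 (h2 p hp), h1⟩⟩
  have hlim : Tendsto (fun X : ℝ => ∑ p ∈ F, count e (E p) X / X) atTop (𝓝 0) := by
    have : Tendsto (fun X : ℝ => ∑ p ∈ F, count e (E p) X / X) atTop (𝓝 (∑ p ∈ F, (0 : ℝ))) :=
      tendsto_finsetSum _ fun p _ => aff_zero h5 he hy hS p.1 p.2.1 p.2.2
    simpa using this
  have hdiff : Tendsto (fun X : ℝ => count e Q X / X - count e P X / X) atTop (𝓝 0) := by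
    refine squeeze_zero_norm' ?_ hlim
    filter_upwards [eventually_gt_atTop (0 : ℝ)] with X hX
    rw [Real.norm_eq_abs, ← sub_div, abs_div, abs_of_pos hX, ← Finset.sum_div]
    refine div_le_div_of_nonneg_right ?_ hX.le
    have h1 := count_le_add_sum he F P Q E hPQ X
    have h2 := count_le_add_sum he F Q P E hQP X
    rw [abs_le]
    constructor <;> linarith
  have h4 := hdiff.add hd
  rw [zero_add] at h4
  exact h4.congr fun X => by ring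

theorem cor (h5 : FiveStatement) : CorStatement := by
  intro e he y S D hy hS hD F hF
  have h : HasDensity e {n : ℤ | n ∈ S ∧ n ∈ (Set.univ : Set ℤ)} D := by
    simpa using hD
  have := cor_gen h5 he hy hS h F hF
  simpa using this

/-- All correlations in all residue classes. -/
theorem cor_mod (h5 : FiveStatement) {e : ℤ} (he : e = 1 ∨ e = -1) {y : ℝ} {S : Set ℤ} {D : ℝ}
    (hy : 1 ≤ y) (hS : InvAbove y S) (hD : HasDensity e S D) (m : ℕ) (a : ℤ) (hm : 1 ≤ m)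
    (F : Finset (ℕ × ℕ × ℤ)) (hF : F.Nonempty) :
    HasDensity e {n : ℤ | n ≡ a [ZMOD m] ∧ ∀ p ∈ F, 2 ^ p.1 * 3 ^ p.2.1 * n + p.2.2 ∈ S}
      (D / m) :=
  cor_gen h5 he hy hS (A := {n : ℤ | n ≡ a [ZMOD m]}) (mod h5 e he y S D hy hS hD m a hm) F hF

end Pool.Agent.Lib.MP_edb5be_nt.CO
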