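import Pool.Agent.Lib.MP_edb5be_nt.CO.Rows

/-!
# Theorem 4: almost invariance under affine maps of the sets that are invariant under the 3x+1 map
-/

set_option autoImplicit false

namespace Pool.Agent.Lib.MP_edb5be_nt.CO

/-- Theorem 4 for functions instead of sets. -/
def T4FStatement : Prop :=
  ∃ C : ℝ, 0 < C ∧ ∀ (α : Type) (y : ℝ) (F : ℤ → α), 1 ≤ y →
    (∀ x : ℤ, y ≤ |(x : ℝ)| → F x = F (T x)) →
    ∀ (i j : ℕ) (b : ℤ) (X : ℝ), 2 ≤ X →
      (({n : ℤ | |(n : ℝ)| ≤ X ∧ F n ≠ F (2 ^ i * 3 ^ j * n + b)}.ncard : ℕ) : ℝ) ≤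
        C * (X * Real.sqrt ((((i : ℝ) + j) ^ 2 + Real.log (2 + |(b : ℝ)|)) / Real.log X) +
          y * Real.sqrt X + y)

theorem T_two_mul_add (u b : ℤ) (hb : b % 2 = 0) : T (2 * u + b) = u + T b := by
  have h : (2 * u + b) % 2 = 0 := by omega
  rw [T, T, if_pos h, if_pos hb]; omega

theorem T_two_mul_add' (u b : ℤ) (hb : b % 2 ≠ 0) : T (2 * u + b) = 3 * u + T b := by
  have h : ¬ (2 * u + b) % 2 = 0 := by omega
  rw [T, T, if_neg h, if_neg hb]; omega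

/-- iterates of `T` on a residue class modulo `2 ^ i` -/
theorem iter_pow (i : ℕ) : ∀ b : ℤ, ∃ k ≤ i, ∀ m : ℤ,
    T^[i] (2 ^ i * m + b) = 3 ^ k * m + T^[i] b := by
  induction i with
  | zero => intro b; exact ⟨0, le_rfl, fun m => by simp⟩
  | succ i ih =>
    intro b
    obtain ⟨k, hk, h⟩ := ih (T b)
    by_cases hb : b % 2 = 0
    · refine ⟨k, by omega, fun m => ?_⟩
      rw [Function.iterate_succ_apply, Function.iterate_succ_apply,
        show (2 : ℤ) ^ (i + 1) * m + b = 2 * (2 ^ i * m) + b by ring, T_two_mul_add _ _ hb, h]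
    · refine ⟨k + 1, by omega, fun m => ?_⟩
      rw [Function.iterate_succ_apply, Function.iterate_succ_apply,
        show (2 : ℤ) ^ (i + 1) * m + b = 2 * (2 ^ i * m) + b by ring, T_two_mul_add' _ _ hb,
        show (3 : ℤ) * (2 ^ i * m) + T b = 2 ^ i * (3 * m) + T b by ring, h]
      ring

theorem abs_T_ge (x : ℤ) : |x| ≤ 2 * |T x| := by
  rw [T]
  split_ifs with h
  · rcases abs_cases x with ⟨h1, _⟩ | ⟨h1, _⟩ <;> rcases abs_cases (x / 2) with ⟨h2, _⟩ | ⟨h2, _⟩ <;>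
      omega
  · rcases abs_cases x with ⟨h1, _⟩ | ⟨h1, _⟩ <;>
      rcases abs_cases ((3 * x + 1) / 2) with ⟨h2, _⟩ | ⟨h2, _⟩ <;> omega

theorem abs_T_le (x : ℤ) : |T x| + 1 ≤ 2 * (|x| + 1) := by
  rw [T]
  split_ifs with h
  · rcases abs_cases x with ⟨h1, _⟩ | ⟨h1, _⟩ <;> rcases abs_cases (x / 2) with ⟨h2, _⟩ | ⟨h2, _⟩ <;>
      omega
  · rcases abs_cases x with ⟨h1, _⟩ | ⟨h1, _⟩ <;>
      rcases abs_cases ((3 * x + 1) / 2) with ⟨h2, _⟩ | ⟨h2, _⟩ <;> omega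

theorem abs_iter_le (i : ℕ) : ∀ x : ℤ, |T^[i] x| + 1 ≤ 2 ^ i * (|x| + 1) := by
  induction i with
  | zero => intro x; simp
  | succ i ih =>
    intro x
    rw [Function.iterate_succ_apply]
    have h1 := ih (T x)
    have h2 := abs_T_le x
    have h3 : (0 : ℤ) < 2 ^ i := by positivity
    calc |T^[i] (T x)| + 1 ≤ 2 ^ i * (|T x| + 1) := h1
      _ ≤ 2 ^ i * (2 * (|x| + 1)) := by nlinarith
      _ = 2 ^ (i + 1) * (|x| + 1) := by ring

theorem abs_T_geR (x : ℤ) : |(x : ℝ)| ≤ 2 * |((T x : ℤ) : ℝ)| := by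
  have h := abs_T_ge x
  exact_mod_cast h

/-- far from the origin `F` does not change for `i` steps -/
theorem fun_iter {α : Type} {y : ℝ} {F : ℤ → α} (hy : 0 ≤ y)
    (hS : ∀ x : ℤ, y ≤ |(x : ℝ)| → F x = F (T x)) (i : ℕ) :
    ∀ x : ℤ, 2 ^ i * y ≤ |(x : ℝ)| → F x = F (T^[i] x) := by
  induction i with
  | zero => intro x _; simp
  | succ i ih =>
    intro x hx
    rw [Function.iterate_succ_apply]
    have h1 : (1 : ℝ) ≤ 2 ^ i := one_le_pow₀ (by norm_num)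
    have h2 : y ≤ |(x : ℝ)| := by
      refine le_trans ?_ hx
      rw [pow_succ]
      nlinarith
    have h3 := abs_T_geR x
    have h4 : 2 ^ i * y ≤ |((T x : ℤ) : ℝ)| := by
      rw [pow_succ] at hx
      linarith
    exact (hS x h2).trans (ih (T x) h4)

/-- far from the origin the membership in `S` does not change for `i` steps -/
theorem mem_iter {y : ℝ} {S : Set ℤ} (hy : 0 ≤ y) (hS : InvAbove y S) (i : ℕ) (x : ℤ)
    (hx : 2 ^ i * y ≤ |(x : ℝ)|) : x ∈ S ↔ T^[i] x ∈ S :=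
  iff_of_eq (fun_iter (F := fun x => x ∈ S) hy (fun x hx => propext (hS x hx)) i x hx)

theorem near_finite (α r : ℝ) : {n : ℤ | |(n : ℝ) + α| ≤ r}.Finite := by
  refine (Set.finite_Icc ⌈-α - r⌉ ⌊-α + r⌋).subset ?_
  intro n hn
  rw [Set.mem_ofPred_eq, abs_le] at hn
  refine ⟨Int.ceil_le.2 (by linarith), Int.le_floor.2 (by linarith)⟩

/-- the number of integers in an interval of length `2 r` -/
theorem near_ncard (α r : ℝ) (hr : 0 ≤ r) :
    (({n : ℤ | |(n : ℝ) + α| ≤ r}.ncard : ℕ) : ℝ) ≤ 2 * r + 1 := by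
  have h1 : {n : ℤ | |(n : ℝ) + α| ≤ r} ⊆ ((Finset.Icc ⌈-α - r⌉ ⌊-α + r⌋ : Finset ℤ) : Set ℤ) := by
    intro n hn
    rw [Set.mem_ofPred_eq, abs_le] at hn
    rw [Finset.coe_Icc]
    refine ⟨Int.ceil_le.2 (by linarith), Int.le_floor.2 (by linarith)⟩
  have h2 := Set.ncard_le_ncard h1 (Finset.finite_toSet _)
  rw [Set.ncard_coe_finset, Int.card_Icc] at h2
  have h3 : ((⌊-α + r⌋ + 1 - ⌈-α - r⌉).toNat : ℝ) ≤ 2 * r + 1 := by
    have h4 : (((⌊-α + r⌋ + 1 - ⌈-α - r⌉).toNat : ℤ) : ℝ)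
        = max ((⌊-α + r⌋ + 1 - ⌈-α - r⌉ : ℤ) : ℝ) 0 := by
      rw [Int.toNat_eq_max]
      push_cast
      rfl
    rw [Int.cast_natCast] at h4
    rw [h4]
    refine max_le ?_ (by linarith)
    push_cast
    have h5 := Int.floor_le (-α + r)
    have h6 := Int.le_ceil (-α - r)
    linarith
  calc (({n : ℤ | |(n : ℝ) + α| ≤ r}.ncard : ℕ) : ℝ)
      ≤ ((⌊-α + r⌋ + 1 - ⌈-α - r⌉).toNat : ℝ) := by exact_mod_cast h2
    _ ≤ 2 * r + 1 := h3

/-- the number of the `n` with `|c n + b| < c' r`, `c' ≤ c` -/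
theorem lin_ncard (c : ℝ) (b c' r : ℝ) (hc' : 0 < c') (hc : c' ≤ c) (hr : 0 ≤ r) :
    {n : ℤ | |c * n + b| < c' * r}.Finite ∧
      (({n : ℤ | |c * n + b| < c' * r}.ncard : ℕ) : ℝ) ≤ 2 * r + 1 := by
  have hc0 : 0 < c := lt_of_lt_of_le hc' hc
  have hsub : {n : ℤ | |c * n + b| < c' * r} ⊆ {n : ℤ | |(n : ℝ) + b / c| ≤ r} := by
    intro n hn
    rw [Set.mem_ofPred_eq] at hn ⊢
    have h1 : c * n + b = c * ((n : ℝ) + b / c) := by field_simp
    rw [h1, abs_mul, abs_of_pos hc0] at hn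
    by_contra h2
    rw [not_le] at h2
    have h3 : c' * r ≤ c * r := mul_le_mul_of_nonneg_right hc hr
    have h4 : c * r < c * |(n : ℝ) + b / c| := mul_lt_mul_of_pos_left h2 hc0
    linarith
  refine ⟨(near_finite _ _).subset hsub, ?_⟩
  have h1 := Set.ncard_le_ncard hsub (near_finite _ _)
  have h2 := near_ncard (b / c) r hr
  have h3 : (({n : ℤ | |c * n + b| < c' * r}.ncard : ℕ) : ℝ)
      ≤ (({n : ℤ | |(n : ℝ) + b / c| ≤ r}.ncard : ℕ) : ℝ) := by exact_mod_cast h1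
  linarith

theorem ball_finite (X : ℝ) : {n : ℤ | |(n : ℝ)| ≤ X}.Finite := by
  have h := near_finite 0 X
  simpa using h

theorem ball_ncard (X : ℝ) (hX : 0 ≤ X) :
    (({n : ℤ | |(n : ℝ)| ≤ X}.ncard : ℕ) : ℝ) ≤ 2 * X + 1 := by
  have h := near_ncard 0 X hX
  simpa using h

theorem half_le_log_two : (1 / 2 : ℝ) ≤ Real.log 2 := by
  have := Real.log_two_gt_d9; linarith

theorem log_two_le_log (b : ℤ) : Real.log 2 ≤ Real.log (2 + |(b : ℝ)|) := by
  apply Real.log_le_log (by norm_num)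
  have := abs_nonneg (b : ℝ)
  linarith

/-- the case `i = 0` -/
theorem t4_zero (hT3 : T3Statement) :
    ∃ C : ℝ, 0 < C ∧ ∀ (α : Type) (y : ℝ) (F : ℤ → α), 1 ≤ y →
    (∀ x : ℤ, y ≤ |(x : ℝ)| → F x = F (T x)) →
    ∀ (j : ℕ) (b : ℤ) (X : ℝ), 2 ≤ X →
      (({n : ℤ | |(n : ℝ)| ≤ X ∧ F n ≠ F (3 ^ j * n + b)}.ncard : ℕ) : ℝ) ≤
        C * (X * Real.sqrt (((j : ℝ) ^ 2 + Real.log (2 + |(b : ℝ)|)) / Real.log X) +
          y * Real.sqrt X) := by
  obtain ⟨C1, hC1, h2⟩ := hT3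
  refine ⟨4 * C1 + 6, by positivity, ?_⟩
  intro α y F hy hS j b X hX
  set L : ℝ := (j : ℝ) ^ 2 + Real.log (2 + |(b : ℝ)|) with hL
  have hlog2 := half_le_log_two
  have hLb := log_two_le_log b
  have hL2 : Real.log 2 ≤ L := by rw [hL]; nlinarith [sq_nonneg (j : ℝ)]
  have hL0 : 1 / 2 ≤ L := by linarith
  have hlogX : 0 < Real.log X := Real.log_pos (by linarith)
  have hsX : 1 ≤ Real.sqrt X := by
    rw [show (1 : ℝ) = Real.sqrt 1 by simp]
    exact Real.sqrt_le_sqrt (by linarith)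
  have hyX : 1 ≤ y * Real.sqrt X := by nlinarith
  have hq0 : 0 ≤ Real.sqrt (L / Real.log X) := Real.sqrt_nonneg _
  have hXq : 0 ≤ X * Real.sqrt (L / Real.log X) := by positivity
  rcases lt_or_ge X 4 with hX4 | hX4
  · -- small `X`
    have h3 : (1 / 2 : ℝ) ≤ Real.sqrt (L / Real.log X) := by
      apply Real.le_sqrt_of_sq_le
      rw [le_div_iff₀ hlogX]
      have h4 : Real.log X ≤ Real.log 4 := Real.log_le_log (by linarith) hX4.le
      have h5 : Real.log 4 = 2 * Real.log 2 := by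
        rw [show (4 : ℝ) = 2 ^ 2 by norm_num, Real.log_pow]; norm_num
      nlinarith
    have h4 := ball_ncard X (by linarith)
    have h5 : {n : ℤ | |(n : ℝ)| ≤ X ∧ F n ≠ F (3 ^ j * n + b)} ⊆ {n : ℤ | |(n : ℝ)| ≤ X} :=
      fun n hn => hn.1
    have h6 := Set.ncard_le_ncard h5 (ball_finite X)
    have h7 : (({n : ℤ | |(n : ℝ)| ≤ X ∧ F n ≠ F (3 ^ j * n + b)}.ncard : ℕ) : ℝ) ≤
        (({n : ℤ | |(n : ℝ)| ≤ X}.ncard : ℕ) : ℝ) := by exact_mod_cast h6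
    have h8 : 3 * X ≤ 6 * (X * Real.sqrt (L / Real.log X)) := by nlinarith
    nlinarith
  · -- large `X`
    obtain ⟨t, ht1, ht2, ht3⟩ : ∃ t : ℕ, 1 ≤ t ∧ (2 : ℝ) ^ t ≤ Real.sqrt X ∧
        Real.log X ≤ 4 * t := by
      have hfl : 4 ≤ ⌊X⌋₊ := Nat.le_floor (by exact_mod_cast hX4)
      have ha : Nat.log 4 ⌊X⌋₊ ≠ 0 := by
        have := Nat.log_pos (b := 4) (by norm_num) hfl
        omega
      have hb : (4 : ℝ) ^ Nat.log 4 ⌊X⌋₊ ≤ X := by
        have h := Nat.pow_log_le_self 4 (x := ⌊X⌋₊) (by omega)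
        have h' : ((4 ^ Nat.log 4 ⌊X⌋₊ : ℕ) : ℝ) ≤ (⌊X⌋₊ : ℝ) := by exact_mod_cast h
        push_cast at h'
        exact h'.trans (Nat.floor_le (by linarith))
      have hc : X < (4 : ℝ) ^ (Nat.log 4 ⌊X⌋₊ + 1) := by
        have h := Nat.lt_pow_succ_log_self (b := 4) (by norm_num) ⌊X⌋₊
        have h' : ((⌊X⌋₊ + 1 : ℕ) : ℝ) ≤ ((4 ^ (Nat.log 4 ⌊X⌋₊).succ : ℕ) : ℝ) := by
          exact_mod_cast h
        push_cast at h'
        exact lt_of_lt_of_le (Nat.lt_floor_add_one X) h'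
      refine ⟨Nat.log 4 ⌊X⌋₊, by omega, ?_, ?_⟩
      · apply Real.le_sqrt_of_sq_le
        rw [← pow_mul, mul_comm, pow_mul]
        norm_num
        exact hb
      · have h3 := Real.log_le_log (by linarith) hc.le
        rw [Real.log_pow, show (4 : ℝ) = 2 ^ 2 by norm_num, Real.log_pow] at h3
        have h4 : Real.log 2 ≤ 1 := by have := Real.log_two_lt_d9; linarith
        have h5 : (1 : ℝ) ≤ (Nat.log 4 ⌊X⌋₊ : ℝ) := by
          exact_mod_cast Nat.one_le_iff_ne_zero.2 ha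
        push_cast at h3
        nlinarith
    have ht0 : (0 : ℝ) < t := by exact_mod_cast ht1
    have htX : (2 : ℝ) ^ t ≤ X := by
      have h3 : Real.sqrt X * Real.sqrt X = X := Real.mul_self_sqrt (by linarith)
      nlinarith
    -- the three exceptional sets
    have hB := h2 t j b X ht1 htX
    have hN1 := lin_ncard 1 0 1 (y * Real.sqrt X) one_pos le_rfl (by linarith)
    have hN2 := lin_ncard (3 ^ j) b 1 (y * Real.sqrt X) one_pos (one_le_pow₀ (by norm_num))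
      (by linarith)
    have hBf : {n : ℤ | |(n : ℝ)| ≤ X ∧ ∀ i ≤ t, T^[i] n ≠ T^[i] (3 ^ j * n + b)}.Finite :=
      (ball_finite X).subset fun n hn => hn.1
    have hsub : {n : ℤ | |(n : ℝ)| ≤ X ∧ F n ≠ F (3 ^ j * n + b)} ⊆
        {n : ℤ | |(n : ℝ)| ≤ X ∧ ∀ i ≤ t, T^[i] n ≠ T^[i] (3 ^ j * n + b)} ∪
        ({n : ℤ | |(1 : ℝ) * n + 0| < 1 * (y * Real.sqrt X)} ∪
          {n : ℤ | |(3 : ℝ) ^ j * n + b| < 1 * (y * Real.sqrt X)}) := by
      rintro n ⟨hn1, hn2⟩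
      by_contra hn
      rw [Set.mem_union, Set.mem_union, not_or, not_or] at hn
      obtain ⟨hn3, hn4, hn5⟩ := hn
      rw [Set.mem_ofPred_eq, not_lt] at hn4 hn5
      have hn6 : ∃ i ≤ t, T^[i] n = T^[i] (3 ^ j * n + b) := by
        by_contra h
        push Not at h
        exact hn3 ⟨hn1, h⟩
      obtain ⟨i, hi, hn6⟩ := hn6
      have hpow : (2 : ℝ) ^ i * y ≤ y * Real.sqrt X := by
        have h3 : (2 : ℝ) ^ i ≤ 2 ^ t := pow_le_pow_right₀ (by norm_num) hi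
        nlinarith
      apply hn2
      have e1 := fun_iter (by linarith) hS i n (by
        refine hpow.trans ?_
        simpa using hn4)
      have e2 := fun_iter (by linarith) hS i (3 ^ j * n + b) (by
        refine hpow.trans ?_
        push_cast
        simpa using hn5)
      rw [e1, e2, hn6]
    have hcard := Set.ncard_le_ncard hsub (hBf.union (hN1.1.union hN2.1))
    have hcard2 := (hcard.trans (Set.ncard_union_le _ _)).trans
      (Nat.add_le_add_left (Set.ncard_union_le _ _) _)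
    have hcard3 : (({n : ℤ | |(n : ℝ)| ≤ X ∧ F n ≠ F (3 ^ j * n + b)}.ncard : ℕ) : ℝ) ≤
        (({n : ℤ | |(n : ℝ)| ≤ X ∧ ∀ i ≤ t, T^[i] n ≠ T^[i] (3 ^ j * n + b)}.ncard : ℕ) : ℝ) +
        ((({n : ℤ | |(1 : ℝ) * n + 0| < 1 * (y * Real.sqrt X)}.ncard : ℕ) : ℝ) +
        (({n : ℤ | |(3 : ℝ) ^ j * n + b| < 1 * (y * Real.sqrt X)}.ncard : ℕ) : ℝ)) := by
      exact_mod_cast hcard2
    have hfb : Real.sqrt ((1 + (j : ℝ) ^ 2 + Real.log (2 + |(b : ℝ)|)) / t) ≤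
        4 * Real.sqrt (L / Real.log X) := by
      have h3 : (1 + (j : ℝ) ^ 2 + Real.log (2 + |(b : ℝ)|)) / t ≤
          4 ^ 2 * (L / Real.log X) := by
        rw [← mul_div_assoc, div_le_div_iff₀ ht0 hlogX]
        have h4 : 1 + (j : ℝ) ^ 2 + Real.log (2 + |(b : ℝ)|) ≤ 3 * L := by
          rw [hL]; rw [hL] at hL0; linarith
        have h5 : (1 + (j : ℝ) ^ 2 + Real.log (2 + |(b : ℝ)|)) * Real.log X ≤
            3 * L * (4 * t) := by
          apply mul_le_mul h4 ht3 hlogX.le (by linarith)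
        nlinarith
      calc Real.sqrt ((1 + (j : ℝ) ^ 2 + Real.log (2 + |(b : ℝ)|)) / t)
          ≤ Real.sqrt (4 ^ 2 * (L / Real.log X)) := Real.sqrt_le_sqrt h3
        _ = 4 * Real.sqrt (L / Real.log X) := by
            rw [Real.sqrt_mul (by norm_num), Real.sqrt_sq (by norm_num)]
    have hfX : C1 * X * Real.sqrt ((1 + (j : ℝ) ^ 2 + Real.log (2 + |(b : ℝ)|)) / t) ≤
        4 * C1 * (X * Real.sqrt (L / Real.log X)) := by
      have h3 : C1 * X * Real.sqrt ((1 + (j : ℝ) ^ 2 + Real.log (2 + |(b : ℝ)|)) / t) ≤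
          C1 * X * (4 * Real.sqrt (L / Real.log X)) :=
        mul_le_mul_of_nonneg_left hfb (by positivity)
      linarith
    have hn1 := hN1.2
    have hn2 := hN2.2
    have h9 : 0 ≤ C1 * (y * Real.sqrt X) := by positivity
    nlinarith

/-- Theorem 4 for functions. -/
theorem t4f (hT3 : T3Statement) : T4FStatement := by
  obtain ⟨C, hC, h⟩ := t4_zero hT3
  refine ⟨2 * C + 3, by positivity, ?_⟩
  intro α y F hy hS i j b X hX
  obtain ⟨k, hk, hm⟩ := iter_pow i b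
  have h0 := h α y F hy hS (j + k) (T^[i] b) X hX
  have hN := lin_ncard (2 ^ i * 3 ^ j) b (2 ^ i) y (by positivity)
    (le_mul_of_one_le_right (by positivity) (one_le_pow₀ (by norm_num))) (by linarith)
  have hAf : {n : ℤ | |(n : ℝ)| ≤ X ∧ F n ≠ F (3 ^ (j + k) * n + T^[i] b)}.Finite :=
    (ball_finite X).subset fun n hn => hn.1
  have hsub : {n : ℤ | |(n : ℝ)| ≤ X ∧ F n ≠ F (2 ^ i * 3 ^ j * n + b)} ⊆
      {n : ℤ | |(n : ℝ)| ≤ X ∧ F n ≠ F (3 ^ (j + k) * n + T^[i] b)} ∪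
      {n : ℤ | |(2 : ℝ) ^ i * 3 ^ j * n + b| < 2 ^ i * y} := by
    rintro n ⟨hn1, hn2⟩
    by_contra hn
    rw [Set.mem_union, not_or] at hn
    obtain ⟨hn3, hn4⟩ := hn
    rw [Set.mem_ofPred_eq, not_lt] at hn4
    apply hn3
    refine ⟨hn1, fun hiff => hn2 ?_⟩
    have e1 := fun_iter (by linarith) hS i (2 ^ i * 3 ^ j * n + b) (by push_cast; exact hn4)
    rw [e1, hiff, mul_assoc ((2 : ℤ) ^ i), hm, pow_add]
    ring_nf
  have hcard := (Set.ncard_le_ncard hsub (hAf.union hN.1)).trans (Set.ncard_union_le _ _)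
  have hcard2 : (({n : ℤ | |(n : ℝ)| ≤ X ∧ F n ≠ F (2 ^ i * 3 ^ j * n + b)}.ncard : ℕ) : ℝ) ≤
      (({n : ℤ | |(n : ℝ)| ≤ X ∧ F n ≠ F (3 ^ (j + k) * n + T^[i] b)}.ncard : ℕ) : ℝ) +
      (({n : ℤ | |(2 : ℝ) ^ i * 3 ^ j * n + b| < 2 ^ i * y}.ncard : ℕ) : ℝ) := by
    exact_mod_cast hcard
  have hlogX : 0 < Real.log X := Real.log_pos (by linarith)
  -- the size of the new parameters
  have hb : |((T^[i] b : ℤ) : ℝ)| + 1 ≤ 2 ^ i * (|(b : ℝ)| + 1) := by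
    have := abs_iter_le i b
    exact_mod_cast this
  have h2i : (1 : ℝ) ≤ 2 ^ i := one_le_pow₀ (by norm_num)
  have hlog : Real.log (2 + |((T^[i] b : ℤ) : ℝ)|) ≤ (i : ℝ) ^ 2 + Real.log (2 + |(b : ℝ)|) := by
    have h3 : 2 + |((T^[i] b : ℤ) : ℝ)| ≤ 2 ^ i * (2 + |(b : ℝ)|) := by
      have := abs_nonneg (b : ℝ)
      nlinarith
    have h4 := Real.log_le_log (by have := abs_nonneg ((T^[i] b : ℤ) : ℝ); linarith) h3
    rw [Real.log_mul (by positivity) (by have := abs_nonneg (b : ℝ); positivity),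
      Real.log_pow] at h4
    have h5 : (i : ℝ) * Real.log 2 ≤ (i : ℝ) ^ 2 := by
      have h6 : Real.log 2 ≤ 1 := by have := Real.log_two_lt_d9; linarith
      rcases Nat.eq_zero_or_pos i with rfl | hi
      · simp
      · have h7 : (1 : ℝ) ≤ i := by exact_mod_cast hi
        nlinarith
    linarith
  have hkR : (k : ℝ) ≤ i := by exact_mod_cast hk
  have hk0 : (0 : ℝ) ≤ k := Nat.cast_nonneg k
  have hj0 : (0 : ℝ) ≤ j := Nat.cast_nonneg j
  have hi0 : (0 : ℝ) ≤ i := Nat.cast_nonneg i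
  have hlogb : 0 ≤ Real.log (2 + |(b : ℝ)|) :=
    le_trans (by have := half_le_log_two; linarith) (log_two_le_log b)
  have hpar : (((j + k : ℕ) : ℝ) ^ 2 + Real.log (2 + |((T^[i] b : ℤ) : ℝ)|)) / Real.log X ≤
      2 ^ 2 * ((((i : ℝ) + j) ^ 2 + Real.log (2 + |(b : ℝ)|)) / Real.log X) := by
    rw [← mul_div_assoc]
    apply div_le_div_of_nonneg_right _ hlogX.le
    push_cast
    nlinarith [mul_nonneg hi0 hj0, mul_nonneg hj0 hk0, mul_nonneg hi0 hk0, sq_nonneg (i : ℝ),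
      sq_nonneg (j : ℝ)]
  have hs := Real.sqrt_le_sqrt hpar
  rw [Real.sqrt_mul (by norm_num), Real.sqrt_sq (by norm_num)] at hs
  set Q := Real.sqrt ((((i : ℝ) + j) ^ 2 + Real.log (2 + |(b : ℝ)|)) / Real.log X) with hQ
  have hQ0 : 0 ≤ Q := Real.sqrt_nonneg _
  have h6 : C * (X * Real.sqrt ((((j + k : ℕ) : ℝ) ^ 2 +
      Real.log (2 + |((T^[i] b : ℤ) : ℝ)|)) / Real.log X) + y * Real.sqrt X) ≤
      C * (X * (2 * Q) + y * Real.sqrt X) := by
    apply mul_le_mul_of_nonneg_left _ hC.le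
    have : X * Real.sqrt ((((j + k : ℕ) : ℝ) ^ 2 +
      Real.log (2 + |((T^[i] b : ℤ) : ℝ)|)) / Real.log X) ≤ X * (2 * Q) :=
      mul_le_mul_of_nonneg_left hs (by linarith)
    linarith
  have h7 := hN.2
  have h8 : 0 ≤ X * Q := by positivity
  have h9 : 0 ≤ C * (X * Q) := by positivity
  have h10 : 0 ≤ y * Real.sqrt X := by positivity
  have h11 : 0 ≤ C * (y * Real.sqrt X) := by positivity
  have h12 : 0 ≤ C * y := by positivity
  nlinarith

/-- Theorem 4. -/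
theorem t4 (hT3 : T3Statement) : T4Statement := by
  obtain ⟨C, hC, h⟩ := t4f hT3
  refine ⟨C, hC, fun y S hy hS i j b X hX => ?_⟩
  have h1 := h Prop y (fun x => x ∈ S) hy (fun x hx => propext (hS x hx)) i j b X hX
  simpa only [ne_eq, eq_iff_iff] using h1

end Pool.Agent.Lib.MP_edb5be_nt.CO
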