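import Pool.Agent.Lib.MP_edb5be_nt.CO.Four
import Pool.Agent.Lib.MP_edb5be_nt.CO.T4

/-!
# Parts (iv) and (v) of the hand-in for `a = 2 ^ i * 3 ^ j`, one-sided
-/

set_option autoImplicit false

namespace Pool.Agent.Lib.MP_edb5be_nt.CO

/-- Part (iv): the trajectories of `n` and of `2 ^ i * 3 ^ j * n + b` meet, with the delay `i`. -/
def GStatement : Prop := ∃ C : ℝ, 0 < C ∧ ∀ e : ℤ, e = 1 ∨ e = -1 →
  ∀ (i j : ℕ) (b : ℤ) (X : ℝ), 2 ≤ X →
    count e {n : ℤ | ∀ t : ℕ, (2 : ℝ) ^ t ≤ X → T^[t] n ≠ T^[t + i] (2 ^ i * 3 ^ j * n + b)} X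
      ≤ C * X * Real.sqrt ((((i : ℝ) + j) ^ 2 + Real.log (2 + |(b : ℝ)|)) / Real.log X)

/-- Part (v): functions that are constant along the trajectories. -/
def FunStatement : Prop := ∃ C : ℝ, 0 < C ∧ ∀ e : ℤ, e = 1 ∨ e = -1 →
  ∀ (α : Type) (y : ℝ) (F : ℤ → α), 1 ≤ y → (∀ x : ℤ, y ≤ |(x : ℝ)| → F x = F (T x)) →
    ∀ (i j : ℕ) (b : ℤ) (X : ℝ), 2 ≤ X →
      count e {n : ℤ | F n ≠ F (2 ^ i * 3 ^ j * n + b)} X
        ≤ C * (X * Real.sqrt ((((i : ℝ) + j) ^ 2 + Real.log (2 + |(b : ℝ)|)) / Real.log X)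
          + y * Real.sqrt X)

theorem gen (h4 : FourStatement) : GStatement := by
  obtain ⟨C, hC, h⟩ := h4
  refine ⟨2 * C, by positivity, fun e he i j b X hX => ?_⟩
  obtain ⟨k, hk, hm⟩ := iter_pow i b
  have hset : {n : ℤ | ∀ t : ℕ, (2 : ℝ) ^ t ≤ X →
      T^[t] n ≠ T^[t + i] (2 ^ i * 3 ^ j * n + b)} =
      {n : ℤ | ∀ t : ℕ, (2 : ℝ) ^ t ≤ X → T^[t] n ≠ T^[t] (3 ^ (j + k) * n + T^[i] b)} := by
    ext n
    have : ∀ t : ℕ, T^[t + i] (2 ^ i * 3 ^ j * n + b) =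
        T^[t] (3 ^ (j + k) * n + T^[i] b) := by
      intro t
      rw [Function.iterate_add_apply, mul_assoc ((2 : ℤ) ^ i), hm, pow_add]
      ring_nf
    simp only [Set.mem_ofPred_eq, this]
  rw [hset]
  refine (h e he (j + k) (T^[i] b) X hX).trans ?_
  have hlogX : 0 < Real.log X := Real.log_pos (by linarith)
  -- the size of the new parameters
  have hb : |((T^[i] b : ℤ) : ℝ)| + 1 ≤ 2 ^ i * (|(b : ℝ)| + 1) := by
    have := abs_iter_le i b
    exact_mod_cast this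
  have h2i : (1 : ℝ) ≤ 2 ^ i := one_le_pow₀ (by norm_num)
  have hlog : Real.log (2 + |((T^[i] b : ℤ) : ℝ)|) ≤ (i : ℝ) ^ 2 + Real.log (2 + |(b : ℝ)|) := by
    have h3 : 2 + |((T^[i] b : ℤ) : ℝ)| ≤ 2 ^ i * (2 + |(b : ℝ)|) := by
      have := abs_nonneg (b : ℝ)
      nlinarith
    have h4 := Real.log_le_log (by have := abs_nonneg ((T^[i] b : ℤ) : ℝ); linarith) h3
    rw [Real.log_mul (by positivity) (by have := abs_nonneg (b : ℝ); positivity),
      Real.log_pow] at h4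
    have h5 : (i : ℝ) * Real.log 2 ≤ (i : ℝ) ^ 2 := by
      have h6 : Real.log 2 ≤ 1 := by have := Real.log_two_lt_d9; linarith
      rcases Nat.eq_zero_or_pos i with rfl | hi
      · simp
      · have h7 : (1 : ℝ) ≤ i := by exact_mod_cast hi
        nlinarith
    linarith
  have hkR : (k : ℝ) ≤ i := by exact_mod_cast hk
  have hk0 : (0 : ℝ) ≤ k := Nat.cast_nonneg k
  have hj0 : (0 : ℝ) ≤ j := Nat.cast_nonneg j
  have hi0 : (0 : ℝ) ≤ i := Nat.cast_nonneg i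
  have hlogb : 0 ≤ Real.log (2 + |(b : ℝ)|) :=
    le_trans (by have := half_le_log_two; linarith) (log_two_le_log b)
  have hpar : (((j + k : ℕ) : ℝ) ^ 2 + Real.log (2 + |((T^[i] b : ℤ) : ℝ)|)) / Real.log X ≤
      2 ^ 2 * ((((i : ℝ) + j) ^ 2 + Real.log (2 + |(b : ℝ)|)) / Real.log X) := by
    rw [← mul_div_assoc]
    apply div_le_div_of_nonneg_right _ hlogX.le
    push_cast
    nlinarith [mul_nonneg hi0 hj0, mul_nonneg hj0 hk0, mul_nonneg hi0 hk0, sq_nonneg (i : ℝ),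
      sq_nonneg (j : ℝ)]
  have hs := Real.sqrt_le_sqrt hpar
  rw [Real.sqrt_mul (by norm_num), Real.sqrt_sq (by norm_num)] at hs
  have h6 := mul_le_mul_of_nonneg_left hs (show (0 : ℝ) ≤ C * X by positivity)
  refine h6.trans (le_of_eq ?_)
  ring

theorem funs (h4 : T4FStatement) : FunStatement := by
  obtain ⟨C, hC, h⟩ := h4
  refine ⟨2 * C, by positivity, fun e he α y F hy hF i j b X hX => ?_⟩
  refine (count_le_two he _ X).trans ((h α y F hy hF i j b X hX).trans ?_)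
  have h1 : y ≤ y * Real.sqrt X := by
    have : (1 : ℝ) ≤ Real.sqrt X := by
      rw [Real.one_le_sqrt]; linarith
    nlinarith
  have h2 : 0 ≤ X * Real.sqrt ((((i : ℝ) + j) ^ 2 + Real.log (2 + |(b : ℝ)|)) / Real.log X) := by
    positivity
  nlinarith

end Pool.Agent.Lib.MP_edb5be_nt.CO
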