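import Pool.Agent.Lib.MP_edb5be_nt.CO.Hand

/-!
# Row INT: short intervals

For most `x` up to `X` the interval `[x, x + L)` is filled by `S` or by its complement up to a
proportion `η`: a bad `x` has more than `η L` numbers `0 ≤ u < L` for which `x ∈ S ↔ x + u ∈ S`
fails, and `T4Statement` bounds the number of the pairs `(x, u)`.
-/

set_option autoImplicit false

namespace Pool.Agent.Lib.MP_edb5be_nt.CO

namespace INT

theorem finite_abs (X : ℝ) (P : ℤ → Prop) : {n : ℤ | |(n : ℝ)| ≤ X ∧ P n}.Finite := by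
  refine (Set.finite_Icc (-⌊X⌋) ⌊X⌋).subset ?_
  rintro n ⟨hn, -⟩
  rw [abs_le] at hn
  refine ⟨?_, Int.le_floor.mpr hn.2⟩
  have : -n ≤ ⌊X⌋ := Int.le_floor.mpr (by push_cast; linarith [hn.1])
  linarith

/-- the numbers of a set in `[x, x + L)`, counted through `z = x + u` -/
theorem ncard_window_le (Q : ℤ → Prop) [DecidablePred Q] (x : ℤ) (L : ℕ) :
    {z : ℤ | Q z ∧ x ≤ z ∧ z < x + L}.ncard
      ≤ ((Finset.range L).filter (fun u : ℕ => Q (x + u))).card := by
  have h : {z : ℤ | Q z ∧ x ≤ z ∧ z < x + L}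
      ⊆ ↑(((Finset.range L).filter (fun u : ℕ => Q (x + u))).image (fun u : ℕ => x + (u : ℤ))) := by
    rintro z ⟨hz, h1, h2⟩
    rw [Finset.coe_image, Set.mem_image]
    refine ⟨(z - x).toNat, ?_, ?_⟩
    · rw [Finset.mem_coe, Finset.mem_filter, Finset.mem_range]
      have : ((z - x).toNat : ℤ) = z - x := Int.toNat_of_nonneg (by linarith)
      refine ⟨by omega, ?_⟩
      rw [this]
      convert hz using 1
      ring
    · have : ((z - x).toNat : ℤ) = z - x := Int.toNat_of_nonneg (by linarith)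
      simp only [this]
      ring
  calc {z : ℤ | Q z ∧ x ≤ z ∧ z < x + L}.ncard
      ≤ (↑(((Finset.range L).filter (fun u : ℕ => Q (x + u))).image
          (fun u : ℕ => x + (u : ℤ))) : Set ℤ).ncard :=
        Set.ncard_le_ncard h (Finset.finite_toSet _)
    _ = (((Finset.range L).filter (fun u : ℕ => Q (x + u))).image
          (fun u : ℕ => x + (u : ℤ))).card := Set.ncard_coe_finset _
    _ ≤ _ := Finset.card_image_le

end INT

open INT

theorem int (h4 : T4Statement) : IntStatement := by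
  classical
  obtain ⟨C, hC, h4⟩ := h4
  refine ⟨2 * C, by positivity, ?_⟩
  intro e he y S hy hS L η X hη hX
  have hlogX : 0 < Real.log X := Real.log_pos (by linarith)
  have hsX : 1 ≤ Real.sqrt X := by
    rw [Real.le_sqrt' (by norm_num)]; linarith
  have hX0 : 0 ≤ X := by linarith
  set Bad : Set ℤ := {x : ℤ | η * L < ({z : ℤ | z ∈ S ∧ x ≤ z ∧ z < x + L}.ncard : ℝ) ∧
        η * L < ({z : ℤ | z ∉ S ∧ x ≤ z ∧ z < x + L}.ncard : ℝ)} with hBad
  rcases Nat.eq_zero_or_pos L with rfl | hL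
  · -- no bad `x` at all
    have hempty : Bad = ∅ := by
      rw [Set.eq_empty_iff_forall_notMem]
      rintro x ⟨h, -⟩
      have h0 : {z : ℤ | z ∈ S ∧ x ≤ z ∧ z < x + ((0 : ℕ) : ℤ)} = ∅ := by
        rw [Set.eq_empty_iff_forall_notMem]
        rintro z ⟨-, h1, h2⟩
        rw [Nat.cast_zero, add_zero] at h2
        exact absurd h1 (not_le.mpr h2)
      rw [h0] at h
      simp at h
    have : count e Bad X = 0 := by
      unfold count
      rw [hempty]
      simp
    rw [this]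
    positivity
  have hLr : (0 : ℝ) < L := by exact_mod_cast hL
  -- the bad `x`
  have hsub : {x : ℤ | x ∈ Bad ∧ 0 < e * x ∧ ((e * x : ℤ) : ℝ) ≤ X}
      ⊆ {n : ℤ | |(n : ℝ)| ≤ X ∧ n ∈ Bad} := by
    rintro x ⟨h1, h2, h3⟩
    refine ⟨?_, h1⟩
    rcases he with rfl | rfl
    · rw [one_mul] at h2 h3
      rw [abs_of_pos (by exact_mod_cast h2)]
      exact h3
    · have h2' : x < 0 := by linarith
      rw [abs_of_neg (by exact_mod_cast h2')]
      push_cast at h3
      linarith
  have hfin := finite_abs X (fun n => n ∈ Bad)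
  set F : Finset ℤ := (hfin.subset hsub).toFinset with hF
  have hFmem : ∀ x ∈ F, x ∈ Bad ∧ |(x : ℝ)| ≤ X := by
    intro x hx
    rw [hF, Set.Finite.mem_toFinset] at hx
    exact ⟨hx.1, (hsub hx).1⟩
  have hcount : count e Bad X = (F.card : ℝ) := by
    unfold count
    rw [hF, Set.ncard_eq_toFinset_card _ (hfin.subset hsub)]
  -- lower bound for the number of pairs
  have hlow : ∀ x ∈ F, η * L ≤ (((Finset.range L).filter
      (fun u : ℕ => ¬ (x ∈ S ↔ x + (u : ℤ) ∈ S))).card : ℝ) := by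
    intro x hx
    obtain ⟨⟨h1, h2⟩, -⟩ := hFmem x hx
    by_cases hxS : x ∈ S
    · refine h2.le.trans ?_
      have := ncard_window_le (fun z => z ∉ S) x L
      refine (Nat.cast_le.mpr this).trans (Nat.cast_le.mpr (Finset.card_le_card ?_))
      intro u hu
      rw [Finset.mem_filter] at hu ⊢
      exact ⟨hu.1, fun hh => hu.2 (hh.mp hxS)⟩
    · refine h1.le.trans ?_
      have := ncard_window_le (fun z => z ∈ S) x L
      refine (Nat.cast_le.mpr this).trans (Nat.cast_le.mpr (Finset.card_le_card ?_))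
      intro u hu
      rw [Finset.mem_filter] at hu ⊢
      exact ⟨hu.1, fun hh => hxS (hh.mpr hu.2)⟩
  -- upper bound for each `u`
  set M : ℝ := C * (X * Real.sqrt (Real.log (2 + L) / Real.log X) + y * Real.sqrt X + y) with hM
  have hup : ∀ u ∈ Finset.range L, ((F.filter (fun x => ¬ (x ∈ S ↔ x + (u : ℤ) ∈ S))).card : ℝ)
      ≤ M := by
    intro u hu
    rw [Finset.mem_range] at hu
    have h := h4 y S hy hS 0 0 (u : ℤ) X hX
    have h1 : (F.filter (fun x => ¬ (x ∈ S ↔ x + (u : ℤ) ∈ S))).card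
        ≤ {n : ℤ | |(n : ℝ)| ≤ X ∧ ¬ (n ∈ S ↔ 2 ^ 0 * 3 ^ 0 * n + (u : ℤ) ∈ S)}.ncard := by
      rw [← Set.ncard_coe_finset]
      refine Set.ncard_le_ncard ?_ (finite_abs X _)
      intro x hx
      rw [Finset.mem_coe, Finset.mem_filter] at hx
      refine ⟨(hFmem x hx.1).2, ?_⟩
      have : (2 : ℤ) ^ 0 * 3 ^ 0 * x + u = x + u := by ring
      rw [this]
      exact hx.2
    refine (Nat.cast_le.mpr h1).trans (h.trans ?_)
    rw [hM]
    refine mul_le_mul_of_nonneg_left ?_ hC.le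
    have h2 : Real.sqrt ((((0 : ℕ) : ℝ) + ((0 : ℕ) : ℝ)) ^ 2
        + Real.log (2 + |((u : ℤ) : ℝ)|) / 1) ≤ Real.sqrt (Real.log (2 + L)) := by
      refine Real.sqrt_le_sqrt ?_
      have h3 : |((u : ℤ) : ℝ)| = (u : ℝ) := by
        rw [Int.cast_natCast]; exact abs_of_nonneg (Nat.cast_nonneg _)
      rw [h3]
      have h4 : Real.log (2 + (u : ℝ)) ≤ Real.log (2 + L) := by
        refine Real.log_le_log (by positivity) ?_
        have : (u : ℝ) ≤ L := by exact_mod_cast hu.le
        linarith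
      simpa using h4
    have h5 : Real.sqrt (((((0 : ℕ) : ℝ) + ((0 : ℕ) : ℝ)) ^ 2
        + Real.log (2 + |((u : ℤ) : ℝ)|)) / Real.log X)
        ≤ Real.sqrt (Real.log (2 + L) / Real.log X) := by
      rw [Real.sqrt_div' _ hlogX.le, Real.sqrt_div' _ hlogX.le]
      refine div_le_div_of_nonneg_right ?_ (Real.sqrt_nonneg _)
      simpa using h2
    have := mul_le_mul_of_nonneg_left h5 hX0
    linarith
  -- double counting
  have hdc : ∑ x ∈ F, ((Finset.range L).filter (fun u : ℕ => ¬ (x ∈ S ↔ x + (u : ℤ) ∈ S))).card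
      = ∑ u ∈ Finset.range L, (F.filter (fun x => ¬ (x ∈ S ↔ x + (u : ℤ) ∈ S))).card := by
    simp only [Finset.card_filter]
    exact Finset.sum_comm
  have hdc' : ∑ x ∈ F, (((Finset.range L).filter
        (fun u : ℕ => ¬ (x ∈ S ↔ x + (u : ℤ) ∈ S))).card : ℝ)
      = ∑ u ∈ Finset.range L, ((F.filter (fun x => ¬ (x ∈ S ↔ x + (u : ℤ) ∈ S))).card : ℝ) := by
    exact_mod_cast hdc
  have h1 : (F.card : ℝ) * (η * L) ≤ L * M := by
    calc (F.card : ℝ) * (η * L) = ∑ x ∈ F, η * L := by rw [Finset.sum_const, nsmul_eq_mul]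
      _ ≤ _ := Finset.sum_le_sum hlow
      _ = _ := hdc'
      _ ≤ ∑ u ∈ Finset.range L, M := Finset.sum_le_sum hup
      _ = L * M := by rw [Finset.sum_const, nsmul_eq_mul, Finset.card_range]
  have h2 : (F.card : ℝ) * η ≤ M := by
    have : (F.card : ℝ) * η * L ≤ M * L := by linarith
    exact le_of_mul_le_mul_right this hLr
  rw [hcount]
  have h3 : (F.card : ℝ) ≤ M / η := by
    rw [le_div_iff₀ hη]; exact h2
  refine h3.trans ?_
  rw [hM]
  have h4' : 0 ≤ X * Real.sqrt (Real.log (2 + L) / Real.log X) := by positivity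
  have h5 : y ≤ y * Real.sqrt X := by nlinarith
  rw [div_mul_eq_mul_div]
  refine div_le_div_of_nonneg_right ?_ hη.le
  nlinarith

end Pool.Agent.Lib.MP_edb5be_nt.CO
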