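import Pool.Agent.Lib.MP_edb5be_nt.CO.Acc

/-!
# The exact order of the number of pairs that do not meet

Row LOW: the bound of `FourStatement` has the right order of magnitude `X / √(log X)` for every
pair `(n, 3 ^ j n + b)` other than `(n, n)`.
-/

set_option autoImplicit false

namespace Pool.Agent.Lib.MP_edb5be_nt.CO

open Filter Topology

/-- The lower bound for the probability that a pair does not merge within `t` steps. -/
def LowFStatement : Prop := ∀ (t D : ℕ) (s : ℤ), 1 ≤ t → (D, s) ≠ ((0 : ℕ), (0 : ℤ)) →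
  (D : ℝ) ≤ Real.sqrt (t : ℝ) → ((D : ℝ) + 1) / (10 * Real.sqrt (t : ℝ)) ≤ f t (D, s)

/-- ROW LOW: the order `X / √(log X)` of `FourStatement` is exact, for every `(j, b) ≠ (0, 0)`,
uniformly for `j ≤ √(log X)` and `|b| ≤ √X`. -/
def LowStatement : Prop := ∃ c X₀ : ℝ, 0 < c ∧ 2 ≤ X₀ ∧ ∀ e : ℤ, e = 1 ∨ e = -1 →
  ∀ (j : ℕ) (b : ℤ) (X : ℝ), (j ≠ 0 ∨ b ≠ 0) → X₀ ≤ X → (j : ℝ) ^ 2 ≤ Real.log X →
    |(b : ℝ)| ≤ Real.sqrt X →
      c * X * ((1 + (j : ℝ)) / Real.sqrt (Real.log X)) ≤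
        count e {n : ℤ | ∀ i : ℕ, (2 : ℝ) ^ i ≤ X → T^[i] n ≠ T^[i] (3 ^ j * n + b)} X

open Classical in
/-- The elements of a block of `2 ^ t` integers whose pair does not meet within `t` steps. -/
theorem low_block (t j : ℕ) (b a : ℤ) (Y : ℝ) (hY : 0 < Y) (hb : 3 * |(b : ℝ)| ≤ Y)
    (hsm : (((Finset.Ico a (a + 2 ^ t)).filter (fun n : ℤ => |(n : ℝ)| ≤ Y)).card : ℝ) ≤ Y) :
    2 ^ t * f t (j, -b) - Y - 18 * 3 ^ t / Y ≤
      (((Finset.Ico a (a + 2 ^ t)).filter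
        (fun n : ℤ => ∀ i ≤ t, T^[i] n ≠ T^[i] (3 ^ j * n + b))).card : ℝ) := by
  set I := Finset.Ico a (a + 2 ^ t) with hI
  have h1 := count_Ico t (j, -b) a
  have h2 := acc_count t j b Y hY hb I (injMod_Ico t a)
  set G := I.filter (fun n : ℤ => ∀ i ≤ t, T^[i] n ≠ T^[i] (3 ^ j * n + b)) with hG
  set B1 := I.filter (fun n : ℤ => |(n : ℝ)| ≤ Y) with hB1
  set B2 := I.filter (fun n : ℤ => Y < |(n : ℝ)| ∧ ∃ i ≤ t, T^[i] n = T^[i] (3 ^ j * n + b) ∧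
      od i n ≠ od i (3 ^ j * n + b) + j) with hB2
  have hsub : sel nm t (j, -b) I ⊆ G ∪ (B1 ∪ B2) := by
    intro n hn
    obtain ⟨hnI, hnm⟩ := mem_sel.mp hn
    rw [Finset.mem_union, Finset.mem_union]
    by_cases hg : ∀ i ≤ t, T^[i] n ≠ T^[i] (3 ^ j * n + b)
    · left
      rw [hG, Finset.mem_filter]
      exact ⟨hnI, hg⟩
    · right
      by_cases hy : |(n : ℝ)| ≤ Y
      · left
        rw [hB1, Finset.mem_filter]
        exact ⟨hnI, hy⟩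
      · right
        push Not at hg
        obtain ⟨i, hi, hm⟩ := hg
        rw [hB2, Finset.mem_filter]
        refine ⟨hnI, not_le.mp hy, i, hi, hm, ?_⟩
        have e1 : 3 ^ j * n - -b = 3 ^ j * n + b := by ring
        have e2 := nm_no_meet i t j (-b) n hi hnm
        rw [e1] at e2
        exact e2 hm
  have h3 : (sel nm t (j, -b) I).card ≤ G.card + (B1.card + B2.card) :=
    le_trans (Finset.card_le_card hsub) (le_trans (Finset.card_union_le _ _)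
      (Nat.add_le_add_left (Finset.card_union_le _ _) _))
  have h4 : ((sel nm t (j, -b) I).card : ℝ) ≤ G.card + (B1.card + B2.card) := by
    exact_mod_cast h3
  rw [h1] at h4
  linarith

theorem small_pos (t : ℕ) (Y : ℝ) (hY : 0 ≤ Y) :
    (((Finset.Ico (1 : ℤ) (1 + 2 ^ t)).filter (fun n : ℤ => |(n : ℝ)| ≤ Y)).card : ℝ) ≤ Y := by
  have h1 : ((Finset.Ico (1 : ℤ) (1 + 2 ^ t)).filter (fun n : ℤ => |(n : ℝ)| ≤ Y)) ⊆
      Finset.Icc (1 : ℤ) ⌊Y⌋ := by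
    intro n hn
    rw [Finset.mem_filter, Finset.mem_Ico] at hn
    rw [Finset.mem_Icc]
    exact ⟨hn.1.1, Int.le_floor.mpr (le_trans (le_abs_self _) hn.2)⟩
  have h2 := Finset.card_le_card h1
  have h0 : 0 ≤ ⌊Y⌋ := Int.floor_nonneg.mpr hY
  have h3 : (Finset.Icc (1 : ℤ) ⌊Y⌋).card = ⌊Y⌋.toNat := by
    rw [Int.card_Icc]
    congr 1
    ring
  rw [h3] at h2
  calc _ ≤ ((⌊Y⌋.toNat : ℕ) : ℝ) := by exact_mod_cast h2
    _ = ((⌊Y⌋ : ℤ) : ℝ) := by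
      have : ((⌊Y⌋.toNat : ℕ) : ℤ) = ⌊Y⌋ := Int.toNat_of_nonneg h0
      exact_mod_cast congrArg (fun z : ℤ => (z : ℝ)) this
    _ ≤ Y := Int.floor_le Y

theorem small_neg (t : ℕ) (Y : ℝ) (hY : 0 ≤ Y) :
    (((Finset.Ico (-2 ^ t : ℤ) (-2 ^ t + 2 ^ t)).filter (fun n : ℤ => |(n : ℝ)| ≤ Y)).card : ℝ)
      ≤ Y := by
  have h1 : ((Finset.Ico (-2 ^ t : ℤ) (-2 ^ t + 2 ^ t)).filter (fun n : ℤ => |(n : ℝ)| ≤ Y)) ⊆
      Finset.Icc (-⌊Y⌋ : ℤ) (-1) := by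
    intro n hn
    rw [Finset.mem_filter, Finset.mem_Ico] at hn
    rw [Finset.mem_Icc]
    have e1 : ((-n : ℤ) : ℝ) ≤ Y := by
      push_cast
      exact le_trans (neg_le_abs _) hn.2
    have e2 := Int.le_floor.mpr e1
    constructor
    · omega
    · have := hn.1.2
      omega
  have h2 := Finset.card_le_card h1
  have h0 : 0 ≤ ⌊Y⌋ := Int.floor_nonneg.mpr hY
  have h3 : (Finset.Icc (-⌊Y⌋ : ℤ) (-1)).card = ⌊Y⌋.toNat := by
    rw [Int.card_Icc]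
    congr 1
    ring
  rw [h3] at h2
  calc _ ≤ ((⌊Y⌋.toNat : ℕ) : ℝ) := by exact_mod_cast h2
    _ = ((⌊Y⌋ : ℤ) : ℝ) := by
      have : ((⌊Y⌋.toNat : ℕ) : ℤ) = ⌊Y⌋ := Int.toNat_of_nonneg h0
      exact_mod_cast congrArg (fun z : ℤ => (z : ℝ)) this
    _ ≤ Y := Int.floor_le Y

/-- Eventually `32400 t ≤ (4 / 3) ^ t`. -/
theorem exp_large : ∃ T₀ : ℕ, ∀ t ≥ T₀, (32400 : ℝ) * t ≤ (4 / 3) ^ t := by
  have h := tendsto_pow_const_div_const_pow_of_one_lt 1 (r := (4 / 3 : ℝ)) (by norm_num)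
  have h1 : ∀ᶠ n : ℕ in atTop, (n : ℝ) ^ 1 / (4 / 3) ^ n < 1 / 32400 :=
    h.eventually_lt_const (by norm_num)
  obtain ⟨T₀, hT⟩ := Filter.eventually_atTop.mp h1
  refine ⟨T₀, fun t ht => ?_⟩
  have h2 := hT t ht
  rw [pow_one, div_lt_div_iff₀ (by positivity) (by norm_num)] at h2
  linarith

/-- The numerical part, at a scale `2 ^ t`. -/
theorem low_scale (hf : LowFStatement) (t j : ℕ) (b a : ℤ) (ht : 1 ≤ t)
    (ht2 : (32400 : ℝ) * t ≤ (4 / 3) ^ t) (hjb : j ≠ 0 ∨ b ≠ 0) (hj : (j : ℝ) ^ 2 ≤ t)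
    (hb : (b : ℝ) ^ 2 ≤ 2 * 2 ^ t)
    (hsm : ∀ Y : ℝ, 0 ≤ Y →
      (((Finset.Ico a (a + 2 ^ t)).filter (fun n : ℤ => |(n : ℝ)| ≤ Y)).card : ℝ) ≤ Y) :
    open Classical in
    2 ^ t * (1 + (j : ℝ)) / (20 * Real.sqrt t) ≤
      (((Finset.Ico a (a + 2 ^ t)).filter
        (fun n : ℤ => ∀ i ≤ t, T^[i] n ≠ T^[i] (3 ^ j * n + b))).card : ℝ) := by
  have htR : (1 : ℝ) ≤ t := by exact_mod_cast ht
  have hs0 : 0 < Real.sqrt t := Real.sqrt_pos.mpr (by linarith)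
  have hss : Real.sqrt t * Real.sqrt t = t := Real.mul_self_sqrt (by linarith)
  have hj0 : (0 : ℝ) ≤ j := Nat.cast_nonneg j
  have hp : (0 : ℝ) < 2 ^ t := by positivity
  set S := Real.sqrt t with hS
  have hjS : (j : ℝ) ≤ S := by
    rw [hS]
    exact Real.le_sqrt_of_sq_le hj
  have hF : ((j : ℝ) + 1) / (10 * S) ≤ f t (j, -b) := by
    apply hf t j (-b) ht _ hjS
    intro h
    rcases hjb with h1 | h1
    · exact h1 (Prod.mk.inj h).1
    · have := (Prod.mk.inj h).2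
      omega
  set Y : ℝ := 2 ^ t * (1 + (j : ℝ)) / (30 * S) with hYdef
  have hY : 0 < Y := by positivity
  -- `3 |b| ≤ Y`
  have h43 : ((4 : ℝ) / 3) ^ t ≤ 2 ^ t := pow_le_pow_left₀ (by norm_num) (by norm_num) t
  have hbY : 3 * |(b : ℝ)| ≤ Y := by
    apply abs_le_of_sq_le_sq' _ hY.le |>.2
    have e1 : (3 * |(b : ℝ)|) ^ 2 = 9 * (b : ℝ) ^ 2 := by
      rw [mul_pow, sq_abs]
      norm_num
    rw [e1]
    have e2 : Y ^ 2 = 2 ^ t * (2 ^ t * (1 + (j : ℝ)) ^ 2) / (900 * t) := by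
      rw [hYdef, div_pow, mul_pow, mul_pow]
      rw [show S ^ 2 = (t : ℝ) by rw [sq]; exact hss]
      ring
    rw [e2, le_div_iff₀ (by positivity)]
    have e3 : (1 : ℝ) ≤ (1 + (j : ℝ)) ^ 2 := by nlinarith
    have e4 : (16200 : ℝ) * t ≤ 2 ^ t * (1 + (j : ℝ)) ^ 2 := by
      calc (16200 : ℝ) * t ≤ 2 ^ t * 1 := by linarith
        _ ≤ _ := mul_le_mul_of_nonneg_left e3 hp.le
    calc 9 * (b : ℝ) ^ 2 * (900 * t) ≤ 9 * (2 * 2 ^ t) * (900 * t) := by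
          apply mul_le_mul_of_nonneg_right _ (by positivity)
          linarith
      _ = 2 ^ t * (16200 * t) := by ring
      _ ≤ _ := mul_le_mul_of_nonneg_left e4 hp.le
  have hmain := low_block t j b a Y hY hbY (hsm Y hY.le)
  refine le_trans ?_ hmain
  have h1 : 2 ^ t * (((j : ℝ) + 1) / (10 * S)) ≤ 2 ^ t * f t (j, -b) :=
    mul_le_mul_of_nonneg_left hF hp.le
  have h2 : 18 * 3 ^ t / Y ≤ 2 ^ t * (1 + (j : ℝ)) / (60 * S) := by
    rw [div_le_iff₀ hY, hYdef]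
    have e1 : 2 ^ t * (1 + (j : ℝ)) / (60 * S) * (2 ^ t * (1 + (j : ℝ)) / (30 * S)) =
        2 ^ t * 2 ^ t * (1 + (j : ℝ)) ^ 2 / (1800 * t) := by
      rw [div_mul_div_comm]
      rw [show 60 * S * (30 * S) = 1800 * (t : ℝ) by rw [← hss]; ring]
      ring
    rw [e1, le_div_iff₀ (by positivity)]
    have e3 : (1 : ℝ) ≤ (1 + (j : ℝ)) ^ 2 := by nlinarith
    have e4 : (2 : ℝ) ^ t * 2 ^ t = 3 ^ t * (4 / 3) ^ t := by
      rw [← mul_pow, ← mul_pow]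
      norm_num
    have hq : (0 : ℝ) < 3 ^ t := by positivity
    calc (18 : ℝ) * 3 ^ t * (1800 * t) = 3 ^ t * (32400 * t) := by ring
      _ ≤ 3 ^ t * (4 / 3) ^ t := mul_le_mul_of_nonneg_left ht2 hq.le
      _ = 2 ^ t * 2 ^ t * 1 := by rw [e4, mul_one]
      _ ≤ _ := mul_le_mul_of_nonneg_left e3 (by positivity)
  have h3 : 2 ^ t * (1 + (j : ℝ)) / (20 * S) + 2 ^ t * (1 + (j : ℝ)) / (60 * S) + Y =
      2 ^ t * (((j : ℝ) + 1) / (10 * S)) := by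
    rw [hYdef]
    field_simp
    ring
  linarith

theorem low (hf : LowFStatement) : LowStatement := by
  classical
  obtain ⟨T₀, hT₀⟩ := exp_large
  refine ⟨1 / 60, 2 ^ (T₀ + 3), by norm_num, ?_, ?_⟩
  · calc (2 : ℝ) = 2 ^ 1 := by norm_num
      _ ≤ 2 ^ (T₀ + 3) := pow_le_pow_right₀ (by norm_num) (by omega)
  intro e he j b X hjb hX hj hb
  have hX1 : (1 : ℝ) ≤ X := le_trans (one_le_pow₀ (by norm_num)) hX
  have hX0 : 0 < X := by linarith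
  -- the scale
  obtain ⟨t, ht1, ht2⟩ : ∃ t : ℕ, (2 : ℝ) ^ t ≤ X ∧ X < 2 ^ (t + 1) := by
    exact exists_nat_pow_near hX1 (by norm_num)
  have htT : T₀ + 3 ≤ t := by
    by_contra hlt
    have : t + 1 ≤ T₀ + 3 := by omega
    have h1 : (2 : ℝ) ^ (t + 1) ≤ 2 ^ (T₀ + 3) := pow_le_pow_right₀ (by norm_num) this
    linarith
  have htR : (3 : ℝ) ≤ t := by
    have : 3 ≤ t := by omega
    exact_mod_cast this
  have hl2 : Real.log 2 < 0.7 := by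
    have := Real.log_two_lt_d9
    linarith
  have hl2' : (0.69 : ℝ) < Real.log 2 := by
    have := Real.log_two_gt_d9
    linarith
  have hlogX : Real.log X ≤ t := by
    have h1 : Real.log X ≤ Real.log (2 ^ (t + 1)) := Real.log_le_log hX0 ht2.le
    rw [Real.log_pow] at h1
    push_cast at h1
    nlinarith
  have hlogX2 : (t : ℝ) ≤ 9 / 4 * Real.log X := by
    have h1 : Real.log (2 ^ t) ≤ Real.log X := Real.log_le_log (by positivity) ht1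
    rw [Real.log_pow] at h1
    nlinarith
  have hlog0 : 0 < Real.log X := by linarith
  have hp : (0 : ℝ) < 2 ^ t := by positivity
  have hj0 : (0 : ℝ) ≤ j := Nat.cast_nonneg j
  have hX2 : X ≤ 2 * 2 ^ t := by
    rw [pow_succ] at ht2
    linarith
  have hb2 : (b : ℝ) ^ 2 ≤ 2 * 2 ^ t := by
    have h1 : |(b : ℝ)| ^ 2 ≤ (Real.sqrt X) ^ 2 := pow_le_pow_left₀ (abs_nonneg _) hb 2
    rw [sq_abs, Real.sq_sqrt hX0.le] at h1
    linarith
  have hs0 : 0 < Real.sqrt (Real.log X) := Real.sqrt_pos.mpr hlog0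
  have hst : Real.sqrt t ≤ 3 / 2 * Real.sqrt (Real.log X) := by
    rw [show (3 : ℝ) / 2 = Real.sqrt (9 / 4) by
      rw [show (9 : ℝ) / 4 = (3 / 2) ^ 2 by norm_num, Real.sqrt_sq (by norm_num)],
      ← Real.sqrt_mul (by norm_num)]
    exact Real.sqrt_le_sqrt hlogX2
  have hst0 : 0 < Real.sqrt t := Real.sqrt_pos.mpr (by linarith)
  -- the block
  obtain ⟨a, ha, hsm⟩ : ∃ a : ℤ, (∀ n ∈ Finset.Ico a (a + 2 ^ t), 0 < e * n ∧ e * n ≤ 2 ^ t) ∧
      ∀ Y : ℝ, 0 ≤ Y →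
      (((Finset.Ico a (a + 2 ^ t)).filter (fun n : ℤ => |(n : ℝ)| ≤ Y)).card : ℝ) ≤ Y := by
    rcases he with rfl | rfl
    · refine ⟨1, ?_, small_pos t⟩
      intro n hn
      rw [Finset.mem_Ico] at hn
      constructor <;> linarith [hn.1, hn.2]
    · refine ⟨-2 ^ t, ?_, small_neg t⟩
      intro n hn
      rw [Finset.mem_Ico] at hn
      constructor <;> linarith [hn.1, hn.2]
  have h1 := low_scale hf t j b a (by omega) (hT₀ t (by omega)) hjb (le_trans hj hlogX) hb2 hsm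
  set G := (Finset.Ico a (a + 2 ^ t)).filter
        (fun n : ℤ => ∀ i ≤ t, T^[i] n ≠ T^[i] (3 ^ j * n + b)) with hG
  have h2 : (G.card : ℝ) ≤
      count e {n : ℤ | ∀ i : ℕ, (2 : ℝ) ^ i ≤ X → T^[i] n ≠ T^[i] (3 ^ j * n + b)} X := by
    unfold count
    have hfin : {x : ℤ | x ∈ {n : ℤ | ∀ i : ℕ, (2 : ℝ) ^ i ≤ X →
        T^[i] n ≠ T^[i] (3 ^ j * n + b)} ∧ 0 < e * x ∧ ((e * x : ℤ) : ℝ) ≤ X}.Finite := by
      apply Set.Finite.subset (Set.finite_Icc (-⌊X⌋ : ℤ) ⌊X⌋)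
      intro n hn
      obtain ⟨_, h3, h4⟩ := hn
      have h5 := Int.le_floor.mpr h4
      rw [Set.mem_Icc]
      rcases he with rfl | rfl
      · constructor <;> omega
      · constructor <;> omega
    have h3 : G.card = ((G : Set ℤ)).ncard := (Set.ncard_coe_finset G).symm
    rw [h3]
    have h4 : ((G : Set ℤ)).ncard ≤ {x : ℤ | x ∈ {n : ℤ | ∀ i : ℕ, (2 : ℝ) ^ i ≤ X →
        T^[i] n ≠ T^[i] (3 ^ j * n + b)} ∧ 0 < e * x ∧ ((e * x : ℤ) : ℝ) ≤ X}.ncard := by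
      apply Set.ncard_le_ncard _ hfin
      intro n hn
      rw [Finset.mem_coe, hG, Finset.mem_filter] at hn
      obtain ⟨h5, h6⟩ := ha n hn.1
      refine ⟨?_, h5, ?_⟩
      · intro i hi
        apply hn.2 i
        have h7 : (2 : ℝ) ^ i < 2 ^ (t + 1) := lt_of_le_of_lt hi ht2
        have h8 := (pow_lt_pow_iff_right₀ (by norm_num : (1 : ℝ) < 2)).mp h7
        omega
      · have h7 : ((e * n : ℤ) : ℝ) ≤ ((2 ^ t : ℤ) : ℝ) := by exact_mod_cast h6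
        push_cast at h7 ⊢
        linarith
    exact_mod_cast h4
  refine le_trans ?_ (le_trans h1 h2)
  rw [le_div_iff₀ (by positivity)]
  have h3 : (1 + (j : ℝ)) / Real.sqrt (Real.log X) * Real.sqrt t ≤ 3 / 2 * (1 + j) := by
    rw [div_mul_eq_mul_div, div_le_iff₀ hs0]
    have : (0 : ℝ) ≤ 1 + j := by linarith
    nlinarith
  calc 1 / 60 * X * ((1 + (j : ℝ)) / Real.sqrt (Real.log X)) * (20 * Real.sqrt t)
      = 1 / 3 * X * ((1 + (j : ℝ)) / Real.sqrt (Real.log X) * Real.sqrt t) := by ring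
    _ ≤ 1 / 3 * X * (3 / 2 * (1 + j)) := by
      apply mul_le_mul_of_nonneg_left h3
      positivity
    _ = X * (1 / 2 * (1 + j)) := by ring
    _ ≤ (2 * 2 ^ t) * (1 / 2 * (1 + j)) := by
      apply mul_le_mul_of_nonneg_right hX2
      positivity
    _ = 2 ^ t * (1 + (j : ℝ)) := by ring

end Pool.Agent.Lib.MP_edb5be_nt.CO
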