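import Pool.Agent.Lib.MP_edb5be_nt.CO.State

/-!
# Pairs of trajectories of the 3x+1 map: a lower bound for the probability of not merging
-/

set_option autoImplicit false

namespace Pool.Agent.Lib.MP_edb5be_nt.CO

theorem st_false_even {D : ℕ} {s : ℤ} (hs : s % 2 = 0) : st false (D, s) = (D, s / 2) := by
  unfold st
  rw [if_pos (by exact hs)]
  simp

theorem st_true_even {D : ℕ} {s : ℤ} (hs : s % 2 = 0) :
    st true (D, s) = (D, (3 * s + 3 ^ D - 1) / 2) := by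
  unfold st
  rw [if_pos (by exact hs)]
  simp

theorem st_false_odd {D : ℕ} {s : ℤ} (hs : s % 2 ≠ 0) :
    st false (D, s) = (D + 1, (3 * s - 1) / 2) := by
  unfold st
  rw [if_neg (by exact hs)]
  simp

theorem st_true_odd {D : ℕ} {s : ℤ} (hs : s % 2 ≠ 0) :
    st true (D + 1, s) = (D, (s + 3 ^ D) / 2) := by
  unfold st
  rw [if_neg (by exact hs)]
  simp

theorem st_true_odd_zero {s : ℤ} (hs : s % 2 ≠ 0) :
    st true (0, s) = (1, -((3 * s + 1) / 2)) := by
  unfold st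
  rw [if_neg (by exact hs)]
  simp

/-- A cubic polynomial that is a martingale of the simple random walk. -/
noncomputable def mart (a : ℝ) (t : ℕ) (D : ℝ) : ℝ :=
  3 / (2 * a) * (D - (D ^ 3 + 3 * t * D) / (3 * a ^ 2))

theorem mart_succ (a : ℝ) (t : ℕ) (D : ℝ) :
    (mart a t (D + 1) + mart a t (D - 1)) / 2 = mart a (t + 1) D := by
  unfold mart
  push_cast
  ring

theorem mart_zero (a : ℝ) (t : ℕ) : mart a t 0 = 0 := by
  simp [mart]

theorem mart_anti {a : ℝ} (ha : 0 < a) (t : ℕ) {D : ℝ} (hD : 0 ≤ D) :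
    mart a (t + 1) D ≤ mart a t D := by
  unfold mart
  apply mul_le_mul_of_nonneg_left _ (by positivity)
  apply sub_le_sub_left
  apply div_le_div_of_nonneg_right _ (by positivity)
  push_cast
  nlinarith

theorem mart_le_one {a : ℝ} (ha : 0 < a) {D : ℝ} (hD : 0 ≤ D) : mart a 0 D ≤ 1 := by
  unfold mart
  obtain ⟨u, hu, rfl⟩ : ∃ u : ℝ, 0 ≤ u ∧ D = u * a := ⟨D / a, by positivity, by field_simp⟩
  have h1 : 3 / (2 * a) * (u * a - ((u * a) ^ 3 + 3 * ((0 : ℕ) : ℝ) * (u * a)) / (3 * a ^ 2)) =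
      (3 * u - u ^ 3) / 2 := by
    push_cast
    field_simp
    ring
  rw [h1]
  nlinarith [sq_nonneg (u - 1), mul_nonneg (sq_nonneg (u - 1)) (by linarith : (0 : ℝ) ≤ u + 2)]

theorem mart_le {a : ℝ} (ha : 0 < a) (t : ℕ) :
    ∀ (D : ℕ) (s : ℤ), mart a t D ≤ f t (D, s) := by
  induction t with
  | zero =>
    intro D s
    by_cases hp : (D, s) = ((0 : ℕ), (0 : ℤ))
    · obtain ⟨rfl, rfl⟩ := Prod.mk.inj hp
      rw [f_zero_state]
      simp [mart]
    · rw [f_zero hp]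
      exact mart_le_one ha (Nat.cast_nonneg D)
  | succ t ih =>
    intro D s
    rcases Nat.eq_zero_or_pos D with rfl | hD
    · have h1 : mart a (t + 1) ((0 : ℕ) : ℝ) = 0 := by
        rw [Nat.cast_zero]
        exact mart_zero a (t + 1)
      rw [h1]
      exact f_nonneg _ _
    · have hp : (D, s) ≠ ((0 : ℕ), (0 : ℤ)) := by
        intro h
        exact hD.ne' (Prod.mk.inj h).1
      rw [f_succ hp]
      by_cases hs : s % 2 = 0
      · rw [st_false_even hs, st_true_even hs]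
        have h1 := ih D (s / 2)
        have h2 := ih D ((3 * s + 3 ^ D - 1) / 2)
        have h3 := mart_anti ha t (D := (D : ℝ)) (Nat.cast_nonneg D)
        linarith
      · obtain ⟨E, rfl⟩ : ∃ E, D = E + 1 := ⟨D - 1, by omega⟩
        rw [st_false_odd hs, st_true_odd hs]
        have h1 := ih (E + 1 + 1) ((3 * s - 1) / 2)
        have h2 := ih E ((s + 3 ^ E) / 2)
        have h3 := mart_succ a t ((E + 1 : ℕ) : ℝ)
        have h4 : (((E + 1 + 1 : ℕ) : ℝ)) = ((E + 1 : ℕ) : ℝ) + 1 := by push_cast; ring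
        have h5 : ((E : ℕ) : ℝ) = ((E + 1 : ℕ) : ℝ) - 1 := by push_cast; ring
        rw [h4] at h1
        rw [h5] at h2
        linarith

/-- The lower bound for `D ≥ 1` (and, trivially, for `D = 0`). -/
theorem f_lower_D (t D : ℕ) (s : ℤ) :
    (D : ℝ) / Real.sqrt ((D : ℝ) ^ 2 + 3 * t) ≤ f t (D, s) := by
  rcases Nat.eq_zero_or_pos D with rfl | hD
  · simpa using f_nonneg t (0, s)
  have hD0 : (0 : ℝ) < D := by exact_mod_cast hD
  have hpos : (0 : ℝ) < (D : ℝ) ^ 2 + 3 * t := by positivity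
  set a : ℝ := Real.sqrt ((D : ℝ) ^ 2 + 3 * t) with ha
  have ha0 : 0 < a := Real.sqrt_pos.mpr hpos
  have ha2 : a ^ 2 = (D : ℝ) ^ 2 + 3 * t := Real.sq_sqrt hpos.le
  have h1 := mart_le ha0 t D s
  have h2 : mart a t (D : ℝ) = (D : ℝ) / a := by
    unfold mart
    have h3 : (D : ℝ) ^ 3 + 3 * t * D = D * a ^ 2 := by rw [ha2]; ring
    rw [h3]
    field_simp
    ring
  rw [h2] at h1
  exact h1

/-- The lower bound for `D = 0`. -/
theorem f_lower_0 (t : ℕ) : ∀ s : ℤ, s ≠ 0 → 1 / Real.sqrt (1 + 3 * t) ≤ f t (0, s) := by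
  induction t with
  | zero =>
    intro s hs
    have hp : ((0 : ℕ), s) ≠ ((0 : ℕ), (0 : ℤ)) := fun h => hs (Prod.mk.inj h).2
    rw [f_zero hp]
    simp
  | succ t ih =>
    intro s hs
    have hp : ((0 : ℕ), s) ≠ ((0 : ℕ), (0 : ℤ)) := fun h => hs (Prod.mk.inj h).2
    have hmono : 1 / Real.sqrt (1 + 3 * ((t + 1 : ℕ) : ℝ)) ≤ 1 / Real.sqrt (1 + 3 * (t : ℝ)) := by
      apply one_div_le_one_div_of_le
      · apply Real.sqrt_pos.mpr
        positivity
      · apply Real.sqrt_le_sqrt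
        push_cast
        linarith
    rw [f_succ hp]
    by_cases h2 : s % 2 = 0
    · rw [st_false_even h2, st_true_even h2]
      have h3 := ih (s / 2) (by omega)
      have h4 := ih ((3 * s + 3 ^ 0 - 1) / 2) (by rw [pow_zero]; omega)
      linarith
    · rw [st_false_odd h2, st_true_odd_zero h2]
      have h3 := f_lower_D t (0 + 1) ((3 * s - 1) / 2)
      have h4 := f_lower_D t 1 (-((3 * s + 1) / 2))
      norm_num at h3 h4
      have e : (1 : ℝ) / Real.sqrt (1 + 3 * (t : ℝ)) = (Real.sqrt (1 + 3 * (t : ℝ)))⁻¹ := one_div _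
      rw [e] at hmono
      norm_num at hmono ⊢
      linarith

/-- The lower bound in a uniform form. -/
theorem f_lower (t D : ℕ) (s : ℤ) (ht : 1 ≤ t) (hp : (D, s) ≠ ((0 : ℕ), (0 : ℤ)))
    (hD : (D : ℝ) ≤ Real.sqrt (t : ℝ)) : ((D : ℝ) + 1) / (10 * Real.sqrt (t : ℝ)) ≤ f t (D, s) := by
  have ht0 : (0 : ℝ) < t := by exact_mod_cast ht
  have ht1 : (1 : ℝ) ≤ t := by exact_mod_cast ht
  have hsq : 0 < Real.sqrt (t : ℝ) := Real.sqrt_pos.mpr ht0
  have hsq2 : Real.sqrt (t : ℝ) ^ 2 = t := Real.sq_sqrt ht0.le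
  have h4 : Real.sqrt (4 * (t : ℝ)) = 2 * Real.sqrt (t : ℝ) := by
    rw [Real.sqrt_mul (by norm_num), show (4 : ℝ) = 2 ^ 2 by norm_num, Real.sqrt_sq (by norm_num)]
  rcases Nat.eq_zero_or_pos D with rfl | hD1
  · have hs : s ≠ 0 := fun h => hp (by rw [h])
    refine le_trans ?_ (f_lower_0 t s hs)
    have h5 : Real.sqrt (1 + 3 * (t : ℝ)) ≤ 2 * Real.sqrt (t : ℝ) := by
      rw [← h4]
      apply Real.sqrt_le_sqrt
      linarith
    have h6 : 0 < Real.sqrt (1 + 3 * (t : ℝ)) := Real.sqrt_pos.mpr (by positivity)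
    rw [div_le_div_iff₀ (by positivity) h6]
    push_cast
    linarith
  · refine le_trans ?_ (f_lower_D t D s)
    have hD0 : (1 : ℝ) ≤ D := by exact_mod_cast hD1
    have h5 : Real.sqrt ((D : ℝ) ^ 2 + 3 * (t : ℝ)) ≤ 2 * Real.sqrt (t : ℝ) := by
      rw [← h4]
      apply Real.sqrt_le_sqrt
      nlinarith
    have h6 : 0 < Real.sqrt ((D : ℝ) ^ 2 + 3 * (t : ℝ)) := Real.sqrt_pos.mpr (by positivity)
    rw [div_le_div_iff₀ (by positivity) h6]
    have h7 : (D : ℝ) * Real.sqrt ((D : ℝ) ^ 2 + 3 * (t : ℝ)) ≤ D * (2 * Real.sqrt (t : ℝ)) :=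
      mul_le_mul_of_nonneg_left h5 (by linarith)
    have h8 : Real.sqrt ((D : ℝ) ^ 2 + 3 * (t : ℝ)) ≤ D * Real.sqrt ((D : ℝ) ^ 2 + 3 * (t : ℝ)) := by
      nlinarith
    nlinarith

end Pool.Agent.Lib.MP_edb5be_nt.CO
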