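import Pool.Agent.Lib.MP_edb5be_nt.CO.RR

/-!
# Theorem 2: logarithmic dependence on `s`
-/

namespace Pool.Agent.Lib.MP_edb5be_nt.CO

/-- the mean of `D ^ 2` after one step -/
theorem sq_mean (p : ℕ × ℤ) :
    (((st false p).1 : ℝ) ^ 2 + ((st true p).1 : ℝ) ^ 2) / 2 ≤ (p.1 : ℝ) ^ 2 + 1 := by
  obtain ⟨D, s⟩ := p
  by_cases h : s % 2 = 0
  · rw [st_even h, st_even_true h]
    simp only
    linarith
  · rw [st_odd_false h]
    rcases Nat.eq_zero_or_pos D with h0 | h0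
    · subst h0
      rw [st_odd_zero h]
      norm_num
    · obtain ⟨E, rfl⟩ : ∃ E, D = E + 1 := ⟨D - 1, by omega⟩
      rw [st_odd_true h]
      simp only
      push_cast
      linarith

theorem sqrt_mean {a b : ℝ} (ha : 0 ≤ a) (hb : 0 ≤ b) : (√a + √b) / 2 ≤ √((a + b) / 2) := by
  refine Real.le_sqrt_of_sq_le ?_
  have h1 := Real.sq_sqrt ha
  have h2 := Real.sq_sqrt hb
  nlinarith [sq_nonneg (√a - √b)]

/-- the first phase -/
theorem phase {C : ℝ} (hC : 0 < C) {T : ℕ}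
    (hT : ∀ (D : ℕ) (s : ℤ), f T (D, s) ≤ C * (1 + D + r (D, s)) / √T) (m : ℕ) (p : ℕ × ℤ) :
    f (T + m) p ≤ C * (1 + √((p.1 : ℝ) ^ 2 + m) + (978 / 1000 : ℝ) ^ m * r p
      + 28 * (1 - (978 / 1000 : ℝ) ^ m)) / √T := by
  induction m generalizing p with
  | zero =>
    obtain ⟨D, s⟩ := p
    have h1 := hT D s
    have h2 : √((D : ℝ) ^ 2 + (0 : ℕ)) = D := by
      rw [Nat.cast_zero, add_zero, Real.sqrt_sq (Nat.cast_nonneg D)]
    rw [add_zero, h2, pow_zero, one_mul, sub_self, mul_zero, add_zero]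
    exact h1
  | succ m ih =>
    have hl0 : (0 : ℝ) ≤ (978 / 1000 : ℝ) ^ m := by positivity
    have hl1 : (978 / 1000 : ℝ) ^ m ≤ 1 := pow_le_one₀ (by norm_num) (by norm_num)
    have hl2 : (978 / 1000 : ℝ) ^ (m + 1) ≤ 1 := pow_le_one₀ (by norm_num) (by norm_num)
    by_cases hp : p = (0, 0)
    · subst hp
      rw [f_zero_state]
      have h1 := r_nonneg (0, 0)
      have h2 : 0 ≤ 1 - (978 / 1000 : ℝ) ^ (m + 1) := by linarith
      positivity
    · have e1 : f (T + (m + 1)) p = (f (T + m) (st false p) + f (T + m) (st true p)) / 2 := by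
        rw [← add_assoc, f_succ hp]
      rw [e1]
      have h1 := ih (st false p)
      have h2 := ih (st true p)
      have h3 : (√(((st false p).1 : ℝ) ^ 2 + m) + √(((st true p).1 : ℝ) ^ 2 + m)) / 2
          ≤ √((p.1 : ℝ) ^ 2 + (m + 1 : ℕ)) := by
        refine (sqrt_mean (by positivity) (by positivity)).trans (Real.sqrt_le_sqrt ?_)
        have := sq_mean p
        push_cast
        linarith
      have h4 := rr_all p
      have h5 := mul_le_mul_of_nonneg_left h4 hl0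
      have h6 : C * (1 + √(((st false p).1 : ℝ) ^ 2 + m) + (978 / 1000 : ℝ) ^ m * r (st false p)
          + 28 * (1 - (978 / 1000 : ℝ) ^ m)) + C * (1 + √(((st true p).1 : ℝ) ^ 2 + m)
          + (978 / 1000 : ℝ) ^ m * r (st true p) + 28 * (1 - (978 / 1000 : ℝ) ^ m))
          ≤ 2 * (C * (1 + √((p.1 : ℝ) ^ 2 + (m + 1 : ℕ)) + (978 / 1000 : ℝ) ^ (m + 1) * r p
          + 28 * (1 - (978 / 1000 : ℝ) ^ (m + 1)))) := by
        have h7 : (1 + √(((st false p).1 : ℝ) ^ 2 + m) + (978 / 1000 : ℝ) ^ m * r (st false p)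
            + 28 * (1 - (978 / 1000 : ℝ) ^ m)) + (1 + √(((st true p).1 : ℝ) ^ 2 + m)
            + (978 / 1000 : ℝ) ^ m * r (st true p) + 28 * (1 - (978 / 1000 : ℝ) ^ m))
            ≤ 2 * (1 + √((p.1 : ℝ) ^ 2 + (m + 1 : ℕ)) + (978 / 1000 : ℝ) ^ (m + 1) * r p
            + 28 * (1 - (978 / 1000 : ℝ) ^ (m + 1))) := by
          rw [pow_succ (978 / 1000 : ℝ) m]
          nlinarith
        have h8 := mul_le_mul_of_nonneg_left h7 hC.le
        linarith
      have h9 := div_le_div_of_nonneg_right h6 (Real.sqrt_nonneg (T : ℝ))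
      have h10 := add_le_add h1 h2
      rw [← add_div] at h10
      have h11 := h10.trans h9
      rw [mul_div_assoc] at h11
      linarith

theorem log_two_le (s : ℤ) : 69 / 100 ≤ Real.log (2 + |(s : ℝ)|) := by
  have h1 := Real.log_two_gt_d9
  have h2 : Real.log 2 ≤ Real.log (2 + |(s : ℝ)|) :=
    Real.log_le_log (by norm_num) (by linarith [abs_nonneg (s : ℝ)])
  linarith

theorem contract (s : ℤ) {m : ℕ} (hm : 40 * Real.log (2 + |(s : ℝ)|) ≤ m) :
    (978 / 1000 : ℝ) ^ m * √|(s : ℝ)| ≤ 1 := by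
  set L := Real.log (2 + |(s : ℝ)|) with hL
  have h0 : (0 : ℝ) < 2 + |(s : ℝ)| := by positivity
  have hL0 : 0 ≤ L := (by norm_num : (0 : ℝ) ≤ 69 / 100).trans (log_two_le s)
  have h1 : (978 / 1000 : ℝ) ≤ Real.exp (-(22 / 1000)) := by
    have := Real.one_sub_le_exp_neg (22 / 1000 : ℝ)
    linarith
  have h2 : (978 / 1000 : ℝ) ^ m ≤ Real.exp (-(L / 2)) := by
    refine (pow_le_pow_left₀ (by norm_num) h1 m).trans ?_
    rw [← Real.exp_nat_mul]
    refine Real.exp_le_exp.2 ?_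
    nlinarith
  have h3 : √|(s : ℝ)| ≤ Real.exp (L / 2) := by
    rw [Real.exp_half, hL, Real.exp_log h0]
    exact Real.sqrt_le_sqrt (by linarith)
  calc (978 / 1000 : ℝ) ^ m * √|(s : ℝ)| ≤ Real.exp (-(L / 2)) * Real.exp (L / 2) :=
        mul_le_mul h2 h3 (Real.sqrt_nonneg _) (Real.exp_pos _).le
    _ = 1 := by rw [← Real.exp_add, neg_add_cancel, Real.exp_zero]

/-- row PH -/
theorem ph (h : LYStatement) : PHStatement := by
  obtain ⟨C, hC, h⟩ := h
  refine ⟨60 * C + 10, by positivity, fun t ht D s => ?_⟩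
  set L := Real.log (2 + |(s : ℝ)|) with hL
  have hL0 : 69 / 100 ≤ L := log_two_le s
  have ht0 : (0 : ℝ) < t := by exact_mod_cast ht
  have hD : (0 : ℝ) ≤ (D : ℝ) ^ 2 := by positivity
  obtain ⟨m, hm1, hm2⟩ : ∃ m : ℕ, 40 * L ≤ m ∧ (m : ℝ) ≤ 42 * L := by
    refine ⟨⌈40 * L⌉₊, Nat.le_ceil _, ?_⟩
    have := Nat.ceil_lt_add_one (show 0 ≤ 40 * L by linarith)
    linarith
  have hm0 : (0 : ℝ) < m := by linarith
  have hmn : 0 < m := by exact_mod_cast hm0
  rcases Nat.lt_or_ge t (2 * m) with hlt | hge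
  · have h1 : (t : ℝ) < 2 * m := by exact_mod_cast hlt
    have h2 : (1 : ℝ) / 84 ≤ (1 + (D : ℝ) ^ 2 + L) / t := by
      rw [div_le_div_iff₀ (by norm_num) ht0]
      linarith
    have h3 : 1 / 10 ≤ √((1 + (D : ℝ) ^ 2 + L) / t) := by
      refine Real.le_sqrt_of_sq_le (le_trans ?_ h2)
      norm_num
    have h4 := f_le_one t (D, s)
    nlinarith
  · obtain ⟨T, rfl⟩ : ∃ T, t = T + m := ⟨t - m, by omega⟩
    have hT1 : 1 ≤ T := by omega
    have hT0 : (0 : ℝ) < T := by exact_mod_cast hT1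
    have h1 := phase hC (fun D s => h T hT1 D s) m (D, s)
    have h2 := contract s hm1
    have h3 : (978 / 1000 : ℝ) ^ m * r (D, s) ≤ 1 := by
      rw [r]
      simp only
      have h4 : (5 / 9 : ℝ) ^ D ≤ 1 := pow_le_one₀ (by norm_num) (by norm_num)
      have h5 : (0 : ℝ) ≤ (978 / 1000 : ℝ) ^ m * √|(s : ℝ)| := by positivity
      calc (978 / 1000 : ℝ) ^ m * ((5 / 9 : ℝ) ^ D * √|(s : ℝ)|)
          = (5 / 9 : ℝ) ^ D * ((978 / 1000 : ℝ) ^ m * √|(s : ℝ)|) := by ring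
        _ ≤ 1 * 1 := mul_le_mul h4 h2 h5 zero_le_one
        _ = 1 := one_mul 1
    have h4 : (0 : ℝ) ≤ (978 / 1000 : ℝ) ^ m := by positivity
    set B := 1 + (D : ℝ) ^ 2 + L with hB
    have hB1 : 1 ≤ B := by linarith
    have hB0 : 0 ≤ B := by linarith
    have hsB : 1 ≤ √B := by
      rw [Real.one_le_sqrt]
      exact hB1
    have h5 : √((D : ℝ) ^ 2 + m) ≤ 7 * √B := by
      refine Real.sqrt_le_iff.2 ⟨by positivity, ?_⟩
      rw [mul_pow, Real.sq_sqrt hB0]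
      nlinarith
    have h6 : 1 + √((D : ℝ) ^ 2 + m) + (978 / 1000 : ℝ) ^ m * r (D, s)
        + 28 * (1 - (978 / 1000 : ℝ) ^ m) ≤ 37 * √B := by linarith
    have hsT : 0 < √(T : ℝ) := Real.sqrt_pos.2 hT0
    have h7 : f (T + m) (D, s) ≤ C * (37 * √B) / √T :=
      h1.trans (div_le_div_of_nonneg_right (mul_le_mul_of_nonneg_left h6 hC.le) hsT.le)
    refine h7.trans ?_
    have h8 : √B / √T ≤ 3 / 2 * √(B / (T + m : ℕ)) := by
      rw [← Real.sqrt_div hB0]
      have h9 : B / T ≤ (3 / 2) ^ 2 * (B / (T + m : ℕ)) := by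
        have h10 : ((T + m : ℕ) : ℝ) ≤ 2 * T := by
          have : T + m ≤ 2 * T := by omega
          exact_mod_cast this
        rw [← mul_div_assoc, div_le_div_iff₀ hT0 ht0]
        nlinarith
      refine (Real.sqrt_le_sqrt h9).trans ?_
      rw [Real.sqrt_mul (by norm_num), Real.sqrt_sq (by norm_num)]
    have h9 : C * (37 * √B) / √T = 37 * C * (√B / √T) := by ring
    rw [h9]
    have h10 : 0 ≤ √(B / (T + m : ℕ)) := Real.sqrt_nonneg _
    calc 37 * C * (√B / √T) ≤ 37 * C * (3 / 2 * √(B / (T + m : ℕ))) :=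
          mul_le_mul_of_nonneg_left h8 (by positivity)
      _ ≤ (60 * C + 10) * √(B / (T + m : ℕ)) := by nlinarith [mul_nonneg hC.le h10]

end Pool.Agent.Lib.MP_edb5be_nt.CO
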