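import Pool.Agent.Lib.MP_edb5be_nt.CO.Paths
import Pool.Agent.Lib.MP_edb5be_nt.CO.Rows

/-!
# The contraction of `r (D, s) = (5 / 9) ^ D * √|s|`
-/

namespace Pool.Agent.Lib.MP_edb5be_nt.CO

theorem r_nonneg (p : ℕ × ℤ) : 0 ≤ r p := by rw [r]; positivity

theorem sqrt_le_of {X a P b R : ℝ} (ha : 0 ≤ a) (hP : 0 ≤ P) (hb : 0 ≤ b) (hR : 0 ≤ R)
    (h : X ≤ a ^ 2 * P ^ 2 + b ^ 2 * R ^ 2) : √X ≤ a * P + b * R := by
  refine Real.sqrt_le_iff.2 ⟨by positivity, h.trans ?_⟩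
  have : 0 ≤ a * P * (b * R) := by positivity
  nlinarith

theorem st_even_true {D : ℕ} {s : ℤ} (h : s % 2 = 0) :
    st true (D, s) = (D, (3 * s + 3 ^ D - 1) / 2) := by
  simp [st, h]

/-- `(5/9)^D √(3^D) ≤ (963/1000)^D` -/
theorem kR_le (D : ℕ) : (5 / 9 : ℝ) ^ D * √((3 : ℝ) ^ D) ≤ (963 / 1000 : ℝ) ^ D := by
  have h1 : (5 / 9 : ℝ) ^ D = √(((5 / 9 : ℝ) ^ D) ^ 2) := (Real.sqrt_sq (by positivity)).symm
  rw [h1, ← Real.sqrt_mul (by positivity)]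
  refine Real.sqrt_le_iff.2 ⟨by positivity, ?_⟩
  rw [← pow_mul, mul_comm D 2, pow_mul, ← mul_pow, ← pow_mul, mul_comm D 2, pow_mul]
  exact pow_le_pow_left₀ (by norm_num) (by norm_num) D

theorem kD_le (D : ℕ) : (5 / 9 : ℝ) ^ D ≤ (963 / 1000 : ℝ) ^ D :=
  pow_le_pow_left₀ (by norm_num) (by norm_num) D

theorem even_half {s : ℤ} (h : s % 2 = 0) : |((s / 2 : ℤ) : ℝ)| = |(s : ℝ)| / 2 := by
  obtain ⟨m, rfl⟩ : ∃ m, s = 2 * m := ⟨s / 2, by omega⟩
  rw [Int.mul_ediv_cancel_left _ (by norm_num)]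
  push_cast
  rw [abs_mul, abs_of_pos (by norm_num : (0 : ℝ) < 2)]
  ring

theorem odd_pow (D : ℕ) : (3 : ℤ) ^ D % 2 = 1 := by
  induction D with
  | zero => norm_num
  | succ D ih =>
    rw [pow_succ]
    omega

theorem cast_half {z : ℤ} (h : z % 2 = 0) : ((z / 2 : ℤ) : ℝ) = (z : ℝ) / 2 := by
  obtain ⟨m, rfl⟩ : ∃ m, z = 2 * m := ⟨z / 2, by omega⟩
  rw [Int.mul_ediv_cancel_left _ (by norm_num)]
  push_cast
  ring

section

variable {D : ℕ} {s : ℤ}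

theorem sqP (s : ℤ) : √|(s : ℝ)| ^ 2 = |(s : ℝ)| := Real.sq_sqrt (abs_nonneg _)

theorem sqR (D : ℕ) : √((3 : ℝ) ^ D) ^ 2 = 3 ^ D := Real.sq_sqrt (by positivity)

theorem r_even_false (h : s % 2 = 0) :
    r (st false (D, s)) ≤ 7072 / 10000 * r (D, s) := by
  rw [st_even h, r, r]
  simp only
  rw [even_half h]
  have h1 := sqrt_le_of (X := |(s : ℝ)| / 2) (a := 7072 / 10000) (P := √|(s : ℝ)|) (b := 0) (R := 0)
    (by norm_num) (by positivity) le_rfl le_rfl (by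
      rw [sqP]
      have := abs_nonneg (s : ℝ)
      nlinarith)
  have h2 : (0 : ℝ) ≤ (5 / 9 : ℝ) ^ D := by positivity
  nlinarith [mul_le_mul_of_nonneg_left h1 h2]

theorem r_even_true (h : s % 2 = 0) :
    r (st true (D, s)) ≤ 12248 / 10000 * r (D, s) + 7072 / 10000 * (963 / 1000 : ℝ) ^ D := by
  rw [st_even_true h, r, r]
  simp only
  have h3 : (3 * s + 3 ^ D - 1) % 2 = 0 := by
    have := odd_pow D
    generalize (3 : ℤ) ^ D = z at this
    omega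
  rw [cast_half h3]
  push_cast
  have h4 : |(3 * (s : ℝ) + 3 ^ D - 1) / 2| ≤ 3 / 2 * |(s : ℝ)| + 3 ^ D / 2 := by
    have h5 : (1 : ℝ) ≤ 3 ^ D := one_le_pow₀ (by norm_num)
    rcases abs_cases (s : ℝ) with ⟨h, _⟩ | ⟨h, _⟩ <;> rw [h, abs_le] <;> constructor <;> linarith
  have h1 := sqrt_le_of (X := |(3 * (s : ℝ) + 3 ^ D - 1) / 2|) (a := 12248 / 10000)
    (P := √|(s : ℝ)|) (b := 7072 / 10000) (R := √((3 : ℝ) ^ D))
    (by norm_num) (by positivity) (by norm_num) (by positivity) (by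
      rw [sqP, sqR]
      have := abs_nonneg (s : ℝ)
      have h5 : (1 : ℝ) ≤ 3 ^ D := one_le_pow₀ (by norm_num)
      nlinarith)
  have h2 : (0 : ℝ) ≤ (5 / 9 : ℝ) ^ D := by positivity
  have h6 := kR_le D
  have h7 := mul_le_mul_of_nonneg_left h1 h2
  calc (5 / 9 : ℝ) ^ D * √|(3 * (s : ℝ) + 3 ^ D - 1) / 2|
      ≤ (5 / 9 : ℝ) ^ D * (12248 / 10000 * √|(s : ℝ)| + 7072 / 10000 * √((3 : ℝ) ^ D)) := h7
    _ = 12248 / 10000 * ((5 / 9 : ℝ) ^ D * √|(s : ℝ)|)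
        + 7072 / 10000 * ((5 / 9 : ℝ) ^ D * √((3 : ℝ) ^ D)) := by ring
    _ ≤ _ := by linarith

theorem r_even_true_zero (h : s % 2 = 0) :
    r (st true (0, s)) ≤ 12248 / 10000 * r (0, s) := by
  rw [st_even_true h, r, r]
  simp only
  have h3 : (3 * s + 3 ^ 0 - 1) % 2 = 0 := by
    rw [pow_zero]
    omega
  rw [cast_half h3]
  push_cast
  have h4 : |(3 * (s : ℝ) + 1 - 1) / 2| = 3 / 2 * |(s : ℝ)| := by
    rw [show (3 * (s : ℝ) + 1 - 1) / 2 = 3 / 2 * s by ring, abs_mul,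
      abs_of_pos (by norm_num : (0 : ℝ) < 3 / 2)]
  rw [h4]
  have h1 := sqrt_le_of (X := 3 / 2 * |(s : ℝ)|) (a := 12248 / 10000)
    (P := √|(s : ℝ)|) (b := 0) (R := 0)
    (by norm_num) (by positivity) (by norm_num) (by positivity) (by
      rw [sqP]
      have := abs_nonneg (s : ℝ)
      nlinarith)
  simp only [pow_zero, one_mul]
  linarith

theorem r_odd_false (h : s % 2 ≠ 0) :
    r (st false (D, s)) ≤ 5 / 9 * (12248 / 10000 * r (D, s) + 7072 / 10000 * (5 / 9 : ℝ) ^ D) := by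
  rw [st_odd_false h, r, r]
  simp only
  rw [cast_half (by omega)]
  push_cast
  have h4 : |(3 * (s : ℝ) - 1) / 2| ≤ 3 / 2 * |(s : ℝ)| + 1 / 2 := by
    rcases abs_cases (s : ℝ) with ⟨h, _⟩ | ⟨h, _⟩ <;> rw [h, abs_le] <;> constructor <;> linarith
  have h1 := sqrt_le_of (X := |(3 * (s : ℝ) - 1) / 2|) (a := 12248 / 10000)
    (P := √|(s : ℝ)|) (b := 7072 / 10000) (R := 1)
    (by norm_num) (by positivity) (by norm_num) (by positivity) (by
      rw [sqP]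
      have := abs_nonneg (s : ℝ)
      nlinarith)
  have h2 : (0 : ℝ) ≤ (5 / 9 : ℝ) ^ (D + 1) := by positivity
  have h7 := mul_le_mul_of_nonneg_left h1 h2
  calc (5 / 9 : ℝ) ^ (D + 1) * √|(3 * (s : ℝ) - 1) / 2|
      ≤ (5 / 9 : ℝ) ^ (D + 1) * (12248 / 10000 * √|(s : ℝ)| + 7072 / 10000 * 1) := h7
    _ = _ := by rw [pow_succ]; ring

theorem r_odd_true (h : s % 2 ≠ 0) :
    r (st true (D + 1, s)) ≤ 9 / 5 * (7072 / 10000 * r (D + 1, s)
      + 4083 / 10000 * (963 / 1000 : ℝ) ^ (D + 1)) := by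
  rw [st_odd_true h, r, r]
  simp only
  have h3 : (s + 3 ^ D) % 2 = 0 := by
    have := odd_pow D
    generalize (3 : ℤ) ^ D = z at this
    omega
  rw [cast_half h3]
  push_cast
  have h4 : |((s : ℝ) + 3 ^ D) / 2| ≤ |(s : ℝ)| / 2 + 3 ^ (D + 1) / 6 := by
    have h5 : (1 : ℝ) ≤ 3 ^ D := one_le_pow₀ (by norm_num)
    rw [pow_succ]
    rcases abs_cases (s : ℝ) with ⟨h, _⟩ | ⟨h, _⟩ <;> rw [h, abs_le] <;> constructor <;> linarith
  have h1 := sqrt_le_of (X := |((s : ℝ) + 3 ^ D) / 2|) (a := 7072 / 10000)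
    (P := √|(s : ℝ)|) (b := 4083 / 10000) (R := √((3 : ℝ) ^ (D + 1)))
    (by norm_num) (by positivity) (by norm_num) (by positivity) (by
      rw [sqP, sqR]
      have := abs_nonneg (s : ℝ)
      have h5 : (1 : ℝ) ≤ 3 ^ (D + 1) := one_le_pow₀ (by norm_num)
      nlinarith)
  have h2 : (0 : ℝ) ≤ (5 / 9 : ℝ) ^ D := by positivity
  have h6 := kR_le (D + 1)
  have h7 := mul_le_mul_of_nonneg_left h1 h2
  have h8 : (5 / 9 : ℝ) ^ D = 9 / 5 * (5 / 9 : ℝ) ^ (D + 1) := by rw [pow_succ]; ring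
  calc (5 / 9 : ℝ) ^ D * √|((s : ℝ) + 3 ^ D) / 2|
      ≤ (5 / 9 : ℝ) ^ D * (7072 / 10000 * √|(s : ℝ)| + 4083 / 10000 * √((3 : ℝ) ^ (D + 1))) := h7
    _ = 9 / 5 * (7072 / 10000 * ((5 / 9 : ℝ) ^ (D + 1) * √|(s : ℝ)|)
        + 4083 / 10000 * ((5 / 9 : ℝ) ^ (D + 1) * √((3 : ℝ) ^ (D + 1)))) := by rw [h8]; ring
    _ ≤ _ := by linarith

theorem r_odd_zero (h : s % 2 ≠ 0) :
    r (st true (0, s)) ≤ 5 / 9 * (12248 / 10000 * r (0, s) + 7072 / 10000) := by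
  rw [st_odd_zero h, r, r]
  simp only
  have e : ((-((3 * s + 1) / 2) : ℤ) : ℝ) = -((3 * (s : ℝ) + 1) / 2) := by
    rw [Int.cast_neg, cast_half (by omega)]
    push_cast
    ring
  rw [e, abs_neg]
  have h4 : |(3 * (s : ℝ) + 1) / 2| ≤ 3 / 2 * |(s : ℝ)| + 1 / 2 := by
    rcases abs_cases (s : ℝ) with ⟨h, _⟩ | ⟨h, _⟩ <;> rw [h, abs_le] <;> constructor <;> linarith
  have h1 := sqrt_le_of (X := |(3 * (s : ℝ) + 1) / 2|) (a := 12248 / 10000)
    (P := √|(s : ℝ)|) (b := 7072 / 10000) (R := 1)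
    (by norm_num) (by positivity) (by norm_num) (by positivity) (by
      rw [sqP]
      have := abs_nonneg (s : ℝ)
      nlinarith)
  simp only [pow_zero, one_mul, pow_one]
  linarith

/-- even `s` -/
theorem rr_even (D : ℕ) (h : s % 2 = 0) :
    (r (st false (D, s)) + r (st true (D, s))) / 2
      ≤ 967 / 1000 * r (D, s) + 36 / 100 * (963 / 1000 : ℝ) ^ D := by
  have h1 := r_even_false (D := D) h
  have h2 := r_even_true (D := D) h
  have h3 := r_nonneg (D, s)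
  have h4 : (0 : ℝ) ≤ (963 / 1000 : ℝ) ^ D := by positivity
  linarith

/-- even `s`, `D = 0` -/
theorem rr_even_zero (h : s % 2 = 0) :
    (r (st false (0, s)) + r (st true (0, s))) / 2 ≤ 967 / 1000 * r (0, s) := by
  have h1 := r_even_false (D := 0) h
  have h2 := r_even_true_zero h
  have h3 := r_nonneg (0, s)
  linarith

/-- odd `s`, `D ≥ 1` -/
theorem rr_odd {D : ℕ} (hD : 1 ≤ D) (h : s % 2 ≠ 0) :
    (r (st false (D, s)) + r (st true (D, s))) / 2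
      ≤ 978 / 1000 * r (D, s) + 6 / 10 * (963 / 1000 : ℝ) ^ D := by
  obtain ⟨D, rfl⟩ : ∃ E, D = E + 1 := ⟨D - 1, by omega⟩
  have h1 := r_odd_false (D := D + 1) h
  have h2 := r_odd_true (D := D) h
  have h3 := r_nonneg (D + 1, s)
  have h4 : (0 : ℝ) ≤ (963 / 1000 : ℝ) ^ (D + 1) := by positivity
  have h5 := kD_le (D + 1)
  linarith

/-- odd `s`, `D = 0` -/
theorem rr_odd_zero (h : s % 2 ≠ 0) :
    (r (st false (0, s)) + r (st true (0, s))) / 2 ≤ 69 / 100 * r (0, s) + 4 / 10 := by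
  have h1 := r_odd_false (D := 0) h
  have h2 := r_odd_zero h
  have h3 := r_nonneg (0, s)
  simp only [pow_zero] at h1
  linarith

/-- one bound for all states -/
theorem rr_all (p : ℕ × ℤ) :
    (r (st false p) + r (st true p)) / 2 ≤ 978 / 1000 * r p + 6 / 10 := by
  obtain ⟨D, s⟩ := p
  have h3 := r_nonneg (D, s)
  have h4 : (963 / 1000 : ℝ) ^ D ≤ 1 := pow_le_one₀ (by norm_num) (by norm_num)
  by_cases h : s % 2 = 0
  · have := rr_even D h
    linarith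
  · rcases Nat.eq_zero_or_pos D with h0 | h0
    · subst h0
      have := rr_odd_zero h
      linarith
    · have := rr_odd h0 h
      linarith

end

/-- row RR -/
theorem rr : RRStatement := by
  unfold RRStatement g
  exact ⟨fun D _ h => rr_even D h, fun _ h => rr_even_zero h, fun _ _ hD h => rr_odd hD h,
    fun _ h => rr_odd_zero h⟩

/-- row PP -/
theorem pp : PPStatement := paths

end Pool.Agent.Lib.MP_edb5be_nt.CO
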