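import Pool.Agent.Lib.MP_edb5be_nt.CO.Rows

/-!
# Pairs of trajectories of the 3x+1 map: the integers up to `X` whose pair does not meet
-/

set_option autoImplicit false

namespace Pool.Agent.Lib.MP_edb5be_nt.CO

/-- In a union of `k` consecutive intervals of length `2 ^ t`. -/
theorem count_blocks (hct : CTStatement) (t : ℕ) (p : ℕ × ℤ) (a : ℤ) (k : ℕ) :
    (({x : ℤ | a ≤ x ∧ x < a + k * 2 ^ t ∧ nm t p x}.ncard : ℕ) : ℝ) ≤ k * (2 ^ t * f t p) := by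
  induction k with
  | zero =>
    have h : {x : ℤ | a ≤ x ∧ x < a + ((0 : ℕ) : ℤ) * 2 ^ t ∧ nm t p x} = ∅ := by
      ext x
      simp only [Set.mem_ofPred_eq, Set.mem_empty_iff_false, iff_false]
      rintro ⟨h1, h2, -⟩
      push_cast at h2
      linarith
    rw [h]
    simp
  | succ k ih =>
    have h1 : {x : ℤ | a ≤ x ∧ x < a + ((k + 1 : ℕ) : ℤ) * 2 ^ t ∧ nm t p x} ⊆
        {x : ℤ | a ≤ x ∧ x < a + (k : ℤ) * 2 ^ t ∧ nm t p x} ∪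
        {x : ℤ | a + (k : ℤ) * 2 ^ t ≤ x ∧ x < a + (k : ℤ) * 2 ^ t + 2 ^ t ∧ nm t p x} := by
      rintro x ⟨h1, h2, h3⟩
      push_cast at h2
      rcases lt_or_ge x (a + (k : ℤ) * 2 ^ t) with h | h
      · exact Or.inl ⟨h1, h, h3⟩
      · exact Or.inr ⟨h, by linarith, h3⟩
    have hfin : ∀ a b : ℤ, {x : ℤ | a ≤ x ∧ x < b ∧ nm t p x}.Finite := by
      intro a b
      apply (Set.finite_Ico a b).subset
      rintro x ⟨h1, h2, -⟩
      exact ⟨h1, h2⟩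
    have h2 := Set.ncard_le_ncard h1 ((hfin _ _).union (hfin _ _))
    have h3 := Set.ncard_union_le {x : ℤ | a ≤ x ∧ x < a + (k : ℤ) * 2 ^ t ∧ nm t p x}
      {x : ℤ | a + (k : ℤ) * 2 ^ t ≤ x ∧ x < a + (k : ℤ) * 2 ^ t + 2 ^ t ∧ nm t p x}
    have h4 := hct.1 t p (a + (k : ℤ) * 2 ^ t)
    have h5 : (({x : ℤ | a ≤ x ∧ x < a + ((k + 1 : ℕ) : ℤ) * 2 ^ t ∧ nm t p x}.ncard : ℕ) : ℝ) ≤
        (({x : ℤ | a ≤ x ∧ x < a + (k : ℤ) * 2 ^ t ∧ nm t p x}.ncard : ℕ) : ℝ) +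
        (({x : ℤ | a + (k : ℤ) * 2 ^ t ≤ x ∧ x < a + (k : ℤ) * 2 ^ t + 2 ^ t ∧
          nm t p x}.ncard : ℕ) : ℝ) := by exact_mod_cast h2.trans h3
    push_cast
    calc _ ≤ _ := h5
      _ ≤ (k : ℝ) * (2 ^ t * f t p) + 2 ^ t * f t p := add_le_add ih h4.le
      _ = _ := by ring

/-- In an interval of real length `L`. -/
theorem count_interval (hct : CTStatement) (t : ℕ) (p : ℕ × ℤ) (a b : ℤ) (hab : a ≤ b) :
    (({x : ℤ | a ≤ x ∧ x < b ∧ nm t p x}.ncard : ℕ) : ℝ) ≤ ((b - a : ℤ) + 2 ^ t) * f t p := by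
  obtain ⟨k, hk1, hk2⟩ : ∃ k : ℕ, b - a ≤ k * 2 ^ t ∧ (k : ℤ) * 2 ^ t ≤ b - a + 2 ^ t := by
    have hpos : (0 : ℤ) < 2 ^ t := by positivity
    refine ⟨((b - a) / 2 ^ t + 1).toNat, ?_, ?_⟩
    · have h0 : 0 ≤ (b - a) / 2 ^ t := Int.ediv_nonneg (by linarith) hpos.le
      rw [Int.toNat_of_nonneg (by linarith)]
      have h1 := Int.emod_add_mul_ediv (b - a) (2 ^ t)
      have h2 := Int.emod_lt_of_pos (b - a) hpos
      nlinarith
    · have h0 : 0 ≤ (b - a) / 2 ^ t := Int.ediv_nonneg (by linarith) hpos.le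
      rw [Int.toNat_of_nonneg (by linarith)]
      have h1 := Int.emod_add_mul_ediv (b - a) (2 ^ t)
      have h2 := Int.emod_nonneg (b - a) hpos.ne'
      nlinarith
  have h1 : {x : ℤ | a ≤ x ∧ x < b ∧ nm t p x} ⊆
      {x : ℤ | a ≤ x ∧ x < a + k * 2 ^ t ∧ nm t p x} := by
    rintro x ⟨h1, h2, h3⟩
    exact ⟨h1, by linarith, h3⟩
  have hfin : {x : ℤ | a ≤ x ∧ x < a + k * 2 ^ t ∧ nm t p x}.Finite := by
    apply (Set.finite_Ico a (a + k * 2 ^ t)).subset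
    rintro x ⟨h1, h2, -⟩
    exact ⟨h1, h2⟩
  have h2 := Set.ncard_le_ncard h1 hfin
  have h3 := count_blocks hct t p a k
  have h4 : (({x : ℤ | a ≤ x ∧ x < b ∧ nm t p x}.ncard : ℕ) : ℝ) ≤
      (({x : ℤ | a ≤ x ∧ x < a + k * 2 ^ t ∧ nm t p x}.ncard : ℕ) : ℝ) := by exact_mod_cast h2
  have h5 : (k : ℝ) * 2 ^ t ≤ ((b - a : ℤ) : ℝ) + 2 ^ t := by exact_mod_cast hk2
  calc _ ≤ _ := h4
    _ ≤ _ := h3
    _ = (k * 2 ^ t) * f t p := by ring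
    _ ≤ _ := mul_le_mul_of_nonneg_right h5 (f_nonneg t p)

/-- The pairs that do not meet, in a bounded set of integers. -/
theorem not_meet_le (hct : CTStatement) (t j : ℕ) (b a c : ℤ) (hac : a ≤ c) (S : Set ℤ)
    (hS : ∀ n ∈ S, a ≤ n ∧ n < c ∧ ∀ i ≤ t, T^[i] n ≠ T^[i] (3 ^ j * n + b)) :
    ((S.ncard : ℕ) : ℝ) ≤ ((c - a : ℤ) + 2 ^ t) * f t (j, -b) := by
  have h1 : S ⊆ {x : ℤ | a ≤ x ∧ x < c ∧ nm t (j, -b) x} := by
    intro n hn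
    obtain ⟨h1, h2, h3⟩ := hS n hn
    refine ⟨h1, h2, ?_⟩
    by_contra h4
    obtain ⟨i, hi, hi2⟩ := hct.2 t j (-b) n h4
    apply h3 i hi
    rw [hi2, sub_neg_eq_add]
  have hfin : {x : ℤ | a ≤ x ∧ x < c ∧ nm t (j, -b) x}.Finite := by
    apply (Set.finite_Ico a c).subset
    rintro x ⟨h1, h2, -⟩
    exact ⟨h1, h2⟩
  have h2 : ((S.ncard : ℕ) : ℝ) ≤
      (({x : ℤ | a ≤ x ∧ x < c ∧ nm t (j, -b) x}.ncard : ℕ) : ℝ) := by
    exact_mod_cast Set.ncard_le_ncard h1 hfin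
  exact h2.trans (count_interval hct t (j, -b) a c hac)

/-- The first part of Theorem 3. -/
theorem t3_fix (hct : CTStatement) (t j : ℕ) (b : ℤ) (X : ℝ) (hX : (2 : ℝ) ^ t ≤ X) :
    (({n : ℤ | |(n : ℝ)| ≤ X ∧ ∀ i ≤ t, T^[i] n ≠ T^[i] (3 ^ j * n + b)}.ncard : ℕ) : ℝ) ≤
      6 * X * f t (j, -b) := by
  have hX1 : 1 ≤ X := le_trans (one_le_pow₀ (by norm_num)) hX
  have h1 := not_meet_le hct t j b (-⌊X⌋) (⌊X⌋ + 1)
    (by have : 0 ≤ ⌊X⌋ := Int.floor_nonneg.mpr (by linarith); linarith)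
    {n : ℤ | |(n : ℝ)| ≤ X ∧ ∀ i ≤ t, T^[i] n ≠ T^[i] (3 ^ j * n + b)} (by
      rintro n ⟨h1, h2⟩
      rw [abs_le] at h1
      have h3 : n ≤ ⌊X⌋ := Int.le_floor.mpr h1.2
      have h4 : -n ≤ ⌊X⌋ := Int.le_floor.mpr (by push_cast; linarith [h1.1])
      exact ⟨by linarith, by linarith, h2⟩)
  refine h1.trans (mul_le_mul_of_nonneg_right ?_ (f_nonneg t _))
  push_cast
  have h2 : (⌊X⌋ : ℝ) ≤ X := Int.floor_le X
  linarith

/-- Row T3. -/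
theorem t3 (hct : CTStatement) (hph : PHStatement) : T3Statement := by
  obtain ⟨C, hC, h⟩ := hph
  refine ⟨6 * C, by positivity, fun t j b X ht hX => ?_⟩
  have hX1 : 1 ≤ X := le_trans (one_le_pow₀ (by norm_num)) hX
  have h1 := t3_fix hct t j b X hX
  have h2 := h t ht j (-b)
  have h3 : |((-b : ℤ) : ℝ)| = |(b : ℝ)| := by push_cast; exact abs_neg _
  rw [h3] at h2
  calc _ ≤ _ := h1
    _ ≤ 6 * X * (C * Real.sqrt ((1 + (j : ℝ) ^ 2 + Real.log (2 + |(b : ℝ)|)) / t)) := by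
        apply mul_le_mul_of_nonneg_left h2
        positivity
    _ = _ := by ring

/-- Row T3, the form with all times up to `log X / log 2`. -/
theorem t3log (ht3 : T3Statement) : T3LogStatement := by
  obtain ⟨C, hC, h⟩ := ht3
  refine ⟨3 * C, by positivity, fun j b X hX => ?_⟩
  have hX0 : X ≠ 0 := by linarith
  have hfl : 2 ≤ ⌊X⌋₊ := Nat.le_floor (by exact_mod_cast hX)
  set t := Nat.log 2 ⌊X⌋₊ with ht
  have ht1 : 1 ≤ t := Nat.log_pos (by norm_num) hfl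
  have ht2 : (2 : ℝ) ^ t ≤ X := by
    have h1 : 2 ^ t ≤ ⌊X⌋₊ := Nat.pow_log_le_self 2 (by omega)
    have h2 : ((2 ^ t : ℕ) : ℝ) ≤ (⌊X⌋₊ : ℝ) := by exact_mod_cast h1
    push_cast at h2
    exact h2.trans (Nat.floor_le (by linarith))
  have ht3 : X < (2 : ℝ) ^ (t + 1) := by
    have h1 : ⌊X⌋₊ < 2 ^ (t + 1) := Nat.lt_pow_succ_log_self (by norm_num) _
    have h2 : X < ((2 ^ (t + 1) : ℕ) : ℝ) := (Nat.floor_lt (by linarith)).mp h1
    push_cast at h2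
    exact h2
  have hlogX : 0 < Real.log X := Real.log_pos (by linarith)
  have ht0 : (0 : ℝ) < t := by exact_mod_cast ht1
  have hlog2 : Real.log 2 < 1 := by
    have := Real.log_two_lt_d9
    linarith
  have hlog2' : 1 / 2 < Real.log 2 := by
    have := Real.log_two_gt_d9
    linarith
  have ht4 : Real.log X ≤ 2 * t := by
    have h1 : Real.log X ≤ Real.log ((2 : ℝ) ^ (t + 1)) := Real.log_le_log (by linarith) ht3.le
    rw [Real.log_pow] at h1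
    push_cast at h1
    have h2 : ((t : ℝ) + 1) * Real.log 2 ≤ ((t : ℝ) + 1) * 1 :=
      mul_le_mul_of_nonneg_left hlog2.le (by positivity)
    have h3 : (1 : ℝ) ≤ t := by exact_mod_cast ht1
    linarith
  have hlb : Real.log 2 ≤ Real.log (2 + |(b : ℝ)|) :=
    Real.log_le_log (by norm_num) (by have := abs_nonneg (b : ℝ); linarith)
  have hfin : {n : ℤ | |(n : ℝ)| ≤ X ∧ ∀ i ≤ t, T^[i] n ≠ T^[i] (3 ^ j * n + b)}.Finite := by
    apply (Set.finite_Icc (-⌊X⌋) ⌊X⌋).subset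
    rintro n ⟨h1, -⟩
    rw [abs_le] at h1
    have h3 : n ≤ ⌊X⌋ := Int.le_floor.mpr h1.2
    have h4 : -n ≤ ⌊X⌋ := Int.le_floor.mpr (by push_cast; linarith [h1.1])
    exact ⟨by linarith, h3⟩
  have hsub : {n : ℤ | |(n : ℝ)| ≤ X ∧ ∀ i : ℕ, (2 : ℝ) ^ i ≤ X →
      T^[i] n ≠ T^[i] (3 ^ j * n + b)} ⊆
      {n : ℤ | |(n : ℝ)| ≤ X ∧ ∀ i ≤ t, T^[i] n ≠ T^[i] (3 ^ j * n + b)} := by
    rintro n ⟨h1, h2⟩
    refine ⟨h1, fun i hi => h2 i (le_trans (pow_le_pow_right₀ (by norm_num) hi) ht2)⟩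
  have h1 : (({n : ℤ | |(n : ℝ)| ≤ X ∧ ∀ i : ℕ, (2 : ℝ) ^ i ≤ X →
      T^[i] n ≠ T^[i] (3 ^ j * n + b)}.ncard : ℕ) : ℝ) ≤
      (({n : ℤ | |(n : ℝ)| ≤ X ∧ ∀ i ≤ t, T^[i] n ≠ T^[i] (3 ^ j * n + b)}.ncard : ℕ) : ℝ) := by
    exact_mod_cast Set.ncard_le_ncard hsub hfin
  have h2 := h t j b X ht1 ht2
  have h3 : Real.sqrt ((1 + (j : ℝ) ^ 2 + Real.log (2 + |(b : ℝ)|)) / t) ≤
      3 * Real.sqrt (((j : ℝ) ^ 2 + Real.log (2 + |(b : ℝ)|)) / Real.log X) := by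
    have e1 : (3 : ℝ) = Real.sqrt 9 := by
      rw [show (9 : ℝ) = 3 ^ 2 by norm_num, Real.sqrt_sq (by norm_num)]
    rw [e1, ← Real.sqrt_mul (by norm_num)]
    apply Real.sqrt_le_sqrt
    have hj : 0 ≤ (j : ℝ) ^ 2 := sq_nonneg _
    rw [div_le_iff₀ ht0]
    have h4 : 9 * (((j : ℝ) ^ 2 + Real.log (2 + |(b : ℝ)|)) / Real.log X) * t =
        9 * ((j : ℝ) ^ 2 + Real.log (2 + |(b : ℝ)|)) * (t / Real.log X) := by
      field_simp
    rw [h4]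
    have h5 : 1 / 2 ≤ (t : ℝ) / Real.log X := by
      rw [div_le_div_iff₀ (by norm_num) hlogX]
      linarith
    have h6 : 9 * ((j : ℝ) ^ 2 + Real.log (2 + |(b : ℝ)|)) * (1 / 2) ≤
        9 * ((j : ℝ) ^ 2 + Real.log (2 + |(b : ℝ)|)) * (t / Real.log X) := by
      apply mul_le_mul_of_nonneg_left h5
      linarith
    linarith
  calc _ ≤ _ := h1
    _ ≤ _ := h2
    _ ≤ C * X * (3 * Real.sqrt (((j : ℝ) ^ 2 + Real.log (2 + |(b : ℝ)|)) / Real.log X)) := by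
        apply mul_le_mul_of_nonneg_left h3
        have : 0 < X := by linarith
        positivity
    _ = _ := by ring

end Pool.Agent.Lib.MP_edb5be_nt.CO
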