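import Pool.Agent.Lib.MP_edb5be_nt.CO.Rows

/-!
# The waiting potential of the states of a pair

`w (D, s)` is the expected number of steps from the state `(D, s)`, `D ≥ 1`, to a state with odd
second entry.
-/

set_option autoImplicit false

namespace Pool.Agent.Lib.MP_edb5be_nt.CO

open Finset

theorem one_lt_three_pow {D : ℕ} (hD : D ≠ 0) : 1 < 3 ^ D := Nat.one_lt_pow hD (by norm_num)

theorem three_pow_sub_one_ne {D : ℕ} (hD : D ≠ 0) : 3 ^ D - 1 ≠ 0 := by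
  have := one_lt_three_pow hD
  omega

theorem two_dvd_three_pow_sub_one (D : ℕ) : 2 ∣ 3 ^ D - 1 := by
  have h : 3 ^ D % 2 = 1 := by
    rw [Nat.pow_mod]; norm_num
  have h1 : 0 < 3 ^ D := by positivity
  omega

theorem v_pos {D : ℕ} (hD : D ≠ 0) : 1 ≤ v D := by
  unfold v
  exact (padicValNat_dvd_iff_le (three_pow_sub_one_ne hD)).1 (by
    simpa using two_dvd_three_pow_sub_one D)

theorem two_pow_v_dvd (D : ℕ) : 2 ^ v D ∣ 3 ^ D - 1 := pow_padicValNat_dvd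

theorem not_two_pow_v_dvd {D : ℕ} (hD : D ≠ 0) : ¬ 2 ^ (v D + 1) ∣ 3 ^ D - 1 := by
  intro h
  have := (padicValNat_dvd_iff_le (p := 2) (three_pow_sub_one_ne hD)).1 h
  unfold v at this
  omega

theorem wm_of_ne {D : ℕ} (hD : D ≠ 0) : wm D = v D + 1 := by
  obtain ⟨n, rfl⟩ := Nat.exists_eq_succ_of_ne_zero hD
  rfl

theorem w_zero (s : ℤ) : w (0, s) = 0 := by simp [w]

theorem w_le (p : ℕ × ℤ) : w p ≤ wm p.1 := by
  unfold w
  split_ifs with h1 h2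
  · exact Nat.zero_le _
  · rw [wm_of_ne h1]
    have := Finset.card_filter_le (Finset.Icc 1 (v p.1)) (fun m => (2 : ℤ) ^ m ∣ p.2)
    rw [Nat.card_Icc] at this
    omega
  · rw [wm_of_ne h1]
    have := Finset.card_filter_le (Finset.Icc 1 (v p.1)) (fun m => (2 : ℤ) ^ m ∣ p.2)
    rw [Nat.card_Icc] at this
    omega

theorem w_odd {D : ℕ} {s : ℤ} (hs : s % 2 ≠ 0) : w (D, s) = 0 := by
  have h0 : ∀ m, 1 ≤ m → ¬ (2 : ℤ) ^ m ∣ s := by
    intro m hm h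
    have h2 : (2 : ℤ) ∣ s := (dvd_pow_self 2 (by omega)).trans h
    omega
  unfold w
  split_ifs with h1 h2
  · rfl
  · exact absurd h2 (h0 _ (v_pos h1))
  · rw [add_zero, Finset.card_eq_zero, Finset.filter_eq_empty_iff]
    intro m hm
    exact h0 m (Finset.mem_Icc.1 hm).1

/-- The number of the `m` in `[1, v]` with `2 ^ (m + 1) ∣ s` for even `s`. -/
theorem card_shift {V : ℕ} (hV : 1 ≤ V) {s t : ℤ} (hs : (2 : ℤ) ∣ s)
    (hst : ∀ m, m ≤ V → ((2 : ℤ) ^ m ∣ t ↔ (2 : ℤ) ^ m ∣ s)) :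
    #{m ∈ Finset.Icc 1 V | (2 : ℤ) ^ (m + 1) ∣ t} + 1 =
      #{m ∈ Finset.Icc 1 V | (2 : ℤ) ^ m ∣ s} + (if (2 : ℤ) ^ (V + 1) ∣ t then 1 else 0) := by
  have h1 : ∀ V' : ℕ, 1 ≤ V' → V' ≤ V → #{m ∈ Finset.Ico 1 V' | (2 : ℤ) ^ (m + 1) ∣ t} + 1 =
      #{m ∈ Finset.Icc 1 V' | (2 : ℤ) ^ m ∣ s} := by
    intro V' h1
    induction V', h1 using Nat.le_induction with
    | base =>
      intro _
      simp [hs, Finset.filter_singleton]
    | succ n hn ih =>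
      intro hnV
      have ih' := ih (by omega)
      rw [← Finset.insert_Ico_right_eq_Ico_add_one hn,
        ← Finset.insert_Icc_right_eq_Icc_add_one (by omega), Finset.filter_insert,
        Finset.filter_insert]
      have h3 := hst (n + 1) hnV
      by_cases h4 : (2 : ℤ) ^ (n + 1) ∣ s
      · rw [if_pos (h3.2 h4), if_pos h4, Finset.card_insert_of_notMem (by simp),
          Finset.card_insert_of_notMem (by simp)]
        omega
      · rw [if_neg (fun h => h4 (h3.1 h)), if_neg h4]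
        exact ih'
  have h2 := h1 V hV le_rfl
  rw [← Finset.Ico_insert_right hV, Finset.filter_insert]
  split_ifs with h3
  · rw [Finset.card_insert_of_notMem (by simp)]
    rw [Finset.Ico_insert_right hV]
    omega
  · rw [Finset.Ico_insert_right hV]
    omega

theorem w_even {D : ℕ} {s : ℤ} (hD : D ≠ 0) (hs : s % 2 = 0) :
    w (st false (D, s)) + w (st true (D, s)) + 2 = 2 * w (D, s) := by
  have hV := v_pos hD
  have e1 : st false (D, s) = (D, s / 2) := by simp [st, hs]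
  have e2 : st true (D, s) = (D, (3 * s + (3 ^ D - 1)) / 2) := by
    simp [st, hs]
    ring_nf
  have hs2 : (2 : ℤ) ∣ s := Int.dvd_of_emod_eq_zero hs
  have hc1 : (2 : ℤ) ^ v D ∣ 3 ^ D - 1 := by
    have h := two_pow_v_dvd D
    have h1 : 1 ≤ 3 ^ D := Nat.one_le_pow _ _ (by norm_num)
    have h2 : ((3 ^ D - 1 : ℕ) : ℤ) = 3 ^ D - 1 := by push_cast [Nat.cast_sub h1]; rfl
    rw [← h2]
    exact_mod_cast h
  have hc2 : ¬ (2 : ℤ) ^ (v D + 1) ∣ 3 ^ D - 1 := by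
    have h := not_two_pow_v_dvd hD
    have h1 : 1 ≤ 3 ^ D := Nat.one_le_pow _ _ (by norm_num)
    have h2 : ((3 ^ D - 1 : ℕ) : ℤ) = 3 ^ D - 1 := by push_cast [Nat.cast_sub h1]; rfl
    rw [← h2]
    exact_mod_cast h
  generalize hV' : v D = V at *
  generalize hcc : (3 : ℤ) ^ D - 1 = c at *
  have hc0 : (2 : ℤ) ∣ c := (dvd_pow_self 2 (by omega)).trans hc1
  have ht2 : (2 : ℤ) ∣ 3 * s + c := (hs2.mul_left 3).add hc0
  have key : ∀ (t : ℤ), (2 : ℤ) ∣ t → ∀ m : ℕ, ((2 : ℤ) ^ m ∣ t / 2 ↔ (2 : ℤ) ^ (m + 1) ∣ t) := by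
    intro t ht m
    obtain ⟨a, rfl⟩ := ht
    rw [Int.mul_ediv_cancel_left _ (by norm_num), pow_succ, mul_comm ((2 : ℤ) ^ m) 2]
    exact (mul_dvd_mul_iff_left (by norm_num)).symm
  have hcop : IsCoprime (2 : ℤ) 3 := ⟨-1, 1, by norm_num⟩
  have h3 : ∀ m : ℕ, ((2 : ℤ) ^ m ∣ 3 * s ↔ (2 : ℤ) ^ m ∣ s) := fun m =>
    ⟨fun h => (hcop.pow_left (m := m)).dvd_of_dvd_mul_left h, fun h => h.mul_left 3⟩
  have k1 := card_shift hV hs2 (t := s) (fun m _ => Iff.rfl)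
  have k2 := card_shift hV hs2 (t := 3 * s + c) (fun m hm => by
    rw [dvd_add_left ((pow_dvd_pow 2 hm).trans hc1)]
    exact h3 m)
  -- the last place
  have k3 : (if (2 : ℤ) ^ (V + 1) ∣ s then 1 else 0) +
      (if (2 : ℤ) ^ (V + 1) ∣ 3 * s + c then 1 else 0) = (if (2 : ℤ) ^ V ∣ s then 1 else 0) := by
    by_cases h5 : (2 : ℤ) ^ V ∣ s
    · rw [if_pos h5]
      obtain ⟨a, rfl⟩ := h5
      obtain ⟨b, rfl⟩ := hc1
      have h2V : (2 : ℤ) ^ V ≠ 0 := by positivity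
      have hb : ¬ (2 : ℤ) ∣ b := fun h => hc2 (by
        rw [pow_succ]; exact mul_dvd_mul_left _ h)
      have e3 : (2 : ℤ) ^ (V + 1) ∣ 2 ^ V * a ↔ (2 : ℤ) ∣ a := by
        rw [pow_succ]; exact mul_dvd_mul_iff_left h2V
      have e4 : (2 : ℤ) ^ (V + 1) ∣ 3 * (2 ^ V * a) + 2 ^ V * b ↔ (2 : ℤ) ∣ 3 * a + b := by
        rw [pow_succ, show 3 * ((2 : ℤ) ^ V * a) + 2 ^ V * b = 2 ^ V * (3 * a + b) by ring]
        exact mul_dvd_mul_iff_left h2V
      by_cases h6 : (2 : ℤ) ∣ a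
      · rw [if_pos (e3.2 h6), if_neg (fun h => by have := e4.1 h; omega)]
      · rw [if_neg (fun h => h6 (e3.1 h)), if_pos (e4.2 (by omega))]
    · rw [if_neg h5]
      have h6 : ¬ (2 : ℤ) ^ (V + 1) ∣ s := fun h => h5 ((pow_dvd_pow 2 (by omega)).trans h)
      have h7 : ¬ (2 : ℤ) ^ (V + 1) ∣ 3 * s + c := fun h => by
        have h8 : (2 : ℤ) ^ V ∣ 3 * s + c := (pow_dvd_pow 2 (by omega)).trans h
        rw [dvd_add_left hc1, h3] at h8
        exact h5 h8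
      rw [if_neg h6, if_neg h7]
  unfold w
  rw [e1, e2]
  simp only [if_neg hD, hV', key s hs2, key _ ht2]
  omega

theorem w_even_real {D : ℕ} {s : ℤ} (hD : D ≠ 0) (hs : s % 2 = 0) :
    ((w (st false (D, s)) : ℝ) + w (st true (D, s))) / 2 = w (D, s) - 1 := by
  have h : ((w (st false (D, s)) + w (st true (D, s)) + 2 : ℕ) : ℝ) = ((2 * w (D, s) : ℕ) : ℝ) :=
    congrArg _ (w_even hD hs)
  push_cast at h
  linarith

theorem ww : WWStatement :=
  ⟨fun D s => w_le (D, s), fun _ _ hs => w_odd hs, fun _ _ hD hs =>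
    w_even (Nat.one_le_iff_ne_zero.1 hD) hs⟩

end Pool.Agent.Lib.MP_edb5be_nt.CO
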