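import Pool.Agent.Lib.MP_edb5be_nt.CO.LY
import Pool.Agent.Lib.MP_edb5be_nt.CO.RR
import Pool.Agent.Lib.MP_edb5be_nt.CO.WW
import Pool.Agent.Lib.MP_edb5be_nt.CO.PH
import Pool.Agent.Lib.MP_edb5be_nt.CO.CT
import Pool.Agent.Lib.MP_edb5be_nt.CO.T3
import Pool.Agent.Lib.MP_edb5be_nt.CO.T4
import Pool.Agent.Lib.MP_edb5be_nt.CO.Int
import Pool.Agent.Lib.MP_edb5be_nt.CO.Cor
import Pool.Agent.Lib.MP_edb5be_nt.CO.G
import Pool.Agent.Lib.MP_edb5be_nt.CO.Low
import Pool.Agent.Lib.MP_edb5be_nt.CO.LowF

/-!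
# Assembly of the coalescence theorem
-/

set_option autoImplicit false

namespace Pool.Agent.Lib.MP_edb5be_nt.CO

theorem lyH : LYStatement := ly rr ww pp
theorem phH : PHStatement := ph lyH
theorem t3H : T3Statement := t3 ct phH
theorem t3logH : T3LogStatement := t3log t3H
theorem t4H : T4Statement := t4 t3H
theorem fourH : FourStatement := four t3logH
theorem fiveH : FiveStatement := five t4H
theorem intH : IntStatement := int t4H
theorem modH : ModStatement := mod fiveH
theorem genH : GStatement := gen fourH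
theorem funH : FunStatement := funs (t4f t3H)
theorem lowH : LowStatement := low f_lower

end Pool.Agent.Lib.MP_edb5be_nt.CO
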