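import Pool.Agent.Lib.MP_edb5be_nt.CO.CT

/-!
# Accidental meetings of a pair of trajectories

`od i x` is the number of odd terms among `x, T x, …, T^[i - 1] x`. A pair `(n, 3 ^ j n + b)` can
meet at the time `i` without reaching the state `(0, 0)` only when the numbers of odd terms do not
fit (`nm_no_meet`), and then `n` is small compared with the weights `(1 / 2) ^ od i n`
(`acc_bound`). The sum of the weights over integers distinct modulo `2 ^ (i + r)` is at most
`2 ^ r (3 / 2) ^ i` (`weight_sum`).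
-/

set_option autoImplicit false

namespace Pool.Agent.Lib.MP_edb5be_nt.CO

/-- `1` for an odd integer, `0` for an even one. -/
def ob (x : ℤ) : ℕ := if x % 2 = 0 then 0 else 1

/-- The number of odd terms among the first `i` terms of the trajectory of `x`. -/
def od : ℕ → ℤ → ℕ
  | 0, _ => 0
  | i + 1, x => ob x + od i (T x)

theorem od_succ (i : ℕ) (x : ℤ) : od (i + 1) x = ob x + od i (T x) := rfl

theorem ob_le (x : ℤ) : ob x ≤ 1 := by
  unfold ob
  split_ifs <;> omega

theorem od_le (i : ℕ) : ∀ x : ℤ, od i x ≤ i := by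
  induction i with
  | zero => intro x; exact le_refl _
  | succ i ih =>
    intro x
    rw [od_succ]
    have h1 := ih (T x)
    have h2 := ob_le x
    omega

/-- The affine formula for an iterate. -/
theorem affine (i : ℕ) : ∀ x : ℤ, ∃ c : ℤ, 0 ≤ c ∧ 2 ^ i * T^[i] x = 3 ^ od i x * x + c ∧
    2 ^ od i x * c ≤ (3 ^ od i x - 2 ^ od i x) * 2 ^ i := by
  induction i with
  | zero =>
    intro x
    refine ⟨0, le_refl _, ?_, ?_⟩ <;> simp [od]
  | succ i ih =>
    intro x
    obtain ⟨c, hc0, hc1, hc2⟩ := ih (T x)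
    have hle : od i (T x) ≤ i := od_le i (T x)
    rw [od_succ, Function.iterate_succ_apply]
    rcases Int.even_or_odd' x with ⟨a, rfl | rfl⟩
    · have e1 : T (2 * a) = a := by simp [T]
      have e2 : ob (2 * a) = 0 := by simp [ob]
      rw [e1] at hc1 hc2
      rw [e1, e2, zero_add]
      refine ⟨2 * c, by omega, ?_, ?_⟩
      · rw [pow_succ]
        linear_combination 2 * hc1
      · rw [pow_succ (2 : ℤ) i]
        nlinarith
    · have e1 : T (2 * a + 1) = 3 * a + 2 := by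
        unfold T
        rw [if_neg (by omega)]
        omega
      have e2 : ob (2 * a + 1) = 1 := by
        unfold ob
        rw [if_neg (by omega)]
      rw [e1] at hc1 hc2 hle
      rw [e1, e2]
      have hp : (0 : ℤ) < 3 ^ od i (3 * a + 2) := by positivity
      refine ⟨3 ^ od i (3 * a + 2) + 2 * c, by omega, ?_, ?_⟩
      · rw [pow_succ, pow_add]
        linear_combination 2 * hc1
      · have h1 : (2 : ℤ) ^ od i (3 * a + 2) ≤ 2 ^ i :=
          pow_le_pow_right₀ (by norm_num) hle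
        have h2 : (3 : ℤ) ^ od i (3 * a + 2) * 2 ^ od i (3 * a + 2) ≤
            3 ^ od i (3 * a + 2) * 2 ^ i := mul_le_mul_of_nonneg_left h1 hp.le
        rw [pow_succ (2 : ℤ) i, pow_add, pow_add, pow_one, pow_one]
        nlinarith

theorem mod_two_aux (D : ℕ) (s x : ℤ) : (3 ^ D * x - s) % 2 = (x - s) % 2 := by
  have h3 : (3 : ℤ) ^ D % 2 = 1 := by
    have : Odd ((3 : ℤ) ^ D) := Odd.pow (by decide)
    exact Int.odd_iff.mp this
  obtain ⟨m, hm⟩ : ∃ m : ℤ, (3 : ℤ) ^ D = 2 * m + 1 := ⟨(3 : ℤ) ^ D / 2, by omega⟩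
  have h4 : 3 ^ D * x - s = 2 * (m * x) + (x - s) := by rw [hm]; ring
  rw [h4]
  omega

/-- The pair after one step, with the numbers of odd terms. -/
theorem step_od (D : ℕ) (s x : ℤ) :
    (nx (D, s) x = T x ∧
      3 ^ (st (decide (x % 2 ≠ 0)) (D, s)).1 * nx (D, s) x - (st (decide (x % 2 ≠ 0)) (D, s)).2 =
        T (3 ^ D * x - s) ∧
      (st (decide (x % 2 ≠ 0)) (D, s)).1 + ob x = D + ob (3 ^ D * x - s)) ∨
    (nx (D, s) x = T (3 ^ D * x - s) ∧
      3 ^ (st (decide (x % 2 ≠ 0)) (D, s)).1 * nx (D, s) x - (st (decide (x % 2 ≠ 0)) (D, s)).2 =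
        T x ∧ D = 0 ∧ (st (decide (x % 2 ≠ 0)) (D, s)).1 = 1 ∧ ob x = 1 ∧
          ob (3 ^ D * x - s) = 0) := by
  have hm := mod_two_aux D s x
  by_cases hex : D = 0 ∧ s % 2 ≠ 0 ∧ x % 2 ≠ 0
  · right
    obtain ⟨rfl, hs, hx⟩ := hex
    have e1 : decide (x % 2 ≠ 0) = true := by rw [decide_eq_true_iff]; exact hx
    have e2 : st true (0, s) = (1, -((3 * s + 1) / 2)) := by simp [st, hs]
    have e3 : nx (0, s) x = (x - s) / 2 := by
      unfold nx
      rw [if_neg hx, if_pos ⟨hs, rfl⟩]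
    have e4 : T x = (3 * x + 1) / 2 := by
      unfold T
      rw [if_neg hx]
    have e6 : (3 : ℤ) ^ 0 * x - s = x - s := by ring
    have e5 : T (x - s) = (x - s) / 2 := by
      unfold T
      rw [if_pos (by omega)]
    rw [e1, e2, e3, e6, e5, e4]
    refine ⟨rfl, ?_, rfl, rfl, ?_, ?_⟩
    · show (3 : ℤ) ^ 1 * ((x - s) / 2) - -((3 * s + 1) / 2) = (3 * x + 1) / 2
      omega
    · unfold ob
      rw [if_neg hx]
    · unfold ob
      rw [if_pos (by omega)]
  · left
    have hnx : nx (D, s) x = T x := by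
      unfold nx T
      by_cases hx : x % 2 = 0
      · rw [if_pos hx, if_pos hx]
      · rw [if_neg hx, if_neg hx, if_neg]
        rintro ⟨h1, h2⟩
        exact hex ⟨h2, h1, hx⟩
    have hot : 3 ^ (st (decide (x % 2 ≠ 0)) (D, s)).1 * nx (D, s) x -
        (st (decide (x % 2 ≠ 0)) (D, s)).2 = T (3 ^ D * x - s) := by
      rcases pair_step D s x with ⟨_, h2⟩ | ⟨h1, h2⟩
      · exact h2
      · rw [h2, ← hnx, h1]
    refine ⟨hnx, hot, ?_⟩
    by_cases hx : x % 2 = 0
    · have e1 : decide (x % 2 ≠ 0) = false := by simp [hx]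
      rw [e1]
      by_cases hs : s % 2 = 0
      · have e2 : st false (D, s) = (D, s / 2) := by simp [st, hs]
        rw [e2]
        unfold ob
        rw [if_pos hx, if_pos (by omega)]
      · have e2 : st false (D, s) = (D + 1, (3 * s - 1) / 2) := by simp [st, hs]
        rw [e2]
        unfold ob
        rw [if_pos hx, if_neg (by omega)]
    · have e1 : decide (x % 2 ≠ 0) = true := by rw [decide_eq_true_iff]; exact hx
      rw [e1]
      by_cases hs : s % 2 = 0
      · have e2 : st true (D, s) = (D, (3 * s + 3 ^ D - 1) / 2) := by simp [st, hs]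
        rw [e2]
        unfold ob
        rw [if_neg hx, if_neg (by omega)]
      · have hD : D ≠ 0 := fun h => hex ⟨h, hs, hx⟩
        have e2 : st true (D, s) = (D - 1, (s + 3 ^ (D - 1)) / 2) := by simp [st, hs, hD]
        rw [e2]
        unfold ob
        rw [if_neg hx, if_pos (by omega)]
        show D - 1 + 1 = D + 0
        omega

/-- A pair whose run does not reach `(0, 0)` within `t` steps does not meet with matching numbers
of odd terms within `t` steps. -/
theorem nm_no_meet (i : ℕ) : ∀ (t D : ℕ) (s x : ℤ), i ≤ t → nm t (D, s) x →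
    T^[i] x = T^[i] (3 ^ D * x - s) → od i x ≠ od i (3 ^ D * x - s) + D := by
  induction i with
  | zero =>
    intro t D s x _ hn h ho
    have h1 : (0 : ℕ) = 0 + D := ho
    have hD : D = 0 := by omega
    subst hD
    have h2 : x = 3 ^ 0 * x - s := h
    have hs : s = 0 := by
      rw [pow_zero, one_mul] at h2
      omega
    subst hs
    exact nm_zero_state t x hn
  | succ i ih =>
    intro t D s x hit hn h ho
    obtain ⟨t, rfl⟩ : ∃ t', t = t' + 1 := ⟨t - 1, by omega⟩
    rw [nm_succ] at hn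
    have hn2 : nm t ((st (decide (x % 2 ≠ 0)) (D, s)).1, (st (decide (x % 2 ≠ 0)) (D, s)).2)
        (nx (D, s) x) := hn.2
    have key := ih t (st (decide (x % 2 ≠ 0)) (D, s)).1 (st (decide (x % 2 ≠ 0)) (D, s)).2
      (nx (D, s) x) (by omega) hn2
    rw [Function.iterate_succ_apply, Function.iterate_succ_apply] at h
    rw [od_succ, od_succ] at ho
    rcases step_od D s x with ⟨h1, h2, h3⟩ | ⟨h1, h2, h3, h4, h5, h6⟩
    · rw [h2, h1] at key
      apply key h
      omega
    · rw [h2, h1] at key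
      apply key h.symm
      rw [h4]
      rw [h5, h6] at ho
      omega

/-- The real inequality behind `acc_bound`. -/
theorem real_acc (P Q R n b cn cm u v : ℝ) (hP : 0 < P) (hQ : 0 < Q) (hR : 0 < R) (hRP : R ≤ P)
    (h : 3 * Q ≤ P ∨ 3 * P ≤ Q) (hcn0 : 0 ≤ cn) (hcn : cn ≤ Q * u) (hcm0 : 0 ≤ cm)
    (hcm : cm ≤ R * v) (hu : 0 ≤ u) (hv : 0 ≤ v) (he : Q * n + cn = P * n + R * b + cm) :
    2 / 3 * |n| ≤ |b| + u + v := by
  have hb : 0 ≤ |b| := abs_nonneg b
  have hn : 0 ≤ |n| := abs_nonneg n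
  have h1 : |Q - P| * |n| ≤ Q * u + R * v + R * |b| := by
    rw [← abs_mul]
    have e1 : (Q - P) * n = R * b + cm - cn := by linarith
    rw [e1]
    have e2 : |R * b| = R * |b| := by rw [abs_mul, abs_of_pos hR]
    have e3 : R * b ≤ R * |b| := mul_le_mul_of_nonneg_left (le_abs_self b) hR.le
    have e4 : -(R * |b|) ≤ R * b := by
      have := mul_le_mul_of_nonneg_left (neg_abs_le b) hR.le
      linarith
    rw [abs_le]
    have := mul_nonneg hQ.le hu
    have := mul_nonneg hR.le hv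
    constructor <;> linarith
  rcases h with h | h
  · have h2 : 2 / 3 * P ≤ |Q - P| := by
      rw [abs_sub_comm]
      exact le_trans (by linarith) (le_abs_self _)
    have h3 : P * (2 / 3 * |n|) ≤ P * (|b| + u + v) := by
      have a1 := mul_le_mul_of_nonneg_right h2 hn
      have a2 : Q * u ≤ P * u := mul_le_mul_of_nonneg_right (by linarith) hu
      have a3 : R * v ≤ P * v := mul_le_mul_of_nonneg_right hRP hv
      have a4 : R * |b| ≤ P * |b| := mul_le_mul_of_nonneg_right hRP hb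
      nlinarith
    exact le_of_mul_le_mul_left h3 hP
  · have h2 : 2 / 3 * Q ≤ |Q - P| := le_trans (by linarith) (le_abs_self _)
    have h3 : Q * (2 / 3 * |n|) ≤ Q * (|b| + u + v) := by
      have a1 := mul_le_mul_of_nonneg_right h2 hn
      have a3 : R * v ≤ Q * v := mul_le_mul_of_nonneg_right (by linarith) hv
      have a4 : R * |b| ≤ Q * |b| := mul_le_mul_of_nonneg_right (by linarith) hb
      nlinarith
    exact le_of_mul_le_mul_left h3 hQ

/-- The weight of `x` at the time `i`. -/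
noncomputable def wt (i : ℕ) (x : ℤ) : ℝ := (1 / 2 : ℝ) ^ od i x

theorem wt_nonneg (i : ℕ) (x : ℤ) : 0 ≤ wt i x := by
  unfold wt
  positivity

theorem affine_real (i : ℕ) (x : ℤ) : ∃ c : ℝ, 0 ≤ c ∧
    2 ^ i * ((T^[i] x : ℤ) : ℝ) = 3 ^ od i x * (x : ℝ) + c ∧
      c ≤ 3 ^ od i x * (2 ^ i * wt i x) := by
  obtain ⟨c, h0, h1, h2⟩ := affine i x
  refine ⟨(c : ℝ), by exact_mod_cast h0, by exact_mod_cast h1, ?_⟩
  have h3 : (2 : ℝ) ^ od i x * c ≤ (3 ^ od i x - 2 ^ od i x) * 2 ^ i := by exact_mod_cast h2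
  have hp : (0 : ℝ) < 2 ^ od i x := by positivity
  have hq : (0 : ℝ) < 2 ^ i := by positivity
  have h4 : (2 : ℝ) ^ od i x * c ≤ 2 ^ od i x * (3 ^ od i x * (2 ^ i * wt i x)) := by
    have e : (2 : ℝ) ^ od i x * (3 ^ od i x * (2 ^ i * wt i x)) = 3 ^ od i x * 2 ^ i := by
      unfold wt
      rw [one_div, inv_pow]
      field_simp
    rw [e]
    nlinarith [mul_pos hp hq]
  exact le_of_mul_le_mul_left h4 hp

/-- A meeting with different numbers of odd terms. -/
theorem acc_bound (i j : ℕ) (n b : ℤ) (h : T^[i] n = T^[i] (3 ^ j * n + b))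
    (hne : od i n ≠ od i (3 ^ j * n + b) + j) :
    2 / 3 * |(n : ℝ)| ≤ |(b : ℝ)| + 2 ^ i * wt i n + 2 ^ i * wt i (3 ^ j * n + b) := by
  obtain ⟨cn, hn0, hn1, hn2⟩ := affine_real i n
  obtain ⟨cm, hm0, hm1, hm2⟩ := affine_real i (3 ^ j * n + b)
  have hpos : ∀ k : ℕ, (0 : ℝ) < 3 ^ k := fun k => by positivity
  apply real_acc (3 ^ (od i (3 ^ j * n + b) + j)) (3 ^ od i n) (3 ^ od i (3 ^ j * n + b))
    (n : ℝ) (b : ℝ) cn cm (2 ^ i * wt i n) (2 ^ i * wt i (3 ^ j * n + b)) (hpos _) (hpos _)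
    (hpos _) (pow_le_pow_right₀ (by norm_num) (by omega)) ?_ hn0 hn2 hm0 hm2
    (mul_nonneg (by positivity) (wt_nonneg _ _)) (mul_nonneg (by positivity) (wt_nonneg _ _)) ?_
  · rcases lt_or_gt_of_ne hne with hlt | hgt
    · left
      calc (3 : ℝ) * 3 ^ od i n = 3 ^ (od i n + 1) := by rw [pow_succ]; ring
        _ ≤ _ := pow_le_pow_right₀ (by norm_num) (by omega)
    · right
      calc (3 : ℝ) * 3 ^ (od i (3 ^ j * n + b) + j) = 3 ^ (od i (3 ^ j * n + b) + j + 1) := by
            rw [pow_succ]; ring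
        _ ≤ _ := pow_le_pow_right₀ (by norm_num) (by omega)
  · rw [← hn1, h, hm1]
    push_cast
    rw [pow_add]
    ring

theorem nx_one (x : ℤ) : nx (1, 0) x = T x := by
  unfold nx T
  by_cases hx : x % 2 = 0
  · rw [if_pos hx, if_pos hx]
  · rw [if_neg hx, if_neg hx, if_neg]
    rintro ⟨h1, _⟩
    exact h1 (by norm_num)

/-- The sum of the weights over integers distinct modulo `2 ^ (i + r)`. -/
theorem weight_sum (i : ℕ) : ∀ (r : ℕ) (I : Finset ℤ), InjMod (i + r) I →
    ∑ x ∈ I, wt i x ≤ 2 ^ r * (3 / 2) ^ i := by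
  classical
  induction i with
  | zero =>
    intro r I hI
    rw [zero_add] at hI
    have h1 : ∑ x ∈ I, wt 0 x = (I.card : ℝ) := by
      simp [wt, od]
    have h2 : (I.card : ℝ) ≤ 2 ^ r := by exact_mod_cast hI.card_le
    rw [h1]
    simpa using h2
  | succ i ih =>
    intro r I hI
    have hI' : InjMod ((i + r) + 1) I := by
      have : i + 1 + r = (i + r) + 1 := by omega
      rwa [this] at hI
    set E : Finset ℤ := I.filter (fun x => x % 2 = 0) with hE
    set O : Finset ℤ := I.filter (fun x => ¬ x % 2 = 0) with hO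
    have hEd : ∀ x ∈ E, ∀ y ∈ E, (2 : ℤ) ^ (i + r) ∣ T x - T y → x = y := by
      intro x hx y hy hxy
      rw [hE, Finset.mem_filter] at hx hy
      apply hI' x hx.1 y hy.1
      apply two_pow_dvd_even hx.2 hy.2
      rw [← nx_one, ← nx_one, nx_even hx.2, nx_even hy.2] at hxy
      exact hxy
    have hOd : ∀ x ∈ O, ∀ y ∈ O, (2 : ℤ) ^ (i + r) ∣ T x - T y → x = y := by
      intro x hx y hy hxy
      rw [hO, Finset.mem_filter] at hx hy
      apply hI' x hx.1 y hy.1
      apply two_pow_dvd_odd (p := (1, 0)) hx.2 hy.2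
      rw [nx_one, nx_one]
      exact hxy
    have himg : ∀ J : Finset ℤ, (∀ x ∈ J, ∀ y ∈ J, (2 : ℤ) ^ (i + r) ∣ T x - T y → x = y) →
        ∑ x ∈ J, wt i (T x) ≤ 2 ^ r * (3 / 2) ^ i := by
      intro J hJ
      have hinj : Set.InjOn T (J : Set ℤ) := by
        intro x hx y hy hxy
        apply hJ x hx y hy
        rw [hxy, sub_self]
        exact dvd_zero _
      rw [← Finset.sum_image (f := fun z => wt i z) hinj]
      apply ih r
      intro a ha b hb hab
      obtain ⟨x, hx, rfl⟩ := Finset.mem_image.mp ha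
      obtain ⟨y, hy, rfl⟩ := Finset.mem_image.mp hb
      rw [hJ x hx y hy hab]
    have hsplit : ∑ x ∈ I, wt (i + 1) x = ∑ x ∈ E, wt (i + 1) x + ∑ x ∈ O, wt (i + 1) x := by
      rw [hE, hO, Finset.sum_filter_add_sum_filter_not]
    have h1 : ∑ x ∈ E, wt (i + 1) x = ∑ x ∈ E, wt i (T x) := by
      apply Finset.sum_congr rfl
      intro x hx
      rw [hE, Finset.mem_filter] at hx
      unfold wt
      rw [od_succ]
      have : ob x = 0 := by
        unfold ob
        rw [if_pos hx.2]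
      rw [this, zero_add]
    have h2 : ∑ x ∈ O, wt (i + 1) x = 1 / 2 * ∑ x ∈ O, wt i (T x) := by
      rw [Finset.mul_sum]
      apply Finset.sum_congr rfl
      intro x hx
      rw [hO, Finset.mem_filter] at hx
      unfold wt
      rw [od_succ]
      have : ob x = 1 := by
        unfold ob
        rw [if_neg hx.2]
      rw [this, pow_add, pow_one]
    have h3 := himg E hEd
    have h4 := himg O hOd
    rw [hsplit, h1, h2, pow_succ]
    linarith

theorem injMod_affine (t j : ℕ) (b : ℤ) (I : Finset ℤ) (hI : InjMod t I) :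
    ∀ x ∈ I, ∀ y ∈ I, (2 : ℤ) ^ t ∣ (3 ^ j * x + b) - (3 ^ j * y + b) → x = y := by
  intro x hx y hy hxy
  apply hI x hx y hy
  have h1 : (3 ^ j * x + b) - (3 ^ j * y + b) = 3 ^ j * (x - y) := by ring
  rw [h1] at hxy
  have hcop : IsCoprime ((2 : ℤ) ^ t) (3 ^ j) := by
    apply IsCoprime.pow
    exact ⟨-1, 1, by norm_num⟩
  exact hcop.dvd_of_dvd_mul_left hxy

theorem weight_sum_affine (i r j : ℕ) (b : ℤ) (I : Finset ℤ) (hI : InjMod (i + r) I) :
    ∑ x ∈ I, wt i (3 ^ j * x + b) ≤ 2 ^ r * (3 / 2) ^ i := by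
  classical
  have hJ := injMod_affine (i + r) j b I hI
  have hinj : Set.InjOn (fun x : ℤ => 3 ^ j * x + b) (I : Set ℤ) := by
    intro x hx y hy hxy
    apply hJ x hx y hy
    have : 3 ^ j * x + b = 3 ^ j * y + b := hxy
    rw [this, sub_self]
    exact dvd_zero _
  rw [← Finset.sum_image (f := fun z => wt i z) (g := fun x : ℤ => 3 ^ j * x + b) hinj]
  apply weight_sum i r
  intro a ha c hc hac
  obtain ⟨x, hx, rfl⟩ := Finset.mem_image.mp ha
  obtain ⟨y, hy, rfl⟩ := Finset.mem_image.mp hc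
  rw [hJ x hx y hy hac]

theorem geom_bound (t : ℕ) : ∑ i ∈ Finset.range (t + 1), (3 / 2 : ℝ) ^ i ≤ 3 * (3 / 2) ^ t := by
  induction t with
  | zero => simp
  | succ t ih =>
    rw [Finset.sum_range_succ]
    rw [pow_succ]
    have : (0 : ℝ) < (3 / 2) ^ t := by positivity
    linarith

open Classical in
/-- The accidental meetings within `t` steps of the elements of absolute value more than `Y` of a
finite set that is injective modulo `2 ^ t`. -/
theorem acc_count (t j : ℕ) (b : ℤ) (Y : ℝ) (hY : 0 < Y) (hb : 3 * |(b : ℝ)| ≤ Y) (I : Finset ℤ)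
    (hI : InjMod t I) :
    ((I.filter (fun n : ℤ => Y < |(n : ℝ)| ∧ ∃ i ≤ t, T^[i] n = T^[i] (3 ^ j * n + b) ∧
      od i n ≠ od i (3 ^ j * n + b) + j)).card : ℝ) ≤ 18 * 3 ^ t / Y := by
  set B := I.filter (fun n : ℤ => Y < |(n : ℝ)| ∧ ∃ i ≤ t, T^[i] n = T^[i] (3 ^ j * n + b) ∧
      od i n ≠ od i (3 ^ j * n + b) + j) with hB
  have h1 : ∀ n ∈ B, (1 : ℝ) ≤ ∑ i ∈ Finset.range (t + 1),
      3 / Y * (2 ^ i * wt i n + 2 ^ i * wt i (3 ^ j * n + b)) := by
    intro n hn
    rw [hB, Finset.mem_filter] at hn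
    obtain ⟨_, hYn, i, hi, hm, ho⟩ := hn
    have h2 := acc_bound i j n b hm ho
    have h3 : Y / 3 ≤ 2 ^ i * wt i n + 2 ^ i * wt i (3 ^ j * n + b) := by linarith
    have h4 : (1 : ℝ) ≤ 3 / Y * (2 ^ i * wt i n + 2 ^ i * wt i (3 ^ j * n + b)) := by
      calc (1 : ℝ) = 3 / Y * (Y / 3) := by field_simp
        _ ≤ _ := mul_le_mul_of_nonneg_left h3 (by positivity)
    refine le_trans h4 ?_
    apply Finset.single_le_sum (f := fun i => 3 / Y * (2 ^ i * wt i n +
      2 ^ i * wt i (3 ^ j * n + b))) ?_ (Finset.mem_range.mpr (by omega))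
    intro k _
    have e1 := wt_nonneg k n
    have e2 := wt_nonneg k (3 ^ j * n + b)
    positivity
  have h5 : (B.card : ℝ) ≤ ∑ n ∈ I, ∑ i ∈ Finset.range (t + 1),
      3 / Y * (2 ^ i * wt i n + 2 ^ i * wt i (3 ^ j * n + b)) := by
    calc (B.card : ℝ) = ∑ n ∈ B, (1 : ℝ) := by simp
      _ ≤ ∑ n ∈ B, ∑ i ∈ Finset.range (t + 1),
          3 / Y * (2 ^ i * wt i n + 2 ^ i * wt i (3 ^ j * n + b)) := Finset.sum_le_sum h1
      _ ≤ _ := by
        apply Finset.sum_le_sum_of_subset_of_nonneg (Finset.filter_subset _ _)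
        intro n _ _
        apply Finset.sum_nonneg
        intro k _
        have e1 := wt_nonneg k n
        have e2 := wt_nonneg k (3 ^ j * n + b)
        positivity
  rw [Finset.sum_comm] at h5
  have h6 : ∀ i ∈ Finset.range (t + 1), ∑ n ∈ I,
      3 / Y * (2 ^ i * wt i n + 2 ^ i * wt i (3 ^ j * n + b)) ≤ 6 * 2 ^ t / Y * (3 / 2) ^ i := by
    intro i hi
    obtain ⟨r, rfl⟩ : ∃ r, t = i + r := ⟨t - i, by have := Finset.mem_range.mp hi; omega⟩
    have e1 := weight_sum i r I hI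
    have e2 := weight_sum_affine i r j b I hI
    rw [← Finset.mul_sum, Finset.sum_add_distrib, ← Finset.mul_sum, ← Finset.mul_sum]
    have e3 : (0 : ℝ) < 2 ^ i := by positivity
    have e4 : (2 : ℝ) ^ i * ∑ n ∈ I, wt i n + 2 ^ i * ∑ n ∈ I, wt i (3 ^ j * n + b) ≤
        2 * (2 ^ (i + r) * (3 / 2) ^ i) := by
      rw [pow_add]
      have e5 := mul_le_mul_of_nonneg_left e1 e3.le
      have e6 := mul_le_mul_of_nonneg_left e2 e3.le
      linarith
    calc _ ≤ 3 / Y * (2 * (2 ^ (i + r) * (3 / 2) ^ i)) :=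
          mul_le_mul_of_nonneg_left e4 (by positivity)
      _ = _ := by ring
  have h7 := Finset.sum_le_sum h6
  rw [← Finset.mul_sum] at h7
  have h8 := geom_bound t
  have h9 : (0 : ℝ) ≤ 6 * 2 ^ t / Y := by positivity
  calc (B.card : ℝ) ≤ _ := h5
    _ ≤ _ := h7
    _ ≤ 6 * 2 ^ t / Y * (3 * (3 / 2) ^ t) := mul_le_mul_of_nonneg_left h8 h9
    _ = 18 * 3 ^ t / Y := by
      rw [div_pow]
      field_simp
      ring

end Pool.Agent.Lib.MP_edb5be_nt.CO
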