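import Pool.Agent.Lib.MP_edb5be_nt.CO.Mod
import Pool.Agent.Lib.MP_edb5be_nt.CO.T4
import Pool.Agent.Lib.MP_edb5be_nt.CO.CT

/-!
# Equidistribution of the invariant sets in residue classes, uniformly in the modulus

The class of `a` modulo `m` is parametrised by `k ↦ a + m k`.
-/

set_option autoImplicit false

namespace Pool.Agent.Lib.MP_edb5be_nt.CO

namespace MODU

/-- the `k` with `a + m k ∈ S` and `0 < e (a + m k) ≤ X` -/
def KS (e m a : ℤ) (S : Set ℤ) (X : ℝ) : Set ℤ :=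
  {k : ℤ | a + m * k ∈ S ∧ 0 < e * (a + m * k) ∧ ((e * (a + m * k) : ℤ) : ℝ) ≤ X}

/-- the `k` with `0 < e (a + m k) ≤ X` -/
def KR (e m a : ℤ) (X : ℝ) : Set ℤ :=
  {k : ℤ | 0 < e * (a + m * k) ∧ ((e * (a + m * k) : ℤ) : ℝ) ≤ X}

theorem KR_sub {e : ℤ} (he : e = 1 ∨ e = -1) {m : ℤ} (hm : 1 ≤ m) (a : ℤ) (X : ℝ) :
    KR e m a X ⊆ {k : ℤ | |(k : ℝ) + (a - e * (X / 2)) / m| ≤ X / 2 / m} := by
  have hm0 : (0 : ℝ) < m := by exact_mod_cast (by omega : 0 < m)
  rintro k ⟨h1, h2⟩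
  have h1' : (0 : ℝ) < ((e * (a + m * k) : ℤ) : ℝ) := by exact_mod_cast h1
  push_cast at h1' h2
  show |(k : ℝ) + (a - e * (X / 2)) / m| ≤ X / 2 / m
  have : (k : ℝ) + (a - e * (X / 2)) / m = (a + m * k - e * (X / 2)) / m := by field_simp; ring
  rw [this, abs_div, abs_of_pos hm0]
  refine div_le_div_of_nonneg_right ?_ hm0.le
  rw [abs_le]
  rcases he with rfl | rfl
  · push_cast at h1' h2 ⊢; constructor <;> linarith
  · push_cast at h1' h2 ⊢; constructor <;> linarith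

theorem KR_finite {e : ℤ} (he : e = 1 ∨ e = -1) {m : ℤ} (hm : 1 ≤ m) (a : ℤ) (X : ℝ) :
    (KR e m a X).Finite := (near_finite _ _).subset (KR_sub he hm a X)

theorem KR_ncard {e : ℤ} (he : e = 1 ∨ e = -1) {m : ℤ} (hm : 1 ≤ m) (a : ℤ) {X : ℝ}
    (hX : 0 ≤ X) : ((KR e m a X).ncard : ℝ) ≤ X / m + 1 := by
  have hm0 : (0 : ℝ) < m := by exact_mod_cast (by omega : 0 < m)
  have h1 := Set.ncard_le_ncard (KR_sub he hm a X) (near_finite _ _)
  have h2 := near_ncard ((a - e * (X / 2)) / m) (X / 2 / m) (by positivity)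
  have h3 : ((KR e m a X).ncard : ℝ) ≤
      (({k : ℤ | |(k : ℝ) + (a - e * (X / 2)) / m| ≤ X / 2 / m}.ncard : ℕ) : ℝ) := by
    exact_mod_cast h1
  refine h3.trans (h2.trans (le_of_eq ?_))
  ring

theorem KS_sub (e m a : ℤ) (S : Set ℤ) (X : ℝ) : KS e m a S X ⊆ KR e m a X :=
  fun _ hk => hk.2

theorem KS_finite {e : ℤ} (he : e = 1 ∨ e = -1) {m : ℤ} (hm : 1 ≤ m) (a : ℤ) (S : Set ℤ)
    (X : ℝ) : (KS e m a S X).Finite := (KR_finite he hm a X).subset (KS_sub e m a S X)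

theorem count_eq {e : ℤ} {m : ℤ} (hm : 1 ≤ m) (a : ℤ) (S : Set ℤ) (X : ℝ) :
    count e {n : ℤ | n ∈ S ∧ n ≡ a [ZMOD m]} X = ((KS e m a S X).ncard : ℝ) := by
  unfold count
  congr 1
  have : {x : ℤ | x ∈ {n : ℤ | n ∈ S ∧ n ≡ a [ZMOD m]} ∧ 0 < e * x ∧ ((e * x : ℤ) : ℝ) ≤ X} =
      (fun k : ℤ => a + m * k) '' KS e m a S X := by
    ext x
    simp only [Set.mem_ofPred_eq, Set.mem_image, KS]
    constructor
    · rintro ⟨⟨h1, h2⟩, h3, h4⟩
      obtain ⟨k, hk⟩ := h2.symm.dvd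
      have hx : a + m * k = x := by linarith
      exact ⟨k, ⟨by rwa [hx], by rwa [hx], by rwa [hx]⟩, hx⟩
    · rintro ⟨k, ⟨h1, h2, h3⟩, rfl⟩
      refine ⟨⟨h1, ?_⟩, h2, h3⟩
      exact Int.modEq_iff_dvd.2 ⟨-k, by ring⟩
  rw [this, Set.ncard_image_of_injective]
  intro k k' h
  have h' : m * k = m * k' := by simpa using h
  exact mul_left_cancel₀ (by omega) h'

/-- Comparison of two finite sets. -/
theorem ncard_diff {A B C : Set ℤ} (hB : B.Finite) (hC : C.Finite) (h1 : A ⊆ B ∪ C) :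
    (A.ncard : ℝ) ≤ B.ncard + C.ncard := by
  have h2 := Set.ncard_le_ncard h1 (hB.union hC)
  have h3 := h2.trans (Set.ncard_union_le _ _)
  exact_mod_cast h3

theorem ncard_unionR (A B : Set ℤ) : (((A ∪ B).ncard : ℕ) : ℝ) ≤ A.ncard + B.ncard := by
  exact_mod_cast Set.ncard_union_le A B

/-- the number of the `k` with `|c + m k| ≤ r` -/
theorem near_k {m : ℤ} (hm : 1 ≤ m) (c r : ℝ) (hr : 0 ≤ r) :
    {k : ℤ | |c + m * k| ≤ r}.Finite ∧
      (({k : ℤ | |c + m * k| ≤ r}.ncard : ℕ) : ℝ) ≤ 2 * r / m + 1 := by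
  have hm0 : (0 : ℝ) < m := by exact_mod_cast (by omega : 0 < m)
  have hsub : {k : ℤ | |c + m * k| ≤ r} ⊆ {k : ℤ | |(k : ℝ) + c / m| ≤ r / m} := by
    intro k hk
    have : (k : ℝ) + c / m = (c + m * k) / m := by field_simp; ring
    show |(k : ℝ) + c / m| ≤ r / m
    rw [this, abs_div, abs_of_pos hm0]
    exact div_le_div_of_nonneg_right hk hm0.le
  refine ⟨(near_finite _ _).subset hsub, ?_⟩
  have h1 := Set.ncard_le_ncard hsub (near_finite _ _)
  have h2 := near_ncard (c / m) (r / m) (by positivity)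
  have h3 : (({k : ℤ | |c + m * k| ≤ r}.ncard : ℕ) : ℝ) ≤
      (({k : ℤ | |(k : ℝ) + c / m| ≤ r / m}.ncard : ℕ) : ℝ) := by exact_mod_cast h1
  refine h3.trans (h2.trans (le_of_eq ?_))
  ring

/-- For odd `m`: the number of the `k` in `j` blocks for which the pair does not merge. -/
theorem nm_blocks {m : ℤ} (hm : Odd m) (a : ℤ) (t : ℕ) (p : ℕ × ℤ) (k0 : ℤ) (j : ℕ) :
    (({k : ℤ | k0 ≤ k ∧ k < k0 + j * 2 ^ t ∧ nm t p (a + m * k)}.ncard : ℕ) : ℝ) ≤
      j * (2 ^ t * f t p) := by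
  classical
  have hm0 : m ≠ 0 := by rintro rfl; exact absurd hm (by decide)
  have hinj : Function.Injective (fun k : ℤ => a + m * k) := by
    intro k k' h
    have h' : m * k = m * k' := by simpa using h
    exact mul_left_cancel₀ hm0 h'
  have hfin : ∀ u v : ℤ, {k : ℤ | u ≤ k ∧ k < v ∧ nm t p (a + m * k)}.Finite := by
    intro u v
    apply (Set.finite_Ico u v).subset
    rintro x ⟨h1, h2, -⟩
    exact ⟨h1, h2⟩
  have hblock : ∀ u : ℤ, (({k : ℤ | u ≤ k ∧ k < u + 2 ^ t ∧ nm t p (a + m * k)}.ncard : ℕ) : ℝ) ≤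
      2 ^ t * f t p := by
    intro u
    set I : Finset ℤ := (Finset.Ico u (u + 2 ^ t)).image (fun k : ℤ => a + m * k) with hI
    have hInj : InjMod t I := by
      intro x hx y hy hxy
      rw [hI, Finset.mem_image] at hx hy
      obtain ⟨k, hk, rfl⟩ := hx
      obtain ⟨l, hl, rfl⟩ := hy
      have h1 : (2 : ℤ) ^ t ∣ m * (k - l) := by
        have : a + m * k - (a + m * l) = m * (k - l) := by ring
        rwa [this] at hxy
      have hcop : IsCoprime ((2 : ℤ) ^ t) m := by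
        apply IsCoprime.pow_left
        obtain ⟨r, hr⟩ := hm
        exact ⟨-r, 1, by rw [hr]; ring⟩
      have h2 := hcop.dvd_of_dvd_mul_left h1
      rw [injMod_Ico t u k hk l hl h2]
    have h1 := nm_count t p I hInj
    refine le_trans ?_ h1
    have hsub : (fun k : ℤ => a + m * k) '' {k : ℤ | u ≤ k ∧ k < u + 2 ^ t ∧ nm t p (a + m * k)} ⊆
        ((sel nm t p I : Finset ℤ) : Set ℤ) := by
      rintro x ⟨k, ⟨h1, h2, h3⟩, rfl⟩
      rw [Finset.mem_coe, mem_sel]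
      exact ⟨Finset.mem_image_of_mem _ (Finset.mem_Ico.2 ⟨h1, h2⟩), h3⟩
    have h2 := Set.ncard_le_ncard hsub (Finset.finite_toSet _)
    rw [Set.ncard_image_of_injective _ hinj, Set.ncard_coe_finset] at h2
    exact_mod_cast h2
  induction j with
  | zero =>
    have h : {k : ℤ | k0 ≤ k ∧ k < k0 + ((0 : ℕ) : ℤ) * 2 ^ t ∧ nm t p (a + m * k)} = ∅ := by
      ext x
      simp only [Set.mem_ofPred_eq, Set.mem_empty_iff_false, iff_false]
      rintro ⟨h1, h2, -⟩
      push_cast at h2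
      linarith
    rw [h]
    simp
  | succ j ih =>
    have h1 : {k : ℤ | k0 ≤ k ∧ k < k0 + ((j + 1 : ℕ) : ℤ) * 2 ^ t ∧ nm t p (a + m * k)} ⊆
        {k : ℤ | k0 ≤ k ∧ k < k0 + (j : ℤ) * 2 ^ t ∧ nm t p (a + m * k)} ∪
        {k : ℤ | k0 + (j : ℤ) * 2 ^ t ≤ k ∧ k < k0 + (j : ℤ) * 2 ^ t + 2 ^ t ∧
          nm t p (a + m * k)} := by
      rintro x ⟨h1, h2, h3⟩
      push_cast at h2
      rcases lt_or_ge x (k0 + (j : ℤ) * 2 ^ t) with h | h
      · exact Or.inl ⟨h1, h, h3⟩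
      · exact Or.inr ⟨h, by linarith, h3⟩
    have h2 := ncard_diff (hfin _ _) (hfin _ _) h1
    have h3 := hblock (k0 + (j : ℤ) * 2 ^ t)
    push_cast at h2 ⊢
    linarith

/-- For odd `m`: the `k` with `0 < e (a + m k) ≤ X` for which the pair does not merge. -/
theorem nm_range {e : ℤ} (he : e = 1 ∨ e = -1) {m : ℤ} (hm : Odd m) (hm1 : 1 ≤ m) (a : ℤ)
    (t : ℕ) (p : ℕ × ℤ) {X : ℝ} (hX : 0 ≤ X) :
    (({k : ℤ | k ∈ KR e m a X ∧ nm t p (a + m * k)}.ncard : ℕ) : ℝ) ≤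
      (X / m + 1 + 2 ^ t) * f t p := by
  have hm0 : (0 : ℝ) < m := by exact_mod_cast (by omega : 0 < m)
  set α : ℝ := (a - e * (X / 2)) / m with hα
  set r : ℝ := X / 2 / m with hr
  have hr0 : 0 ≤ r := by positivity
  set k0 : ℤ := ⌈-α - r⌉ with hk0
  set j : ℕ := ⌈(2 * r + 1) / 2 ^ t⌉₊ with hj
  have hj1 : 2 * r + 1 ≤ j * 2 ^ t := by
    have := Nat.le_ceil ((2 * r + 1) / 2 ^ t)
    rw [← hj, div_le_iff₀ (by positivity)] at this
    exact this
  have hj2 : (j : ℝ) * 2 ^ t ≤ 2 * r + 1 + 2 ^ t := by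
    have := Nat.ceil_lt_add_one (show 0 ≤ (2 * r + 1) / 2 ^ t by positivity)
    rw [← hj] at this
    have h2 : (j : ℝ) * 2 ^ t ≤ ((2 * r + 1) / 2 ^ t + 1) * 2 ^ t :=
      mul_le_mul_of_nonneg_right this.le (by positivity)
    have h3 : ((2 * r + 1) / 2 ^ t + 1) * (2 : ℝ) ^ t = 2 * r + 1 + 2 ^ t := by
      field_simp
    rwa [h3] at h2
  have hsub : {k : ℤ | k ∈ KR e m a X ∧ nm t p (a + m * k)} ⊆
      {k : ℤ | k0 ≤ k ∧ k < k0 + j * 2 ^ t ∧ nm t p (a + m * k)} := by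
    rintro k ⟨hk, hn⟩
    have hk' := KR_sub he hm1 a X hk
    have hk2 : |(k : ℝ) + α| ≤ r := hk'
    rw [abs_le] at hk2
    refine ⟨Int.ceil_le.2 (by linarith), ?_, hn⟩
    have h1 := Int.le_ceil (-α - r)
    rw [← hk0] at h1
    have h2 : (k : ℝ) < k0 + j * 2 ^ t := by linarith
    exact_mod_cast h2
  have hfin : {k : ℤ | k0 ≤ k ∧ k < k0 + j * 2 ^ t ∧ nm t p (a + m * k)}.Finite := by
    apply (Set.finite_Ico k0 (k0 + j * 2 ^ t)).subset
    rintro x ⟨h1, h2, -⟩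
    exact ⟨h1, h2⟩
  have h1 := Set.ncard_le_ncard hsub hfin
  have h2 := nm_blocks hm a t p k0 j
  have h3 : (({k : ℤ | k ∈ KR e m a X ∧ nm t p (a + m * k)}.ncard : ℕ) : ℝ) ≤
      (({k : ℤ | k0 ≤ k ∧ k < k0 + j * 2 ^ t ∧ nm t p (a + m * k)}.ncard : ℕ) : ℝ) := by
    exact_mod_cast h1
  refine h3.trans (h2.trans ?_)
  have h4 : (j : ℝ) * (2 ^ t * f t p) = j * 2 ^ t * f t p := by ring
  rw [h4]
  refine mul_le_mul_of_nonneg_right ?_ (f_nonneg t p)
  refine hj2.trans (le_of_eq ?_)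
  rw [hr]
  ring

/-- the `k` with `0 < e (a + m k) ≤ X` at which the membership changes under the shift by `b` -/
def Bad (e m a b : ℤ) (S : Set ℤ) (X : ℝ) : Set ℤ :=
  {k : ℤ | k ∈ KR e m a X ∧ ¬ (a + m * k ∈ S ↔ a + b + m * k ∈ S)}

theorem Bad_finite {e : ℤ} (he : e = 1 ∨ e = -1) {m : ℤ} (hm : 1 ≤ m) (a b : ℤ) (S : Set ℤ)
    (X : ℝ) : (Bad e m a b S X).Finite := (KR_finite he hm a X).subset fun _ hk => hk.1

theorem Bad_ncard {e : ℤ} (he : e = 1 ∨ e = -1) {m : ℤ} (hm : Odd m) (hm1 : 1 ≤ m) (a b : ℤ)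
    {y : ℝ} {S : Set ℤ} (hy : 1 ≤ y) (hS : InvAbove y S) (t : ℕ) {X : ℝ} (hX : 0 ≤ X) :
    ((Bad e m a b S X).ncard : ℝ) ≤
      (X / m + 1 + 2 ^ t) * f t (0, -b) + (4 * (2 ^ t * y) / m + 2) := by
  have hm0 : (0 : ℝ) < m := by exact_mod_cast (by omega : 0 < m)
  have hty : (0 : ℝ) ≤ 2 ^ t * y := by positivity
  obtain ⟨f1, c1⟩ := near_k hm1 (a : ℝ) (2 ^ t * y) hty
  obtain ⟨f2, c2⟩ := near_k hm1 ((a + b : ℤ) : ℝ) (2 ^ t * y) hty
  have f3 : {k : ℤ | k ∈ KR e m a X ∧ nm t (0, -b) (a + m * k)}.Finite :=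
    (KR_finite he hm1 a X).subset fun _ hk => hk.1
  have c3 := nm_range he hm hm1 a t (0, -b) hX
  have hsub : Bad e m a b S X ⊆ {k : ℤ | k ∈ KR e m a X ∧ nm t (0, -b) (a + m * k)} ∪
      ({k : ℤ | |(a : ℝ) + m * k| ≤ 2 ^ t * y} ∪ {k : ℤ | |((a + b : ℤ) : ℝ) + m * k| ≤ 2 ^ t * y})
      := by
    rintro k ⟨hk, hne⟩
    by_cases h1 : |(a : ℝ) + m * k| ≤ 2 ^ t * y
    · exact Or.inr (Or.inl h1)
    by_cases h2 : |((a + b : ℤ) : ℝ) + m * k| ≤ 2 ^ t * y
    · exact Or.inr (Or.inr h2)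
    refine Or.inl ⟨hk, ?_⟩
    by_contra hn
    apply hne
    obtain ⟨i, hi, hii⟩ := meet t 0 (-b) (a + m * k) hn
    rw [pow_zero, one_mul, sub_neg_eq_add] at hii
    have e1 : a + m * k + b = a + b + m * k := by ring
    rw [e1] at hii
    have hti : (2 : ℝ) ^ i ≤ 2 ^ t := pow_le_pow_right₀ (by norm_num) hi
    have hy0 : 0 ≤ y := by linarith
    have m1 := mem_iter hy0 hS i (a + m * k) (by
      have : (2 : ℝ) ^ i * y ≤ 2 ^ t * y := mul_le_mul_of_nonneg_right hti hy0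
      push_cast
      linarith)
    have m2 := mem_iter hy0 hS i (a + b + m * k) (by
      have : (2 : ℝ) ^ i * y ≤ 2 ^ t * y := mul_le_mul_of_nonneg_right hti hy0
      push_cast at h2 ⊢
      linarith)
    rw [m1, m2, hii]
  have h1 := ncard_diff f3 (f1.union f2) hsub
  have h2 : ((({k : ℤ | |(a : ℝ) + m * k| ≤ 2 ^ t * y} ∪
      {k : ℤ | |((a + b : ℤ) : ℝ) + m * k| ≤ 2 ^ t * y}).ncard : ℕ) : ℝ) ≤
      (({k : ℤ | |(a : ℝ) + m * k| ≤ 2 ^ t * y}.ncard : ℕ) : ℝ) +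
      (({k : ℤ | |((a + b : ℤ) : ℝ) + m * k| ≤ 2 ^ t * y}.ncard : ℕ) : ℝ) := by
    exact_mod_cast Set.ncard_union_le _ _
  have h3 : 4 * (2 ^ t * y) / m + 2 = (2 * (2 ^ t * y) / m + 1) + (2 * (2 ^ t * y) / m + 1) := by
    ring
  rw [h3]
  linarith

/-- Shift of the residue class by `b`. -/
theorem shift_k {e : ℤ} (he : e = 1 ∨ e = -1) {m : ℤ} (hm1 : 1 ≤ m) (a b : ℤ) (hb : |b| ≤ m)
    (S : Set ℤ) (X : ℝ) :
    |((KS e m a S X).ncard : ℝ) - (KS e m (a + b) S X).ncard| ≤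
      (Bad e m a b S X).ncard + 6 := by
  have hm0 : (0 : ℝ) < m := by exact_mod_cast (by omega : 0 < m)
  have hbR : (0 : ℝ) ≤ ((|b| : ℤ) : ℝ) := by exact_mod_cast abs_nonneg b
  have hbm : ((|b| : ℤ) : ℝ) ≤ m := by exact_mod_cast hb
  obtain ⟨f1, c1⟩ := near_k hm1 (a : ℝ) ((|b| : ℤ) : ℝ) hbR
  obtain ⟨f2, c2⟩ := near_k hm1 ((a : ℝ) - e * X) ((|b| : ℤ) : ℝ) hbR
  have hle : 2 * ((|b| : ℤ) : ℝ) / m ≤ 2 := by
    rw [div_le_iff₀ hm0]; linarith
  set Z : Set ℤ := {k : ℤ | |(a : ℝ) + m * k| ≤ ((|b| : ℤ) : ℝ)} ∪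
    {k : ℤ | |(a : ℝ) - e * X + m * k| ≤ ((|b| : ℤ) : ℝ)} with hZ
  have fZ : Z.Finite := f1.union f2
  have cZ : (Z.ncard : ℝ) ≤ 6 := by
    have h2 := ncard_unionR {k : ℤ | |(a : ℝ) + m * k| ≤ ((|b| : ℤ) : ℝ)}
      {k : ℤ | |(a : ℝ) - e * X + m * k| ≤ ((|b| : ℤ) : ℝ)}
    rw [← hZ] at h2
    linarith
  have fB := Bad_finite he hm1 a b S X
  have hZmem : ∀ k : ℤ, ((0 < e * (a + m * k) ∧ ((e * (a + m * k) : ℤ) : ℝ) ≤ X) ↔
      ¬ (0 < e * (a + b + m * k) ∧ ((e * (a + b + m * k) : ℤ) : ℝ) ≤ X)) → k ∈ Z := by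
    intro k hk
    by_contra hn
    rw [hZ, Set.mem_union, not_or] at hn
    obtain ⟨n1, n2⟩ := hn
    have n1' : ((|b| : ℤ) : ℝ) < |(a : ℝ) + m * k| := lt_of_not_ge n1
    have n2' : ((|b| : ℤ) : ℝ) < |(a : ℝ) - e * X + m * k| := lt_of_not_ge n2
    push_cast at n1' n2'
    have hbl := neg_abs_le (b : ℝ)
    have hbu := le_abs_self (b : ℝ)
    -- the sign of `a + m k` and of `a + b + m k` agree, and so do the comparisons with `e X`
    have s1 : (0 < e * (a + m * k)) ↔ (0 < e * (a + b + m * k)) := by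
      have g1 : (0 < e * (a + m * k)) ↔ (0 : ℝ) < e * (a + m * k) := by
        rw [← Int.cast_pos (R := ℝ)]; push_cast; rfl
      have g2 : (0 < e * (a + b + m * k)) ↔ (0 : ℝ) < e * (a + b + m * k) := by
        rw [← Int.cast_pos (R := ℝ)]; push_cast; rfl
      rw [g1, g2]
      rcases he with rfl | rfl <;> rcases lt_abs.1 n1' with h | h <;> push_cast <;>
        constructor <;> intro h' <;> linarith
    have s2 : (((e * (a + m * k) : ℤ) : ℝ) ≤ X) ↔ (((e * (a + b + m * k) : ℤ) : ℝ) ≤ X) := by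
      rcases he with rfl | rfl <;> push_cast at n2' ⊢ <;> rcases lt_abs.1 n2' with h | h <;>
        constructor <;> intro h' <;> linarith
    rw [s1, s2] at hk
    exact (iff_not_self hk)
  have key : ∀ A B : Set ℤ, A.Finite → B.Finite → A ⊆ B ∪ (Bad e m a b S X ∪ Z) →
      (A.ncard : ℝ) - B.ncard ≤ (Bad e m a b S X).ncard + 6 := by
    intro A B hA hB hAB
    have h1 := ncard_diff hB (fB.union fZ) hAB
    have h2 : (((Bad e m a b S X ∪ Z).ncard : ℕ) : ℝ) ≤
        ((Bad e m a b S X).ncard : ℝ) + (Z.ncard : ℝ) := by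
      exact_mod_cast Set.ncard_union_le _ _
    linarith
  have hfa := KS_finite he hm1 a S X
  have hfb := KS_finite he hm1 (a + b) S X
  rw [abs_le]
  have k1 := key _ _ hfa hfb (by
    rintro k ⟨h1, h2⟩
    by_cases h3 : 0 < e * (a + b + m * k) ∧ ((e * (a + b + m * k) : ℤ) : ℝ) ≤ X
    · by_cases h4 : a + b + m * k ∈ S
      · exact Or.inl ⟨h4, h3⟩
      · exact Or.inr (Or.inl ⟨h2, fun h => h4 (h.1 h1)⟩)
    · exact Or.inr (Or.inr (hZmem k ⟨fun _ => h3, fun _ => h2⟩)))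
  have k2 := key _ _ hfb hfa (by
    rintro k ⟨h1, h2⟩
    by_cases h3 : 0 < e * (a + m * k) ∧ ((e * (a + m * k) : ℤ) : ℝ) ≤ X
    · by_cases h4 : a + m * k ∈ S
      · exact Or.inl ⟨h4, h3⟩
      · exact Or.inr (Or.inl ⟨h3, fun h => h4 (h.2 h1)⟩)
    · refine Or.inr (Or.inr (hZmem k ⟨fun h => absurd h h3, fun h => absurd h2 h⟩)))
  constructor <;> linarith

/-- If the shifts by `b < m` change at most `M` memberships, then the class of `a` contains its
share of `S`, up to `M + 6`. -/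
theorem average {e : ℤ} (he : e = 1 ∨ e = -1) (m : ℕ) (hm : 1 ≤ m) (a : ℤ) (S : Set ℤ) (X M : ℝ)
    (hM : ∀ b : ℕ, b < m → ((Bad e m a b S X).ncard : ℝ) ≤ M) :
    |((KS e m a S X).ncard : ℝ) - count e S X / m| ≤ M + 6 := by
  have hm1 : (1 : ℤ) ≤ m := by exact_mod_cast hm
  have hm0 : (0 : ℝ) < m := by exact_mod_cast hm
  have h1 := count_partition he S m hm a X
  have h2 : ∀ b ∈ Finset.range m, |((KS e m a S X).ncard : ℝ) -
      count e {n : ℤ | n ∈ S ∧ n ≡ a + b [ZMOD m]} X| ≤ M + 6 := by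
    intro b hb
    rw [Finset.mem_range] at hb
    rw [count_eq hm1]
    refine (shift_k he hm1 a b ?_ S X).trans ?_
    · rw [abs_of_nonneg (by positivity)]; exact_mod_cast hb.le
    · have := hM b hb
      linarith
  have h3 : (m : ℝ) * ((KS e m a S X).ncard : ℝ) - count e S X =
      ∑ b ∈ Finset.range m, (((KS e m a S X).ncard : ℝ) -
        count e {n : ℤ | n ∈ S ∧ n ≡ a + b [ZMOD m]} X) := by
    rw [Finset.sum_sub_distrib, h1, Finset.sum_const, Finset.card_range, nsmul_eq_mul]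
  have h4 : |(m : ℝ) * ((KS e m a S X).ncard : ℝ) - count e S X| ≤ m * (M + 6) := by
    rw [h3]
    refine (Finset.abs_sum_le_sum_abs _ _).trans ((Finset.sum_le_sum h2).trans (le_of_eq ?_))
    rw [Finset.sum_const, Finset.card_range, nsmul_eq_mul]
  have h5 : ((KS e m a S X).ncard : ℝ) - count e S X / m =
      ((m : ℝ) * ((KS e m a S X).ncard : ℝ) - count e S X) / m := by field_simp
  rw [h5, abs_div, abs_of_pos hm0, div_le_iff₀ hm0]
  linarith

/-- A time `t` with `2 ^ t ≤ √X` that is comparable to `log X`. -/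
theorem exists_time {X : ℝ} (hX4 : 4 ≤ X) :
    ∃ t : ℕ, 1 ≤ t ∧ (2 : ℝ) ^ t ≤ Real.sqrt X ∧ Real.log X ≤ 4 * t := by
  have hfl : 4 ≤ ⌊X⌋₊ := Nat.le_floor (by exact_mod_cast hX4)
  have ha : Nat.log 4 ⌊X⌋₊ ≠ 0 := by
    have := Nat.log_pos (b := 4) (by norm_num) hfl
    omega
  have hb : (4 : ℝ) ^ Nat.log 4 ⌊X⌋₊ ≤ X := by
    have h := Nat.pow_log_le_self 4 (x := ⌊X⌋₊) (by omega)
    have h' : ((4 ^ Nat.log 4 ⌊X⌋₊ : ℕ) : ℝ) ≤ (⌊X⌋₊ : ℝ) := by exact_mod_cast h
    push_cast at h'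
    exact h'.trans (Nat.floor_le (by linarith))
  have hc : X < (4 : ℝ) ^ (Nat.log 4 ⌊X⌋₊ + 1) := by
    have h := Nat.lt_pow_succ_log_self (b := 4) (by norm_num) ⌊X⌋₊
    have h' : ((⌊X⌋₊ + 1 : ℕ) : ℝ) ≤ ((4 ^ (Nat.log 4 ⌊X⌋₊).succ : ℕ) : ℝ) := by
      exact_mod_cast h
    push_cast at h'
    exact lt_of_lt_of_le (Nat.lt_floor_add_one X) h'
  refine ⟨Nat.log 4 ⌊X⌋₊, by omega, ?_, ?_⟩
  · apply Real.le_sqrt_of_sq_le
    rw [← pow_mul, mul_comm, pow_mul]
    norm_num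
    exact hb
  · have h3 := Real.log_le_log (by linarith) hc.le
    rw [Real.log_pow, show (4 : ℝ) = 2 ^ 2 by norm_num, Real.log_pow] at h3
    have h4 : Real.log 2 ≤ 1 := by have := Real.log_two_lt_d9; linarith
    have h5 : (1 : ℝ) ≤ (Nat.log 4 ⌊X⌋₊ : ℝ) := by
      exact_mod_cast Nat.one_le_iff_ne_zero.2 ha
    push_cast at h3
    nlinarith

theorem count_le {e : ℤ} (he : e = 1 ∨ e = -1) (S : Set ℤ) {X : ℝ} (hX : 0 ≤ X) :
    count e S X ≤ X + 1 := by
  have h1 : count e S X = ((KS e 1 0 S X).ncard : ℝ) := by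
    rw [← count_eq le_rfl]
    congr 1
    ext x
    simp only [Set.mem_ofPred_eq]
    exact ⟨fun h => ⟨h, Int.modEq_one⟩, fun h => h.1⟩
  have h2 := Set.ncard_le_ncard (KS_sub e 1 0 S X) (KR_finite he le_rfl 0 X)
  have h3 := KR_ncard he (le_refl (1 : ℤ)) 0 hX
  have h4 : ((KS e 1 0 S X).ncard : ℝ) ≤ ((KR e 1 0 X).ncard : ℝ) := by exact_mod_cast h2
  rw [h1]
  refine h4.trans (h3.trans (le_of_eq ?_))
  push_cast
  ring

theorem KS_le {e : ℤ} (he : e = 1 ∨ e = -1) {m : ℤ} (hm : 1 ≤ m) (a : ℤ) (S : Set ℤ) {X : ℝ}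
    (hX : 0 ≤ X) : ((KS e m a S X).ncard : ℝ) ≤ X / m + 1 := by
  have h2 := Set.ncard_le_ncard (KS_sub e m a S X) (KR_finite he hm a X)
  have h3 := KR_ncard he hm a hX
  have h4 : ((KS e m a S X).ncard : ℝ) ≤ ((KR e m a X).ncard : ℝ) := by exact_mod_cast h2
  exact h4.trans h3

/-- The case `log X ≤ 4 log (1 + m)`. -/
theorem half_le {m X : ℝ} (hX : 2 ≤ X) (h : Real.log X ≤ 4 * Real.log (1 + m)) :
    1 / 2 ≤ Real.sqrt (Real.log (1 + m) / Real.log X) := by
  have hlogX : 0 < Real.log X := Real.log_pos (by linarith)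
  apply Real.le_sqrt_of_sq_le
  rw [le_div_iff₀ hlogX]
  linarith

/-- The average over the shifts, for odd `m`. -/
theorem odd_case (hph : PHStatement) : ∃ C : ℝ, 1 ≤ C ∧ ∀ e : ℤ, e = 1 ∨ e = -1 →
    ∀ (y : ℝ) (S : Set ℤ), 1 ≤ y → InvAbove y S → ∀ (m : ℕ) (a : ℤ) (X : ℝ), Odd m → 2 ≤ X →
      |((KS e m a S X).ncard : ℝ) - count e S X / m| ≤
        C * (X / m * Real.sqrt (Real.log (1 + m) / Real.log X) + y ^ 2) := by
  obtain ⟨C0, hC0, hf⟩ := hph
  refine ⟨18 * C0 + 10, by linarith, fun e he y S hy hS m a X hm hX => ?_⟩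
  have hm1 : 1 ≤ m := hm.pos
  have hmR : (1 : ℝ) ≤ m := by exact_mod_cast hm1
  have hm0 : (0 : ℝ) < m := by linarith
  have hmZ : (1 : ℤ) ≤ m := by exact_mod_cast hm1
  have hlogX : 0 < Real.log X := Real.log_pos (by linarith)
  have hX0 : 0 ≤ X := by linarith
  have hy2 : 1 ≤ y ^ 2 := by nlinarith
  set q : ℝ := Real.sqrt (Real.log (1 + m) / Real.log X) with hq
  have hq0 : 0 ≤ q := Real.sqrt_nonneg _
  have hXm : 0 ≤ X / m := by positivity
  have hcast : ((m : ℤ) : ℝ) = m := by push_cast; rfl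
  rcases le_or_gt (Real.log X) (4 * Real.log (1 + m)) with hA | hB
  · have hq2 : 1 / 2 ≤ q := half_le hX hA
    have h1 := KS_le he hmZ a S hX0
    rw [hcast] at h1
    have h2 : count e S X / m ≤ X / m + 1 := by
      have h3 := count_le he S hX0
      rw [div_le_iff₀ hm0]
      have : (X / m + 1) * m = X + m := by field_simp
      rw [this]
      linarith
    have h3 : (0 : ℝ) ≤ ((KS e m a S X).ncard : ℝ) := Nat.cast_nonneg _
    have h4 : 0 ≤ count e S X / m := div_nonneg (count_nonneg e S X) hm0.le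
    have h5 : X / m + 1 ≤ (18 * C0 + 10) * (X / m * q + y ^ 2) := by
      have h5 : X / m * (1 / 2) ≤ X / m * q := mul_le_mul_of_nonneg_left hq2 hXm
      have h6 : 0 ≤ C0 * (X / m * q + y ^ 2) := by positivity
      have h7 : (18 * C0 + 10) * (X / m * q + y ^ 2) = 18 * (C0 * (X / m * q + y ^ 2)) +
          10 * (X / m * q) + 10 * y ^ 2 := by ring
      rw [h7]
      linarith
    rw [abs_le]
    constructor <;> linarith
  · -- the main case
    set s : ℝ := Real.sqrt (Real.sqrt X) with hs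
    have hlm : Real.log 2 ≤ Real.log (1 + m) := Real.log_le_log (by norm_num) (by linarith)
    have hl2 := half_le_log_two
    have hpow : ((1 : ℝ) + m) ^ 4 < X := by
      have h1 : Real.log (((1 : ℝ) + m) ^ 4) < Real.log X := by
        rw [Real.log_pow]; push_cast; exact hB
      exact (Real.log_lt_log_iff (by positivity) (by linarith)).1 h1
    have hs4 : s ^ 4 = X := by
      have h1 : s ^ 2 = Real.sqrt X := Real.sq_sqrt (Real.sqrt_nonneg X)
      have h2 : Real.sqrt X ^ 2 = X := Real.sq_sqrt hX0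
      calc s ^ 4 = (s ^ 2) ^ 2 := by ring
        _ = X := by rw [h1, h2]
    have hs0 : 0 ≤ s := Real.sqrt_nonneg _
    have hms : 1 + (m : ℝ) < s := by
      by_contra hcon
      push Not at hcon
      have := pow_le_pow_left₀ hs0 hcon 4
      rw [hs4] at this
      linarith
    have hs2 : 2 ≤ s := by linarith
    have hsX : 4 ≤ Real.sqrt X := by
      have h1 : s ^ 2 = Real.sqrt X := Real.sq_sqrt (Real.sqrt_nonneg X)
      nlinarith
    obtain ⟨t, ht1, ht2, ht3⟩ := exists_time hsX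
    rw [Real.log_sqrt hX0] at ht3
    rw [← hs] at ht2
    have ht0 : (0 : ℝ) < t := by exact_mod_cast ht1
    have hXm3 : s ^ 3 ≤ X / m := by
      rw [le_div_iff₀ hm0, ← hs4]
      have : 0 ≤ s ^ 3 := by positivity
      nlinarith
    have hs3 : s ≤ s ^ 3 := by nlinarith [sq_nonneg s]
    have h1s : 1 ≤ s := by linarith
    -- the shift is small
    have hshift : ∀ b : ℕ, b < m → f t (0, -(b : ℤ)) ≤ C0 * (6 * q) := by
      intro b hb
      refine (hf t ht1 0 (-(b : ℤ))).trans (mul_le_mul_of_nonneg_left ?_ hC0.le)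
      have h6 : (6 : ℝ) = Real.sqrt 36 := by
        rw [show (36 : ℝ) = 6 ^ 2 by norm_num, Real.sqrt_sq (by norm_num)]
      rw [hq, h6, ← Real.sqrt_mul (by norm_num)]
      apply Real.sqrt_le_sqrt
      have hb' : |((-(b : ℤ) : ℤ) : ℝ)| ≤ m := by
        push_cast
        rw [abs_neg, Nat.abs_cast]
        exact_mod_cast hb.le
      have hlb : Real.log (2 + |((-(b : ℤ) : ℤ) : ℝ)|) ≤ 2 * Real.log (1 + m) := by
        have h1 : Real.log (2 + |((-(b : ℤ) : ℤ) : ℝ)|) ≤ Real.log ((1 + (m : ℝ)) ^ 2) := by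
          apply Real.log_le_log (by positivity)
          nlinarith
        rw [Real.log_pow] at h1
        push_cast at h1 ⊢
        exact h1
      rw [div_le_iff₀ ht0]
      have h7 : 36 * (Real.log (1 + m) / Real.log X) * t =
          36 * Real.log (1 + m) * (t / Real.log X) := by ring
      rw [h7]
      have h8 : 1 / 8 ≤ (t : ℝ) / Real.log X := by
        rw [div_le_div_iff₀ (by norm_num) hlogX]
        linarith
      have h9 : 36 * Real.log (1 + m) * (1 / 8) ≤ 36 * Real.log (1 + m) * (t / Real.log X) := by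
        apply mul_le_mul_of_nonneg_left h8
        linarith
      have h10 : 1 + (((0 : ℕ) : ℝ)) ^ 2 + Real.log (2 + |((-(b : ℤ) : ℤ) : ℝ)|) ≤
          1 + 2 * Real.log (1 + m) := by
        have : (((0 : ℕ) : ℝ)) ^ 2 = 0 := by norm_num
        linarith
      refine h10.trans (le_trans ?_ h9)
      linarith
    -- the lower bound for `q`
    have hqs : 1 / (2 * s) ≤ q := by
      apply Real.le_sqrt_of_sq_le
      rw [le_div_iff₀ hlogX, ← hs4, Real.log_pow]
      have h1 : Real.log s ≤ s := (Real.log_le_sub_one_of_pos (by linarith)).trans (by linarith)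
      have h2 : (1 / (2 * s)) ^ 2 * (((4 : ℕ) : ℝ) * Real.log s) ≤
          (1 / (2 * s)) ^ 2 * (4 * s) := by
        apply mul_le_mul_of_nonneg_left _ (by positivity)
        push_cast
        linarith
      have h3 : (1 / (2 * s)) ^ 2 * (4 * s) = 1 / s := by field_simp; norm_num
      have h4 : 1 / s ≤ 1 / 2 := one_div_le_one_div_of_le (by norm_num) hs2
      linarith
    have hXq : s ^ 2 ≤ 2 * (X / m * q) := by
      have h1 : s ^ 3 * (1 / (2 * s)) ≤ X / m * q :=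
        mul_le_mul hXm3 hqs (by positivity) hXm
      have h2 : s ^ 3 * (1 / (2 * s)) = s ^ 2 / 2 := by field_simp
      linarith
    have hM : ∀ b : ℕ, b < m → ((Bad e m a b S X).ncard : ℝ) ≤
        (18 * C0 + 4) * (X / m * q) + 2 * y ^ 2 + 2 := by
      intro b hb
      have hmo : Odd (m : ℤ) := by exact_mod_cast hm
      refine (Bad_ncard he hmo hmZ a b hy hS t hX0).trans ?_
      rw [hcast]
      have h1 : (X / m + 1 + 2 ^ t) * f t (0, -(b : ℤ)) ≤ (3 * (X / m)) * (C0 * (6 * q)) := by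
        apply mul_le_mul _ (hshift b hb) (f_nonneg _ _) (by positivity)
        linarith
      have h2 : 4 * (2 ^ t * y) / m ≤ 2 * s ^ 2 + 2 * y ^ 2 := by
        rw [div_le_iff₀ hm0]
        have h3 : 2 ^ t * y ≤ s * y := mul_le_mul_of_nonneg_right ht2 (by linarith)
        have h4 : 2 * (s * y) ≤ s ^ 2 + y ^ 2 := by nlinarith [sq_nonneg (s - y)]
        have h5 : 0 ≤ 2 * s ^ 2 + 2 * y ^ 2 := by positivity
        have h6 : (2 * s ^ 2 + 2 * y ^ 2) * 1 ≤ (2 * s ^ 2 + 2 * y ^ 2) * m :=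
          mul_le_mul_of_nonneg_left hmR h5
        linarith
      have h3 : (3 * (X / m)) * (C0 * (6 * q)) = 18 * C0 * (X / m * q) := by ring
      linarith
    refine (average he m hm1 a S X _ hM).trans ?_
    have h1 : 0 ≤ X / m * q := by positivity
    have h2 : 0 ≤ C0 * y ^ 2 := by positivity
    have h3 : (18 * C0 + 10) * (X / m * q + y ^ 2) = (18 * C0 + 4) * (X / m * q) +
        6 * (X / m * q) + 18 * (C0 * y ^ 2) + 10 * y ^ 2 := by ring
    rw [h3]
    linarith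

/-! ### The even part of the modulus -/

theorem T_pos {x : ℤ} (hx : 0 < x) : 0 < T x := by
  unfold T; split_ifs <;> omega

theorem T_nonneg {x : ℤ} (hx : 0 ≤ x) : 0 ≤ T x := by
  unfold T; split_ifs <;> omega

theorem T_neg {x : ℤ} (hx : x < 0) : T x < 0 := by
  unfold T; split_ifs <;> omega

theorem iter_pos (v : ℕ) : ∀ x : ℤ, 0 < x → 0 < T^[v] x := by
  induction v with
  | zero => exact fun x hx => hx
  | succ v ih => intro x hx; rw [Function.iterate_succ_apply]; exact ih _ (T_pos hx)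

theorem iter_nonneg (v : ℕ) : ∀ x : ℤ, 0 ≤ x → 0 ≤ T^[v] x := by
  induction v with
  | zero => exact fun x hx => hx
  | succ v ih => intro x hx; rw [Function.iterate_succ_apply]; exact ih _ (T_nonneg hx)

theorem iter_neg (v : ℕ) : ∀ x : ℤ, x < 0 → T^[v] x < 0 := by
  induction v with
  | zero => exact fun x hx => hx
  | succ v ih => intro x hx; rw [Function.iterate_succ_apply]; exact ih _ (T_neg hx)

theorem iter_sign {e : ℤ} (he : e = 1 ∨ e = -1) (v : ℕ) (x : ℤ) :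
    0 < e * T^[v] x ↔ 0 < e * x := by
  rcases lt_trichotomy x 0 with h | h | h
  · have h1 := iter_neg v x h
    rcases he with rfl | rfl <;> constructor <;> intro _ <;> linarith
  · subst h
    have h1 := iter_nonneg v 0 le_rfl
    have h2 : ∀ v : ℕ, T^[v] 0 = 0 := by
      intro v
      induction v with
      | zero => rfl
      | succ v ih => rw [Function.iterate_succ_apply', ih]; rfl
    rw [h2 v]
  · have h1 := iter_pos v x h
    rcases he with rfl | rfl <;> constructor <;> intro _ <;> linarith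

/-- The first `v` steps remove the factor `2 ^ v` of the modulus. -/
theorem transfer {e : ℤ} (he : e = 1 ∨ e = -1) {y : ℝ} {S : Set ℤ} (hy : 1 ≤ y)
    (hS : InvAbove y S) (v : ℕ) (m : ℕ) (hm : 1 ≤ m) (a : ℤ) (X : ℝ) :
    ∃ (o : ℕ) (a' : ℤ), o ≤ v ∧
      |((KS e ((2 ^ v * m : ℕ) : ℤ) a S X).ncard : ℝ) -
        (KS e ((3 ^ o * m : ℕ) : ℤ) a' S (3 ^ o / 2 ^ v * X)).ncard| ≤ 2 * y + 4 := by
  set a0 : ℤ := a % 2 ^ v with ha0
  set a1 : ℤ := a / 2 ^ v with ha1
  have hp : (0 : ℤ) < 2 ^ v := by positivity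
  have hadd : 2 ^ v * a1 + a0 = a := Int.mul_ediv_add_emod a (2 ^ v)
  have h0 : 0 ≤ a0 := Int.emod_nonneg a hp.ne'
  have h1 : a0 < 2 ^ v := Int.emod_lt_of_pos a hp
  obtain ⟨o, ho, hit⟩ := iter_pow v a0
  set b0 : ℤ := T^[v] a0 with hb0
  have hb0' : 0 ≤ b0 := iter_nonneg v a0 h0
  have hb1 : b0 < 3 ^ o := by
    have h2 := hit (-1)
    have h3 := iter_neg v (2 ^ v * (-1) + a0) (by linarith)
    rw [h2] at h3
    linarith
  refine ⟨o, 3 ^ o * a1 + b0, ho, ?_⟩
  set M : ℤ := ((2 ^ v * m : ℕ) : ℤ) with hM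
  set M' : ℤ := ((3 ^ o * m : ℕ) : ℤ) with hM'
  set a' : ℤ := 3 ^ o * a1 + b0 with ha'
  have hMe : M = 2 ^ v * m := by rw [hM]; push_cast; rfl
  have hMe' : M' = 3 ^ o * m := by rw [hM']; push_cast; rfl
  have hmZ : (1 : ℤ) ≤ m := by exact_mod_cast hm
  have hM1 : 1 ≤ M := by rw [hMe]; nlinarith
  have hp3 : (0 : ℤ) < 3 ^ o := by positivity
  have hM1' : 1 ≤ M' := by rw [hMe']; nlinarith
  have eα : ∀ k : ℤ, a + M * k = 2 ^ v * (a1 + m * k) + a0 := by
    intro k; rw [hMe, ← hadd]; ring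
  have eβ : ∀ k : ℤ, a' + M' * k = 3 ^ o * (a1 + m * k) + b0 := by
    intro k; rw [hMe', ha']; ring
  have eT : ∀ k : ℤ, a' + M' * k = T^[v] (a + M * k) := by
    intro k; rw [eα, eβ, hit]
  have hyv : (0 : ℝ) ≤ 2 ^ v * y := by positivity
  have hMR : (2 : ℝ) ^ v ≤ M := by
    rw [hMe]
    push_cast
    have : (1 : ℝ) ≤ m := by exact_mod_cast hm
    have h2 : (0 : ℝ) < 2 ^ v := by positivity
    nlinarith
  obtain ⟨f1, c1⟩ := near_k hM1 (a : ℝ) (2 ^ v * y) hyv
  obtain ⟨f2, c2⟩ := near_k hmZ ((a1 : ℝ) - e * (X / 2 ^ v)) 1 (by norm_num)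
  have c1' : 2 * (2 ^ v * y) / (M : ℝ) ≤ 2 * y := by
    have hM0 : (0 : ℝ) < M := lt_of_lt_of_le (by positivity) hMR
    rw [div_le_iff₀ hM0]
    have : 2 * y * 2 ^ v ≤ 2 * y * M := mul_le_mul_of_nonneg_left hMR (by linarith)
    linarith
  have c2' : 2 * (1 : ℝ) / ((m : ℤ) : ℝ) ≤ 2 := by
    have hm0 : (1 : ℝ) ≤ ((m : ℤ) : ℝ) := by exact_mod_cast hmZ
    rw [div_le_iff₀ (by linarith)]
    linarith
  set Z : Set ℤ := {k : ℤ | |(a : ℝ) + M * k| ≤ 2 ^ v * y} ∪
    {k : ℤ | |(a1 : ℝ) - e * (X / 2 ^ v) + (m : ℤ) * k| ≤ 1} with hZ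
  have fZ : Z.Finite := f1.union f2
  have cZ : (Z.ncard : ℝ) ≤ 2 * y + 4 := by
    have h2 := ncard_unionR {k : ℤ | |(a : ℝ) + M * k| ≤ 2 ^ v * y}
      {k : ℤ | |(a1 : ℝ) - e * (X / 2 ^ v) + (m : ℤ) * k| ≤ 1}
    rw [← hZ] at h2
    linarith
  have hmem : ∀ k : ℤ, k ∉ Z → (k ∈ KS e M a S X ↔ k ∈ KS e M' a' S (3 ^ o / 2 ^ v * X)) := by
    intro k hk
    rw [hZ, Set.mem_union, not_or] at hk
    obtain ⟨n1, n2⟩ := hk
    have n1' : 2 ^ v * y < |(a : ℝ) + M * k| := lt_of_not_ge n1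
    have n2' : 1 < |(a1 : ℝ) - e * (X / 2 ^ v) + (m : ℤ) * k| := lt_of_not_ge n2
    have s1 := mem_iter (by linarith) hS v (a + M * k) (by push_cast; linarith)
    rw [← eT] at s1
    have s2 := iter_sign he v (a + M * k)
    rw [← eT] at s2
    have s3 : ((e * (a + M * k) : ℤ) : ℝ) ≤ X ↔
        ((e * (a' + M' * k) : ℤ) : ℝ) ≤ 3 ^ o / 2 ^ v * X := by
      rw [eα, eβ]
      set x : ℤ := a1 + m * k with hx
      have hxr : (a1 : ℝ) - e * (X / 2 ^ v) + (m : ℤ) * k = x - e * (X / 2 ^ v) := by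
        rw [hx]; push_cast; ring
      rw [hxr] at n2'
      have r2 : (0 : ℝ) < 2 ^ v := by positivity
      have r3 : (0 : ℝ) < 3 ^ o := by positivity
      have g0 : (0 : ℝ) ≤ a0 := by exact_mod_cast h0
      have g1 : (a0 : ℝ) < 2 ^ v := by exact_mod_cast h1
      have g2 : (0 : ℝ) ≤ b0 := by exact_mod_cast hb0'
      have g3 : (b0 : ℝ) < 3 ^ o := by exact_mod_cast hb1
      set w : ℝ := X / 2 ^ v with hw
      have hXw : X = 2 ^ v * w := by rw [hw]; field_simp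
      have hXw' : (3 : ℝ) ^ o / 2 ^ v * X = 3 ^ o * w := by rw [hw]; field_simp
      rw [hXw', hXw]
      rcases he with rfl | rfl
      · push_cast at n2' ⊢
        rw [one_mul] at n2'
        rcases lt_abs.1 n2' with h | h
        · constructor
          · intro h'
            exfalso
            have : (2 : ℝ) ^ v * (w + 1) < 2 ^ v * x := mul_lt_mul_of_pos_left (by linarith) r2
            linarith
          · intro h'
            exfalso
            have : (3 : ℝ) ^ o * (w + 1) < 3 ^ o * x := mul_lt_mul_of_pos_left (by linarith) r3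
            linarith
        · constructor
          · intro _
            have : (3 : ℝ) ^ o * (x + 1) < 3 ^ o * w := mul_lt_mul_of_pos_left (by linarith) r3
            linarith
          · intro _
            have : (2 : ℝ) ^ v * (x + 1) < 2 ^ v * w := mul_lt_mul_of_pos_left (by linarith) r2
            linarith
      · push_cast at n2' ⊢
        rcases lt_abs.1 n2' with h | h
        · constructor
          · intro _
            have : (3 : ℝ) ^ o * (1 - x) < 3 ^ o * w := mul_lt_mul_of_pos_left (by linarith) r3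
            linarith
          · intro _
            have : (2 : ℝ) ^ v * (1 - x) < 2 ^ v * w := mul_lt_mul_of_pos_left (by linarith) r2
            linarith
        · constructor
          · intro h'
            exfalso
            have : (2 : ℝ) ^ v * (w + 1) < 2 ^ v * (-x) :=
              mul_lt_mul_of_pos_left (by linarith) r2
            linarith
          · intro h'
            exfalso
            have : (3 : ℝ) ^ o * (w + 1) < 3 ^ o * (-x) :=
              mul_lt_mul_of_pos_left (by linarith) r3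
            linarith
    unfold KS
    rw [Set.mem_ofPred_eq, Set.mem_ofPred_eq, s1, s2, s3]
  have hfa := KS_finite he hM1 a S X
  have hfb := KS_finite he hM1' a' S (3 ^ o / 2 ^ v * X)
  have k1 := ncard_diff hfb fZ (A := KS e M a S X) (by
    intro k hk
    by_cases hkZ : k ∈ Z
    · exact Or.inr hkZ
    · exact Or.inl ((hmem k hkZ).1 hk))
  have k2 := ncard_diff hfa fZ (A := KS e M' a' S (3 ^ o / 2 ^ v * X)) (by
    intro k hk
    by_cases hkZ : k ∈ Z
    · exact Or.inr hkZ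
    · exact Or.inl ((hmem k hkZ).2 hk))
  rw [abs_le]
  constructor <;> linarith

/-- The logarithms after the first `v` steps. -/
theorem logs {m X X' m'' : ℝ} (hm : 1 ≤ m) (hX : 2 ≤ X)
    (hB : 4 * Real.log (1 + m) < Real.log X) (hXX' : X / m ≤ X') (hm'' : 1 ≤ m'')
    (hmm : m'' ≤ m ^ 2) :
    2 ≤ X' ∧
      Real.sqrt (Real.log (1 + m'') / Real.log X') ≤ 2 * Real.sqrt (Real.log (1 + m) / Real.log X) ∧
      Real.log X' ^ (-(1 / 38) : ℝ) ≤ 2 * Real.log X ^ (-(1 / 38) : ℝ) := by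
  have hm0 : (0 : ℝ) < m := by linarith
  have hX0 : (0 : ℝ) < X := by linarith
  have hlogX : 0 < Real.log X := Real.log_pos (by linarith)
  have hlm : 0 ≤ Real.log (1 + m) := Real.log_nonneg (by linarith)
  have hpow : (1 + m) ^ 4 < X := by
    have h1 : Real.log ((1 + m) ^ 4) < Real.log X := by
      rw [Real.log_pow]; push_cast; exact hB
    exact (Real.log_lt_log_iff (by positivity) hX0).1 h1
  have hX'2 : 2 ≤ X' := by
    refine le_trans ?_ hXX'
    rw [le_div_iff₀ hm0]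
    have h4 : (1 + m) ^ 2 ≤ (1 + m) ^ 4 := pow_le_pow_right₀ (by linarith) (by norm_num)
    have h5 : 2 * m ≤ (1 + m) ^ 2 := by nlinarith only [hm]
    linarith only [h4, h5, hpow]
  have hlogX' : 3 / 4 * Real.log X ≤ Real.log X' := by
    have h1 : Real.log (X / m) ≤ Real.log X' := Real.log_le_log (div_pos hX0 hm0) hXX'
    rw [Real.log_div hX0.ne' hm0.ne'] at h1
    have h2 : Real.log m ≤ Real.log (1 + m) := Real.log_le_log hm0 (by linarith)
    linarith only [h1, h2, hB]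
  have hlogX'0 : 0 < Real.log X' := by linarith only [hlogX', hlogX]
  have hlm'' : Real.log (1 + m'') ≤ 2 * Real.log (1 + m) := by
    have h2 : Real.log (1 + m'') ≤ Real.log ((1 + m) ^ 2) := by
      apply Real.log_le_log (by linarith only [hm''])
      nlinarith only [hmm, hm]
    rw [Real.log_pow] at h2
    push_cast at h2
    exact h2
  refine ⟨hX'2, ?_, ?_⟩
  · have h4 : (2 : ℝ) = Real.sqrt 4 := by
      rw [show (4 : ℝ) = 2 ^ 2 by norm_num, Real.sqrt_sq (by norm_num)]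
    rw [h4, ← Real.sqrt_mul (by norm_num)]
    apply Real.sqrt_le_sqrt
    rw [div_le_iff₀ hlogX'0]
    have h5 : 4 * (Real.log (1 + m) / Real.log X) * (3 / 4 * Real.log X) ≤
        4 * (Real.log (1 + m) / Real.log X) * Real.log X' := by
      apply mul_le_mul_of_nonneg_left hlogX'
      have := div_nonneg hlm hlogX.le
      linarith only [this]
    have h6 : 4 * (Real.log (1 + m) / Real.log X) * (3 / 4 * Real.log X) =
        3 * Real.log (1 + m) := by
      have : Real.log (1 + m) / Real.log X * Real.log X = Real.log (1 + m) :=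
        div_mul_cancel₀ _ hlogX.ne'
      linear_combination 3 * this
    rw [h6] at h5
    linarith only [h5, hlm'', hlm]
  · have h2 : Real.log X' ^ (-(1 / 38) : ℝ) ≤ (3 / 4 * Real.log X) ^ (-(1 / 38) : ℝ) :=
      Real.rpow_le_rpow_of_nonpos (by linarith only [hlogX]) hlogX' (by norm_num)
    rw [Real.mul_rpow (by norm_num) hlogX.le] at h2
    refine h2.trans (mul_le_mul_of_nonneg_right ?_ (Real.rpow_nonneg hlogX.le _))
    have h3 : (3 / 4 : ℝ) ^ (-(1 / 38) : ℝ) ≤ (3 / 4 : ℝ) ^ (-1 : ℝ) :=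
      Real.rpow_le_rpow_of_exponent_ge (by norm_num) (by norm_num) (by norm_num)
    rw [Real.rpow_neg_one] at h3
    refine h3.trans (by norm_num)

/-- The sum of the errors. -/
theorem total {C B y2 P Q E1 E2 E3 : ℝ} (hC : 1 ≤ C) (hB : 1 ≤ B) (hy2 : 1 ≤ y2) (hP : 0 ≤ P)
    (hQ : 0 ≤ Q) (h1 : E1 ≤ 6 * y2) (h2 : E2 ≤ C * (2 * P + y2)) (h3 : E3 ≤ B * (2 * Q + y2)) :
    E1 + E2 + E3 ≤ (2 * C + 10) * B * (P + Q + y2) := by
  have hC0 : 0 ≤ C := by linarith
  have hB0 : 0 ≤ B := by linarith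
  have hy0 : 0 ≤ y2 := by linarith
  have k1 : P ≤ B * P := le_mul_of_one_le_left hP hB
  have k2 : y2 ≤ B * y2 := le_mul_of_one_le_left hy0 hB
  have k3 : C * P ≤ C * (B * P) := mul_le_mul_of_nonneg_left k1 hC0
  have k4 : C * y2 ≤ C * (B * y2) := mul_le_mul_of_nonneg_left k2 hC0
  have k5 : 0 ≤ C * (B * Q) := by positivity
  have k6 : 0 ≤ B * Q := by positivity
  have k7 : 0 ≤ B * P := by positivity
  have k8 : 0 ≤ C * (B * y2) := by positivity
  have k12 : 0 ≤ B * y2 := by positivity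
  have k9 : (2 * C + 10) * B * (P + Q + y2) = 2 * (C * (B * P)) + 2 * (C * (B * Q)) +
      2 * (C * (B * y2)) + 10 * (B * P) + 10 * (B * Q) + 10 * (B * y2) := by ring
  have k10 : C * (2 * P + y2) = 2 * (C * P) + C * y2 := by ring
  have k11 : B * (2 * Q + y2) = 2 * (B * Q) + B * y2 := by ring
  rw [k9]
  rw [k10] at h2
  rw [k11] at h3
  linarith only [h1, h2, h3, k1, k2, k3, k4, k5, k6, k7, k8, k12]

end MODU

/-- Equidistribution in residue classes, uniformly in the modulus. -/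
def ModUStatement : Prop := ∃ C : ℝ, 0 < C ∧ ∀ e : ℤ, e = 1 ∨ e = -1 →
  ∀ (y : ℝ) (S : Set ℤ) (D B : ℝ), 1 ≤ y → InvAbove y S → 0 ≤ D → D ≤ 1 → 1 ≤ B →
    (∀ X : ℝ, 2 ≤ X →
      |count e S X - D * X| ≤ B * (X * Real.log X ^ (-(1 / 38) : ℝ) + y ^ 2)) →
    ∀ (m : ℕ) (a : ℤ) (X : ℝ), 1 ≤ m → 2 ≤ X →
      |count e {n : ℤ | n ∈ S ∧ n ≡ a [ZMOD m]} X - D * X / m| ≤
        C * B * (X / m * (Real.sqrt (Real.log (1 + m) / Real.log X) +
          Real.log X ^ (-(1 / 38) : ℝ)) + y ^ 2)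

open MODU in
theorem modU (hph : PHStatement) : ModUStatement := by
  obtain ⟨C, hC, hodd⟩ := odd_case hph
  refine ⟨2 * C + 10, by linarith, fun e he y S D B hy hS hD0 hD1 hB hcount m a X hm hX => ?_⟩
  have hmR : (1 : ℝ) ≤ m := by exact_mod_cast hm
  have hm0 : (0 : ℝ) < m := by linarith only [hmR]
  have hmZ : (1 : ℤ) ≤ m := by exact_mod_cast hm
  have hX0 : 0 ≤ X := by linarith only [hX]
  have hy2 : 1 ≤ y ^ 2 := by nlinarith only [hy]
  have hXm : 0 ≤ X / m := div_nonneg hX0 hm0.le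
  have hL0 : 0 ≤ Real.log X ^ (-(1 / 38) : ℝ) :=
    Real.rpow_nonneg (Real.log_nonneg (by linarith only [hX])) _
  have hq0 : 0 ≤ Real.sqrt (Real.log (1 + m) / Real.log X) := Real.sqrt_nonneg _
  rw [count_eq hmZ, mul_add (X / m)]
  rcases le_or_gt (Real.log X) (4 * Real.log (1 + m)) with hA | hB'
  · have hq2 := half_le hX hA
    have h1 := KS_le he hmZ a S hX0
    rw [Int.cast_natCast] at h1
    have h3 : (0 : ℝ) ≤ ((KS e m a S X).ncard : ℝ) := Nat.cast_nonneg _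
    have h2 : D * X / m ≤ X / m := by
      refine div_le_div_of_nonneg_right ?_ hm0.le
      exact mul_le_of_le_one_left hX0 hD1
    have h4 : 0 ≤ D * X / m := div_nonneg (mul_nonneg hD0 hX0) hm0.le
    have h5 := mul_le_mul_of_nonneg_left hq2 hXm
    have h6 := total (E1 := y ^ 2) (E2 := X / m) (E3 := 0) hC hB hy2 (mul_nonneg hXm hq0)
      (mul_nonneg hXm hL0) (by linarith only [hy2]) (by
        have h7 : (1 : ℝ) * (2 * (X / m * Real.sqrt (Real.log (1 + m) / Real.log X)) + y ^ 2) ≤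
            C * (2 * (X / m * Real.sqrt (Real.log (1 + m) / Real.log X)) + y ^ 2) := by
          refine mul_le_mul_of_nonneg_right hC ?_
          have := mul_nonneg hXm hq0
          linarith only [this, hy2]
        linarith only [h7, h5, hy2]) (by
        refine mul_nonneg (by linarith only [hB]) ?_
        have := mul_nonneg hXm hL0
        linarith only [this, hy2])
    rw [abs_le]
    constructor
    · linarith only [h1, h2, h3, h4, h6, hy2]
    · linarith only [h1, h2, h3, h4, h6, hy2]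
  · -- the main case
    obtain ⟨v, m', hm'o, hmm⟩ := Nat.exists_eq_two_pow_mul_odd (n := m) (by omega)
    have hm'1 : 1 ≤ m' := hm'o.pos
    obtain ⟨o, a', ho, htr⟩ := transfer he hy hS v m' hm'1 a X
    rw [← hmm] at htr
    have hm''o : Odd (3 ^ o * m') := (Odd.pow (by decide)).mul hm'o
    have r2 : (0 : ℝ) < 2 ^ v := by positivity
    have r3 : (0 : ℝ) < 3 ^ o := by positivity
    have hmmR : (m : ℝ) = 2 ^ v * m' := by rw [hmm]; push_cast; rfl
    have hm'R : (1 : ℝ) ≤ m' := by exact_mod_cast hm'1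
    have hm'0 : (0 : ℝ) < m' := by linarith only [hm'R]
    generalize hm''d : 3 ^ o * m' = m'' at htr hm''o
    have hm''e : (m'' : ℝ) = 3 ^ o * m' := by rw [← hm''d]; push_cast; rfl
    have hm''R : (1 : ℝ) ≤ m'' := by exact_mod_cast hm''o.pos
    have hm''0 : (0 : ℝ) < m'' := by linarith only [hm''R]
    -- `X' / m'' = X / m`
    have hratio : 3 ^ o / 2 ^ v * X / m'' = X / m := by
      rw [hm''e, hmmR, div_mul_eq_mul_div, div_div, div_eq_div_iff (by positivity) (by positivity)]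
      ring
    have hX'0 : 0 ≤ 3 ^ o / 2 ^ v * X := by positivity
    generalize (3 : ℝ) ^ o / 2 ^ v * X = X' at htr hratio hX'0
    have hXX' : X / m ≤ X' := by
      rw [← hratio]
      exact div_le_self hX'0 hm''R
    have hmm2 : (m'' : ℝ) ≤ (m : ℝ) ^ 2 := by
      rw [hm''e, hmmR]
      have h3 : (3 : ℝ) ^ o ≤ 2 ^ v * 2 ^ v := by
        calc (3 : ℝ) ^ o ≤ 3 ^ v := pow_le_pow_right₀ (by norm_num) ho
          _ ≤ 4 ^ v := pow_le_pow_left₀ (by norm_num) (by norm_num) v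
          _ = 2 ^ v * 2 ^ v := by rw [← mul_pow]; norm_num
      have h5 : (3 : ℝ) ^ o * m' ≤ 2 ^ v * 2 ^ v * m' :=
        mul_le_mul_of_nonneg_right h3 hm'0.le
      have h6 : (2 ^ v * (m' : ℝ)) ^ 2 = 2 ^ v * 2 ^ v * m' * m' := by ring
      rw [h6]
      exact h5.trans (le_mul_of_one_le_right (by positivity) hm'R)
    obtain ⟨hX'2, hqq, hLL⟩ := logs hmR hX hB' hXX' hm''R hmm2
    have h1 := hodd e he y S hy hS m'' a' X' hm''o hX'2
    rw [hratio] at h1
    have h2 := hcount X' hX'2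
    have h3 : |count e S X' / m'' - D * X / m| ≤
        B * (2 * (X / m * Real.log X ^ (-(1 / 38) : ℝ)) + y ^ 2) := by
      have h4 : count e S X' / m'' - D * X / m = (count e S X' - D * X') / m'' := by
        rw [sub_div, mul_div_assoc D X', hratio, mul_div_assoc]
      rw [h4, abs_div, abs_of_pos hm''0, div_le_iff₀ hm''0]
      refine h2.trans ?_
      have h5 : X' * Real.log X' ^ (-(1 / 38) : ℝ) ≤ X' * (2 * Real.log X ^ (-(1 / 38) : ℝ)) :=
        mul_le_mul_of_nonneg_left hLL hX'0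
      have h6 : X / m * m'' = X' := by rw [← hratio]; exact div_mul_cancel₀ _ hm''0.ne'
      have h7 : B * (2 * (X / m * Real.log X ^ (-(1 / 38) : ℝ)) + y ^ 2) * m'' =
          B * (X' * (2 * Real.log X ^ (-(1 / 38) : ℝ)) + y ^ 2 * m'') := by rw [← h6]; ring
      rw [h7]
      refine mul_le_mul_of_nonneg_left ?_ (by linarith only [hB])
      have h8 : y ^ 2 * 1 ≤ y ^ 2 * m'' := mul_le_mul_of_nonneg_left hm''R (by positivity)
      linarith only [h5, h8]
    have h4 : C * (X / m * Real.sqrt (Real.log (1 + m'') / Real.log X') + y ^ 2) ≤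
        C * (2 * (X / m * Real.sqrt (Real.log (1 + m) / Real.log X)) + y ^ 2) := by
      refine mul_le_mul_of_nonneg_left ?_ (by linarith only [hC])
      have := mul_le_mul_of_nonneg_left hqq hXm
      linarith only [this]
    have hy3 : 2 * y + 4 ≤ 6 * y ^ 2 := by nlinarith only [hy]
    have h6 : ((KS e m a S X).ncard : ℝ) - D * X / m =
        (((KS e m a S X).ncard : ℝ) - (KS e m'' a' S X').ncard) +
        (((KS e m'' a' S X').ncard : ℝ) - count e S X' / m'') +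
        (count e S X' / m'' - D * X / m) := by ring
    rw [h6]
    refine (abs_add_three _ _ _).trans ?_
    exact total hC hB hy2 (mul_nonneg hXm hq0) (mul_nonneg hXm hL0) (htr.trans hy3)
      (h1.trans h4) h3

end Pool.Agent.Lib.MP_edb5be_nt.CO
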