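import Pool.Agent.Lib.MP_edb5be_nt.EQ.EquiZ
import Pool.Agent.Lib.MP_edb5be_nt.CO.Core
import Pool.Agent.Lib.MP_edb5be_nt.CO.ModU

/-!
# The densities of the invariant sets and of the grand orbits
-/

set_option autoImplicit false

namespace Pool.Agent.Lib.MP_edb5be_nt.CO

open Pool.Agent.Lib.MP_0a5adf_nt.TP Pool.Agent.Lib.MP_edb5be_nt.ND

/-- The grand orbit of `x`: the integers whose trajectory meets the trajectory of `x`. -/
def grandOrbit (x : ℤ) : Set ℤ := {n : ℤ | ∃ j k : ℕ, T^[j] n = T^[k] x}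

/-- The parts (i), (ii), (iii). -/
theorem densities :
    ∃ c C : ℝ, 0 < c ∧ 0 < C ∧ ∀ e : ℤ, e = 1 ∨ e = -1 →
      (∀ (y : ℝ) (S : Set ℤ), 1 ≤ y → (∀ x : ℤ, y ≤ |(x : ℝ)| → (x ∈ S ↔ T x ∈ S)) →
        ∃ D : ℝ, HasDensity e S D ∧
          (∀ X : ℝ, 2 ≤ X →
            |count e S X - D * X| ≤ C * (X * Real.log X ^ (-(1 / 38) : ℝ) + y ^ 2)) ∧
          (∀ (m : ℕ) (a : ℤ) (A : Finset (ℕ × ℕ × ℤ)), 1 ≤ m → A.Nonempty →
            HasDensity e {n : ℤ | n ≡ a [ZMOD m] ∧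
              ∀ p ∈ A, 2 ^ p.1 * 3 ^ p.2.1 * n + p.2.2 ∈ S} (D / m))) ∧
      (∃ δ : Set ℤ → ℝ, (∀ x : ℤ, HasDensity e (grandOrbit x) (δ (grandOrbit x))) ∧
        HasSum (fun O : Set.range grandOrbit => δ O) 1) ∧
      (∀ X y : ℝ, 1 ≤ X → 1 ≤ y →
        count e {x : ℤ | ∀ k : ℕ, y ≤ |((T^[k] x : ℤ) : ℝ)|} X ≤ C * X / y ^ c) := by
  obtain ⟨c, C, hc, hC, h⟩ := part1T
  refine ⟨c, C, hc, hC, fun e he => ?_⟩
  obtain ⟨d, rfl⟩ : ∃ d : Bool, e = sg d := by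
    rcases he with rfl | rfl
    · exact ⟨true, rfl⟩
    · exact ⟨false, rfl⟩
  obtain ⟨h1, ⟨δ, h2, h2', -⟩, h3⟩ := h d
  refine ⟨?_, ⟨δ, h2, h2'⟩, h3⟩
  intro y S hy hS
  obtain ⟨D, -, -, hD, hX⟩ := h1 y S hy hS
  refine ⟨D, hD, hX, fun m a A hm hA => ?_⟩
  exact cor_mod fiveH he hy hS hD
    m a hm A hA

/-- The parts (i), (ii), (iii), with uniform equidistribution in residue classes. -/
theorem densitiesU :
    ∃ c C : ℝ, 0 < c ∧ 0 < C ∧ ∀ e : ℤ, e = 1 ∨ e = -1 →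
      (∀ (y : ℝ) (S : Set ℤ), 1 ≤ y → (∀ x : ℤ, y ≤ |(x : ℝ)| → (x ∈ S ↔ T x ∈ S)) →
        ∃ D : ℝ, HasDensity e S D ∧
          (∀ (q : ℕ) (a : ℤ) (X : ℝ), 1 ≤ q → 2 ≤ X →
            |count e {n : ℤ | n ∈ S ∧ n ≡ a [ZMOD q]} X - D * X / q| ≤
              C * (X / q * (√(Real.log (1 + q) / Real.log X) + Real.log X ^ (-(1 / 38) : ℝ)) +
                y ^ 2)) ∧
          (∀ A : Finset (ℕ × ℕ × ℤ), A.Nonempty →
            HasDensity e {n : ℤ | ∀ p ∈ A, 2 ^ p.1 * 3 ^ p.2.1 * n + p.2.2 ∈ S} D)) ∧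
      (∃ δ : Set ℤ → ℝ, (∀ x : ℤ, HasDensity e (grandOrbit x) (δ (grandOrbit x))) ∧
        HasSum (fun O : Set.range grandOrbit => δ O) 1) ∧
      (∀ X y : ℝ, 1 ≤ X → 1 ≤ y →
        count e {x : ℤ | ∀ k : ℕ, y ≤ |((T^[k] x : ℤ) : ℝ)|} X ≤ C * X / y ^ c) := by
  obtain ⟨c, C, hc, hC, h⟩ := part1T
  obtain ⟨C', hC', hU⟩ := modU phH
  refine ⟨c, max C (C' * max 1 C), hc, lt_max_of_lt_left hC, fun e he => ?_⟩
  have hd : ∃ d : Bool, e = sg d := by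
    rcases he with rfl | rfl
    · exact ⟨true, rfl⟩
    · exact ⟨false, rfl⟩
  obtain ⟨d, rfl⟩ := hd
  obtain ⟨h1, ⟨δ, h2, h2', -⟩, h3⟩ := h d
  refine ⟨?_, ⟨δ, h2, h2'⟩, fun X y hX hy => (h3 X y hX hy).trans ?_⟩
  · intro y S hy hS
    obtain ⟨D, hD0, hD1, hD, hX⟩ := h1 y S hy hS
    refine ⟨D, hD, fun q a X hq hX2 => ?_, fun A hA => ?_⟩
    · refine (hU (sg d) he y S D (max 1 C) hy hS hD0 hD1 (le_max_left _ _)
        (fun X hX2 => (hX X hX2).trans ?_) q a X hq hX2).trans ?_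
      · refine mul_le_mul_of_nonneg_right (le_max_right _ _) ?_
        have hlog : 0 ≤ Real.log X := Real.log_nonneg (by linarith)
        have := Real.rpow_nonneg hlog (-(1 / 38) : ℝ)
        positivity
      · refine mul_le_mul_of_nonneg_right (le_max_right _ _) ?_
        have hlog : 0 ≤ Real.log X := Real.log_nonneg (by linarith)
        have := Real.rpow_nonneg hlog (-(1 / 38) : ℝ)
        positivity
    · have h5 := cor_mod fiveH he hy hS hD 1 0 le_rfl A hA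
      simp only [Nat.cast_one, div_one, Int.modEq_one, true_and] at h5
      exact h5
  · have hy0 : 0 < y := by linarith
    have hp : 0 < y ^ c := Real.rpow_pos_of_pos hy0 _
    exact div_le_div_of_nonneg_right (mul_le_mul_of_nonneg_right (le_max_left _ _)
      (by linarith)) hp.le

end Pool.Agent.Lib.MP_edb5be_nt.CO
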