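import Pool.Agent.Lib.MP_edb5be_nt.CO.Hand

/-!
# Rows FOUR and FIVE: the one-sided forms of the shift theorems
-/

set_option autoImplicit false

namespace Pool.Agent.Lib.MP_edb5be_nt.CO

theorem finite_abs_le (X : ℝ) : {n : ℤ | |(n : ℝ)| ≤ X}.Finite := by
  refine (Set.finite_Icc (-⌊X⌋) ⌊X⌋).subset fun n hn => ?_
  have h : |(n : ℝ)| ≤ X := hn
  rw [abs_le] at h
  refine ⟨?_, Int.le_floor.2 h.2⟩
  have : ((-n : ℤ) : ℝ) ≤ X := by push_cast; linarith [h.1]
  have := Int.le_floor.2 this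
  linarith

/-- The one-sided count is at most the two-sided count. -/
theorem count_le_two {e : ℤ} (he : e = 1 ∨ e = -1) (P : ℤ → Prop) (X : ℝ) :
    count e {n : ℤ | P n} X ≤ (({n : ℤ | |(n : ℝ)| ≤ X ∧ P n}.ncard : ℕ) : ℝ) := by
  unfold count
  refine Nat.cast_le.2 (Set.ncard_le_ncard ?_
    ((finite_abs_le X).subset fun n hn => hn.1))
  rintro x ⟨h1, h2, h3⟩
  refine ⟨?_, h1⟩
  have h2' : (0 : ℝ) < ((e * x : ℤ) : ℝ) := by exact_mod_cast h2
  rcases he with rfl | rfl
  · rw [one_mul] at h2' h3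
    rw [abs_of_pos h2']
    exact h3
  · rw [show (-1 : ℤ) * x = -x by ring] at h2' h3
    push_cast at h2' h3
    rw [abs_of_neg (by linarith)]
    exact h3

theorem four (h3 : T3LogStatement) : FourStatement := by
  obtain ⟨C, hC, h⟩ := h3
  refine ⟨C, hC, fun e he j b X hX => ?_⟩
  exact (count_le_two he _ X).trans (h j b X hX)

theorem five (h4 : T4Statement) : FiveStatement := by
  obtain ⟨C, hC, h⟩ := h4
  refine ⟨2 * C, by positivity, fun e he y S hy hS i j b X hX => ?_⟩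
  refine (count_le_two he _ X).trans ((h y S hy hS i j b X hX).trans ?_)
  have h1 : y ≤ y * Real.sqrt X := by
    have : (1 : ℝ) ≤ Real.sqrt X := by
      rw [Real.one_le_sqrt]; linarith
    nlinarith
  have h2 : 0 ≤ X * Real.sqrt ((((i : ℝ) + j) ^ 2 + Real.log (2 + |(b : ℝ)|)) / Real.log X) := by
    positivity
  nlinarith

end Pool.Agent.Lib.MP_edb5be_nt.CO
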