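import Pool.Agent.Lib.MP_edb5be_nt.CO.Rows

/-!
# The hand-in side of the coalescence theorem: one-sided counts, short intervals, correlations

`FiveStatement`, `IntStatement`, `CorStatement` take `T4Statement` (file `Rows.lean`) as a
hypothesis, `FourStatement` takes `T3LogStatement`.
-/

set_option autoImplicit false

namespace Pool.Agent.Lib.MP_edb5be_nt.CO

/-- ROW FOUR (helper61): part (iv) of the hand-in. -/
def FourStatement : Prop := ∃ C : ℝ, 0 < C ∧ ∀ e : ℤ, e = 1 ∨ e = -1 →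
  ∀ (j : ℕ) (b : ℤ) (X : ℝ), 2 ≤ X →
    count e {n : ℤ | ∀ i : ℕ, (2 : ℝ) ^ i ≤ X → T^[i] n ≠ T^[i] (3 ^ j * n + b)} X
      ≤ C * X * Real.sqrt (((j : ℝ) ^ 2 + Real.log (2 + |(b : ℝ)|)) / Real.log X)

/-- ROW FIVE (helper61): part (v) of the hand-in, from `T4Statement`. -/
def FiveStatement : Prop := ∃ C : ℝ, 0 < C ∧ ∀ e : ℤ, e = 1 ∨ e = -1 →
  ∀ (y : ℝ) (S : Set ℤ), 1 ≤ y → InvAbove y S → ∀ (i j : ℕ) (b : ℤ) (X : ℝ), 2 ≤ X →
    count e {n : ℤ | ¬ (n ∈ S ↔ 2 ^ i * 3 ^ j * n + b ∈ S)} X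
      ≤ C * (X * Real.sqrt ((((i : ℝ) + j) ^ 2 + Real.log (2 + |(b : ℝ)|)) / Real.log X)
        + y * Real.sqrt X)

/-- ROW INT (helper79). For most `x` up to `X` the interval `[x, x + L)` is filled by `S` or by its
complement up to a proportion `η`. Proof: for a bad `x` more than `η L² / 2` of the pairs `(u, v)`,
`0 ≤ u, v < L`, have `x + u ∈ S` and `x + v ∉ S`; so `x ∈ S ↔ x + u ∈ S` or `x ∈ S ↔ x + v ∈ S`
fails, and `T4Statement` with `i = j = 0`, `b = u` or `b = v` bounds the number of these `x`. -/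
def IntStatement : Prop := ∃ C : ℝ, 0 < C ∧ ∀ e : ℤ, e = 1 ∨ e = -1 →
  ∀ (y : ℝ) (S : Set ℤ), 1 ≤ y → InvAbove y S → ∀ (L : ℕ) (η X : ℝ), 0 < η → 2 ≤ X →
    count e {x : ℤ | η * L < ({z : ℤ | z ∈ S ∧ x ≤ z ∧ z < x + L}.ncard : ℝ) ∧
        η * L < ({z : ℤ | z ∉ S ∧ x ≤ z ∧ z < x + L}.ncard : ℝ)} X
      ≤ C / η * (X * Real.sqrt (Real.log (2 + L) / Real.log X) + y * Real.sqrt X)

/-- ROW COR (helper27). All correlations along the affine maps `n ↦ 2 ^ i * 3 ^ j * n + b`. Proof: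
up to a set of density `0` each condition is `n ∈ S` (`T4Statement`). -/
def CorStatement : Prop := ∀ e : ℤ, e = 1 ∨ e = -1 →
  ∀ (y : ℝ) (S : Set ℤ) (D : ℝ), 1 ≤ y → InvAbove y S → HasDensity e S D →
    ∀ F : Finset (ℕ × ℕ × ℤ), F.Nonempty →
      HasDensity e {n : ℤ | ∀ p ∈ F, 2 ^ p.1 * 3 ^ p.2.1 * n + p.2.2 ∈ S} D

end Pool.Agent.Lib.MP_edb5be_nt.CO
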