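import Pool.Agent.Lib.MP_edb5be_nt.CO.Four

/-!
# Row MOD: invariant sets are equidistributed in the residue classes modulo every `m`
-/

set_option autoImplicit false

namespace Pool.Agent.Lib.MP_edb5be_nt.CO

open Filter Topology

theorem finite_count (e : ℤ) (he : e = 1 ∨ e = -1) (X : ℝ) :
    {x : ℤ | 0 < e * x ∧ ((e * x : ℤ) : ℝ) ≤ X}.Finite := by
  refine (finite_abs_le X).subset ?_
  rintro x ⟨h2, h3⟩
  have h2' : (0 : ℝ) < ((e * x : ℤ) : ℝ) := by exact_mod_cast h2
  show |(x : ℝ)| ≤ X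
  rcases he with rfl | rfl
  · rw [one_mul] at h2' h3
    rwa [abs_of_pos h2']
  · rw [show (-1 : ℤ) * x = -x by ring] at h2' h3
    push_cast at h2' h3
    rw [abs_of_neg (by linarith)]
    exact h3

/-- Shift of a counting set by `b`. -/
theorem count_shift {e : ℤ} (he : e = 1 ∨ e = -1) (S : Set ℤ) (m a b : ℤ) (X : ℝ) :
    count e {n : ℤ | n ∈ S ∧ n ≡ a [ZMOD m]} X ≤
      count e {n : ℤ | n ∈ S ∧ n ≡ a + b [ZMOD m]} X +
        count e {n : ℤ | ¬ (n ∈ S ↔ n + b ∈ S)} X + |(b : ℝ)| := by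
  classical
  have hfin := finite_count e he X
  set B : Set ℤ := {n : ℤ | n ∈ S ∧ n ≡ a + b [ZMOD m]} with hB
  set E : Set ℤ := {n : ℤ | ¬ (n ∈ S ↔ n + b ∈ S)} with hE
  set I : Set ℤ := {x : ℤ | 0 < e * x ∧ ((e * x : ℤ) : ℝ) ≤ X} with hI
  -- the extra integers
  have hcover : {x : ℤ | x ∈ {n : ℤ | n ∈ S ∧ n ≡ a [ZMOD m]} ∧ 0 < e * x ∧
      ((e * x : ℤ) : ℝ) ≤ X} ⊆
      ({x : ℤ | x ∈ E ∧ 0 < e * x ∧ ((e * x : ℤ) : ℝ) ≤ X} ∪
        (fun z => z - b) '' {x : ℤ | x ∈ B ∧ 0 < e * x ∧ ((e * x : ℤ) : ℝ) ≤ X}) ∪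
        (I \ (fun z => z - b) '' I) := by
    rintro x ⟨⟨hxS, hxa⟩, h2, h3⟩
    by_cases hxE : x ∈ E
    · exact Or.inl (Or.inl ⟨hxE, h2, h3⟩)
    by_cases hxI : x + b ∈ I
    · refine Or.inl (Or.inr ⟨x + b, ⟨⟨?_, ?_⟩, hxI.1, hxI.2⟩, by ring⟩)
      · have : x ∈ S ↔ x + b ∈ S := by
          by_contra hc
          exact hxE hc
        exact this.1 hxS
      · exact hxa.add_right b
    · refine Or.inr ⟨⟨h2, h3⟩, ?_⟩
      rintro ⟨z, hz, hzx⟩
      apply hxI
      have : z = x + b := by simp only at hzx; linarith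
      rwa [← this]
  have hI' : ((fun z => z - b) '' I).Finite := hfin.image _
  have hcardI : ((fun z => z - b) '' I).ncard = I.ncard :=
    Set.ncard_image_of_injective _ (fun x y h => by simpa using h)
  -- the number of the extra integers
  have hextra : (((I \ (fun z => z - b) '' I).ncard : ℕ) : ℝ) ≤ |(b : ℝ)| := by
    have hb : ((b.natAbs : ℕ) : ℝ) = |(b : ℝ)| := by
      rw [Nat.cast_natAbs, Int.cast_abs]
    rw [← hb]
    refine Nat.cast_le.2 ?_
    -- I is an interval
    have hIcc : ∃ l u : ℤ, I = Set.Icc l u := by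
      rcases he with rfl | rfl
      · refine ⟨1, ⌊X⌋, ?_⟩
        ext x
        simp only [hI, Set.mem_ofPred_eq, Set.mem_Icc, one_mul, Int.le_floor]
        constructor
        · rintro ⟨h1, h2⟩; exact ⟨by omega, h2⟩
        · rintro ⟨h1, h2⟩; exact ⟨by omega, h2⟩
      · refine ⟨-⌊X⌋, -1, ?_⟩
        ext x
        have : (((-1 : ℤ) * x : ℤ) : ℝ) ≤ X ↔ -x ≤ ⌊X⌋ := by
          rw [Int.le_floor]
          push_cast
          rw [neg_one_mul]
        simp only [hI, Set.mem_ofPred_eq, Set.mem_Icc, this]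
        constructor
        · rintro ⟨h1, h2⟩; exact ⟨by omega, by omega⟩
        · rintro ⟨h1, h2⟩; exact ⟨by omega, by omega⟩
    obtain ⟨l, u, hlu⟩ := hIcc
    rw [hlu]
    have himg : (fun z : ℤ => z - b) '' Set.Icc l u = Set.Icc (l - b) (u - b) := by
      ext x
      simp only [Set.mem_image, Set.mem_Icc]
      constructor
      · rintro ⟨z, ⟨h1, h2⟩, rfl⟩; exact ⟨by omega, by omega⟩
      · rintro ⟨h1, h2⟩; exact ⟨x + b, ⟨by omega, by omega⟩, by omega⟩
    rw [himg]
    rcases le_total 0 b with hb0 | hb0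
    · have hsub : Set.Icc l u \ Set.Icc (l - b) (u - b) ⊆ (Finset.Ioc (u - b) u : Set ℤ) := by
        rintro x ⟨⟨h1, h2⟩, h3⟩
        simp only [Set.mem_Icc, not_and, not_le] at h3
        simp only [Finset.coe_Ioc, Set.mem_Ioc]
        exact ⟨h3 (by omega), h2⟩
      refine (Set.ncard_le_ncard hsub (Finset.finite_toSet _)).trans ?_
      rw [Set.ncard_coe_finset, Int.card_Ioc]
      omega
    · have hsub : Set.Icc l u \ Set.Icc (l - b) (u - b) ⊆ (Finset.Ico l (l - b) : Set ℤ) := by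
        rintro x ⟨⟨h1, h2⟩, h3⟩
        simp only [Set.mem_Icc, not_and, not_le] at h3
        simp only [Finset.coe_Ico, Set.mem_Ico]
        refine ⟨h1, ?_⟩
        by_contra hc
        push Not at hc
        have := h3 hc
        omega
      refine (Set.ncard_le_ncard hsub (Finset.finite_toSet _)).trans ?_
      rw [Set.ncard_coe_finset, Int.card_Ico]
      omega
  have hfinE : {x : ℤ | x ∈ E ∧ 0 < e * x ∧ ((e * x : ℤ) : ℝ) ≤ X}.Finite :=
    hfin.subset fun x hx => hx.2
  have hfinB : {x : ℤ | x ∈ B ∧ 0 < e * x ∧ ((e * x : ℤ) : ℝ) ≤ X}.Finite :=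
    hfin.subset fun x hx => hx.2
  have h1 := Set.ncard_le_ncard hcover (((hfinE.union (hfinB.image _))).union
    (hfin.subset Set.sdiff_subset))
  have h2 := h1.trans ((Set.ncard_union_le _ _).trans
    (Nat.add_le_add_right (Set.ncard_union_le _ _) _))
  rw [Set.ncard_image_of_injective _ (fun x y h => by simpa using h)] at h2
  have h3 : count e {n : ℤ | n ∈ S ∧ n ≡ a [ZMOD m]} X ≤
      count e E X + count e B X + (((I \ (fun z => z - b) '' I).ncard : ℕ) : ℝ) := by
    unfold count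
    exact_mod_cast h2
  linarith

theorem count_nonneg (e : ℤ) (S : Set ℤ) (X : ℝ) : 0 ≤ count e S X := by
  unfold count; positivity

/-- The residue classes modulo `m` are a partition. -/
theorem count_partition {e : ℤ} (he : e = 1 ∨ e = -1) (S : Set ℤ) (m : ℕ) (hm : 1 ≤ m) (a : ℤ)
    (X : ℝ) :
    ∑ b ∈ Finset.range m, count e {n : ℤ | n ∈ S ∧ n ≡ a + b [ZMOD m]} X = count e S X := by
  classical
  have hfin := finite_count e he X
  have hfinS : {x : ℤ | x ∈ S ∧ 0 < e * x ∧ ((e * x : ℤ) : ℝ) ≤ X}.Finite :=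
    hfin.subset fun x hx => hx.2
  have hm0 : (0 : ℤ) < m := by exact_mod_cast hm
  unfold count
  rw [Set.ncard_eq_toFinset_card _ hfinS]
  have hmap : ∀ x ∈ hfinS.toFinset, ((x - a) % m).toNat ∈ Finset.range m := by
    intro x _
    rw [Finset.mem_range]
    have h1 := Int.emod_nonneg (x - a) hm0.ne'
    have h2 := Int.emod_lt_of_pos (x - a) hm0
    omega
  rw [Finset.card_eq_sum_card_fiberwise hmap]
  push_cast
  refine Finset.sum_congr rfl fun b hb => ?_
  rw [Finset.mem_range] at hb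
  congr 1
  rw [← Set.ncard_coe_finset]
  congr 1
  ext x
  simp only [Set.mem_ofPred_eq, Finset.coe_filter, Set.Finite.mem_toFinset]
  have hkey : x ≡ a + b [ZMOD m] ↔ ((x - a) % m).toNat = b := by
    have h1 := Int.emod_nonneg (x - a) hm0.ne'
    constructor
    · intro h
      have h' : (x - a) % m = b % m := by
        have := h.sub_right a
        rw [show a + (b : ℤ) - a = b by ring] at this
        exact this
      rw [h', Int.emod_eq_of_lt (by omega) (by exact_mod_cast hb)]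
      simp
    · intro h
      have h' : (x - a) % m = b := by omega
      have h2 : x - a ≡ b [ZMOD m] := by
        unfold Int.ModEq
        rw [h', Int.emod_eq_of_lt (by omega) (by exact_mod_cast hb)]
      have := h2.add_right a
      rw [sub_add_cancel] at this
      rwa [add_comm a]
  rw [hkey]
  tauto

/-- If `f n → 0`-type bound: the exceptional sets of the shifts have density `0`. -/
theorem shift_zero (h5 : FiveStatement) {e : ℤ} (he : e = 1 ∨ e = -1) {y : ℝ} {S : Set ℤ}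
    (hy : 1 ≤ y) (hS : InvAbove y S) (b : ℤ) :
    Tendsto (fun X : ℝ => count e {n : ℤ | ¬ (n ∈ S ↔ n + b ∈ S)} X / X) atTop (𝓝 0) := by
  obtain ⟨C, hC, h⟩ := h5
  have hlim : Tendsto (fun X : ℝ => C * (Real.sqrt (Real.log (2 + |(b : ℝ)|) / Real.log X)
      + y / Real.sqrt X)) atTop (𝓝 0) := by
    have h1 : Tendsto (fun X : ℝ => Real.sqrt (Real.log (2 + |(b : ℝ)|) / Real.log X)) atTop
        (𝓝 0) := by
      have := (Real.continuous_sqrt.tendsto 0).comp
        (tendsto_const_nhds (x := Real.log (2 + |(b : ℝ)|)) |>.div_atTop Real.tendsto_log_atTop)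
      rw [Real.sqrt_zero] at this
      exact this
    have h2 : Tendsto (fun X : ℝ => y / Real.sqrt X) atTop (𝓝 0) :=
      tendsto_const_nhds.div_atTop Real.tendsto_sqrt_atTop
    have h3 := (h1.add h2).const_mul C
    simpa using h3
  refine squeeze_zero' ?_ ?_ hlim
  · filter_upwards [eventually_ge_atTop (2 : ℝ)] with X hX
    exact div_nonneg (count_nonneg _ _ _) (by linarith)
  · filter_upwards [eventually_ge_atTop (2 : ℝ)] with X hX
    have h1 := h e he y S hy hS 0 0 b X hX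
    simp only [Nat.cast_zero, add_zero, pow_zero, one_mul, mul_one, ne_eq, OfNat.ofNat_ne_zero,
      not_false_eq_true, zero_pow, zero_add] at h1
    have hX0 : 0 < X := by linarith
    rw [div_le_iff₀ hX0]
    refine h1.trans (le_of_eq ?_)
    have hs : Real.sqrt X * Real.sqrt X = X := Real.mul_self_sqrt hX0.le
    have hs0 : Real.sqrt X ≠ 0 := (Real.sqrt_pos.2 hX0).ne'
    field_simp
    nlinarith [hs]

/-- ROW MOD. -/
def ModStatement : Prop := ∀ e : ℤ, e = 1 ∨ e = -1 →
  ∀ (y : ℝ) (S : Set ℤ) (D : ℝ), 1 ≤ y → InvAbove y S → HasDensity e S D →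
    ∀ (m : ℕ) (a : ℤ), 1 ≤ m → HasDensity e {n : ℤ | n ∈ S ∧ n ≡ a [ZMOD m]} (D / m)

theorem mod (h5 : FiveStatement) : ModStatement := by
  intro e he y S D hy hS hD m a hm
  have hm0 : (0 : ℝ) < m := by exact_mod_cast hm
  unfold HasDensity at hD ⊢
  -- error function
  set E : ℝ → ℝ := fun X => ∑ b ∈ Finset.range m,
    (count e {n : ℤ | ¬ (n ∈ S ↔ n + (b : ℤ) ∈ S)} X / X +
      count e {n : ℤ | ¬ (n ∈ S ↔ n + (-(b : ℤ)) ∈ S)} X / X + |((b : ℤ) : ℝ)| / X) with hEdef
  have hE : Tendsto E atTop (𝓝 0) := by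
    have : Tendsto E atTop (𝓝 (∑ b ∈ Finset.range m, ((0 : ℝ) + 0 + 0))) := by
      refine tendsto_finsetSum _ fun b _ => ?_
      exact ((shift_zero h5 he hy hS b).add (shift_zero h5 he hy hS (-b))).add
        (tendsto_const_nhds.div_atTop tendsto_id)
    simpa using this
  have hmain : ∀ᶠ X : ℝ in atTop,
      |m * (count e {n : ℤ | n ∈ S ∧ n ≡ a [ZMOD m]} X / X) - count e S X / X| ≤ E X := by
    filter_upwards [eventually_ge_atTop (2 : ℝ)] with X hX
    have hX0 : 0 < X := by linarith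
    rw [← count_partition he S m hm a X]
    have h1 : (m : ℝ) * (count e {n : ℤ | n ∈ S ∧ n ≡ a [ZMOD m]} X / X) =
        ∑ b ∈ Finset.range m, count e {n : ℤ | n ∈ S ∧ n ≡ a [ZMOD m]} X / X := by
      rw [Finset.sum_const, Finset.card_range, nsmul_eq_mul]
    rw [h1, Finset.sum_div, ← Finset.sum_sub_distrib]
    refine (Finset.abs_sum_le_sum_abs _ _).trans (Finset.sum_le_sum fun b _ => ?_)
    rw [← sub_div, abs_div, abs_of_pos hX0, ← add_div, ← add_div]
    refine div_le_div_of_nonneg_right ?_ hX0.le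
    have h2 := count_shift he S m a b X
    have h3 := count_shift he S m (a + b) (-b) X
    rw [show a + (b : ℤ) + -b = a by ring] at h3
    push_cast at h3
    rw [abs_neg] at h3
    have n1 := count_nonneg e {n : ℤ | ¬ (n ∈ S ↔ n + (b : ℤ) ∈ S)} X
    have n2 := count_nonneg e {n : ℤ | ¬ (n ∈ S ↔ n + (-(b : ℤ)) ∈ S)} X
    rw [abs_le]
    push_cast at h2 ⊢
    constructor <;> linarith
  have hlim : Tendsto (fun X : ℝ => (m : ℝ) * (count e {n : ℤ | n ∈ S ∧ n ≡ a [ZMOD m]} X / X)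
      - count e S X / X) atTop (𝓝 0) :=
    squeeze_zero_norm' (by simpa using hmain) hE
  have h4 := (hlim.add hD).div_const (m : ℝ)
  rw [zero_add] at h4
  refine h4.congr fun X => ?_
  field_simp
  ring

end Pool.Agent.Lib.MP_edb5be_nt.CO
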