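import Pool.Agent.Lib.MP_edb5be_nt.CO.Int
import Pool.Agent.Lib.MP_edb5be_nt.CO.G
import Pool.Agent.Lib.MP_edb5be_nt.CO.Mod

/-!
# Short intervals, for functions that are constant along the trajectories, and a zero-one law

The proof of `intF` is the proof of `int` (`CO/Int.lean`) for a function `F` instead of a set.
-/

set_option autoImplicit false

namespace Pool.Agent.Lib.MP_edb5be_nt.CO

open INT Filter Topology

/-- For most `x` up to `X` the function `F` has the value `F x` on the interval `[x, x + L)` up to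
a proportion `η`. -/
def IntFStatement : Prop := ∃ C : ℝ, 0 < C ∧ ∀ e : ℤ, e = 1 ∨ e = -1 →
  ∀ (α : Type) (y : ℝ) (F : ℤ → α), 1 ≤ y → (∀ x : ℤ, y ≤ |(x : ℝ)| → F x = F (T x)) →
    ∀ (L : ℕ) (η X : ℝ), 0 < η → 2 ≤ X →
      count e {x : ℤ | η * L < ({z : ℤ | F z ≠ F x ∧ x ≤ z ∧ z < x + L}.ncard : ℝ)} X
        ≤ C / η * (X * Real.sqrt (Real.log (2 + L) / Real.log X) + y * Real.sqrt X)

theorem intF (h4 : FunStatement) : IntFStatement := by
  classical
  obtain ⟨C, hC, h4⟩ := h4
  refine ⟨C, hC, ?_⟩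
  intro e he α y G hy hG L η X hη hX
  have hlogX : 0 < Real.log X := Real.log_pos (by linarith)
  have hX0 : 0 ≤ X := by linarith
  set Bad : Set ℤ := {x : ℤ | η * L < ({z : ℤ | G z ≠ G x ∧ x ≤ z ∧ z < x + L}.ncard : ℝ)}
    with hBad
  rcases Nat.eq_zero_or_pos L with rfl | hL
  · -- no bad `x` at all
    have hempty : Bad = ∅ := by
      rw [Set.eq_empty_iff_forall_notMem]
      intro x h
      have h0 : {z : ℤ | G z ≠ G x ∧ x ≤ z ∧ z < x + ((0 : ℕ) : ℤ)} = ∅ := by
        rw [Set.eq_empty_iff_forall_notMem]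
        rintro z ⟨-, h1, h2⟩
        rw [Nat.cast_zero, add_zero] at h2
        exact absurd h1 (not_le.mpr h2)
      rw [hBad, Set.mem_ofPred_eq, h0] at h
      simp at h
    have : count e Bad X = 0 := by
      unfold count
      rw [hempty]
      simp
    rw [this]
    positivity
  have hLr : (0 : ℝ) < L := by exact_mod_cast hL
  have hfin := finite_count e he X
  have hfinB : {x : ℤ | x ∈ Bad ∧ 0 < e * x ∧ ((e * x : ℤ) : ℝ) ≤ X}.Finite :=
    hfin.subset fun x hx => hx.2
  set F : Finset ℤ := hfinB.toFinset with hF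
  have hFmem : ∀ x ∈ F, x ∈ Bad ∧ 0 < e * x ∧ ((e * x : ℤ) : ℝ) ≤ X := by
    intro x hx
    rw [hF, Set.Finite.mem_toFinset] at hx
    exact hx
  have hcount : count e Bad X = (F.card : ℝ) := by
    unfold count
    rw [hF, Set.ncard_eq_toFinset_card _ hfinB]
  -- lower bound for the number of pairs
  have hlow : ∀ x ∈ F, η * L ≤ (((Finset.range L).filter
      (fun u : ℕ => G x ≠ G (x + (u : ℤ)))).card : ℝ) := by
    intro x hx
    obtain ⟨h1, -⟩ := hFmem x hx
    rw [hBad, Set.mem_ofPred_eq] at h1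
    refine h1.le.trans ?_
    have := ncard_window_le (fun z => G z ≠ G x) x L
    refine (Nat.cast_le.mpr this).trans (Nat.cast_le.mpr (Finset.card_le_card ?_))
    intro u hu
    rw [Finset.mem_filter] at hu ⊢
    exact ⟨hu.1, fun hh => hu.2 hh.symm⟩
  -- upper bound for each `u`
  set M : ℝ := C * (X * Real.sqrt (Real.log (2 + L) / Real.log X) + y * Real.sqrt X) with hM
  have hup : ∀ u ∈ Finset.range L, ((F.filter (fun x => G x ≠ G (x + (u : ℤ)))).card : ℝ)
      ≤ M := by
    intro u hu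
    rw [Finset.mem_range] at hu
    have h := h4 e he α y G hy hG 0 0 (u : ℤ) X hX
    have h1 : (F.filter (fun x => G x ≠ G (x + (u : ℤ)))).card
        ≤ {x : ℤ | x ∈ {n : ℤ | G n ≠ G (2 ^ 0 * 3 ^ 0 * n + (u : ℤ))} ∧ 0 < e * x ∧
            ((e * x : ℤ) : ℝ) ≤ X}.ncard := by
      rw [← Set.ncard_coe_finset]
      refine Set.ncard_le_ncard ?_ (hfin.subset fun x hx => hx.2)
      intro x hx
      rw [Finset.mem_coe, Finset.mem_filter] at hx
      refine ⟨?_, (hFmem x hx.1).2⟩
      rw [Set.mem_ofPred_eq]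
      have : (2 : ℤ) ^ 0 * 3 ^ 0 * x + u = x + u := by ring
      rw [this]
      exact hx.2
    have h1' : ((F.filter (fun x => G x ≠ G (x + (u : ℤ)))).card : ℝ) ≤
        count e {n : ℤ | G n ≠ G (2 ^ 0 * 3 ^ 0 * n + (u : ℤ))} X := by
      unfold count
      exact_mod_cast h1
    refine h1'.trans (h.trans ?_)
    rw [hM]
    refine mul_le_mul_of_nonneg_left ?_ hC.le
    have h5 : Real.sqrt (((((0 : ℕ) : ℝ) + ((0 : ℕ) : ℝ)) ^ 2
        + Real.log (2 + |((u : ℤ) : ℝ)|)) / Real.log X)
        ≤ Real.sqrt (Real.log (2 + L) / Real.log X) := by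
      refine Real.sqrt_le_sqrt (div_le_div_of_nonneg_right ?_ hlogX.le)
      have h3 : |((u : ℤ) : ℝ)| = (u : ℝ) := by
        rw [Int.cast_natCast]; exact abs_of_nonneg (Nat.cast_nonneg _)
      rw [h3]
      have h4 : Real.log (2 + (u : ℝ)) ≤ Real.log (2 + L) := by
        refine Real.log_le_log (by positivity) ?_
        have : (u : ℝ) ≤ L := by exact_mod_cast hu.le
        linarith
      simpa using h4
    have := mul_le_mul_of_nonneg_left h5 hX0
    linarith
  -- double counting
  have hdc : ∑ x ∈ F, ((Finset.range L).filter (fun u : ℕ => G x ≠ G (x + (u : ℤ)))).card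
      = ∑ u ∈ Finset.range L, (F.filter (fun x => G x ≠ G (x + (u : ℤ)))).card := by
    simp only [Finset.card_filter]
    exact Finset.sum_comm
  have hdc' : ∑ x ∈ F, (((Finset.range L).filter
        (fun u : ℕ => G x ≠ G (x + (u : ℤ)))).card : ℝ)
      = ∑ u ∈ Finset.range L, ((F.filter (fun x => G x ≠ G (x + (u : ℤ)))).card : ℝ) := by
    exact_mod_cast hdc
  have h1 : (F.card : ℝ) * (η * L) ≤ L * M := by
    calc (F.card : ℝ) * (η * L) = ∑ x ∈ F, η * L := by rw [Finset.sum_const, nsmul_eq_mul]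
      _ ≤ _ := Finset.sum_le_sum hlow
      _ = _ := hdc'
      _ ≤ ∑ u ∈ Finset.range L, M := Finset.sum_le_sum hup
      _ = L * M := by rw [Finset.sum_const, nsmul_eq_mul, Finset.card_range]
  have h2 : (F.card : ℝ) * η ≤ M := by
    have : (F.card : ℝ) * η * L ≤ M * L := by linarith
    exact le_of_mul_le_mul_right this hLr
  rw [hcount]
  have h3 : (F.card : ℝ) ≤ M / η := by
    rw [le_div_iff₀ hη]; exact h2
  refine h3.trans (le_of_eq ?_)
  rw [hM]
  ring

/-- A zero-one law in short intervals: if almost every interval `[x, x + L(X))`, `x ≤ X`, contains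
at least `η L(X)` integers outside the invariant set `S`, then `S` has density `0`. -/
theorem zero_law (hF : IntFStatement) {e : ℤ} (he : e = 1 ∨ e = -1) {y : ℝ} {S : Set ℤ}
    (hy : 1 ≤ y) (hS : InvAbove y S) {η : ℝ} (hη : 0 < η) {L : ℝ → ℕ} (hL : ∀ X, 1 ≤ L X)
    (hlog : Tendsto (fun X : ℝ => Real.log (L X) / Real.log X) atTop (𝓝 0))
    (h : Tendsto (fun X : ℝ => count e
      {x : ℤ | ({z : ℤ | z ∉ S ∧ x ≤ z ∧ z < x + L X}.ncard : ℝ) < η * L X} X / X) atTop (𝓝 0)) :
    HasDensity e S 0 := by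
  classical
  obtain ⟨C, hC, hI⟩ := hF
  unfold HasDensity
  have hinv : ∀ x : ℤ, y ≤ |(x : ℝ)| → (x ∈ S) = (T x ∈ S) := fun x hx => propext (hS x hx)
  -- the error term
  have hlim : Tendsto (fun X : ℝ => C / (η / 2) * (Real.sqrt (Real.log (2 + L X) / Real.log X)
      + y / Real.sqrt X)) atTop (𝓝 0) := by
    have h0 : Tendsto (fun X : ℝ => Real.log (2 + L X) / Real.log X) atTop (𝓝 0) := by
      have h3 : Tendsto (fun X : ℝ => Real.log 3 / Real.log X + Real.log (L X) / Real.log X) atTop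
          (𝓝 0) := by
        have := (tendsto_const_nhds (x := Real.log 3) |>.div_atTop Real.tendsto_log_atTop).add hlog
        simpa using this
      refine squeeze_zero' ?_ ?_ h3
      · filter_upwards [eventually_ge_atTop (2 : ℝ)] with X hX
        have h1 : (0 : ℝ) ≤ L X := Nat.cast_nonneg _
        exact div_nonneg (Real.log_nonneg (by linarith)) (Real.log_nonneg (by linarith))
      · filter_upwards [eventually_ge_atTop (2 : ℝ)] with X hX
        have hl : 0 < Real.log X := Real.log_pos (by linarith)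
        rw [← add_div]
        refine div_le_div_of_nonneg_right ?_ hl.le
        have h1 : (1 : ℝ) ≤ L X := by exact_mod_cast hL X
        rw [← Real.log_mul (by norm_num) (by linarith)]
        exact Real.log_le_log (by linarith) (by linarith)
    have h1 : Tendsto (fun X : ℝ => Real.sqrt (Real.log (2 + L X) / Real.log X)) atTop
        (𝓝 0) := by
      have := (Real.continuous_sqrt.tendsto 0).comp h0
      rw [Real.sqrt_zero] at this
      exact this
    have h2 : Tendsto (fun X : ℝ => y / Real.sqrt X) atTop (𝓝 0) :=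
      tendsto_const_nhds.div_atTop Real.tendsto_sqrt_atTop
    have h3 := (h1.add h2).const_mul (C / (η / 2))
    simpa using h3
  have hsum := hlim.add h
  rw [add_zero] at hsum
  refine squeeze_zero' ?_ ?_ hsum
  · filter_upwards [eventually_ge_atTop (2 : ℝ)] with X hX
    exact div_nonneg (count_nonneg _ _ _) (by linarith)
  · filter_upwards [eventually_ge_atTop (2 : ℝ)] with X hX
    have hX0 : 0 < X := by linarith
    have hfin := finite_count e he X
    set A : Set ℤ := {x : ℤ | η / 2 * L X <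
      ({z : ℤ | (z ∈ S) ≠ (x ∈ S) ∧ x ≤ z ∧ z < x + L X}.ncard : ℝ)} with hA
    set B : Set ℤ := {x : ℤ | ({z : ℤ | z ∉ S ∧ x ≤ z ∧ z < x + L X}.ncard : ℝ) < η * L X}
      with hB
    have hLp : (1 : ℝ) ≤ L X := by exact_mod_cast hL X
    have hsub : {x : ℤ | x ∈ S ∧ 0 < e * x ∧ ((e * x : ℤ) : ℝ) ≤ X} ⊆
        {x : ℤ | x ∈ A ∧ 0 < e * x ∧ ((e * x : ℤ) : ℝ) ≤ X} ∪
        {x : ℤ | x ∈ B ∧ 0 < e * x ∧ ((e * x : ℤ) : ℝ) ≤ X} := by
      rintro x ⟨hxS, hx⟩
      by_cases hxB : x ∈ B
      · exact Or.inr ⟨hxB, hx⟩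
      · refine Or.inl ⟨?_, hx⟩
        rw [hB, Set.mem_ofPred_eq, not_lt] at hxB
        rw [hA, Set.mem_ofPred_eq]
        have heq : {z : ℤ | (z ∈ S) ≠ (x ∈ S) ∧ x ≤ z ∧ z < x + L X} =
            {z : ℤ | z ∉ S ∧ x ≤ z ∧ z < x + L X} := by
          ext z
          simp only [Set.mem_ofPred_eq, ne_eq, eq_iff_iff, hxS, iff_true]
        rw [heq]
        refine lt_of_lt_of_le ?_ hxB
        nlinarith
    have hfA : {x : ℤ | x ∈ A ∧ 0 < e * x ∧ ((e * x : ℤ) : ℝ) ≤ X}.Finite :=
      hfin.subset fun x hx => hx.2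
    have hfB : {x : ℤ | x ∈ B ∧ 0 < e * x ∧ ((e * x : ℤ) : ℝ) ≤ X}.Finite :=
      hfin.subset fun x hx => hx.2
    have h1 := (Set.ncard_le_ncard hsub (hfA.union hfB)).trans (Set.ncard_union_le _ _)
    have h2 : count e S X ≤ count e A X + count e B X := by
      unfold count
      exact_mod_cast h1
    have h3 := hI e he Prop y (fun x => x ∈ S) hy hinv (L X) (η / 2) X (by positivity) hX
    have h4 : count e A X / X ≤ C / (η / 2) * (Real.sqrt (Real.log (2 + L X) / Real.log X)
      + y / Real.sqrt X) := by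
      rw [div_le_iff₀ hX0]
      refine h3.trans (le_of_eq ?_)
      have hs : Real.sqrt X * Real.sqrt X = X := Real.mul_self_sqrt hX0.le
      have hs0 : Real.sqrt X ≠ 0 := (Real.sqrt_pos.2 hX0).ne'
      field_simp
      nlinarith [hs]
    calc count e S X / X ≤ (count e A X + count e B X) / X :=
          div_le_div_of_nonneg_right h2 hX0.le
      _ = count e A X / X + count e B X / X := add_div _ _ _
      _ ≤ _ := add_le_add h4 le_rfl

end Pool.Agent.Lib.MP_edb5be_nt.CO
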