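import Pool.Agent.Lib.MP_edb5be_nt.CO.T4
import Pool.Agent.Lib.MP_edb5be_nt.CO.Four

/-!
# Theorem 4 for functions, with the exact dependence on `y`

The proof is the proof of `t4f` (`CO/T4.lean`) with `2 ^ t ≤ √(X / y)`.
-/

set_option autoImplicit false

namespace Pool.Agent.Lib.MP_edb5be_nt.CO

def T4YStatement : Prop :=
  ∃ C : ℝ, 0 < C ∧ ∀ (α : Type) (y : ℝ) (F : ℤ → α), 1 ≤ y →
    (∀ x : ℤ, y ≤ |(x : ℝ)| → F x = F (T x)) →
    ∀ (i j : ℕ) (b : ℤ) (X : ℝ), 1 ≤ X →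
      (({n : ℤ | |(n : ℝ)| ≤ X ∧ F n ≠ F (2 ^ i * 3 ^ j * n + b)}.ncard : ℕ) : ℝ) ≤
        C * X * Real.sqrt ((((i : ℝ) + j) ^ 2 + Real.log (2 + |(b : ℝ)|)) / Real.log (2 + X / y))

/-- the case `i = 0` -/
theorem t4y_zero (hT3 : T3Statement) :
    ∃ C : ℝ, 0 < C ∧ ∀ (α : Type) (y : ℝ) (F : ℤ → α), 1 ≤ y →
    (∀ x : ℤ, y ≤ |(x : ℝ)| → F x = F (T x)) →
    ∀ (j : ℕ) (b : ℤ) (X : ℝ), 4 * y ≤ X →
      (({n : ℤ | |(n : ℝ)| ≤ X ∧ F n ≠ F (3 ^ j * n + b)}.ncard : ℕ) : ℝ) ≤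
        C * (X * Real.sqrt (((j : ℝ) ^ 2 + Real.log (2 + |(b : ℝ)|)) / Real.log (2 + X / y))) := by
  obtain ⟨C1, hC1, h2⟩ := hT3
  refine ⟨4 * C1 + 12, by positivity, ?_⟩
  intro α y F hy hS j b X hX
  have hy0 : 0 < y := by linarith
  have hX0 : 0 < X := by linarith
  set L : ℝ := (j : ℝ) ^ 2 + Real.log (2 + |(b : ℝ)|) with hL
  set W : ℝ := X / y with hW
  have hW4 : 4 ≤ W := by rw [hW, le_div_iff₀ hy0]; exact hX
  have hWX : W ≤ X := by rw [hW]; exact div_le_self hX0.le hy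
  have hyW : y * W = X := by rw [hW]; field_simp
  have hlog2 := half_le_log_two
  have hLb := log_two_le_log b
  have hL2 : Real.log 2 ≤ L := by rw [hL]; nlinarith [sq_nonneg (j : ℝ)]
  have hL0 : 1 / 2 ≤ L := by linarith
  have hlogX : 0 < Real.log (2 + W) := Real.log_pos (by linarith)
  have hsX : 1 ≤ Real.sqrt W := by
    rw [show (1 : ℝ) = Real.sqrt 1 by simp]
    exact Real.sqrt_le_sqrt (by linarith)
  have hss : Real.sqrt W * Real.sqrt W = W := Real.mul_self_sqrt (by linarith)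
  have hyX : 1 ≤ y * Real.sqrt W := by nlinarith
  have hq0 : 0 ≤ Real.sqrt (L / Real.log (2 + W)) := Real.sqrt_nonneg _
  have hXq : 0 ≤ X * Real.sqrt (L / Real.log (2 + W)) := by positivity
  obtain ⟨t, ht1, ht2, ht3⟩ : ∃ t : ℕ, 1 ≤ t ∧ (2 : ℝ) ^ t ≤ Real.sqrt W ∧
      Real.log (2 + W) ≤ 4 * t := by
    have hfl : 4 ≤ ⌊W⌋₊ := Nat.le_floor (by exact_mod_cast hW4)
    have ha : Nat.log 4 ⌊W⌋₊ ≠ 0 := by
      have := Nat.log_pos (b := 4) (by norm_num) hfl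
      omega
    have hb : (4 : ℝ) ^ Nat.log 4 ⌊W⌋₊ ≤ W := by
      have h := Nat.pow_log_le_self 4 (x := ⌊W⌋₊) (by omega)
      have h' : ((4 ^ Nat.log 4 ⌊W⌋₊ : ℕ) : ℝ) ≤ (⌊W⌋₊ : ℝ) := by exact_mod_cast h
      push_cast at h'
      exact h'.trans (Nat.floor_le (by linarith))
    have hc : W < (4 : ℝ) ^ (Nat.log 4 ⌊W⌋₊ + 1) := by
      have h := Nat.lt_pow_succ_log_self (b := 4) (by norm_num) ⌊W⌋₊
      have h' : ((⌊W⌋₊ + 1 : ℕ) : ℝ) ≤ ((4 ^ (Nat.log 4 ⌊W⌋₊).succ : ℕ) : ℝ) := by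
        exact_mod_cast h
      push_cast at h'
      exact lt_of_lt_of_le (Nat.lt_floor_add_one W) h'
    refine ⟨Nat.log 4 ⌊W⌋₊, by omega, ?_, ?_⟩
    · apply Real.le_sqrt_of_sq_le
      rw [← pow_mul, mul_comm, pow_mul]
      norm_num
      exact hb
    · have h3 := Real.log_le_log (by linarith) hc.le
      rw [Real.log_pow, show (4 : ℝ) = 2 ^ 2 by norm_num, Real.log_pow] at h3
      have h4 : Real.log 2 ≤ 7 / 10 := by have := Real.log_two_lt_d9; linarith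
      have h5 : (1 : ℝ) ≤ (Nat.log 4 ⌊W⌋₊ : ℝ) := by
        exact_mod_cast Nat.one_le_iff_ne_zero.2 ha
      have h6 : Real.log (2 + W) ≤ Real.log 2 + Real.log W := by
        rw [← Real.log_mul (by norm_num) (by linarith)]
        exact Real.log_le_log (by linarith) (by linarith)
      push_cast at h3
      nlinarith
  have ht0 : (0 : ℝ) < t := by exact_mod_cast ht1
  have htX : (2 : ℝ) ^ t ≤ X := by nlinarith
  -- the three exceptional sets
  have hB := h2 t j b X ht1 htX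
  have hN1 := lin_ncard 1 0 1 (y * Real.sqrt W) one_pos le_rfl (by linarith)
  have hN2 := lin_ncard (3 ^ j) b 1 (y * Real.sqrt W) one_pos (one_le_pow₀ (by norm_num))
    (by linarith)
  have hBf : {n : ℤ | |(n : ℝ)| ≤ X ∧ ∀ i ≤ t, T^[i] n ≠ T^[i] (3 ^ j * n + b)}.Finite :=
    (ball_finite X).subset fun n hn => hn.1
  have hsub : {n : ℤ | |(n : ℝ)| ≤ X ∧ F n ≠ F (3 ^ j * n + b)} ⊆
      {n : ℤ | |(n : ℝ)| ≤ X ∧ ∀ i ≤ t, T^[i] n ≠ T^[i] (3 ^ j * n + b)} ∪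
      ({n : ℤ | |(1 : ℝ) * n + 0| < 1 * (y * Real.sqrt W)} ∪
        {n : ℤ | |(3 : ℝ) ^ j * n + b| < 1 * (y * Real.sqrt W)}) := by
    rintro n ⟨hn1, hn2⟩
    by_contra hn
    rw [Set.mem_union, Set.mem_union, not_or, not_or] at hn
    obtain ⟨hn3, hn4, hn5⟩ := hn
    rw [Set.mem_ofPred_eq, not_lt] at hn4 hn5
    have hn6 : ∃ i ≤ t, T^[i] n = T^[i] (3 ^ j * n + b) := by
      by_contra h
      push Not at h
      exact hn3 ⟨hn1, h⟩
    obtain ⟨i, hi, hn6⟩ := hn6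
    have hpow : (2 : ℝ) ^ i * y ≤ y * Real.sqrt W := by
      have h3 : (2 : ℝ) ^ i ≤ 2 ^ t := pow_le_pow_right₀ (by norm_num) hi
      nlinarith
    apply hn2
    have e1 := fun_iter (by linarith) hS i n (by
      refine hpow.trans ?_
      simpa using hn4)
    have e2 := fun_iter (by linarith) hS i (3 ^ j * n + b) (by
      refine hpow.trans ?_
      push_cast
      simpa using hn5)
    rw [e1, e2, hn6]
  have hcard := Set.ncard_le_ncard hsub (hBf.union (hN1.1.union hN2.1))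
  have hcard2 := (hcard.trans (Set.ncard_union_le _ _)).trans
    (Nat.add_le_add_left (Set.ncard_union_le _ _) _)
  have hcard3 : (({n : ℤ | |(n : ℝ)| ≤ X ∧ F n ≠ F (3 ^ j * n + b)}.ncard : ℕ) : ℝ) ≤
      (({n : ℤ | |(n : ℝ)| ≤ X ∧ ∀ i ≤ t, T^[i] n ≠ T^[i] (3 ^ j * n + b)}.ncard : ℕ) : ℝ) +
      ((({n : ℤ | |(1 : ℝ) * n + 0| < 1 * (y * Real.sqrt W)}.ncard : ℕ) : ℝ) +
      (({n : ℤ | |(3 : ℝ) ^ j * n + b| < 1 * (y * Real.sqrt W)}.ncard : ℕ) : ℝ)) := by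
    exact_mod_cast hcard2
  have hfb : Real.sqrt ((1 + (j : ℝ) ^ 2 + Real.log (2 + |(b : ℝ)|)) / t) ≤
      4 * Real.sqrt (L / Real.log (2 + W)) := by
    have h3 : (1 + (j : ℝ) ^ 2 + Real.log (2 + |(b : ℝ)|)) / t ≤
        4 ^ 2 * (L / Real.log (2 + W)) := by
      rw [← mul_div_assoc, div_le_div_iff₀ ht0 hlogX]
      have h4 : 1 + (j : ℝ) ^ 2 + Real.log (2 + |(b : ℝ)|) ≤ 3 * L := by
        rw [hL]; rw [hL] at hL0; linarith
      have h5 : (1 + (j : ℝ) ^ 2 + Real.log (2 + |(b : ℝ)|)) * Real.log (2 + W) ≤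
          3 * L * (4 * t) := by
        apply mul_le_mul h4 ht3 hlogX.le (by linarith)
      nlinarith
    calc Real.sqrt ((1 + (j : ℝ) ^ 2 + Real.log (2 + |(b : ℝ)|)) / t)
        ≤ Real.sqrt (4 ^ 2 * (L / Real.log (2 + W))) := Real.sqrt_le_sqrt h3
      _ = 4 * Real.sqrt (L / Real.log (2 + W)) := by
          rw [Real.sqrt_mul (by norm_num), Real.sqrt_sq (by norm_num)]
  have hfX : C1 * X * Real.sqrt ((1 + (j : ℝ) ^ 2 + Real.log (2 + |(b : ℝ)|)) / t) ≤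
      4 * C1 * (X * Real.sqrt (L / Real.log (2 + W))) := by
    have h3 : C1 * X * Real.sqrt ((1 + (j : ℝ) ^ 2 + Real.log (2 + |(b : ℝ)|)) / t) ≤
        C1 * X * (4 * Real.sqrt (L / Real.log (2 + W))) :=
      mul_le_mul_of_nonneg_left hfb (by positivity)
    linarith
  -- `y √W ≤ 2 X √(L / log (2 + W))`
  have hyq : y * Real.sqrt W ≤ 2 * (X * Real.sqrt (L / Real.log (2 + W))) := by
    have h3 : Real.log (2 + W) ≤ 2 * W := by
      have := Real.log_le_sub_one_of_pos (show (0 : ℝ) < 2 + W by linarith)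
      linarith
    have h4 : 1 ≤ 2 * (Real.sqrt W * Real.sqrt (L / Real.log (2 + W))) := by
      rw [← Real.sqrt_mul (by linarith)]
      have h5 : (1 / 2 : ℝ) ≤ Real.sqrt (W * (L / Real.log (2 + W))) := by
        apply Real.le_sqrt_of_sq_le
        rw [← mul_div_assoc, le_div_iff₀ hlogX]
        nlinarith
      linarith
    calc y * Real.sqrt W = y * Real.sqrt W * 1 := by ring
      _ ≤ y * Real.sqrt W * (2 * (Real.sqrt W * Real.sqrt (L / Real.log (2 + W)))) :=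
          mul_le_mul_of_nonneg_left h4 (by linarith)
      _ = 2 * ((y * (Real.sqrt W * Real.sqrt W)) * Real.sqrt (L / Real.log (2 + W))) := by ring
      _ = _ := by rw [hss, hyW]
  have hn1 := hN1.2
  have hn2 := hN2.2
  nlinarith

/-- Theorem 4 for functions, with the exact dependence on `y`. -/
theorem t4y (hT3 : T3Statement) : T4YStatement := by
  obtain ⟨C, hC, h⟩ := t4y_zero hT3
  refine ⟨2 * C + 6, by positivity, ?_⟩
  intro α y F hy hS i j b X hX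
  have hy0 : 0 < y := by linarith
  have hX0 : 0 < X := by linarith
  have hlog2 := half_le_log_two
  have hlogb : 0 ≤ Real.log (2 + |(b : ℝ)|) :=
    le_trans (by linarith) (log_two_le_log b)
  have hWp : 0 < X / y := by positivity
  have hlogX : 0 < Real.log (2 + X / y) := Real.log_pos (by linarith)
  set Q := Real.sqrt ((((i : ℝ) + j) ^ 2 + Real.log (2 + |(b : ℝ)|)) / Real.log (2 + X / y))
    with hQ
  have hQ0 : 0 ≤ Q := Real.sqrt_nonneg _
  have hLb := log_two_le_log b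
  have hnum : (1 / 2 : ℝ) ≤ ((i : ℝ) + j) ^ 2 + Real.log (2 + |(b : ℝ)|) := by
    have := sq_nonneg ((i : ℝ) + j)
    linarith
  rcases lt_or_ge X (4 * y) with hXy | hXy
  · -- trivial bound
    have h3 : (1 / 2 : ℝ) ≤ Q := by
      apply Real.le_sqrt_of_sq_le
      rw [le_div_iff₀ hlogX]
      have h4 : Real.log (2 + X / y) ≤ 2 := by
        have h5 : X / y < 4 := by rw [div_lt_iff₀ hy0]; exact hXy
        have h6 : Real.log (2 + X / y) ≤ Real.log 8 :=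
          Real.log_le_log (by linarith) (by linarith)
        have h7 : Real.log 8 = 3 * Real.log 2 := by
          rw [show (8 : ℝ) = 2 ^ 3 by norm_num, Real.log_pow]; norm_num
        rw [h7] at h6
        have h8 := Real.log_two_lt_d9
        have h9 : Real.log (2 + X / y) ≤ Real.log 6 :=
          Real.log_le_log (by linarith) (by linarith)
        have h10 : Real.log 6 ≤ 2 := by
          have : Real.log 6 ≤ Real.log (Real.exp 2) := by
            apply Real.log_le_log (by norm_num)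
            have := Real.add_one_le_exp (1 : ℝ)
            have h11 : Real.exp 2 = Real.exp 1 * Real.exp 1 := by
              rw [← Real.exp_add]; norm_num
            have h12 := Real.exp_one_gt_d9
            rw [h11]
            nlinarith
          rwa [Real.log_exp] at this
        linarith
      nlinarith
    have h4 := ball_ncard X hX0.le
    have h5 : {n : ℤ | |(n : ℝ)| ≤ X ∧ F n ≠ F (2 ^ i * 3 ^ j * n + b)} ⊆
        {n : ℤ | |(n : ℝ)| ≤ X} := fun n hn => hn.1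
    have h6 := Set.ncard_le_ncard h5 (ball_finite X)
    have h7 : (({n : ℤ | |(n : ℝ)| ≤ X ∧ F n ≠ F (2 ^ i * 3 ^ j * n + b)}.ncard : ℕ) : ℝ) ≤
        (({n : ℤ | |(n : ℝ)| ≤ X}.ncard : ℕ) : ℝ) := by exact_mod_cast h6
    have h8 : 3 * X ≤ 6 * (X * Q) := by nlinarith
    have h9 : 0 ≤ C * (X * Q) := by positivity
    nlinarith
  obtain ⟨k, hk, hm⟩ := iter_pow i b
  have h0 := h α y F hy hS (j + k) (T^[i] b) X hXy
  have hN := lin_ncard (2 ^ i * 3 ^ j) b (2 ^ i) y (by positivity)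
    (le_mul_of_one_le_right (by positivity) (one_le_pow₀ (by norm_num))) (by linarith)
  have hAf : {n : ℤ | |(n : ℝ)| ≤ X ∧ F n ≠ F (3 ^ (j + k) * n + T^[i] b)}.Finite :=
    (ball_finite X).subset fun n hn => hn.1
  have hsub : {n : ℤ | |(n : ℝ)| ≤ X ∧ F n ≠ F (2 ^ i * 3 ^ j * n + b)} ⊆
      {n : ℤ | |(n : ℝ)| ≤ X ∧ F n ≠ F (3 ^ (j + k) * n + T^[i] b)} ∪
      {n : ℤ | |(2 : ℝ) ^ i * 3 ^ j * n + b| < 2 ^ i * y} := by
    rintro n ⟨hn1, hn2⟩
    by_contra hn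
    rw [Set.mem_union, not_or] at hn
    obtain ⟨hn3, hn4⟩ := hn
    rw [Set.mem_ofPred_eq, not_lt] at hn4
    apply hn3
    refine ⟨hn1, fun hiff => hn2 ?_⟩
    have e1 := fun_iter (by linarith) hS i (2 ^ i * 3 ^ j * n + b) (by push_cast; exact hn4)
    rw [e1, hiff, mul_assoc ((2 : ℤ) ^ i), hm, pow_add]
    ring_nf
  have hcard := (Set.ncard_le_ncard hsub (hAf.union hN.1)).trans (Set.ncard_union_le _ _)
  have hcard2 : (({n : ℤ | |(n : ℝ)| ≤ X ∧ F n ≠ F (2 ^ i * 3 ^ j * n + b)}.ncard : ℕ) : ℝ) ≤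
      (({n : ℤ | |(n : ℝ)| ≤ X ∧ F n ≠ F (3 ^ (j + k) * n + T^[i] b)}.ncard : ℕ) : ℝ) +
      (({n : ℤ | |(2 : ℝ) ^ i * 3 ^ j * n + b| < 2 ^ i * y}.ncard : ℕ) : ℝ) := by
    exact_mod_cast hcard
  -- the size of the new parameters
  have hb : |((T^[i] b : ℤ) : ℝ)| + 1 ≤ 2 ^ i * (|(b : ℝ)| + 1) := by
    have := abs_iter_le i b
    exact_mod_cast this
  have h2i : (1 : ℝ) ≤ 2 ^ i := one_le_pow₀ (by norm_num)
  have hlog : Real.log (2 + |((T^[i] b : ℤ) : ℝ)|) ≤ (i : ℝ) ^ 2 + Real.log (2 + |(b : ℝ)|) := by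
    have h3 : 2 + |((T^[i] b : ℤ) : ℝ)| ≤ 2 ^ i * (2 + |(b : ℝ)|) := by
      have := abs_nonneg (b : ℝ)
      nlinarith
    have h4 := Real.log_le_log (by have := abs_nonneg ((T^[i] b : ℤ) : ℝ); linarith) h3
    rw [Real.log_mul (by positivity) (by have := abs_nonneg (b : ℝ); positivity),
      Real.log_pow] at h4
    have h5 : (i : ℝ) * Real.log 2 ≤ (i : ℝ) ^ 2 := by
      have h6 : Real.log 2 ≤ 1 := by have := Real.log_two_lt_d9; linarith
      rcases Nat.eq_zero_or_pos i with rfl | hi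
      · simp
      · have h7 : (1 : ℝ) ≤ i := by exact_mod_cast hi
        nlinarith
    linarith
  have hkR : (k : ℝ) ≤ i := by exact_mod_cast hk
  have hk0 : (0 : ℝ) ≤ k := Nat.cast_nonneg k
  have hj0 : (0 : ℝ) ≤ j := Nat.cast_nonneg j
  have hi0 : (0 : ℝ) ≤ i := Nat.cast_nonneg i
  have hpar : (((j + k : ℕ) : ℝ) ^ 2 + Real.log (2 + |((T^[i] b : ℤ) : ℝ)|)) /
      Real.log (2 + X / y) ≤
      2 ^ 2 * ((((i : ℝ) + j) ^ 2 + Real.log (2 + |(b : ℝ)|)) / Real.log (2 + X / y)) := by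
    rw [← mul_div_assoc]
    apply div_le_div_of_nonneg_right _ hlogX.le
    push_cast
    nlinarith [mul_nonneg hi0 hj0, mul_nonneg hj0 hk0, mul_nonneg hi0 hk0, sq_nonneg (i : ℝ),
      sq_nonneg (j : ℝ)]
  have hs := Real.sqrt_le_sqrt hpar
  rw [Real.sqrt_mul (by norm_num), Real.sqrt_sq (by norm_num), ← hQ] at hs
  have h6 : C * (X * Real.sqrt ((((j + k : ℕ) : ℝ) ^ 2 +
      Real.log (2 + |((T^[i] b : ℤ) : ℝ)|)) / Real.log (2 + X / y))) ≤
      C * (X * (2 * Q)) :=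
    mul_le_mul_of_nonneg_left (mul_le_mul_of_nonneg_left hs hX0.le) hC.le
  have h7 := hN.2
  -- `y ≤ 2 X Q`
  have h8 : y ≤ 2 * (X * Q) := by
    set W := X / y with hW
    have hW4 : 4 ≤ W := by rw [hW, le_div_iff₀ hy0]; exact hXy
    have hyW : y * W = X := by rw [hW]; field_simp
    have h3 : Real.log (2 + W) ≤ 2 * W := by
      have := Real.log_le_sub_one_of_pos (show (0 : ℝ) < 2 + W by linarith)
      linarith
    have h4 : 1 ≤ 2 * (W * Q) := by
      have h5 : (1 / 2 : ℝ) / W ≤ Q := by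
        apply Real.le_sqrt_of_sq_le
        rw [le_div_iff₀ hlogX, div_pow, div_mul_eq_mul_div, div_le_iff₀ (by positivity)]
        nlinarith
      rw [div_le_iff₀ (by linarith)] at h5
      linarith
    calc y = y * 1 := by ring
      _ ≤ y * (2 * (W * Q)) := mul_le_mul_of_nonneg_left h4 hy0.le
      _ = 2 * (y * W * Q) := by ring
      _ = _ := by rw [hyW]
  have h9 : 0 ≤ C * (X * Q) := by positivity
  nlinarith

end Pool.Agent.Lib.MP_edb5be_nt.CO
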