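import Pool.Agent.Lib.MP_edb5be_nt.CO.IntF
import Pool.Agent.Lib.MP_edb5be_nt.CO.T4Y

/-!
# One-sided forms: shifts and short intervals for functions, with the exact dependence on `y`

The proof of `intY` is the proof of `intF` (`CO/IntF.lean`) with the bound of `T4YStatement`.
-/

set_option autoImplicit false

namespace Pool.Agent.Lib.MP_edb5be_nt.CO

open INT Filter Topology

/-- Part (v), first half. -/
def FunYStatement : Prop := ∃ C : ℝ, 0 < C ∧ ∀ e : ℤ, e = 1 ∨ e = -1 →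
  ∀ (α : Type) (y : ℝ) (F : ℤ → α), 1 ≤ y → (∀ x : ℤ, y ≤ |(x : ℝ)| → F x = F (T x)) →
    ∀ (i j : ℕ) (b : ℤ) (X : ℝ), 1 ≤ X →
      count e {n : ℤ | F n ≠ F (2 ^ i * 3 ^ j * n + b)} X
        ≤ C * X * Real.sqrt ((((i : ℝ) + j) ^ 2 + Real.log (2 + |(b : ℝ)|)) /
          Real.log (2 + X / y))

/-- Part (v), second half. -/
def IntYStatement : Prop := ∃ C : ℝ, 0 < C ∧ ∀ e : ℤ, e = 1 ∨ e = -1 →
  ∀ (α : Type) (y : ℝ) (F : ℤ → α), 1 ≤ y → (∀ x : ℤ, y ≤ |(x : ℝ)| → F x = F (T x)) →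
    ∀ (L : ℕ) (η X : ℝ), 0 < η → 1 ≤ X →
      count e {x : ℤ | η * L < ({z : ℤ | F z ≠ F x ∧ x ≤ z ∧ z < x + L}.ncard : ℝ)} X
        ≤ C / η * X * Real.sqrt (Real.log (2 + L) / Real.log (2 + X / y))

theorem funY (h4 : T4YStatement) : FunYStatement := by
  obtain ⟨C, hC, h⟩ := h4
  refine ⟨C, hC, fun e he α y F hy hF i j b X hX => ?_⟩
  exact (count_le_two he _ X).trans (h α y F hy hF i j b X hX)

theorem intY (h4 : FunYStatement) : IntYStatement := by
  classical
  obtain ⟨C, hC, h4⟩ := h4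
  refine ⟨C, hC, ?_⟩
  intro e he α y G hy hG L η X hη hX
  have hX0 : 0 < X := by linarith
  have hy0 : 0 < y := by linarith
  have hW0 : 0 < X / y := by positivity
  have hlogX : 0 < Real.log (2 + X / y) := Real.log_pos (by linarith)
  set Bad : Set ℤ := {x : ℤ | η * L < ({z : ℤ | G z ≠ G x ∧ x ≤ z ∧ z < x + L}.ncard : ℝ)}
    with hBad
  rcases Nat.eq_zero_or_pos L with rfl | hL
  · -- no bad `x` at all
    have hempty : Bad = ∅ := by
      rw [Set.eq_empty_iff_forall_notMem]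
      intro x h
      have h0 : {z : ℤ | G z ≠ G x ∧ x ≤ z ∧ z < x + ((0 : ℕ) : ℤ)} = ∅ := by
        rw [Set.eq_empty_iff_forall_notMem]
        rintro z ⟨-, h1, h2⟩
        rw [Nat.cast_zero, add_zero] at h2
        exact absurd h1 (not_le.mpr h2)
      rw [hBad, Set.mem_ofPred_eq, h0] at h
      simp at h
    have : count e Bad X = 0 := by
      unfold count
      rw [hempty]
      simp
    rw [this]
    positivity
  have hLr : (0 : ℝ) < L := by exact_mod_cast hL
  have hfin := finite_count e he X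
  have hfinB : {x : ℤ | x ∈ Bad ∧ 0 < e * x ∧ ((e * x : ℤ) : ℝ) ≤ X}.Finite :=
    hfin.subset fun x hx => hx.2
  set F : Finset ℤ := hfinB.toFinset with hF
  have hFmem : ∀ x ∈ F, x ∈ Bad ∧ 0 < e * x ∧ ((e * x : ℤ) : ℝ) ≤ X := by
    intro x hx
    rw [hF, Set.Finite.mem_toFinset] at hx
    exact hx
  have hcount : count e Bad X = (F.card : ℝ) := by
    unfold count
    rw [hF, Set.ncard_eq_toFinset_card _ hfinB]
  -- lower bound for the number of pairs
  have hlow : ∀ x ∈ F, η * L ≤ (((Finset.range L).filter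
      (fun u : ℕ => G x ≠ G (x + (u : ℤ)))).card : ℝ) := by
    intro x hx
    obtain ⟨h1, -⟩ := hFmem x hx
    rw [hBad, Set.mem_ofPred_eq] at h1
    refine h1.le.trans ?_
    have := ncard_window_le (fun z => G z ≠ G x) x L
    refine (Nat.cast_le.mpr this).trans (Nat.cast_le.mpr (Finset.card_le_card ?_))
    intro u hu
    rw [Finset.mem_filter] at hu ⊢
    exact ⟨hu.1, fun hh => hu.2 hh.symm⟩
  -- upper bound for each `u`
  set M : ℝ := C * X * Real.sqrt (Real.log (2 + L) / Real.log (2 + X / y)) with hM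
  have hup : ∀ u ∈ Finset.range L, ((F.filter (fun x => G x ≠ G (x + (u : ℤ)))).card : ℝ)
      ≤ M := by
    intro u hu
    rw [Finset.mem_range] at hu
    have h := h4 e he α y G hy hG 0 0 (u : ℤ) X hX
    have h1 : (F.filter (fun x => G x ≠ G (x + (u : ℤ)))).card
        ≤ {x : ℤ | x ∈ {n : ℤ | G n ≠ G (2 ^ 0 * 3 ^ 0 * n + (u : ℤ))} ∧ 0 < e * x ∧
            ((e * x : ℤ) : ℝ) ≤ X}.ncard := by
      rw [← Set.ncard_coe_finset]
      refine Set.ncard_le_ncard ?_ (hfin.subset fun x hx => hx.2)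
      intro x hx
      rw [Finset.mem_coe, Finset.mem_filter] at hx
      refine ⟨?_, (hFmem x hx.1).2⟩
      rw [Set.mem_ofPred_eq]
      have : (2 : ℤ) ^ 0 * 3 ^ 0 * x + u = x + u := by ring
      rw [this]
      exact hx.2
    have h1' : ((F.filter (fun x => G x ≠ G (x + (u : ℤ)))).card : ℝ) ≤
        count e {n : ℤ | G n ≠ G (2 ^ 0 * 3 ^ 0 * n + (u : ℤ))} X := by
      unfold count
      exact_mod_cast h1
    refine h1'.trans (h.trans ?_)
    rw [hM]
    refine mul_le_mul_of_nonneg_left ?_ (by positivity)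
    refine Real.sqrt_le_sqrt (div_le_div_of_nonneg_right ?_ hlogX.le)
    have h3 : |((u : ℤ) : ℝ)| = (u : ℝ) := by
      rw [Int.cast_natCast]; exact abs_of_nonneg (Nat.cast_nonneg _)
    rw [h3]
    have h4 : Real.log (2 + (u : ℝ)) ≤ Real.log (2 + L) := by
      refine Real.log_le_log (by positivity) ?_
      have : (u : ℝ) ≤ L := by exact_mod_cast hu.le
      linarith
    simpa using h4
  -- double counting
  have hdc : ∑ x ∈ F, ((Finset.range L).filter (fun u : ℕ => G x ≠ G (x + (u : ℤ)))).card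
      = ∑ u ∈ Finset.range L, (F.filter (fun x => G x ≠ G (x + (u : ℤ)))).card := by
    simp only [Finset.card_filter]
    exact Finset.sum_comm
  have hdc' : ∑ x ∈ F, (((Finset.range L).filter
        (fun u : ℕ => G x ≠ G (x + (u : ℤ)))).card : ℝ)
      = ∑ u ∈ Finset.range L, ((F.filter (fun x => G x ≠ G (x + (u : ℤ)))).card : ℝ) := by
    exact_mod_cast hdc
  have h1 : (F.card : ℝ) * (η * L) ≤ L * M := by
    calc (F.card : ℝ) * (η * L) = ∑ x ∈ F, η * L := by rw [Finset.sum_const, nsmul_eq_mul]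
      _ ≤ _ := Finset.sum_le_sum hlow
      _ = _ := hdc'
      _ ≤ ∑ u ∈ Finset.range L, M := Finset.sum_le_sum hup
      _ = L * M := by rw [Finset.sum_const, nsmul_eq_mul, Finset.card_range]
  have h2 : (F.card : ℝ) * η ≤ M := by
    have : (F.card : ℝ) * η * L ≤ M * L := by linarith
    exact le_of_mul_le_mul_right this hLr
  rw [hcount]
  have h3 : (F.card : ℝ) ≤ M / η := by
    rw [le_div_iff₀ hη]; exact h2
  refine h3.trans (le_of_eq ?_)
  rw [hM]
  ring

end Pool.Agent.Lib.MP_edb5be_nt.CO
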