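import Pool.Agent.Lib.MP_edb5be_nt.CO.Law
import Pool.Agent.Lib.MP_edb5be_nt.CO.IntY

/-!
# Functions that are constant along the trajectories outside `(-y, y)`, in every interval

Part (v) of the hand-in, from the law of the meeting time (`CO/Law.lean`).
-/

set_option autoImplicit false

namespace Pool.Agent.Lib.MP_edb5be_nt.CO

open INT Filter Topology

/-- Part (v), first half: for all but few `n` of an interval of `N` integers the function takes the
same value at `n` and at `2 ^ i * 3 ^ j * n + b`. -/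
def FunIvStatement : Prop := ∃ C : ℝ, 0 < C ∧
  ∀ (α : Type) (y : ℝ) (F : ℤ → α), 1 ≤ y → (∀ x : ℤ, y ≤ |(x : ℝ)| → F x = F (T x)) →
    ∀ (i j : ℕ) (b A : ℤ) (N : ℕ),
      ({n : ℤ | A ≤ n ∧ n < A + N ∧ F n ≠ F (2 ^ i * 3 ^ j * n + b)}.ncard : ℝ)
        ≤ C * N * Real.sqrt ((((i : ℝ) + j) ^ 2 + Real.log (2 + |(b : ℝ)|)) /
          Real.log (2 + N / y))

/-- Part (v), second half: for all but few `x` of an interval of `N` integers the function takes the
value `F x` at all but `η L` of the elements of `[x, x + L)`. -/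
def IntIvStatement : Prop := ∃ C : ℝ, 0 < C ∧
  ∀ (α : Type) (y : ℝ) (F : ℤ → α), 1 ≤ y → (∀ x : ℤ, y ≤ |(x : ℝ)| → F x = F (T x)) →
    ∀ (η : ℝ) (L N : ℕ) (A : ℤ), 0 < η →
      ({x : ℤ | A ≤ x ∧ x < A + N ∧
          η * L < ({z : ℤ | F z ≠ F x ∧ x ≤ z ∧ z < x + L}.ncard : ℝ)}.ncard : ℝ)
        ≤ C / η * N * Real.sqrt (Real.log (2 + L) / Real.log (2 + N / y))

theorem exists_time (W : ℝ) (hW4 : 4 ≤ W) :
    ∃ t : ℕ, 1 ≤ t ∧ (2 : ℝ) ^ t ≤ Real.sqrt W ∧ Real.log (2 + W) ≤ 4 * t := by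
  have hlog2 := half_le_log_two
  have hfl : 4 ≤ ⌊W⌋₊ := Nat.le_floor (by exact_mod_cast hW4)
  have ha : Nat.log 4 ⌊W⌋₊ ≠ 0 := by
    have := Nat.log_pos (b := 4) (by norm_num) hfl
    omega
  have hb : (4 : ℝ) ^ Nat.log 4 ⌊W⌋₊ ≤ W := by
    have h := Nat.pow_log_le_self 4 (x := ⌊W⌋₊) (by omega)
    have h' : ((4 ^ Nat.log 4 ⌊W⌋₊ : ℕ) : ℝ) ≤ (⌊W⌋₊ : ℝ) := by exact_mod_cast h
    push_cast at h'
    exact h'.trans (Nat.floor_le (by linarith))
  have hc : W < (4 : ℝ) ^ (Nat.log 4 ⌊W⌋₊ + 1) := by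
    have h := Nat.lt_pow_succ_log_self (b := 4) (by norm_num) ⌊W⌋₊
    have h' : ((⌊W⌋₊ + 1 : ℕ) : ℝ) ≤ ((4 ^ (Nat.log 4 ⌊W⌋₊).succ : ℕ) : ℝ) := by
      exact_mod_cast h
    push_cast at h'
    exact lt_of_lt_of_le (Nat.lt_floor_add_one W) h'
  refine ⟨Nat.log 4 ⌊W⌋₊, by omega, ?_, ?_⟩
  · apply Real.le_sqrt_of_sq_le
    rw [← pow_mul, mul_comm, pow_mul]
    norm_num
    exact hb
  · have h3 := Real.log_le_log (by linarith) hc.le
    rw [Real.log_pow, show (4 : ℝ) = 2 ^ 2 by norm_num, Real.log_pow] at h3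
    have h4 : Real.log 2 ≤ 7 / 10 := by have := Real.log_two_lt_d9; linarith
    have h5 : (1 : ℝ) ≤ (Nat.log 4 ⌊W⌋₊ : ℝ) := by
      exact_mod_cast Nat.one_le_iff_ne_zero.2 ha
    have h6 : Real.log (2 + W) ≤ Real.log 2 + Real.log W := by
      rw [← Real.log_mul (by norm_num) (by linarith)]
      exact Real.log_le_log (by linarith) (by linarith)
    push_cast at h3
    nlinarith

theorem finite_iv (P : ℤ → Prop) (A B : ℤ) : {n : ℤ | A ≤ n ∧ n < B ∧ P n}.Finite := by
  apply (Set.finite_Ico A B).subset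
  rintro x ⟨h1, h2, -⟩
  exact ⟨h1, h2⟩

theorem ncard_iv_le (P : ℤ → Prop) (A : ℤ) (N : ℕ) :
    ({n : ℤ | A ≤ n ∧ n < A + N ∧ P n}.ncard : ℝ) ≤ N := by
  have h1 : {n : ℤ | A ≤ n ∧ n < A + N ∧ P n} ⊆ ((Finset.Ico A (A + N) : Finset ℤ) : Set ℤ) := by
    rintro n ⟨h1, h2, -⟩
    rw [Finset.mem_coe, Finset.mem_Ico]
    exact ⟨h1, h2⟩
  have h2 := Set.ncard_le_ncard h1 (Finset.finite_toSet _)
  rw [Set.ncard_coe_finset, Int.card_Ico, add_sub_cancel_left, Int.toNat_natCast] at h2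
  exact_mod_cast h2

theorem funIv (hlaw : LawUpStatement) : FunIvStatement := by
  obtain ⟨C1, hC1, hlaw⟩ := hlaw
  refine ⟨2 * C1 + 12, by positivity, ?_⟩
  intro α y F hy hF i j b A N
  have hy0 : 0 < y := by linarith
  have hN0 : (0 : ℝ) ≤ N := Nat.cast_nonneg N
  set W : ℝ := N / y with hW
  have hW0 : 0 ≤ W := by positivity
  set P : ℝ := ((i : ℝ) + j) ^ 2 + Real.log (2 + |(b : ℝ)|) with hP
  have hlog2 := half_le_log_two
  have hLb := log_two_le_log b
  have hP2 : (1 / 2 : ℝ) ≤ P := by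
    have := sq_nonneg ((i : ℝ) + j)
    rw [hP]
    linarith
  have hlogX : 0 < Real.log (2 + W) := Real.log_pos (by linarith)
  set Q := Real.sqrt (P / Real.log (2 + W)) with hQ
  have hQ0 : 0 ≤ Q := Real.sqrt_nonneg _
  have hNQ : 0 ≤ N * Q := by positivity
  rcases lt_or_ge (N : ℝ) (4 * y) with hXy | hXy
  · -- trivial bound
    have h3 : (1 / 2 : ℝ) ≤ Q := by
      apply Real.le_sqrt_of_sq_le
      rw [le_div_iff₀ hlogX]
      have h4 : Real.log (2 + W) ≤ 2 := by
        have h5 : W < 4 := by rw [hW, div_lt_iff₀ hy0]; exact hXy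
        have h9 : Real.log (2 + W) ≤ Real.log 6 :=
          Real.log_le_log (by linarith) (by linarith)
        have h10 : Real.log 6 ≤ 2 := by
          have : Real.log 6 ≤ Real.log (Real.exp 2) := by
            apply Real.log_le_log (by norm_num)
            have h11 : Real.exp 2 = Real.exp 1 * Real.exp 1 := by
              rw [← Real.exp_add]; norm_num
            have h12 := Real.exp_one_gt_d9
            rw [h11]
            nlinarith
          rwa [Real.log_exp] at this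
        linarith
      nlinarith
    refine (ncard_iv_le _ A N).trans ?_
    have h4 : (N : ℝ) ≤ 2 * (N * Q) := by nlinarith
    have h5 : 0 ≤ C1 * (N * Q) := by positivity
    nlinarith
  have hW4 : 4 ≤ W := by rw [hW, le_div_iff₀ hy0]; exact hXy
  have hWN : W ≤ N := by rw [hW]; exact div_le_self hN0 hy
  have hyW : y * W = N := by rw [hW]; field_simp
  have hss : Real.sqrt W * Real.sqrt W = W := Real.mul_self_sqrt hW0
  have hsX : 1 ≤ Real.sqrt W := by
    rw [Real.one_le_sqrt]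
    linarith
  have hyX : 1 ≤ y * Real.sqrt W := by nlinarith
  obtain ⟨t, ht1, ht2, ht3⟩ := exists_time W hW4
  have ht0 : (0 : ℝ) < t := by exact_mod_cast ht1
  have htN : 2 ^ t ≤ N := by
    have h1 : (2 : ℝ) ^ t ≤ N := by nlinarith
    exact_mod_cast h1
  -- the three exceptional sets
  have hB := hlaw i j b A N t ht1 htN
  have hN1 := lin_ncard 1 0 1 (y * Real.sqrt W) one_pos le_rfl (by linarith)
  have hN2 := lin_ncard (2 ^ i * 3 ^ j) b (2 ^ i) (y * Real.sqrt W) (by positivity)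
    (le_mul_of_one_le_right (by positivity) (one_le_pow₀ (by norm_num))) (by linarith)
  have hBf : (fails A N t i j b).Finite := finite_iv _ _ _
  have hsub : {n : ℤ | A ≤ n ∧ n < A + N ∧ F n ≠ F (2 ^ i * 3 ^ j * n + b)} ⊆
      fails A N t i j b ∪
      ({n : ℤ | |(1 : ℝ) * n + 0| < 1 * (y * Real.sqrt W)} ∪
        {n : ℤ | |(2 : ℝ) ^ i * 3 ^ j * n + b| < 2 ^ i * (y * Real.sqrt W)}) := by
    rintro n ⟨hn0, hn1, hn2⟩
    by_contra hn
    rw [Set.mem_union, Set.mem_union, not_or, not_or] at hn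
    obtain ⟨hn3, hn4, hn5⟩ := hn
    rw [Set.mem_ofPred_eq, not_lt] at hn4 hn5
    have hn6 : ∃ s ≤ t, T^[s] n = T^[s + i] (2 ^ i * 3 ^ j * n + b) := by
      by_contra h
      push Not at h
      exact hn3 ⟨hn0, hn1, h⟩
    obtain ⟨s, hs, hn6⟩ := hn6
    have hpow : (2 : ℝ) ^ s * y ≤ y * Real.sqrt W := by
      have h3 : (2 : ℝ) ^ s ≤ 2 ^ t := pow_le_pow_right₀ (by norm_num) hs
      nlinarith
    apply hn2
    have e1 := fun_iter (by linarith) hF s n (by
      refine hpow.trans ?_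
      simpa using hn4)
    have e2 := fun_iter (by linarith) hF (s + i) (2 ^ i * 3 ^ j * n + b) (by
      have h4 : (2 : ℝ) ^ (s + i) * y = 2 ^ i * (2 ^ s * y) := by rw [pow_add]; ring
      rw [h4]
      refine (mul_le_mul_of_nonneg_left hpow (by positivity)).trans ?_
      push_cast
      exact hn5)
    rw [e1, e2, hn6]
  have hcard := Set.ncard_le_ncard hsub (hBf.union (hN1.1.union hN2.1))
  have hcard2 := (hcard.trans (Set.ncard_union_le _ _)).trans
    (Nat.add_le_add_left (Set.ncard_union_le _ _) _)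
  have hcard3 : ({n : ℤ | A ≤ n ∧ n < A + N ∧ F n ≠ F (2 ^ i * 3 ^ j * n + b)}.ncard : ℝ) ≤
      ((fails A N t i j b).ncard : ℝ) +
      ((({n : ℤ | |(1 : ℝ) * n + 0| < 1 * (y * Real.sqrt W)}.ncard : ℕ) : ℝ) +
      (({n : ℤ | |(2 : ℝ) ^ i * 3 ^ j * n + b| < 2 ^ i * (y * Real.sqrt W)}.ncard : ℕ) : ℝ)) := by
    exact_mod_cast hcard2
  have hfb : Real.sqrt (P / t) ≤ 2 * Q := by
    have h3 : P / t ≤ 2 ^ 2 * (P / Real.log (2 + W)) := by
      rw [← mul_div_assoc, div_le_div_iff₀ ht0 hlogX]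
      have h4 := mul_le_mul_of_nonneg_left ht3 (show 0 ≤ P by linarith)
      linarith
    calc Real.sqrt (P / t) ≤ Real.sqrt (2 ^ 2 * (P / Real.log (2 + W))) := Real.sqrt_le_sqrt h3
      _ = 2 * Q := by rw [Real.sqrt_mul (by norm_num), Real.sqrt_sq (by norm_num)]
  have hfX : C1 * N * Real.sqrt (P / t) ≤ 2 * C1 * (N * Q) := by
    have h3 : C1 * N * Real.sqrt (P / t) ≤ C1 * N * (2 * Q) :=
      mul_le_mul_of_nonneg_left hfb (by positivity)
    linarith
  -- `y √W ≤ 2 N Q`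
  have hyq : y * Real.sqrt W ≤ 2 * (N * Q) := by
    have h3 : Real.log (2 + W) ≤ 2 * W := by
      have := Real.log_le_sub_one_of_pos (show (0 : ℝ) < 2 + W by linarith)
      linarith
    have h4 : 1 ≤ 2 * (Real.sqrt W * Q) := by
      rw [hQ, ← Real.sqrt_mul (by linarith)]
      have h5 : (1 / 2 : ℝ) ≤ Real.sqrt (W * (P / Real.log (2 + W))) := by
        apply Real.le_sqrt_of_sq_le
        rw [← mul_div_assoc, le_div_iff₀ hlogX]
        have h6 := mul_le_mul_of_nonneg_left hP2 hW0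
        norm_num
        linarith
      linarith
    calc y * Real.sqrt W = y * Real.sqrt W * 1 := by ring
      _ ≤ y * Real.sqrt W * (2 * (Real.sqrt W * Q)) :=
          mul_le_mul_of_nonneg_left h4 (by linarith)
      _ = 2 * ((y * (Real.sqrt W * Real.sqrt W)) * Q) := by ring
      _ = _ := by rw [hss, hyW]
  have hn1 := hN1.2
  have hn2 := hN2.2
  linarith

theorem intIv (h4 : FunIvStatement) : IntIvStatement := by
  classical
  obtain ⟨C, hC, h4⟩ := h4
  refine ⟨C, hC, ?_⟩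
  intro α y G hy hG η L N A hη
  have hN0 : (0 : ℝ) ≤ N := Nat.cast_nonneg N
  have hy0 : 0 < y := by linarith
  have hW0 : 0 ≤ N / y := by positivity
  have hlogX : 0 < Real.log (2 + N / y) := Real.log_pos (by linarith)
  set S : Set ℤ := {x : ℤ | A ≤ x ∧ x < A + N ∧
    η * L < ({z : ℤ | G z ≠ G x ∧ x ≤ z ∧ z < x + L}.ncard : ℝ)} with hS
  rcases Nat.eq_zero_or_pos L with rfl | hL
  · -- no such `x` at all
    have hempty : S = ∅ := by
      rw [Set.eq_empty_iff_forall_notMem]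
      rintro x ⟨-, -, h⟩
      have h0 : {z : ℤ | G z ≠ G x ∧ x ≤ z ∧ z < x + ((0 : ℕ) : ℤ)} = ∅ := by
        rw [Set.eq_empty_iff_forall_notMem]
        rintro z ⟨-, h1, h2⟩
        rw [Nat.cast_zero, add_zero] at h2
        exact absurd h1 (not_le.mpr h2)
      rw [h0] at h
      simp at h
    rw [hempty, Set.ncard_empty]
    push_cast
    positivity
  have hLr : (0 : ℝ) < L := by exact_mod_cast hL
  have hfinS : S.Finite := finite_iv _ _ _
  set F : Finset ℤ := hfinS.toFinset with hF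
  have hFmem : ∀ x ∈ F, A ≤ x ∧ x < A + N ∧
      η * L < ({z : ℤ | G z ≠ G x ∧ x ≤ z ∧ z < x + L}.ncard : ℝ) := by
    intro x hx
    rw [hF, Set.Finite.mem_toFinset] at hx
    exact hx
  have hcount : (S.ncard : ℝ) = (F.card : ℝ) := by
    rw [hF, Set.ncard_eq_toFinset_card _ hfinS]
  -- lower bound for the number of pairs
  have hlow : ∀ x ∈ F, η * L ≤ (((Finset.range L).filter
      (fun u : ℕ => G x ≠ G (x + (u : ℤ)))).card : ℝ) := by
    intro x hx
    obtain ⟨-, -, h1⟩ := hFmem x hx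
    refine h1.le.trans ?_
    have := ncard_window_le (fun z => G z ≠ G x) x L
    refine (Nat.cast_le.mpr this).trans (Nat.cast_le.mpr (Finset.card_le_card ?_))
    intro u hu
    rw [Finset.mem_filter] at hu ⊢
    exact ⟨hu.1, fun hh => hu.2 hh.symm⟩
  -- upper bound for each `u`
  set M : ℝ := C * N * Real.sqrt (Real.log (2 + L) / Real.log (2 + N / y)) with hM
  have hup : ∀ u ∈ Finset.range L, ((F.filter (fun x => G x ≠ G (x + (u : ℤ)))).card : ℝ)
      ≤ M := by
    intro u hu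
    rw [Finset.mem_range] at hu
    have h := h4 α y G hy hG 0 0 (u : ℤ) A N
    have h1 : (F.filter (fun x => G x ≠ G (x + (u : ℤ)))).card
        ≤ {n : ℤ | A ≤ n ∧ n < A + N ∧ G n ≠ G (2 ^ 0 * 3 ^ 0 * n + (u : ℤ))}.ncard := by
      rw [← Set.ncard_coe_finset]
      refine Set.ncard_le_ncard ?_ (finite_iv _ _ _)
      intro x hx
      rw [Finset.mem_coe, Finset.mem_filter] at hx
      refine ⟨(hFmem x hx.1).1, (hFmem x hx.1).2.1, ?_⟩
      have : (2 : ℤ) ^ 0 * 3 ^ 0 * x + u = x + u := by ring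
      rw [this]
      exact hx.2
    refine (Nat.cast_le.mpr h1).trans (h.trans ?_)
    rw [hM]
    refine mul_le_mul_of_nonneg_left ?_ (by positivity)
    refine Real.sqrt_le_sqrt (div_le_div_of_nonneg_right ?_ hlogX.le)
    have h3 : |((u : ℤ) : ℝ)| = (u : ℝ) := by
      rw [Int.cast_natCast]; exact abs_of_nonneg (Nat.cast_nonneg _)
    rw [h3]
    have h4 : Real.log (2 + (u : ℝ)) ≤ Real.log (2 + L) := by
      refine Real.log_le_log (by positivity) ?_
      have : (u : ℝ) ≤ L := by exact_mod_cast hu.le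
      linarith
    simpa using h4
  -- double counting
  have hdc : ∑ x ∈ F, ((Finset.range L).filter (fun u : ℕ => G x ≠ G (x + (u : ℤ)))).card
      = ∑ u ∈ Finset.range L, (F.filter (fun x => G x ≠ G (x + (u : ℤ)))).card := by
    simp only [Finset.card_filter]
    exact Finset.sum_comm
  have hdc' : ∑ x ∈ F, (((Finset.range L).filter
        (fun u : ℕ => G x ≠ G (x + (u : ℤ)))).card : ℝ)
      = ∑ u ∈ Finset.range L, ((F.filter (fun x => G x ≠ G (x + (u : ℤ)))).card : ℝ) := by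
    exact_mod_cast hdc
  have h1 : (F.card : ℝ) * (η * L) ≤ L * M := by
    calc (F.card : ℝ) * (η * L) = ∑ x ∈ F, η * L := by rw [Finset.sum_const, nsmul_eq_mul]
      _ ≤ _ := Finset.sum_le_sum hlow
      _ = _ := hdc'
      _ ≤ ∑ u ∈ Finset.range L, M := Finset.sum_le_sum hup
      _ = L * M := by rw [Finset.sum_const, nsmul_eq_mul, Finset.card_range]
  have h2 : (F.card : ℝ) * η ≤ M := by
    have : (F.card : ℝ) * η * L ≤ M * L := by linarith
    exact le_of_mul_le_mul_right this hLr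
  rw [hcount]
  have h3 : (F.card : ℝ) ≤ M / η := by
    rw [le_div_iff₀ hη]; exact h2
  refine h3.trans (le_of_eq ?_)
  rw [hM]
  ring

theorem funIvH : FunIvStatement := funIv (law_up ct phH)

theorem intIvH : IntIvStatement := intIv funIvH

end Pool.Agent.Lib.MP_edb5be_nt.CO
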