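import Pool.Agent.Lib.MP_edb5be_nt.CO.Rows

/-!
# Row LY: the probability of not merging within `t` steps is `O((1 + D + r) / √t)`

One Lyapunov function `W = a U + δ X` with `δ = 1 / t`, `a = 12 / √t`, cut off at `D ≈ √t / 6`.
-/

set_option autoImplicit false

namespace Pool.Agent.Lib.MP_edb5be_nt.CO

namespace LY

theorem st_ef {D : ℕ} {s : ℤ} (h : s % 2 = 0) : st false (D, s) = (D, s / 2) := by
  simp [st, h]

theorem st_et {D : ℕ} {s : ℤ} (h : s % 2 = 0) :
    st true (D, s) = (D, (3 * s + 3 ^ D - 1) / 2) := by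
  simp [st, h]

theorem st_of {D : ℕ} {s : ℤ} (h : s % 2 ≠ 0) : st false (D, s) = (D + 1, (3 * s - 1) / 2) := by
  simp [st, h]

theorem st_ot {D : ℕ} {s : ℤ} (h : s % 2 ≠ 0) :
    st true (D + 1, s) = (D, (s + 3 ^ D) / 2) := by
  simp [st, h]

theorem st_oz {s : ℤ} (h : s % 2 ≠ 0) : st true (0, s) = (1, -((3 * s + 1) / 2)) := by
  simp [st, h]

theorem g_pos : 0 < g := by unfold g; norm_num

theorem g_le_one : g ≤ 1 := by unfold g; norm_num

theorem g_pow_pos (D : ℕ) : 0 < g ^ D := pow_pos g_pos D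

theorem g_pow_le_one (D : ℕ) : g ^ D ≤ 1 := pow_le_one₀ g_pos.le g_le_one

theorem r_nonneg (p : ℕ × ℤ) : 0 ≤ r p := by unfold r; positivity

theorem w_zero (s : ℤ) : w (0, s) = 0 := by simp [w]

/-- The expected time before absorption, cut at `l`. -/
noncomputable def A (l : ℕ) (p : ℕ × ℤ) : ℝ := ∑ n ∈ Finset.range (l + 1), f n p

theorem A_nonneg (l : ℕ) (p : ℕ × ℤ) : 0 ≤ A l p := Finset.sum_nonneg fun n _ => f_nonneg n p

theorem A_le (l : ℕ) (p : ℕ × ℤ) : A l p ≤ l + 1 := by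
  calc A l p ≤ ∑ _n ∈ Finset.range (l + 1), (1 : ℝ) :=
        Finset.sum_le_sum fun n _ => f_le_one n p
    _ = l + 1 := by simp

theorem A_mean {l : ℕ} {p : ℕ × ℤ} (hp : p ≠ (0, 0)) :
    (A l (st false p) + A l (st true p)) / 2 = A l p - (1 - f (l + 1) p) := by
  have h1 : (A l (st false p) + A l (st true p)) / 2 =
      ∑ n ∈ Finset.range (l + 1), f (n + 1) p := by
    rw [A, A, ← Finset.sum_add_distrib, Finset.sum_div]
    exact Finset.sum_congr rfl fun n _ => (f_succ hp n).symm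
  have h2 : ∑ n ∈ Finset.range (l + 1 + 1), f n p =
      ∑ n ∈ Finset.range (l + 1), f (n + 1) p + f 0 p := Finset.sum_range_succ' _ _
  have h3 : ∑ n ∈ Finset.range (l + 1 + 1), f n p = A l p + f (l + 1) p :=
    Finset.sum_range_succ _ _
  rw [f_zero hp] at h2
  rw [h1]
  linarith

theorem exists_l (hP : PPStatement) (F : Finset ℤ) :
    ∃ l : ℕ, ∃ ε : ℝ, 0 < ε ∧ ∀ s ∈ F, ε ≤ 1 - f l (0, s) := by
  classical
  induction F using Finset.induction_on with
  | empty => exact ⟨0, 1, one_pos, by simp⟩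
  | insert a F ha ih =>
    obtain ⟨l, ε, hε, h⟩ := ih
    obtain ⟨n, hn⟩ := hP a
    refine ⟨max l n, min ε (1 - f n (0, a)), lt_min hε (by linarith), fun s hs => ?_⟩
    rcases Finset.mem_insert.1 hs with rfl | hs
    · have h1 : f (max l n) (0, s) ≤ f n (0, s) := f_antitone (0, s) (le_max_right l n)
      have h2 := min_le_right ε (1 - f n (0, s))
      linarith
    · have h1 : f (max l n) (0, s) ≤ f l (0, s) := f_antitone (0, s) (le_max_left l n)
      have h2 := min_le_left ε (1 - f n (0, a))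
      have h3 := h s hs
      linarith

theorem exists_M (hP : PPStatement) (Q : ℝ) :
    ∃ (l : ℕ) (M : ℝ), 0 ≤ M ∧
      ∀ s : ℤ, Q ≤ M * (1 - f (l + 1) (0, s)) + 93 / 10 * Real.sqrt |(s : ℝ)| := by
  obtain ⟨l, ε, hε, h⟩ := exists_l hP (Finset.Icc (-(⌈Q ^ 2⌉₊ : ℤ)) ⌈Q ^ 2⌉₊)
  refine ⟨l, |Q| / ε, by positivity, fun s => ?_⟩
  have hf : 0 ≤ 1 - f (l + 1) (0, s) := by linarith [f_le_one (l + 1) (0, s)]
  have hs0 : 0 ≤ Real.sqrt |(s : ℝ)| := Real.sqrt_nonneg _
  by_cases hs : s ∈ Finset.Icc (-(⌈Q ^ 2⌉₊ : ℤ)) ⌈Q ^ 2⌉₊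
  · have h1 := h s hs
    have h2 : f (l + 1) (0, s) ≤ f l (0, s) := f_succ_le l (0, s)
    have h3 : |Q| / ε * ε ≤ |Q| / ε * (1 - f (l + 1) (0, s)) :=
      mul_le_mul_of_nonneg_left (by linarith) (by positivity)
    rw [div_mul_cancel₀ _ hε.ne'] at h3
    have h4 := le_abs_self Q
    linarith
  · have h1 : (⌈Q ^ 2⌉₊ : ℤ) < |s| := by
      rw [Finset.mem_Icc, not_and_or] at hs
      rcases hs with hs | hs
      · have := neg_abs_le s
        omega
      · have := le_abs_self s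
        omega
    have h2 : Q ^ 2 ≤ |(s : ℝ)| := by
      have h3 := Nat.le_ceil (Q ^ 2)
      have h4 : ((⌈Q ^ 2⌉₊ : ℤ) : ℝ) < ((|s| : ℤ) : ℝ) := by exact_mod_cast h1
      push_cast at h4
      linarith
    have h3 : |Q| ≤ Real.sqrt |(s : ℝ)| := Real.abs_le_sqrt h2
    have h4 := le_abs_self Q
    have h5 : 0 ≤ |Q| / ε * (1 - f (l + 1) (0, s)) := by positivity
    linarith

/-- The main part of the Lyapunov function. -/
noncomputable def Uf (M C2 : ℝ) (l : ℕ) (p : ℕ × ℤ) : ℝ :=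
  M * A l p + 30 * (r p + g ^ p.1 * w p + C2 * J p.1) + p.1

/-- The correction. -/
noncomputable def Xf (p : ℕ × ℤ) : ℝ := (w p : ℝ) - Theta p.1

/-- The Lyapunov function. -/
noncomputable def Wf (a δ M C2 : ℝ) (l : ℕ) (p : ℕ × ℤ) : ℝ := a * Uf M C2 l p + δ * Xf p

theorem comb1 {a δ u u1 u2 x x1 x2 : ℝ} (ha : 0 ≤ a) (hδ : 0 ≤ δ)
    (hu : (u1 + u2) / 2 ≤ u) (hx : (x1 + x2) / 2 ≤ x - 1) :
    ((a * u1 + δ * x1) + (a * u2 + δ * x2)) / 2 ≤ a * u + δ * x - δ := by
  have h1 := mul_le_mul_of_nonneg_left hu ha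
  have h2 := mul_le_mul_of_nonneg_left hx hδ
  linarith

theorem comb2 {a δ u u1 u2 x x1 x2 : ℝ} (ha : 0 ≤ a) (hδ : 0 ≤ δ) (hδa : δ ≤ a)
    (hu : (u1 + u2) / 2 ≤ u - 3) (hx : (x1 + x2) / 2 ≤ x + 2) :
    ((a * u1 + δ * x1) + (a * u2 + δ * x2)) / 2 ≤ a * u + δ * x - δ := by
  have h1 := mul_le_mul_of_nonneg_left hu ha
  have h2 := mul_le_mul_of_nonneg_left hx hδ
  linarith

theorem comb3 {a δ u u1 u2 x x1 x2 : ℝ} (ha : 0 ≤ a) (hδ : 0 ≤ δ) (hδa : δ ≤ a)
    (hu : (u1 + u2) / 2 ≤ u - 1) (hx : (x1 + x2) / 2 ≤ x) :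
    ((a * u1 + δ * x1) + (a * u2 + δ * x2)) / 2 ≤ a * u + δ * x - δ := by
  have h1 := mul_le_mul_of_nonneg_left hu ha
  have h2 := mul_le_mul_of_nonneg_left hx hδ
  linarith

theorem A_step {M : ℝ} (hM : 0 ≤ M) {l : ℕ} {p : ℕ × ℤ} (hp : p ≠ (0, 0)) :
    M * A l (st false p) + M * A l (st true p) ≤ 2 * (M * A l p) := by
  have h1 := A_mean (l := l) hp
  have h2 := f_le_one (l + 1) p
  have h3 : M * (A l (st false p) + A l (st true p)) ≤ M * (2 * A l p) :=
    mul_le_mul_of_nonneg_left (by linarith) hM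
  linarith

theorem drift (hR : RRStatement) (hW : WWStatement) {M C2 : ℝ} {l : ℕ} (hM : 0 ≤ M)
    (hC2 : ∀ D : ℕ, (D : ℝ) * (D + 1) * (D + 2) * (3 * D + 3) * g ^ D ≤ C2)
    (hl : ∀ s : ℤ, 30 * (4 / 10 + 2 * g + C2 / 2) + 4 ≤
      M * (1 - f (l + 1) (0, s)) + 93 / 10 * Real.sqrt |(s : ℝ)|)
    {a δ : ℝ} (hδ : 0 ≤ δ) (hδa : δ ≤ a) {p : ℕ × ℤ} (hp : p ≠ (0, 0)) :
    (Wf a δ M C2 l (st false p) + Wf a δ M C2 l (st true p)) / 2 ≤ Wf a δ M C2 l p - δ := by
  have ha : 0 ≤ a := hδ.trans hδa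
  obtain ⟨hW1, hW2, hW3⟩ := hW
  obtain ⟨hR1, hR2, hR3, hR4⟩ := hR
  obtain ⟨D, s⟩ := p
  have hA := A_step (l := l) hM hp
  by_cases hs : s % 2 = 0
  · rcases Nat.eq_zero_or_pos D with hD | hD
    · -- even, `D = 0`
      subst hD
      have hs0 : s ≠ 0 := fun h => hp (by rw [h])
      have hr := hR2 s hs
      have hr0 : 11 / 10 ≤ r (0, s) := by
        unfold r
        simp only [pow_zero, one_mul]
        refine Real.le_sqrt_of_sq_le ?_
        have h1 : (2 : ℤ) ≤ |s| := by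
          rcases abs_cases s with ⟨h, _⟩ | ⟨h, _⟩ <;> omega
        have h2 : (2 : ℝ) ≤ |(s : ℝ)| := by exact_mod_cast h1
        linarith
      rw [st_ef hs, st_et hs] at hA hr ⊢
      refine comb3 ha hδ hδa ?_ ?_
      · simp only [Uf, w_zero, J_zero, pow_zero, Nat.cast_zero, mul_zero, add_zero]
        linarith
      · simp only [Xf, w_zero]
        linarith
    · -- even, `D ≥ 1`
      have hr := hR1 D s hs
      have hw := hW3 D s hD hs
      rw [st_ef hs, st_et hs] at hA hr hw ⊢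
      have hwr : (w (D, s / 2) : ℝ) + w (D, (3 * s + 3 ^ D - 1) / 2) + 2 = 2 * w (D, s) := by
        exact_mod_cast hw
      refine comb1 ha hδ ?_ ?_
      · simp only [Uf]
        have h1 : g ^ D * (w (D, s / 2) : ℝ) + g ^ D * w (D, (3 * s + 3 ^ D - 1) / 2) =
            g ^ D * (2 * w (D, s)) - 2 * g ^ D := by
          rw [← hwr]; ring
        have h2 := r_nonneg (D, s)
        have h3 := g_pow_pos D
        linarith
      · simp only [Xf]
        linarith
  · rcases Nat.eq_zero_or_pos D with hD | hD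
    · -- odd, `D = 0`
      subst hD
      have hr := hR4 s hs
      have hA' := A_mean (l := l) hp
      have hl' := hl s
      have hw0 : (w (0, s) : ℝ) = 0 := by rw [w_zero]; norm_num
      rw [st_of hs, st_oz hs] at hA hr hA' ⊢
      rw [Nat.zero_add] at hA hr hA' ⊢
      have hw1 : (w (1, (3 * s - 1) / 2) : ℝ) ≤ 2 := by
        have := hW1 1 ((3 * s - 1) / 2)
        rw [wm_one] at this
        exact_mod_cast this
      have hw2 : (w (1, -((3 * s + 1) / 2)) : ℝ) ≤ 2 := by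
        have := hW1 1 (-((3 * s + 1) / 2))
        rw [wm_one] at this
        exact_mod_cast this
      have hr0 : r (0, s) = Real.sqrt |(s : ℝ)| := by simp [r]
      refine comb2 ha hδ hδa ?_ ?_
      · simp only [Uf, hw0, J_zero, J_one, pow_zero, pow_one, Nat.cast_zero, Nat.cast_one,
          mul_zero, add_zero]
        have h1 : g * (w (1, (3 * s - 1) / 2) : ℝ) ≤ g * 2 :=
          mul_le_mul_of_nonneg_left hw1 g_pos.le
        have h2 : g * (w (1, -((3 * s + 1) / 2)) : ℝ) ≤ g * 2 :=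
          mul_le_mul_of_nonneg_left hw2 g_pos.le
        have h3 : M * (A l (1, (3 * s - 1) / 2) + A l (1, -((3 * s + 1) / 2))) =
            2 * (M * A l (0, s)) - 2 * (M * (1 - f (l + 1) (0, s))) := by
          have : A l (1, (3 * s - 1) / 2) + A l (1, -((3 * s + 1) / 2)) =
              2 * (A l (0, s) - (1 - f (l + 1) (0, s))) := by linarith
          rw [this]; ring
        rw [hr0] at hr ⊢
        linarith
      · simp only [Xf, hw0, Theta_zero, Theta_one]
        linarith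
    · -- odd, `D ≥ 1`
      obtain ⟨E, rfl⟩ : ∃ E, D = E + 1 := ⟨D - 1, by omega⟩
      have hr := hR3 (E + 1) s hD hs
      have hw0 : (w (E + 1, s) : ℝ) = 0 := by rw [hW2 _ _ hs]; norm_num
      rw [st_of hs, st_ot hs] at hA hr ⊢
      rw [show E + 1 + 1 = E + 2 from rfl] at hA hr ⊢
      have hw1 : (w (E + 2, (3 * s - 1) / 2) : ℝ) ≤ wm (E + 2) := by exact_mod_cast hW1 _ _
      have hw2 : (w (E, (s + 3 ^ E) / 2) : ℝ) ≤ wm E := by exact_mod_cast hW1 _ _
      have hm1 : (wm (E + 2) : ℝ) ≤ 2 * (E + 2) + 1 := by exact_mod_cast wm_le (E + 2)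
      have hm2 : (wm E : ℝ) ≤ 2 * E + 1 := by exact_mod_cast wm_le E
      have hJ := J_second (D := E + 1) (by omega)
      have hT := Theta_second (D := E + 1) (by omega)
      rw [show E + 1 + 1 = E + 2 from rfl, Nat.add_sub_cancel] at hJ hT
      rw [mu, show E + 1 + 1 = E + 2 from rfl, Nat.add_sub_cancel] at hT
      refine comb1 ha hδ ?_ ?_
      · simp only [Uf, hw0]
        have hG := g_pow_pos E
        have e1 : g ^ (E + 2) = 927369 / 1000000 * g ^ E := by
          rw [pow_add]; unfold g; ring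
        have e2 : g ^ (E + 1) = 963 / 1000 * g ^ E := by
          rw [pow_succ]; unfold g; ring
        have h1 : g ^ (E + 2) * (w (E + 2, (3 * s - 1) / 2) : ℝ) ≤
            g ^ (E + 2) * (2 * (E + 2) + 1) :=
          mul_le_mul_of_nonneg_left (hw1.trans hm1) (g_pow_pos _).le
        have h2 : g ^ E * (w (E, (s + 3 ^ E) / 2) : ℝ) ≤ g ^ E * (2 * E + 1) :=
          mul_le_mul_of_nonneg_left (hw2.trans hm2) (g_pow_pos _).le
        have hC := hC2 (E + 1)
        have hP0 : (0 : ℝ) < ((E + 1 : ℕ) : ℝ) * (((E + 1 : ℕ) : ℝ) + 1) *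
            (((E + 1 : ℕ) : ℝ) + 2) := by positivity
        have h3 : C2 * (J (E + 2) + J E) ≤
            2 * (C2 * J (E + 1)) - 2 * ((3 * ((E + 1 : ℕ) : ℝ) + 3) * g ^ (E + 1)) := by
          have h4 : (3 * ((E + 1 : ℕ) : ℝ) + 3) * g ^ (E + 1) ≤
              C2 * (1 / (((E + 1 : ℕ) : ℝ) * (((E + 1 : ℕ) : ℝ) + 1) *
                (((E + 1 : ℕ) : ℝ) + 2))) := by
            rw [mul_one_div, le_div_iff₀ hP0]
            refine le_trans (le_of_eq ?_) hC
            ring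
          have h5 : J (E + 2) + J E = 2 * J (E + 1) -
              2 * (1 / (((E + 1 : ℕ) : ℝ) * (((E + 1 : ℕ) : ℝ) + 1) *
                (((E + 1 : ℕ) : ℝ) + 2))) := by
            rw [neg_div] at hJ
            linarith
          rw [h5, mul_sub]
          linarith
        have h6 := r_nonneg (E + 1, s)
        have hE : (0 : ℝ) ≤ E := Nat.cast_nonneg E
        have hGE : 0 ≤ g ^ E * E := by positivity
        rw [e1] at h1
        rw [e2] at h3 hr
        rw [e1]
        push_cast at h3 ⊢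
        nlinarith
      · simp only [Xf, hw0]
        linarith

theorem J_nonneg' {C2 : ℝ} (h : 0 ≤ C2) (D : ℕ) : 0 ≤ C2 * J D := mul_nonneg h (J_nonneg D)

theorem Wf_ge {M C2 : ℝ} {l : ℕ} (hM : 0 ≤ M) (h2 : 0 ≤ C2) {q : ℝ} (hq : 0 < q) (p : ℕ × ℤ)
    (hp : (p.1 : ℝ) ≤ q / 4) : 8 * p.1 / q ≤ Wf (12 / q) (1 / q ^ 2) M C2 l p := by
  unfold Wf Uf Xf
  have h3 : 0 ≤ M * A l p := mul_nonneg hM (A_nonneg l p)
  have h4 : 0 ≤ g ^ p.1 * (w p : ℝ) := mul_nonneg (g_pow_pos _).le (Nat.cast_nonneg _)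
  have h5 := r_nonneg p
  have h6 := J_nonneg' h2 p.1
  have h7 := Theta_le p.1
  have h8 : (0 : ℝ) ≤ w p := Nat.cast_nonneg _
  have hD : (0 : ℝ) ≤ p.1 := Nat.cast_nonneg _
  have h9 : 12 / q * p.1 ≤ 12 / q * (M * A l p + 30 * (r p + g ^ p.1 * w p + C2 * J p.1) + p.1) :=
    mul_le_mul_of_nonneg_left (by linarith) (by positivity)
  have h10 : 1 / q ^ 2 * (-(16 * (p.1 : ℝ) ^ 2)) ≤ 1 / q ^ 2 * ((w p : ℝ) - Theta p.1) :=
    mul_le_mul_of_nonneg_left (by linarith) (by positivity)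
  have h11 : 8 * p.1 / q ≤ 12 / q * p.1 + 1 / q ^ 2 * (-(16 * (p.1 : ℝ) ^ 2)) := by
    have h12 : 12 / q * p.1 + 1 / q ^ 2 * (-(16 * (p.1 : ℝ) ^ 2)) - 8 * p.1 / q =
        (p.1 : ℝ) * (4 * q - 16 * p.1) / q ^ 2 := by
      field_simp
      ring
    have h13 : 0 ≤ (p.1 : ℝ) * (4 * q - 16 * p.1) / q ^ 2 :=
      div_nonneg (mul_nonneg hD (by linarith)) (by positivity)
    linarith
  linarith

theorem st_fst_le (b : Bool) (p : ℕ × ℤ) : (st b p).1 ≤ p.1 + 1 := by
  unfold st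
  split_ifs <;> simp <;> omega

end LY

open LY

theorem ly (hR : RRStatement) (hW : WWStatement) (hP : PPStatement) : LYStatement := by
  obtain ⟨C2, hC20, hC2⟩ := exists_C2 g_pos.le (by unfold g; norm_num)
  obtain ⟨l, M, hM, hl⟩ := exists_M hP (30 * (4 / 10 + 2 * g + C2 / 2) + 4)
  have hMl : 0 ≤ M * (l + 1) := by positivity
  refine ⟨12 * (M * (l + 1) + 30 * C2 + 63), by positivity, fun t ht D s => ?_⟩
  set C' := M * (l + 1) + 30 * C2 + 63 with hC'
  have hC'63 : 63 ≤ C' := by linarith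
  have htr : (1 : ℝ) ≤ t := by exact_mod_cast ht
  set q := Real.sqrt t with hq
  have hq2 : q ^ 2 = t := Real.sq_sqrt (by linarith)
  have hq1 : 1 ≤ q := Real.one_le_sqrt.2 htr
  have hq0 : 0 < q := by linarith
  have hr0 := r_nonneg (D, s)
  have hD0 : (0 : ℝ) ≤ D := Nat.cast_nonneg D
  rw [le_div_iff₀ hq0]
  have hf1 := f_le_one t (D, s)
  have hf0 := f_nonneg t (D, s)
  rcases lt_or_ge q 12 with hq12 | hq12
  · have h1 : f t (D, s) * q ≤ 1 * 12 := mul_le_mul hf1 hq12.le hq0.le zero_le_one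
    have h2 : 0 ≤ C' * (D + r (D, s)) := by positivity
    nlinarith
  -- the truncation
  set D1 := ⌈q / 6⌉₊ with hD1
  have hD1a : q / 6 ≤ D1 := Nat.le_ceil _
  have hD1b : (D1 : ℝ) ≤ q / 4 := by
    have := Nat.ceil_lt_add_one (a := q / 6) (by positivity)
    linarith
  set W : ℕ × ℤ → ℝ := Wf (12 / q) (1 / q ^ 2) M C2 l with hWdef
  set V : ℕ × ℤ → ℝ := fun p => if p.1 < D1 then W p else 1 with hV
  have hWV : ∀ p : ℕ × ℤ, p.1 ≤ D1 → V p ≤ W p := by
    intro p hp
    simp only [hV]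
    split_ifs with h
    · exact le_rfl
    · have hpD : p.1 = D1 := le_antisymm hp (not_lt.1 h)
      have h1 := Wf_ge (l := l) hM hC20 hq0 p (by rw [hpD]; exact hD1b)
      rw [hpD] at h1
      refine le_trans ?_ h1
      rw [le_div_iff₀ hq0]
      linarith
  have hV0 : ∀ p : ℕ × ℤ, 0 ≤ V p := by
    intro p
    simp only [hV]
    split_ifs with h
    · have h1 : (p.1 : ℝ) ≤ D1 := by exact_mod_cast h.le
      refine le_trans ?_ (Wf_ge (l := l) hM hC20 hq0 p (h1.trans hD1b))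
      positivity
    · exact zero_le_one
  have hδa : 1 / q ^ 2 ≤ 12 / q := by
    rw [div_le_div_iff₀ (by positivity) hq0]
    nlinarith
  have hind : ∀ n : ℕ, n ≤ t → ∀ p : ℕ × ℤ, 1 / q ^ 2 * (n * f n p) ≤ V p := by
    intro n
    induction n with
    | zero =>
      intro _ p
      rw [Nat.cast_zero, zero_mul, mul_zero]
      exact hV0 p
    | succ n ih =>
      intro hn p
      have ih' := ih (by omega)
      by_cases hp : p = (0, 0)
      · subst hp
        rw [f_zero_state, mul_zero, mul_zero]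
        exact hV0 _
      by_cases hpD : p.1 < D1
      · have hVp : V p = W p := if_pos hpD
        rw [hVp, f_succ hp]
        have h1 := ih' (st false p)
        have h2 := ih' (st true p)
        have h3 := hWV (st false p) ((st_fst_le _ _).trans hpD)
        have h4 := hWV (st true p) ((st_fst_le _ _).trans hpD)
        have h5 := drift hR hW hM hC2 hl (by positivity) hδa hp
        have h6 := f_le_one n (st false p)
        have h7 := f_le_one n (st true p)
        have h8 : 1 / q ^ 2 * ((f n (st false p) + f n (st true p)) / 2) ≤ 1 / q ^ 2 * 1 :=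
          mul_le_mul_of_nonneg_left (by linarith) (by positivity)
        have h9 : 1 / q ^ 2 * (((n + 1 : ℕ) : ℝ) * ((f n (st false p) + f n (st true p)) / 2)) =
            (1 / q ^ 2 * (n * f n (st false p)) + 1 / q ^ 2 * (n * f n (st true p))) / 2 +
              1 / q ^ 2 * ((f n (st false p) + f n (st true p)) / 2) := by
          push_cast
          ring
        rw [h9]
        linarith
      · have hVp : V p = 1 := if_neg hpD
        rw [hVp]
        have h1 : ((n + 1 : ℕ) : ℝ) * f (n + 1) p ≤ t * 1 :=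
          mul_le_mul (by exact_mod_cast hn) (f_le_one _ _) (f_nonneg _ _) (by positivity)
        calc 1 / q ^ 2 * (((n + 1 : ℕ) : ℝ) * f (n + 1) p) ≤ 1 / q ^ 2 * (t * 1) :=
              mul_le_mul_of_nonneg_left h1 (by positivity)
          _ = 1 := by rw [hq2, mul_one, one_div, inv_mul_cancel₀ (by linarith)]
  have hfin := hind t le_rfl (D, s)
  rw [hq2, ← mul_assoc, one_div, inv_mul_cancel₀ (by linarith), one_mul] at hfin
  by_cases hDD : D < D1
  · have hVp : V (D, s) = W (D, s) := if_pos hDD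
    rw [hVp] at hfin
    have hwle : (w (D, s) : ℝ) ≤ 2 * D + 1 := by
      have := (hW.1 D s).trans (wm_le D)
      exact_mod_cast this
    have hw0 : (0 : ℝ) ≤ w (D, s) := Nat.cast_nonneg _
    have hTh := Theta_nonneg D
    have h1 : 1 / q ^ 2 * Xf (D, s) ≤ 12 / q * (2 * D + 1) := by
      calc 1 / q ^ 2 * Xf (D, s) ≤ 1 / q ^ 2 * (2 * D + 1) := by
            refine mul_le_mul_of_nonneg_left ?_ (by positivity)
            simp only [Xf]
            linarith
        _ ≤ 12 / q * (2 * D + 1) := mul_le_mul_of_nonneg_right hδa (by positivity)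
    have h2 : Uf M C2 l (D, s) ≤ M * (l + 1) + 30 * (r (D, s) + (2 * D + 1) + C2) + D := by
      simp only [Uf]
      have h3 : M * A l (D, s) ≤ M * (l + 1) := mul_le_mul_of_nonneg_left (A_le _ _) hM
      have h4 : g ^ D * (w (D, s) : ℝ) ≤ 1 * (2 * D + 1) :=
        mul_le_mul (g_pow_le_one D) hwle hw0 zero_le_one
      have h5 : C2 * J D ≤ C2 * 1 := mul_le_mul_of_nonneg_left (J_le_one D) hC20
      linarith
    have h3 : Uf M C2 l (D, s) + (2 * D + 1) ≤ C' * (1 + D + r (D, s)) := by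
      have h4 : 0 ≤ (C' - 63) * (D : ℝ) := mul_nonneg (by linarith) hD0
      have h5 : 0 ≤ (C' - 30) * r (D, s) := mul_nonneg (by linarith) hr0
      linarith
    have h4 : W (D, s) ≤ 12 / q * (C' * (1 + D + r (D, s))) := by
      calc W (D, s) = 12 / q * Uf M C2 l (D, s) + 1 / q ^ 2 * Xf (D, s) := rfl
        _ ≤ 12 / q * Uf M C2 l (D, s) + 12 / q * (2 * D + 1) := by linarith
        _ = 12 / q * (Uf M C2 l (D, s) + (2 * D + 1)) := by ring
        _ ≤ 12 / q * (C' * (1 + D + r (D, s))) :=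
            mul_le_mul_of_nonneg_left h3 (by positivity)
    calc f t (D, s) * q ≤ (12 / q * (C' * (1 + D + r (D, s)))) * q :=
          mul_le_mul_of_nonneg_right (hfin.trans h4) hq0.le
      _ = 12 * C' * (1 + D + r (D, s)) := by field_simp
  · have h1 : (D1 : ℝ) ≤ D := by exact_mod_cast not_lt.1 hDD
    have h2 : f t (D, s) * q ≤ 1 * (6 * D) := mul_le_mul hf1 (by linarith) hq0.le zero_le_one
    have h3 : 0 ≤ C' * (1 + r (D, s)) := by positivity
    have h4 : 0 ≤ (C' - 63) * (D : ℝ) := mul_nonneg (by linarith) hD0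
    nlinarith

end Pool.Agent.Lib.MP_edb5be_nt.CO
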