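import Pool.Agent.Lib.MP_edb5be_nt.CO.LowUni
import Pool.Agent.Lib.MP_edb5be_nt.CO.Core

/-!
# The law of the meeting time, in every interval

`LawUpStatement`, `LawLowStatement`: the number of the integers of an interval of `N ≥ 2 ^ τ`
integers whose trajectory does not meet the one of `2 ^ i * 3 ^ j * n + b`, with the delay `i`,
within `τ` steps.
-/

set_option autoImplicit false

namespace Pool.Agent.Lib.MP_edb5be_nt.CO

open Filter Topology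

/-- The `n` of the interval `[A, A + N)` for which `n` and `2 ^ i * 3 ^ j * n + b` do not meet, with
the delay `i`, within `τ` steps. -/
def fails (A : ℤ) (N τ i j : ℕ) (b : ℤ) : Set ℤ :=
  {n : ℤ | A ≤ n ∧ n < A + N ∧ ∀ t ≤ τ, T^[t] n ≠ T^[t + i] (2 ^ i * 3 ^ j * n + b)}

def LawUpStatement : Prop := ∃ C : ℝ, 0 < C ∧
  ∀ (i j : ℕ) (b A : ℤ) (N τ : ℕ), 1 ≤ τ → 2 ^ τ ≤ N →
    ((fails A N τ i j b).ncard : ℝ) ≤
      C * N * Real.sqrt ((((i : ℝ) + j) ^ 2 + Real.log (2 + |(b : ℝ)|)) / τ)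

def LawLowStatement : Prop := ∃ c : ℝ, ∃ τ₀ : ℕ, 0 < c ∧ 1 ≤ τ₀ ∧
  ∀ (i j m : ℕ) (a A : ℤ) (N τ : ℕ), (j ≠ 0 ∨ m ≠ 0 ∨ a ≠ 0) → τ₀ ≤ τ → 2 ^ τ ≤ N →
    (∀ b ∈ Finset.Ico a (a + 2 ^ m), ((3 / 2 : ℝ) ^ i * |(b : ℝ)|) ^ 2 ≤ 2 ^ τ) →
      c * N * min 1 (Real.sqrt ((1 + ((min i m : ℕ) + (j : ℝ)) ^ 2 + m) / τ)) * 2 ^ m ≤
        ∑ b ∈ Finset.Ico a (a + 2 ^ m), ((fails A N τ i j b).ncard : ℝ)

theorem fails_eq (A : ℤ) (N τ i j : ℕ) (b : ℤ) : fails A N τ i j b =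
    {n : ℤ | A ≤ n ∧ n < A + N ∧
      ∀ t ≤ τ, T^[t] n ≠ T^[t] (3 ^ (j + od i b) * n + T^[i] b)} := by
  ext n
  have h : ∀ t : ℕ, T^[t + i] (2 ^ i * 3 ^ j * n + b) =
      T^[t] (3 ^ (j + od i b) * n + T^[i] b) := by
    intro t
    rw [Function.iterate_add_apply]
    have e : (2 : ℤ) ^ i * 3 ^ j * n + b = 2 ^ i * (3 ^ j * n) + b := by ring
    rw [e, iter_od, pow_add]
    congr 1
    ring
  simp only [fails, Set.mem_ofPred_eq, h]

/-! ## The upper bound -/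

theorem law_up (hct : CTStatement) (hph : PHStatement) : LawUpStatement := by
  obtain ⟨C, hC, hph⟩ := hph
  refine ⟨4 * C, by positivity, fun i j b A N τ hτ hN => ?_⟩
  rw [fails_eq]
  set J : ℕ := j + od i b with hJ
  set b' : ℤ := T^[i] b with hb'
  have hτR : (1 : ℝ) ≤ τ := by exact_mod_cast hτ
  have hτ0 : (0 : ℝ) < τ := by linarith
  have hNR : (2 : ℝ) ^ τ ≤ N := by exact_mod_cast hN
  have hN0 : (0 : ℝ) ≤ N := Nat.cast_nonneg N
  have hsub : {n : ℤ | A ≤ n ∧ n < A + N ∧ ∀ t ≤ τ, T^[t] n ≠ T^[t] (3 ^ J * n + b')} ⊆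
      {x : ℤ | A ≤ x ∧ x < A + N ∧ nm τ (J, -b') x} := by
    rintro n ⟨h1, h2, h3⟩
    refine ⟨h1, h2, ?_⟩
    by_contra hn
    obtain ⟨t, ht, hm⟩ := hct.2 τ J (-b') n hn
    apply h3 t ht
    have e : (3 : ℤ) ^ J * n - -b' = 3 ^ J * n + b' := by ring
    rwa [e] at hm
  have hfin : {x : ℤ | A ≤ x ∧ x < A + N ∧ nm τ (J, -b') x}.Finite := by
    apply (Set.finite_Ico A (A + N)).subset
    rintro x ⟨h1, h2, -⟩
    exact ⟨h1, h2⟩
  have h1 := Set.ncard_le_ncard hsub hfin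
  have h2 := count_interval hct τ (J, -b') A (A + N) (by linarith)
  have h3 : (((A + (N : ℤ)) - A : ℤ) : ℝ) = N := by push_cast; ring
  rw [h3] at h2
  have hf0 := f_nonneg τ (J, -b')
  have h4 : (({n : ℤ | A ≤ n ∧ n < A + N ∧ ∀ t ≤ τ,
      T^[t] n ≠ T^[t] (3 ^ J * n + b')}.ncard : ℕ) : ℝ) ≤ 2 * N * f τ (J, -b') := by
    calc _ ≤ (({x : ℤ | A ≤ x ∧ x < A + N ∧ nm τ (J, -b') x}.ncard : ℕ) : ℝ) := by
          exact_mod_cast h1
      _ ≤ (N + 2 ^ τ) * f τ (J, -b') := h2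
      _ ≤ 2 * N * f τ (J, -b') := by
        apply mul_le_mul_of_nonneg_right _ hf0
        linarith
  have h5 := hph τ hτ J (-b')
  -- the size of the parameters
  have hbn : 2 + |((-b' : ℤ) : ℝ)| = 2 + |(b' : ℝ)| := by
    push_cast
    rw [abs_neg]
  rw [hbn] at h5
  have hb : |((T^[i] b : ℤ) : ℝ)| + 1 ≤ 2 ^ i * (|(b : ℝ)| + 1) := by
    have := abs_iter_le i b
    exact_mod_cast this
  have h2i : (1 : ℝ) ≤ 2 ^ i := one_le_pow₀ (by norm_num)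
  have hlog : Real.log (2 + |(b' : ℝ)|) ≤ (i : ℝ) ^ 2 + Real.log (2 + |(b : ℝ)|) := by
    have h3 : 2 + |(b' : ℝ)| ≤ 2 ^ i * (2 + |(b : ℝ)|) := by
      have := abs_nonneg (b : ℝ)
      nlinarith
    have h4 := Real.log_le_log (by have := abs_nonneg (b' : ℝ); linarith) h3
    rw [Real.log_mul (by positivity) (by have := abs_nonneg (b : ℝ); positivity),
      Real.log_pow] at h4
    have h5 : (i : ℝ) * Real.log 2 ≤ (i : ℝ) ^ 2 := by
      have h6 : Real.log 2 ≤ 1 := by have := Real.log_two_lt_d9; linarith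
      rcases Nat.eq_zero_or_pos i with rfl | hi
      · simp
      · have h7 : (1 : ℝ) ≤ i := by exact_mod_cast hi
        nlinarith
    linarith
  have hod : ((od i b : ℕ) : ℝ) ≤ i := by exact_mod_cast od_le i b
  have hod0 : (0 : ℝ) ≤ ((od i b : ℕ) : ℝ) := Nat.cast_nonneg _
  have hj0 : (0 : ℝ) ≤ j := Nat.cast_nonneg j
  have hi0 : (0 : ℝ) ≤ i := Nat.cast_nonneg i
  have hlogb : 1 / 2 ≤ Real.log (2 + |(b : ℝ)|) :=
    le_trans half_le_log_two (log_two_le_log b)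
  have hpar : (1 + (J : ℝ) ^ 2 + Real.log (2 + |(b' : ℝ)|)) / τ ≤
      2 ^ 2 * ((((i : ℝ) + j) ^ 2 + Real.log (2 + |(b : ℝ)|)) / τ) := by
    rw [← mul_div_assoc]
    apply div_le_div_of_nonneg_right _ hτ0.le
    rw [hJ]
    push_cast
    nlinarith [mul_nonneg hi0 hj0, mul_nonneg hj0 hod0, mul_nonneg hi0 hod0, sq_nonneg (i : ℝ),
      sq_nonneg (j : ℝ)]
  have hs := Real.sqrt_le_sqrt hpar
  rw [Real.sqrt_mul (by norm_num), Real.sqrt_sq (by norm_num)] at hs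
  have h6 : f τ (J, -b') ≤
      C * (2 * Real.sqrt ((((i : ℝ) + j) ^ 2 + Real.log (2 + |(b : ℝ)|)) / τ)) :=
    h5.trans (mul_le_mul_of_nonneg_left hs hC.le)
  calc _ ≤ 2 * N * f τ (J, -b') := h4
    _ ≤ 2 * N * (C * (2 * Real.sqrt ((((i : ℝ) + j) ^ 2 + Real.log (2 + |(b : ℝ)|)) / τ))) :=
      mul_le_mul_of_nonneg_left h6 (by positivity)
    _ = _ := by ring

/-! ## The lower bound -/

open Classical in
/-- The elements of a block of `2 ^ t` integers whose pair does not meet within `t` steps. -/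
theorem low_block_gen (t j : ℕ) (b a : ℤ) (Y Z : ℝ) (hY : 0 < Y) (hb : 3 * |(b : ℝ)| ≤ Y)
    (hsm : (((Finset.Ico a (a + 2 ^ t)).filter (fun n : ℤ => |(n : ℝ)| ≤ Y)).card : ℝ) ≤ Z) :
    2 ^ t * f t (j, -b) - Z - 18 * 3 ^ t / Y ≤
      (((Finset.Ico a (a + 2 ^ t)).filter
        (fun n : ℤ => ∀ i ≤ t, T^[i] n ≠ T^[i] (3 ^ j * n + b))).card : ℝ) := by
  set I := Finset.Ico a (a + 2 ^ t) with hI
  have h1 := count_Ico t (j, -b) a
  have h2 := acc_count t j b Y hY hb I (injMod_Ico t a)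
  set G := I.filter (fun n : ℤ => ∀ i ≤ t, T^[i] n ≠ T^[i] (3 ^ j * n + b)) with hG
  set B1 := I.filter (fun n : ℤ => |(n : ℝ)| ≤ Y) with hB1
  set B2 := I.filter (fun n : ℤ => Y < |(n : ℝ)| ∧ ∃ i ≤ t, T^[i] n = T^[i] (3 ^ j * n + b) ∧
      od i n ≠ od i (3 ^ j * n + b) + j) with hB2
  have hsub : sel nm t (j, -b) I ⊆ G ∪ (B1 ∪ B2) := by
    intro n hn
    obtain ⟨hnI, hnm⟩ := mem_sel.mp hn
    rw [Finset.mem_union, Finset.mem_union]
    by_cases hg : ∀ i ≤ t, T^[i] n ≠ T^[i] (3 ^ j * n + b)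
    · left
      rw [hG, Finset.mem_filter]
      exact ⟨hnI, hg⟩
    · right
      by_cases hy : |(n : ℝ)| ≤ Y
      · left
        rw [hB1, Finset.mem_filter]
        exact ⟨hnI, hy⟩
      · right
        push Not at hg
        obtain ⟨i, hi, hm⟩ := hg
        rw [hB2, Finset.mem_filter]
        refine ⟨hnI, not_le.mp hy, i, hi, hm, ?_⟩
        have e1 : 3 ^ j * n - -b = 3 ^ j * n + b := by ring
        have e2 := nm_no_meet i t j (-b) n hi hnm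
        rw [e1] at e2
        exact e2 hm
  have h3 : (sel nm t (j, -b) I).card ≤ G.card + (B1.card + B2.card) :=
    le_trans (Finset.card_le_card hsub) (le_trans (Finset.card_union_le _ _)
      (Nat.add_le_add_left (Finset.card_union_le _ _) _))
  have h4 : ((sel nm t (j, -b) I).card : ℝ) ≤ G.card + (B1.card + B2.card) := by
    exact_mod_cast h3
  rw [h1] at h4
  linarith

theorem small_gen (I : Finset ℤ) (Y : ℝ) (hY : 0 ≤ Y) :
    ((I.filter (fun n : ℤ => |(n : ℝ)| ≤ Y)).card : ℝ) ≤ 2 * Y + 1 := by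
  have h1 : (I.filter (fun n : ℤ => |(n : ℝ)| ≤ Y)) ⊆ Finset.Icc (-⌊Y⌋ : ℤ) ⌊Y⌋ := by
    intro n hn
    rw [Finset.mem_filter] at hn
    have h2 := abs_le.mp hn.2
    have h3 : n ≤ ⌊Y⌋ := Int.le_floor.mpr h2.2
    have h4 : -n ≤ ⌊Y⌋ := by
      apply Int.le_floor.mpr
      push_cast
      linarith
    rw [Finset.mem_Icc]
    constructor <;> omega
  have h2 := Finset.card_le_card h1
  have h0 : 0 ≤ ⌊Y⌋ := Int.floor_nonneg.mpr hY
  rw [Int.card_Icc] at h2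
  have h3 : (((⌊Y⌋ + 1 - -⌊Y⌋).toNat : ℕ) : ℤ) = 2 * ⌊Y⌋ + 1 := by
    rw [Int.toNat_of_nonneg (by omega)]
    ring
  have h4 : (((⌊Y⌋ + 1 - -⌊Y⌋).toNat : ℕ) : ℝ) = 2 * (⌊Y⌋ : ℝ) + 1 := by
    have h6 : ((((⌊Y⌋ + 1 - -⌊Y⌋).toNat : ℕ) : ℤ) : ℝ) = ((2 * ⌊Y⌋ + 1 : ℤ) : ℝ) := by rw [h3]
    rw [Int.cast_natCast] at h6
    rw [h6]
    push_cast
    ring
  have h5 : ((⌊Y⌋ : ℤ) : ℝ) ≤ Y := Int.floor_le Y
  calc _ ≤ (((⌊Y⌋ + 1 - -⌊Y⌋).toNat : ℕ) : ℝ) := by exact_mod_cast h2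
    _ = 2 * (⌊Y⌋ : ℝ) + 1 := h4
    _ ≤ _ := by linarith

theorem blocks_le (P : ℤ → Prop) [DecidablePred P] (A : ℤ) (τ : ℕ) (g : ℝ)
    (h : ∀ a : ℤ, g ≤ (((Finset.Ico a (a + 2 ^ τ)).filter P).card : ℝ)) (K : ℕ) :
    K * g ≤ (((Finset.Ico A (A + K * 2 ^ τ)).filter P).card : ℝ) := by
  induction K with
  | zero => simp
  | succ K ih =>
    have hp : (0 : ℤ) < 2 ^ τ := by positivity
    have hK : (0 : ℤ) ≤ K * 2 ^ τ := by positivity
    have h1 : (Finset.Ico A (A + ((K + 1 : ℕ) : ℤ) * 2 ^ τ)).filter P =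
        (Finset.Ico A (A + K * 2 ^ τ)).filter P ∪
          (Finset.Ico (A + K * 2 ^ τ) (A + K * 2 ^ τ + 2 ^ τ)).filter P := by
      rw [← Finset.filter_union, Finset.Ico_union_Ico_eq_Ico (by linarith) (by linarith)]
      congr 2
      push_cast
      ring
    have h2 : Disjoint ((Finset.Ico A (A + K * 2 ^ τ)).filter P)
        ((Finset.Ico (A + K * 2 ^ τ) (A + K * 2 ^ τ + 2 ^ τ)).filter P) := by
      apply Finset.disjoint_filter_filter
      exact Finset.Ico_disjoint_Ico_consecutive _ _ _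
    rw [h1, Finset.card_union_of_disjoint h2]
    push_cast
    have := h (A + K * 2 ^ τ)
    linarith

theorem law_low : LawLowStatement := by
  classical
  obtain ⟨T₀, hT₀⟩ := exp_large_gen 100000000 (by norm_num)
  refine ⟨1 / 800, T₀ + 60, by norm_num, by omega, ?_⟩
  intro i j m a A N τ hne hτT hN hb
  have hτ1 : 1 ≤ τ := by omega
  have htR : (60 : ℝ) ≤ τ := by
    have : 60 ≤ τ := by omega
    exact_mod_cast this
  have hτ0 : (0 : ℝ) < τ := by linarith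
  have hp : (0 : ℝ) < 2 ^ τ := by positivity
  have hpm : (0 : ℝ) < 2 ^ m := by positivity
  -- the length of the block of shifts
  have hbX : ∀ b ∈ Finset.Ico a (a + 2 ^ m), |(b : ℝ)| ^ 2 ≤ 2 ^ τ := by
    intro b hbm
    refine le_trans ?_ (hb b hbm)
    have h1 : (1 : ℝ) ≤ (3 / 2 : ℝ) ^ i := one_le_pow₀ (by norm_num)
    apply pow_le_pow_left₀ (abs_nonneg _)
    nlinarith [abs_nonneg (b : ℝ)]
  have hm : 20 * m ≤ 11 * τ := by
    have hpmZ : (1 : ℤ) ≤ 2 ^ m := by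
      have : (0 : ℤ) < 2 ^ m := by positivity
      omega
    have h1 := hbX a (by rw [Finset.mem_Ico]; constructor <;> omega)
    have h2 := hbX (a + 2 ^ m - 1) (by rw [Finset.mem_Ico]; constructor <;> omega)
    push_cast at h2
    set s : ℝ := Real.sqrt (2 ^ τ) with hs
    have hs2 : s ^ 2 = 2 ^ τ := Real.sq_sqrt hp.le
    have hs1 : 1 ≤ s := by
      rw [hs, Real.one_le_sqrt]
      exact one_le_pow₀ (by norm_num)
    have h1' : |(a : ℝ)| ≤ s := by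
      apply abs_le_of_sq_le_sq' _ (by linarith) |>.2
      rw [hs2]
      exact h1
    have h2' : |(a : ℝ) + 2 ^ m - 1| ≤ s := by
      apply abs_le_of_sq_le_sq' _ (by linarith) |>.2
      rw [hs2]
      exact h2
    have h3 : (2 : ℝ) ^ m ≤ 3 * s := by
      have h4 := (abs_le.mp h1').1
      have h5 := (abs_le.mp h2').2
      linarith
    have h4 : ((2 : ℝ) ^ m) ^ 2 ≤ 9 * 2 ^ τ := by
      have h5 := pow_le_pow_left₀ hpm.le h3 2
      rw [mul_pow, hs2] at h5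
      linarith
    have h5 : (2 : ℝ) ^ (2 * m) < 2 ^ (τ + 4) := by
      rw [mul_comm, pow_mul]
      calc ((2 : ℝ) ^ m) ^ 2 ≤ 9 * 2 ^ τ := h4
        _ < 2 ^ (τ + 4) := by rw [pow_add]; linarith
    have h6 := (pow_lt_pow_iff_right₀ (by norm_num : (1 : ℝ) < 2)).mp h5
    omega
  set S : ℝ := 1 + ((min i m : ℕ) + (j : ℝ)) ^ 2 + m with hS
  have hS1 : 1 ≤ S := by
    have h1 : 0 ≤ (((min i m : ℕ) : ℝ) + (j : ℝ)) ^ 2 := by positivity
    have h2 : (0 : ℝ) ≤ m := Nat.cast_nonneg m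
    linarith
  -- the threshold
  set R : ℝ := min 1 (Real.sqrt (S / τ)) with hR
  have hST : 0 < Real.sqrt (S / τ) := Real.sqrt_pos.mpr (by positivity)
  have hR0 : 0 < R := lt_min one_pos hST
  have hR1 : R ≤ 1 := min_le_left _ _
  have hR2 : 1 ≤ R ^ 2 * τ := by
    rcases min_cases 1 (Real.sqrt (S / τ)) with ⟨h3, _⟩ | ⟨h3, _⟩
    · rw [hR, h3]
      linarith
    · rw [hR, h3, Real.sq_sqrt (by positivity), div_mul_cancel₀ _ hτ0.ne']
      exact hS1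
  set Y : ℝ := 2 ^ τ * R / 1500 with hYdef
  have hY : 0 < Y := by positivity
  have hbig := hT₀ τ (by omega)
  have h43 : ((4 : ℝ) / 3) ^ τ ≤ 2 ^ τ :=
    pow_le_pow_left₀ (by norm_num) (by norm_num) _
  have hRτ : (100000000 : ℝ) ≤ 2 ^ τ * R ^ 2 := by
    have h1 : (100000000 : ℝ) * τ ≤ 2 ^ τ * (R ^ 2 * τ) := by
      calc (100000000 : ℝ) * τ ≤ 2 ^ τ * 1 := by linarith
        _ ≤ _ := mul_le_mul_of_nonneg_left hR2 hp.le
    have h2 : (100000000 : ℝ) * τ ≤ (2 ^ τ * R ^ 2) * τ := by linarith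
    exact le_of_mul_le_mul_right h2 hτ0
  have hY1 : 1 ≤ Y := by
    have h1 : 2 ^ τ * R ^ 2 ≤ 2 ^ τ * R := by
      apply mul_le_mul_of_nonneg_left _ hp.le
      nlinarith
    rw [hYdef, le_div_iff₀ (by norm_num)]
    linarith
  have hbY : ∀ b ∈ Finset.Ico a (a + 2 ^ m), 3 * |((T^[i] b : ℤ) : ℝ)| ≤ Y := by
    intro b hbm
    apply abs_le_of_sq_le_sq' _ hY.le |>.2
    have h0 : (3 / 2 : ℝ) ^ i * |(b : ℝ)| ≤ Real.sqrt (2 ^ τ) :=
      Real.le_sqrt_of_sq_le (hb b hbm)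
    have e0 := iter_small i b (2 ^ τ) h0
    have e1 : (3 * |((T^[i] b : ℤ) : ℝ)|) ^ 2 ≤ 36 * 2 ^ τ := by
      have h1 : |((T^[i] b : ℤ) : ℝ)| ^ 2 ≤ (2 * Real.sqrt (2 ^ τ)) ^ 2 :=
        pow_le_pow_left₀ (abs_nonneg _) e0 2
      rw [mul_pow, Real.sq_sqrt hp.le] at h1
      rw [mul_pow]
      linarith
    refine le_trans e1 ?_
    have e2 : Y ^ 2 = 2 ^ τ * (2 ^ τ * R ^ 2) / 2250000 := by
      rw [hYdef, div_pow, mul_pow]
      ring
    rw [e2, le_div_iff₀ (by norm_num)]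
    calc 36 * 2 ^ τ * 2250000 = 2 ^ τ * 81000000 := by ring
      _ ≤ 2 ^ τ * (2 ^ τ * R ^ 2) := by
        apply mul_le_mul_of_nonneg_left _ hp.le
        linarith
  have hacc : 18 * 3 ^ τ / Y ≤ 2 ^ τ * R / 1500 := by
    rw [div_le_iff₀ hY, hYdef]
    have e1 : 2 ^ τ * R / 1500 * (2 ^ τ * R / 1500) =
        3 ^ τ * ((4 / 3) ^ τ * R ^ 2 / 2250000) := by
      have e4 : (2 : ℝ) ^ τ * 2 ^ τ = 3 ^ τ * (4 / 3) ^ τ := by
        rw [← mul_pow, ← mul_pow]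
        norm_num
      calc 2 ^ τ * R / 1500 * (2 ^ τ * R / 1500) =
          (2 ^ τ * 2 ^ τ) * (R ^ 2 / 2250000) := by ring
        _ = _ := by rw [e4]; ring
    rw [e1]
    have e2 : (40500000 : ℝ) ≤ (4 / 3) ^ τ * R ^ 2 := by
      have hq : (0 : ℝ) < (4 / 3) ^ τ := by positivity
      have h1 : (40500000 : ℝ) * τ ≤ (4 / 3) ^ τ * (R ^ 2 * τ) := by
        calc (40500000 : ℝ) * τ ≤ (4 / 3) ^ τ * 1 := by linarith
          _ ≤ _ := mul_le_mul_of_nonneg_left hR2 hq.le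
      have h2 : (40500000 : ℝ) * τ ≤ ((4 / 3) ^ τ * R ^ 2) * τ := by linarith
      exact le_of_mul_le_mul_right h2 hτ0
    have hq : (0 : ℝ) < 3 ^ τ := by positivity
    calc (18 : ℝ) * 3 ^ τ = 3 ^ τ * 18 := by ring
      _ ≤ 3 ^ τ * ((4 / 3) ^ τ * R ^ 2 / 2250000) := by
        apply mul_le_mul_of_nonneg_left _ hq.le
        linarith
  -- the number of full blocks
  set K : ℕ := N / 2 ^ τ with hK
  have hpN : 0 < 2 ^ τ := by positivity
  have hK1 : K * 2 ^ τ ≤ N := Nat.div_mul_le_self N _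
  have hK2 : (N : ℝ) ≤ 2 * (K * 2 ^ τ) := by
    have h1 : N < (K + 1) * 2 ^ τ := by
      rw [hK, Nat.add_mul, one_mul]
      exact Nat.lt_div_mul_add hpN
    have h2 : 1 ≤ K := (Nat.one_le_div_iff hpN).mpr hN
    have h3 : (K + 1) * 2 ^ τ ≤ 2 * (K * 2 ^ τ) := by nlinarith
    exact_mod_cast (h1.le.trans h3)
  have hK0 : (0 : ℝ) ≤ K := Nat.cast_nonneg K
  -- the sum over the block of shifts
  have hterm : ∀ b ∈ Finset.Ico a (a + 2 ^ m),
      K * (2 ^ τ * f τ (j + od i b, -T^[i] b) - 2 ^ τ * R / 375) ≤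
        ((fails A N τ i j b).ncard : ℝ) := by
    intro b hbm
    rw [fails_eq]
    have hblk : ∀ a' : ℤ, 2 ^ τ * f τ (j + od i b, -T^[i] b) - 2 ^ τ * R / 375 ≤
        (((Finset.Ico a' (a' + 2 ^ τ)).filter (fun n : ℤ => ∀ t ≤ τ, T^[t] n ≠
          T^[t] (3 ^ (j + od i b) * n + T^[i] b))).card : ℝ) := by
      intro a'
      have h1 := low_block_gen τ (j + od i b) (T^[i] b) a' Y (2 * Y + 1) hY (hbY b hbm)
        (small_gen _ Y hY.le)
      have h3 : Y = 2 ^ τ * R / 1500 := hYdef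
      linarith
    have h1 := blocks_le _ A τ _ hblk K
    refine le_trans h1 ?_
    have h2 : (((Finset.Ico A (A + K * 2 ^ τ)).filter (fun n : ℤ => ∀ t ≤ τ, T^[t] n ≠
          T^[t] (3 ^ (j + od i b) * n + T^[i] b)) : Finset ℤ) : Set ℤ) ⊆
        {n : ℤ | A ≤ n ∧ n < A + N ∧
          ∀ t ≤ τ, T^[t] n ≠ T^[t] (3 ^ (j + od i b) * n + T^[i] b)} := by
      intro n hn
      rw [Finset.mem_coe, Finset.mem_filter, Finset.mem_Ico] at hn
      have hKN : (K : ℤ) * 2 ^ τ ≤ N := by exact_mod_cast hK1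
      exact ⟨hn.1.1, by linarith [hn.1.2], hn.2⟩
    have hfin : {n : ℤ | A ≤ n ∧ n < A + N ∧
          ∀ t ≤ τ, T^[t] n ≠ T^[t] (3 ^ (j + od i b) * n + T^[i] b)}.Finite := by
      apply (Set.finite_Ico A (A + N)).subset
      rintro x ⟨h1, h2, -⟩
      exact ⟨h1, h2⟩
    have h3 := Set.ncard_le_ncard h2 hfin
    rw [Set.ncard_coe_finset] at h3
    exact_mod_cast h3
  refine le_trans ?_ (Finset.sum_le_sum hterm)
  rw [← Finset.mul_sum, Finset.sum_sub_distrib, ← Finset.mul_sum, Finset.sum_const, nsmul_eq_mul]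
  have hcard : (Finset.Ico a (a + 2 ^ m)).card = 2 ^ m := by
    rw [Int.card_Ico, add_sub_cancel_left]
    have : ((2 : ℤ) ^ m) = ((2 ^ m : ℕ) : ℤ) := by push_cast; rfl
    rw [this, Int.toNat_natCast]
  rw [hcard]
  push_cast
  have hphi := phi_block τ i j m a hτ1 hm hne
  rw [← hS, ← hR] at hphi
  unfold Phi at hphi
  have h9 : 2 ^ τ * (2 ^ m * (1 / 192 * R)) ≤
      2 ^ τ * ∑ b ∈ Finset.Ico a (a + 2 ^ m), f τ (j + od i b, -T^[i] b) :=
    mul_le_mul_of_nonneg_left hphi hp.le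
  have h10 : 1 / 400 * (2 ^ τ * (2 ^ m * R)) ≤
      2 ^ τ * ∑ b ∈ Finset.Ico a (a + 2 ^ m), f τ (j + od i b, -T^[i] b) -
        2 ^ m * (2 ^ τ * R / 375) := by
    have h14 : 0 < 2 ^ τ * (2 ^ m * R) := by positivity
    linarith
  have h11 := mul_le_mul_of_nonneg_left h10 hK0
  refine le_trans ?_ h11
  have h12 : 0 < 2 ^ m * R := by positivity
  have h13 := mul_le_mul_of_nonneg_right hK2 h12.le
  linarith

end Pool.Agent.Lib.MP_edb5be_nt.CO
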