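import Pool.Agent.Lib.MP_edb5be_nt.CO.Law

/-!
# The law of the meeting time, with the numbers of odd terms
-/

set_option autoImplicit false

namespace Pool.Agent.Lib.MP_edb5be_nt.CO

/-- `od t x` is the number of odd terms among `x, T x, …, T^[t - 1] x`. -/
theorem od_eq_card (t : ℕ) : ∀ x : ℤ,
    od t x = ((Finset.range t).filter (fun s => T^[s] x % 2 ≠ 0)).card := by
  induction t with
  | zero => intro x; simp [od]
  | succ t ih =>
    intro x
    rw [od_succ, ih, Finset.card_filter, Finset.card_filter, Finset.sum_range_succ', add_comm]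
    congr 1
    unfold ob
    by_cases h : x % 2 = 0
    · simp [h]
    · simp [h]

theorem od_add (t i : ℕ) : ∀ x : ℤ, od (t + i) x = od i x + od t (T^[i] x) := by
  induction i with
  | zero => intro x; simp [od]
  | succ i ih =>
    intro x
    rw [show t + (i + 1) = (t + i) + 1 by omega, od_succ, od_succ, ih,
      Function.iterate_succ_apply]
    omega

/-- The first `i` parities depend only on the residue modulo `2 ^ i`. -/
theorem od_shift (i : ℕ) : ∀ x b : ℤ, od i (2 ^ i * x + b) = od i b := by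
  induction i with
  | zero => intro x b; rfl
  | succ i ih =>
    intro x b
    rw [od_succ, od_succ]
    rcases Int.even_or_odd' b with ⟨c, rfl | rfl⟩
    · have e0 : (2 : ℤ) ^ (i + 1) * x + 2 * c = 2 * (2 ^ i * x + c) := by rw [pow_succ]; ring
      have e1 : T (2 ^ (i + 1) * x + 2 * c) = 2 ^ i * x + c := by
        rw [e0]
        simp [T]
      have e2 : T (2 * c) = c := by simp [T]
      have e3 : ob (2 * c) = 0 := by simp [ob]
      have e4 : ob (2 ^ (i + 1) * x + 2 * c) = 0 := by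
        rw [e0]
        simp [ob]
      rw [e1, e2, e3, e4, ih]
    · have e0 : (2 : ℤ) ^ (i + 1) * x + (2 * c + 1) = 2 * (2 ^ i * x + c) + 1 := by
        rw [pow_succ]; ring
      have e1 : T (2 ^ (i + 1) * x + (2 * c + 1)) = 2 ^ i * (3 * x) + (3 * c + 2) := by
        rw [e0]
        unfold T
        rw [if_neg (by omega)]
        have h : (3 * (2 * (2 ^ i * x + c) + 1) + 1) / 2 = 3 * (2 ^ i * x + c) + 2 := by omega
        rw [h]
        ring
      have e2 : T (2 * c + 1) = 3 * c + 2 := by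
        unfold T
        rw [if_neg (by omega)]
        omega
      have e3 : ob (2 * c + 1) = 1 := by
        unfold ob
        rw [if_neg (by omega)]
      have e4 : ob (2 ^ (i + 1) * x + (2 * c + 1)) = 1 := by
        rw [e0]
        unfold ob
        rw [if_neg (by omega)]
      rw [e1, e2, e3, e4, ih]

/-- A pair whose run reaches the state `(0, 0)` has met with matching numbers of odd terms. -/
theorem meet_od (t : ℕ) : ∀ (D : ℕ) (s x : ℤ), ¬ nm t (D, s) x →
    ∃ i ≤ t, T^[i] x = T^[i] (3 ^ D * x - s) ∧ od i x = od i (3 ^ D * x - s) + D := by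
  induction t with
  | zero =>
    intro D s x h
    have h1 : (D, s) = (0, 0) := not_not.mp h
    obtain ⟨rfl, rfl⟩ := Prod.mk.inj h1
    exact ⟨0, le_refl _, by simp, rfl⟩
  | succ t ih =>
    intro D s x h
    rw [nm_succ, not_and_or, not_not] at h
    rcases h with h | h
    · obtain ⟨rfl, rfl⟩ := Prod.mk.inj h
      exact ⟨0, Nat.zero_le _, by simp, rfl⟩
    · obtain ⟨i, hi, hi2, hi3⟩ := ih (st (decide (x % 2 ≠ 0)) (D, s)).1
        (st (decide (x % 2 ≠ 0)) (D, s)).2 (nx (D, s) x) h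
      refine ⟨i + 1, Nat.succ_le_succ hi, ?_⟩
      rw [Function.iterate_succ_apply, Function.iterate_succ_apply, od_succ, od_succ]
      rcases step_od D s x with ⟨h1, h2, h3⟩ | ⟨h1, h2, h3, h4, h5, h6⟩
      · rw [h2, h1] at hi2 hi3
        exact ⟨hi2, by omega⟩
      · rw [h2, h1] at hi2 hi3
        rw [h4] at hi3
        exact ⟨hi2.symm, by omega⟩

/-- The `n` of the interval `[A, A + N)` for which `n` and `2 ^ i * 3 ^ j * n + b` do not meet, with
the delay `i` and with numbers of odd terms that differ by `j`, within `τ` steps. -/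
def failsOd (A : ℤ) (N τ i j : ℕ) (b : ℤ) : Set ℤ :=
  {n : ℤ | A ≤ n ∧ n < A + N ∧ ∀ t ≤ τ, ¬ (T^[t] n = T^[t + i] (2 ^ i * 3 ^ j * n + b) ∧
    od t n = od (t + i) (2 ^ i * 3 ^ j * n + b) + j)}

def LawOdStatement : Prop := ∃ C : ℝ, 0 < C ∧
  ∀ (i j : ℕ) (b A : ℤ) (N τ : ℕ), 1 ≤ τ → 2 ^ τ ≤ N →
    ((failsOd A N τ i j b).ncard : ℝ) ≤
      C * N * Real.sqrt ((((i : ℝ) + j) ^ 2 + Real.log (2 + |(b : ℝ)|)) / τ)

theorem law_od (hct : CTStatement) (hph : PHStatement) : LawOdStatement := by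
  obtain ⟨C, hC, hph⟩ := hph
  refine ⟨4 * C, by positivity, fun i j b A N τ hτ hN => ?_⟩
  set J : ℕ := j + od i b with hJ
  set b' : ℤ := T^[i] b with hb'
  have hτR : (1 : ℝ) ≤ τ := by exact_mod_cast hτ
  have hτ0 : (0 : ℝ) < τ := by linarith
  have hNR : (2 : ℝ) ^ τ ≤ N := by exact_mod_cast hN
  have hN0 : (0 : ℝ) ≤ N := Nat.cast_nonneg N
  have hsub : failsOd A N τ i j b ⊆ {x : ℤ | A ≤ x ∧ x < A + N ∧ nm τ (J, -b') x} := by
    rintro n ⟨h1, h2, h3⟩
    refine ⟨h1, h2, ?_⟩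
    by_contra hn
    obtain ⟨t, ht, hm, ho⟩ := meet_od τ J (-b') n hn
    apply h3 t ht
    have e : (3 : ℤ) ^ J * n - -b' = 3 ^ J * n + b' := by ring
    rw [e] at hm ho
    have e1 : (2 : ℤ) ^ i * 3 ^ j * n + b = 2 ^ i * (3 ^ j * n) + b := by ring
    have e2 : T^[i] (2 ^ i * (3 ^ j * n) + b) = 3 ^ J * n + b' := by
      rw [iter_od, hJ, hb', pow_add]
      ring
    have e3 : T^[t + i] (2 ^ i * 3 ^ j * n + b) = T^[t] (3 ^ J * n + b') := by
      rw [Function.iterate_add_apply, e1, e2]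
    have e4 : od (t + i) (2 ^ i * 3 ^ j * n + b) = od i b + od t (3 ^ J * n + b') := by
      rw [od_add, e1, e2, od_shift]
    rw [e3, e4]
    exact ⟨hm, by omega⟩
  have hfin : {x : ℤ | A ≤ x ∧ x < A + N ∧ nm τ (J, -b') x}.Finite := by
    apply (Set.finite_Ico A (A + N)).subset
    rintro x ⟨h1, h2, -⟩
    exact ⟨h1, h2⟩
  have h1 := Set.ncard_le_ncard hsub hfin
  have h2 := count_interval hct τ (J, -b') A (A + N) (by linarith)
  have h3 : (((A + (N : ℤ)) - A : ℤ) : ℝ) = N := by push_cast; ring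
  rw [h3] at h2
  have hf0 := f_nonneg τ (J, -b')
  have h4 : ((failsOd A N τ i j b).ncard : ℝ) ≤ 2 * N * f τ (J, -b') := by
    calc _ ≤ (({x : ℤ | A ≤ x ∧ x < A + N ∧ nm τ (J, -b') x}.ncard : ℕ) : ℝ) := by
          exact_mod_cast h1
      _ ≤ (N + 2 ^ τ) * f τ (J, -b') := h2
      _ ≤ 2 * N * f τ (J, -b') := by
        apply mul_le_mul_of_nonneg_right _ hf0
        linarith
  have h5 := hph τ hτ J (-b')
  -- the size of the parameters
  have hbn : 2 + |((-b' : ℤ) : ℝ)| = 2 + |(b' : ℝ)| := by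
    push_cast
    rw [abs_neg]
  rw [hbn] at h5
  have hb : |((T^[i] b : ℤ) : ℝ)| + 1 ≤ 2 ^ i * (|(b : ℝ)| + 1) := by
    have := abs_iter_le i b
    exact_mod_cast this
  have h2i : (1 : ℝ) ≤ 2 ^ i := one_le_pow₀ (by norm_num)
  have hlog : Real.log (2 + |(b' : ℝ)|) ≤ (i : ℝ) ^ 2 + Real.log (2 + |(b : ℝ)|) := by
    have h3 : 2 + |(b' : ℝ)| ≤ 2 ^ i * (2 + |(b : ℝ)|) := by
      have := abs_nonneg (b : ℝ)
      nlinarith
    have h4 := Real.log_le_log (by have := abs_nonneg (b' : ℝ); linarith) h3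
    rw [Real.log_mul (by positivity) (by have := abs_nonneg (b : ℝ); positivity),
      Real.log_pow] at h4
    have h5 : (i : ℝ) * Real.log 2 ≤ (i : ℝ) ^ 2 := by
      have h6 : Real.log 2 ≤ 1 := by have := Real.log_two_lt_d9; linarith
      rcases Nat.eq_zero_or_pos i with rfl | hi
      · simp
      · have h7 : (1 : ℝ) ≤ i := by exact_mod_cast hi
        nlinarith
    linarith
  have hod : ((od i b : ℕ) : ℝ) ≤ i := by exact_mod_cast od_le i b
  have hod0 : (0 : ℝ) ≤ ((od i b : ℕ) : ℝ) := Nat.cast_nonneg _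
  have hj0 : (0 : ℝ) ≤ j := Nat.cast_nonneg j
  have hi0 : (0 : ℝ) ≤ i := Nat.cast_nonneg i
  have hlogb : 1 / 2 ≤ Real.log (2 + |(b : ℝ)|) :=
    le_trans half_le_log_two (log_two_le_log b)
  have hpar : (1 + (J : ℝ) ^ 2 + Real.log (2 + |(b' : ℝ)|)) / τ ≤
      2 ^ 2 * ((((i : ℝ) + j) ^ 2 + Real.log (2 + |(b : ℝ)|)) / τ) := by
    rw [← mul_div_assoc]
    apply div_le_div_of_nonneg_right _ hτ0.le
    rw [hJ]
    push_cast
    nlinarith [mul_nonneg hi0 hj0, mul_nonneg hj0 hod0, mul_nonneg hi0 hod0, sq_nonneg (i : ℝ),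
      sq_nonneg (j : ℝ)]
  have hs := Real.sqrt_le_sqrt hpar
  rw [Real.sqrt_mul (by norm_num), Real.sqrt_sq (by norm_num)] at hs
  have h6 : f τ (J, -b') ≤
      C * (2 * Real.sqrt ((((i : ℝ) + j) ^ 2 + Real.log (2 + |(b : ℝ)|)) / τ)) :=
    h5.trans (mul_le_mul_of_nonneg_left hs hC.le)
  calc _ ≤ 2 * N * f τ (J, -b') := h4
    _ ≤ 2 * N * (C * (2 * Real.sqrt ((((i : ℝ) + j) ^ 2 + Real.log (2 + |(b : ℝ)|)) / τ))) :=
      mul_le_mul_of_nonneg_left h6 (by positivity)
    _ = _ := by ring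

theorem lawOdH : LawOdStatement := law_od ct phH

end Pool.Agent.Lib.MP_edb5be_nt.CO
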