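import Pool.Agent.Lib.MP_edb5be_nt.CO.LawOd

/-!
# The law of the meeting time along finite sets of integers

The integers whose pair does not merge within `τ` steps form `2 ^ τ * f τ p` residue classes modulo
`2 ^ τ` (`nm_mod`, `count_Ico`), so the upper bound holds along every finite set of integers with at
most `κ` elements in each residue class modulo `2 ^ τ`.
-/

set_option autoImplicit false

namespace Pool.Agent.Lib.MP_edb5be_nt.CO

/-- The property `nm t p` depends only on the residue modulo `2 ^ t`. -/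
theorem nm_mod (t : ℕ) : ∀ (p : ℕ × ℤ) (x y : ℤ), nm t p (x + 2 ^ t * y) ↔ nm t p x := by
  induction t with
  | zero => intro p x y; exact Iff.rfl
  | succ t ih =>
    intro p x y
    rw [nm_succ, nm_succ]
    have e0 : x + 2 ^ (t + 1) * y = x + 2 * (2 ^ t * y) := by rw [pow_succ]; ring
    have e1 : (x + 2 ^ (t + 1) * y) % 2 = x % 2 := by
      rw [e0]
      omega
    have e2 : ∃ z : ℤ, nx p (x + 2 ^ (t + 1) * y) = nx p x + 2 ^ t * z := by
      unfold nx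
      rw [e1]
      by_cases hx : x % 2 = 0
      · rw [if_pos hx, if_pos hx]
        refine ⟨y, ?_⟩
        rw [e0]
        omega
      · rw [if_neg hx, if_neg hx]
        by_cases hc : p.2 % 2 ≠ 0 ∧ p.1 = 0
        · rw [if_pos hc, if_pos hc]
          refine ⟨y, ?_⟩
          rw [e0]
          omega
        · rw [if_neg hc, if_neg hc]
          refine ⟨3 * y, ?_⟩
          have e3 : (2 : ℤ) ^ t * (3 * y) = 3 * (2 ^ t * y) := by ring
          rw [e0, e3]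
          omega
    obtain ⟨z, hz⟩ := e2
    rw [e1, hz, ih]

/-- ROW LAWSET. -/
def LawSetStatement : Prop := ∃ C : ℝ, 0 < C ∧
  ∀ (i j : ℕ) (b : ℤ) (τ κ : ℕ) (I : Finset ℤ), 1 ≤ τ →
    (∀ r : ℤ, {n : ℤ | n ∈ I ∧ (2 : ℤ) ^ τ ∣ n - r}.ncard ≤ κ) →
      ({n : ℤ | n ∈ I ∧ ∀ t ≤ τ, ¬ (T^[t] n = T^[t + i] (2 ^ i * 3 ^ j * n + b) ∧
          od t n = od (t + i) (2 ^ i * 3 ^ j * n + b) + j)}.ncard : ℝ) ≤
        C * κ * 2 ^ τ * Real.sqrt ((((i : ℝ) + j) ^ 2 + Real.log (2 + |(b : ℝ)|)) / τ)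

/-- The number of the elements of `I` that do not merge. -/
theorem nm_set (τ κ : ℕ) (p : ℕ × ℤ) (I : Finset ℤ)
    (hI : ∀ r : ℤ, {n : ℤ | n ∈ I ∧ (2 : ℤ) ^ τ ∣ n - r}.ncard ≤ κ) :
    ({n : ℤ | n ∈ I ∧ nm τ p n}.ncard : ℝ) ≤ κ * (2 ^ τ * f τ p) := by
  classical
  have h1 := count_Ico τ p 0
  set G := sel nm τ p (Finset.Ico 0 (0 + 2 ^ τ)) with hG
  have hpos : (0 : ℤ) < 2 ^ τ := by positivity
  have hsub : {n : ℤ | n ∈ I ∧ nm τ p n} ⊆
      ((G.biUnion (fun r => I.filter (fun n => (2 : ℤ) ^ τ ∣ n - r)) : Finset ℤ) : Set ℤ) := by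
    rintro n ⟨hn, hnm⟩
    rw [Finset.mem_coe, Finset.mem_biUnion]
    refine ⟨n % 2 ^ τ, ?_, ?_⟩
    · rw [hG, mem_sel, Finset.mem_Ico]
      refine ⟨⟨Int.emod_nonneg _ hpos.ne', by rw [zero_add]; exact Int.emod_lt_of_pos _ hpos⟩, ?_⟩
      have e : n = n % 2 ^ τ + 2 ^ τ * (n / 2 ^ τ) := by
        have := Int.emod_add_mul_ediv n (2 ^ τ)
        linarith
      rw [e, nm_mod] at hnm
      exact hnm
    · rw [Finset.mem_filter]
      exact ⟨hn, Int.dvd_self_sub_emod⟩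
  have h2 := Set.ncard_le_ncard hsub (Finset.finite_toSet _)
  rw [Set.ncard_coe_finset] at h2
  have h3 : (G.biUnion (fun r => I.filter (fun n => (2 : ℤ) ^ τ ∣ n - r))).card ≤ G.card * κ := by
    apply Finset.card_biUnion_le_card_mul
    intro r _
    have h4 := hI r
    have h5 : {n : ℤ | n ∈ I ∧ (2 : ℤ) ^ τ ∣ n - r} =
        ((I.filter (fun n => (2 : ℤ) ^ τ ∣ n - r) : Finset ℤ) : Set ℤ) := by
      ext n
      rw [Finset.mem_coe, Finset.mem_filter]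
      rfl
    rw [h5, Set.ncard_coe_finset] at h4
    exact h4
  have h4 : ({n : ℤ | n ∈ I ∧ nm τ p n}.ncard : ℝ) ≤ (G.card : ℝ) * κ := by
    exact_mod_cast h2.trans h3
  rw [h1] at h4
  linarith

theorem law_set (hph : PHStatement) : LawSetStatement := by
  obtain ⟨C, hC, hph⟩ := hph
  refine ⟨2 * C, by positivity, fun i j b τ κ I hτ hI => ?_⟩
  set J : ℕ := j + od i b with hJ
  set b' : ℤ := T^[i] b with hb'
  have hτR : (1 : ℝ) ≤ τ := by exact_mod_cast hτ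
  have hτ0 : (0 : ℝ) < τ := by linarith
  have hsub : {n : ℤ | n ∈ I ∧ ∀ t ≤ τ, ¬ (T^[t] n = T^[t + i] (2 ^ i * 3 ^ j * n + b) ∧
      od t n = od (t + i) (2 ^ i * 3 ^ j * n + b) + j)} ⊆ {x : ℤ | x ∈ I ∧ nm τ (J, -b') x} := by
    rintro n ⟨h1, h3⟩
    refine ⟨h1, ?_⟩
    by_contra hn
    obtain ⟨t, ht, hm, ho⟩ := meet_od τ J (-b') n hn
    apply h3 t ht
    have e : (3 : ℤ) ^ J * n - -b' = 3 ^ J * n + b' := by ring
    rw [e] at hm ho
    have e1 : (2 : ℤ) ^ i * 3 ^ j * n + b = 2 ^ i * (3 ^ j * n) + b := by ring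
    have e2 : T^[i] (2 ^ i * (3 ^ j * n) + b) = 3 ^ J * n + b' := by
      rw [iter_od, hJ, hb', pow_add]
      ring
    have e3 : T^[t + i] (2 ^ i * 3 ^ j * n + b) = T^[t] (3 ^ J * n + b') := by
      rw [Function.iterate_add_apply, e1, e2]
    have e4 : od (t + i) (2 ^ i * 3 ^ j * n + b) = od i b + od t (3 ^ J * n + b') := by
      rw [od_add, e1, e2, od_shift]
    rw [e3, e4]
    exact ⟨hm, by omega⟩
  have hfin : {x : ℤ | x ∈ I ∧ nm τ (J, -b') x}.Finite := by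
    apply (Finset.finite_toSet I).subset
    rintro x ⟨h1, -⟩
    exact h1
  have h1 := Set.ncard_le_ncard hsub hfin
  have h2 := nm_set τ κ (J, -b') I hI
  have h4 : ({n : ℤ | n ∈ I ∧ ∀ t ≤ τ, ¬ (T^[t] n = T^[t + i] (2 ^ i * 3 ^ j * n + b) ∧
      od t n = od (t + i) (2 ^ i * 3 ^ j * n + b) + j)}.ncard : ℝ) ≤
      κ * (2 ^ τ * f τ (J, -b')) := le_trans (by exact_mod_cast h1) h2
  have h5 := hph τ hτ J (-b')
  -- the size of the parameters
  have hbn : 2 + |((-b' : ℤ) : ℝ)| = 2 + |(b' : ℝ)| := by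
    push_cast
    rw [abs_neg]
  rw [hbn] at h5
  have hb : |((T^[i] b : ℤ) : ℝ)| + 1 ≤ 2 ^ i * (|(b : ℝ)| + 1) := by
    have := abs_iter_le i b
    exact_mod_cast this
  have h2i : (1 : ℝ) ≤ 2 ^ i := one_le_pow₀ (by norm_num)
  have hlog : Real.log (2 + |(b' : ℝ)|) ≤ (i : ℝ) ^ 2 + Real.log (2 + |(b : ℝ)|) := by
    have h3 : 2 + |(b' : ℝ)| ≤ 2 ^ i * (2 + |(b : ℝ)|) := by
      have := abs_nonneg (b : ℝ)
      nlinarith
    have h4 := Real.log_le_log (by have := abs_nonneg (b' : ℝ); linarith) h3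
    rw [Real.log_mul (by positivity) (by have := abs_nonneg (b : ℝ); positivity),
      Real.log_pow] at h4
    have h5 : (i : ℝ) * Real.log 2 ≤ (i : ℝ) ^ 2 := by
      have h6 : Real.log 2 ≤ 1 := by have := Real.log_two_lt_d9; linarith
      rcases Nat.eq_zero_or_pos i with rfl | hi
      · simp
      · have h7 : (1 : ℝ) ≤ i := by exact_mod_cast hi
        nlinarith
    linarith
  have hod : ((od i b : ℕ) : ℝ) ≤ i := by exact_mod_cast od_le i b
  have hod0 : (0 : ℝ) ≤ ((od i b : ℕ) : ℝ) := Nat.cast_nonneg _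
  have hj0 : (0 : ℝ) ≤ j := Nat.cast_nonneg j
  have hi0 : (0 : ℝ) ≤ i := Nat.cast_nonneg i
  have hlogb : 1 / 2 ≤ Real.log (2 + |(b : ℝ)|) :=
    le_trans half_le_log_two (log_two_le_log b)
  have hpar : (1 + (J : ℝ) ^ 2 + Real.log (2 + |(b' : ℝ)|)) / τ ≤
      2 ^ 2 * ((((i : ℝ) + j) ^ 2 + Real.log (2 + |(b : ℝ)|)) / τ) := by
    rw [← mul_div_assoc]
    apply div_le_div_of_nonneg_right _ hτ0.le
    rw [hJ]
    push_cast
    nlinarith [mul_nonneg hi0 hj0, mul_nonneg hj0 hod0, mul_nonneg hi0 hod0, sq_nonneg (i : ℝ),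
      sq_nonneg (j : ℝ)]
  have hs := Real.sqrt_le_sqrt hpar
  rw [Real.sqrt_mul (by norm_num), Real.sqrt_sq (by norm_num)] at hs
  have h6 : f τ (J, -b') ≤
      C * (2 * Real.sqrt ((((i : ℝ) + j) ^ 2 + Real.log (2 + |(b : ℝ)|)) / τ)) :=
    h5.trans (mul_le_mul_of_nonneg_left hs hC.le)
  calc _ ≤ κ * (2 ^ τ * f τ (J, -b')) := h4
    _ ≤ κ * (2 ^ τ * (C * (2 * Real.sqrt ((((i : ℝ) + j) ^ 2 +
        Real.log (2 + |(b : ℝ)|)) / τ)))) := by
      apply mul_le_mul_of_nonneg_left _ (Nat.cast_nonneg κ)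
      exact mul_le_mul_of_nonneg_left h6 (by positivity)
    _ = _ := by ring

theorem lawSetH : LawSetStatement := law_set phH

end Pool.Agent.Lib.MP_edb5be_nt.CO
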