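import Pool.Agent.Lib.MP_edb5be_nt.CO.IntY
import Pool.Agent.Lib.MP_edb5be_nt.CO.Dens

/-!
# A local criterion for an invariant set to have density `0`

If at infinitely many scales `X` most intervals `[x, x + L)`, `x ≤ X`, of some length `L ≤ X ^ ε`
contain a proportion `≥ η` of elements outside of the invariant set `U`, then `U` has density `0`.
-/

set_option autoImplicit false

namespace Pool.Agent.Lib.MP_edb5be_nt.CO

open INT Filter Topology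

theorem intYH : IntYStatement := intY (funY (t4y (t3 ct phH)))

/-- The local hypothesis. -/
def LocThin (e : ℤ) (U : Set ℤ) : Prop := ∃ η : ℝ, 0 < η ∧ ∀ ε : ℝ, 0 < ε → ∀ X₀ : ℝ,
  ∃ X : ℝ, ∃ L : ℕ, X₀ ≤ X ∧ 1 ≤ L ∧ (L : ℝ) ≤ X ^ ε ∧
    count e {x : ℤ | ({z : ℤ | z ∉ U ∧ x ≤ z ∧ z < x + L}.ncard : ℝ) < η * L} X ≤ ε * X

theorem loc_step (hI : IntYStatement) : ∃ C : ℝ, 0 < C ∧ ∀ e : ℤ, e = 1 ∨ e = -1 →
    ∀ U : Set ℤ, (∀ n : ℤ, n ∈ U ↔ T n ∈ U) → ∀ η ε X : ℝ, ∀ L : ℕ, 0 < η → 0 < ε → 2 ≤ X →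
      2 ≤ X ^ ε → 1 ≤ L → (L : ℝ) ≤ X ^ ε →
      count e {x : ℤ | ({z : ℤ | z ∉ U ∧ x ≤ z ∧ z < x + L}.ncard : ℝ) < η * L} X ≤ ε * X →
      count e U X ≤ (C / (η / 2) * Real.sqrt (2 * ε) + ε) * X := by
  obtain ⟨C, hC, hI⟩ := hI
  refine ⟨C, hC, ?_⟩
  intro e he S hS η ε X L hη hε hX hXε hL1 hLX hB
  have hX0 : 0 < X := by linarith
  have hinv : ∀ x : ℤ, (1 : ℝ) ≤ |(x : ℝ)| → (x ∈ S) = (T x ∈ S) := fun x _ => propext (hS x)
  have hfin := finite_count e he X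
  set A : Set ℤ := {x : ℤ | η / 2 * L <
    ({z : ℤ | (z ∈ S) ≠ (x ∈ S) ∧ x ≤ z ∧ z < x + L}.ncard : ℝ)} with hA
  set B : Set ℤ := {x : ℤ | ({z : ℤ | z ∉ S ∧ x ≤ z ∧ z < x + L}.ncard : ℝ) < η * L}
    with hBdef
  have hLp : (1 : ℝ) ≤ L := by exact_mod_cast hL1
  have hsub : {x : ℤ | x ∈ S ∧ 0 < e * x ∧ ((e * x : ℤ) : ℝ) ≤ X} ⊆
      {x : ℤ | x ∈ A ∧ 0 < e * x ∧ ((e * x : ℤ) : ℝ) ≤ X} ∪
      {x : ℤ | x ∈ B ∧ 0 < e * x ∧ ((e * x : ℤ) : ℝ) ≤ X} := by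
    rintro x ⟨hxS, hx⟩
    by_cases hxB : x ∈ B
    · exact Or.inr ⟨hxB, hx⟩
    · refine Or.inl ⟨?_, hx⟩
      rw [hBdef, Set.mem_ofPred_eq, not_lt] at hxB
      rw [hA, Set.mem_ofPred_eq]
      have heq : {z : ℤ | (z ∈ S) ≠ (x ∈ S) ∧ x ≤ z ∧ z < x + L} =
          {z : ℤ | z ∉ S ∧ x ≤ z ∧ z < x + L} := by
        ext z
        simp only [Set.mem_ofPred_eq, ne_eq, eq_iff_iff, hxS, iff_true]
      rw [heq]
      refine lt_of_lt_of_le ?_ hxB
      nlinarith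
  have hfA : {x : ℤ | x ∈ A ∧ 0 < e * x ∧ ((e * x : ℤ) : ℝ) ≤ X}.Finite :=
    hfin.subset fun x hx => hx.2
  have hfB : {x : ℤ | x ∈ B ∧ 0 < e * x ∧ ((e * x : ℤ) : ℝ) ≤ X}.Finite :=
    hfin.subset fun x hx => hx.2
  have h1 := (Set.ncard_le_ncard hsub (hfA.union hfB)).trans (Set.ncard_union_le _ _)
  have h2 : count e S X ≤ count e A X + count e B X := by
    unfold count
    exact_mod_cast h1
  have h3 := hI e he Prop 1 (fun x => x ∈ S) le_rfl hinv L (η / 2) X (by positivity) (by linarith)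
  rw [div_one] at h3
  have hlX : 0 < Real.log X := Real.log_pos (by linarith)
  have h4 : Real.log (2 + L) / Real.log (2 + X) ≤ 2 * ε := by
    rw [div_le_iff₀ (Real.log_pos (by linarith))]
    have h5 : Real.log (2 + L) ≤ Real.log (X ^ ε * X ^ ε) := by
      apply Real.log_le_log (by linarith)
      nlinarith
    rw [Real.log_mul (by positivity) (by positivity), Real.log_rpow hX0] at h5
    have h6 : Real.log X ≤ Real.log (2 + X) := Real.log_le_log hX0 (by linarith)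
    nlinarith
  have h5 := Real.sqrt_le_sqrt h4
  have h6 : C / (η / 2) * X * Real.sqrt (Real.log (2 + L) / Real.log (2 + X)) ≤
      C / (η / 2) * X * Real.sqrt (2 * ε) :=
    mul_le_mul_of_nonneg_left h5 (by positivity)
  have h7 : count e S X ≤ C / (η / 2) * X * Real.sqrt (2 * ε) + ε * X :=
    h2.trans (add_le_add (h3.trans h6) hB)
  linarith

theorem loc_zero (hI : IntYStatement) (e : ℤ) (he : e = 1 ∨ e = -1) (U : Set ℤ)
    (hU : ∀ n : ℤ, n ∈ U ↔ T n ∈ U) (h : LocThin e U) : HasDensity e U 0 := by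
  obtain ⟨c, C₁, -, -, hdens⟩ := densities
  obtain ⟨D, hD, -⟩ := (hdens e he).1 1 U le_rfl fun x _ => hU x
  obtain ⟨C, hC, hst⟩ := loc_step hI
  obtain ⟨η, hη, h⟩ := h
  -- `D` is at most `K √(2 ε) + 2 ε`
  have hle : ∀ ε : ℝ, 0 < ε → D ≤ C / (η / 2) * Real.sqrt (2 * ε) + 2 * ε := by
    intro ε hε
    have hev : ∀ᶠ X in atTop, D - ε < count e U X / X :=
      (tendsto_order.1 hD).1 _ (by linarith)
    obtain ⟨X₁, hX₁⟩ := (hev.and ((tendsto_rpow_atTop hε).eventually_ge_atTop 2)).exists_forall_of_atTop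
    obtain ⟨X, L, hX, hL1, hLX, hB⟩ := h ε hε (max X₁ 2)
    have hX2 : 2 ≤ X := (le_max_right _ _).trans hX
    obtain ⟨h1, h2⟩ := hX₁ X ((le_max_left _ _).trans hX)
    have h3 := hst e he U hU η ε X L hη hε hX2 h2 hL1 hLX hB
    rw [lt_div_iff₀ (by linarith)] at h1
    have h4 : (D - ε) * X ≤ (C / (η / 2) * Real.sqrt (2 * ε) + ε) * X := h1.le.trans h3
    have h5 := le_of_mul_le_mul_right h4 (by linarith)
    linarith
  have hlim : Tendsto (fun ε : ℝ => C / (η / 2) * Real.sqrt (2 * ε) + 2 * ε) (𝓝[>] 0) (𝓝 0) := by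
    have hcont : Continuous fun ε : ℝ => C / (η / 2) * Real.sqrt (2 * ε) + 2 * ε := by fun_prop
    exact (hcont.tendsto' 0 0 (by simp)).mono_left nhdsWithin_le_nhds
  have hD0 : D ≤ 0 := by
    refine ge_of_tendsto hlim ?_
    filter_upwards [self_mem_nhdsWithin] with ε hε
    exact hle ε hε
  have hD1 : 0 ≤ D := by
    refine ge_of_tendsto hD ?_
    filter_upwards [eventually_gt_atTop (0 : ℝ)] with X hX
    exact div_nonneg (count_nonneg _ _ _) hX.le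
  have hD2 : D = 0 := le_antisymm hD0 hD1
  rwa [hD2] at hD

/-- The converse for the empty set. -/
theorem loc_empty (e : ℤ) : LocThin e (∅ : Set ℤ) := by
  refine ⟨1, one_pos, fun ε hε X₀ => ⟨max X₀ 1, 1, le_max_left _ _, le_rfl, ?_, ?_⟩⟩
  · rw [Nat.cast_one]
    exact Real.one_le_rpow (le_max_right _ _) hε.le
  · have hempty : {x : ℤ | ({z : ℤ | z ∉ (∅ : Set ℤ) ∧ x ≤ z ∧ z < x + ((1 : ℕ) : ℤ)}.ncard : ℝ) <
        1 * ((1 : ℕ) : ℝ)} = ∅ := by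
      rw [Set.eq_empty_iff_forall_notMem]
      intro x hx
      rw [Set.mem_ofPred_eq] at hx
      have h1 : {z : ℤ | z ∉ (∅ : Set ℤ) ∧ x ≤ z ∧ z < x + ((1 : ℕ) : ℤ)} = {x} := by
        ext z
        simp only [Set.mem_ofPred_eq, Set.mem_empty_iff_false, not_false_eq_true, true_and,
          Set.mem_singleton_iff, Nat.cast_one]
        omega
      rw [h1, Set.ncard_singleton] at hx
      norm_num at hx
    have : count e {x : ℤ | ({z : ℤ | z ∉ (∅ : Set ℤ) ∧ x ≤ z ∧ z < x + ((1 : ℕ) : ℤ)}.ncard : ℝ) <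
        1 * ((1 : ℕ) : ℝ)} (max X₀ 1) = 0 := by
      rw [hempty]
      unfold count
      simp
    rw [this]
    have : (0 : ℝ) < max X₀ 1 := lt_of_lt_of_le one_pos (le_max_right _ _)
    positivity

end Pool.Agent.Lib.MP_edb5be_nt.CO
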