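import Pool.Agent.Lib.MP_edb5be_nt.CO.Low
import Pool.Agent.Lib.MP_edb5be_nt.CO.LowF

/-!
# The exact order on average over the shift

Row LOWAVG: on average over `2 ^ m` consecutive shifts `b` the number of pairs `(n, 3 ^ j n + b)`
that do not meet is at least `c X √((j ^ 2 + m) / log X)`. For a shift that is uniform modulo `2 ^ m`
the exponent `D` of the pair is a lazy simple random walk for the first `m` steps (`avg_f`).
-/

set_option autoImplicit false

namespace Pool.Agent.Lib.MP_edb5be_nt.CO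

open Filter Topology

/-- ROW LOWAVG: the order of `FourStatement` is exact in `X`, `j` and `b` on average over the
`2 ^ m` integers `b` of an interval inside `[-√X, √X]`. -/
def LowAvgStatement : Prop := ∃ c X₀ : ℝ, 0 < c ∧ 2 ≤ X₀ ∧ ∀ e : ℤ, e = 1 ∨ e = -1 →
  ∀ (j m : ℕ) (a : ℤ) (X : ℝ), X₀ ≤ X → (j : ℝ) ^ 2 + m ≤ Real.log X / 2 →
    (∀ b ∈ Finset.Ico a (a + 2 ^ m), |(b : ℝ)| ≤ Real.sqrt X) →
      c * X * Real.sqrt (((j : ℝ) ^ 2 + m) / Real.log X) * 2 ^ m ≤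
        ∑ b ∈ Finset.Ico a (a + 2 ^ m),
          count e {n : ℤ | ∀ i : ℕ, (2 : ℝ) ^ i ≤ X → T^[i] n ≠ T^[i] (3 ^ j * n + b)} X

/-- `f` at the successors, also at the state `(0, 0)`. -/
theorem f_step (t : ℕ) (p : ℕ × ℤ) : f (t + 1) p = (f t (st false p) + f t (st true p)) / 2 := by
  by_cases hp : p = (0, 0)
  · subst hp
    have h1 : st false (0, 0) = (0, 0) := by simp [st]
    have h2 : st true (0, 0) = (0, 0) := by simp [st]
    rw [h1, h2, f_zero_state, f_zero_state]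
    norm_num
  · exact f_succ hp t

/-- An affine map with an odd multiplier, followed by a division by `2`. -/
theorem half_dvd {m : ℕ} {c d : ℤ} (hc : IsCoprime (2 : ℤ) c) {φ : ℤ → ℤ} {x y : ℤ}
    (hx : 2 * φ x = c * x + d) (hy : 2 * φ y = c * y + d)
    (h : (2 : ℤ) ^ m ∣ φ x - φ y) : (2 : ℤ) ^ (m + 1) ∣ x - y := by
  have h1 : c * (x - y) = 2 * (φ x - φ y) := by linear_combination hy - hx
  have h2 : (2 : ℤ) ^ (m + 1) ∣ c * (x - y) := by
    rw [h1, pow_succ, mul_comm ((2 : ℤ) ^ m) 2]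
    exact mul_dvd_mul_left 2 h
  exact (IsCoprime.pow_left hc).dvd_of_dvd_mul_left h2

/-- The sum of `f` over a complete residue system modulo `2 ^ m`. -/
theorem avg_gen (t : ℕ) (H : ℕ → ℕ → ℝ) (h0 : ∀ D s, H 0 D ≤ f t (D, s))
    (h1 : ∀ m D, H (m + 1) (D + 1) ≤ H m (D + 1) / 2 + (H m (D + 2) + H m D) / 4)
    (h2 : ∀ m, H (m + 1) 0 ≤ H m 0 / 2 + H m 1 / 2) (m : ℕ) :
    ∀ (D : ℕ) (I : Finset ℤ), InjMod m I → I.card = 2 ^ m →
      2 ^ m * H m D ≤ ∑ s ∈ I, f (m + t) (D, s) := by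
  classical
  induction m with
  | zero =>
    intro D I _ hc
    obtain ⟨s, rfl⟩ := Finset.card_eq_one.mp (by simpa using hc)
    rw [Finset.sum_singleton, pow_zero, one_mul, zero_add]
    exact h0 D s
  | succ m ih =>
    intro D I hI hcard
    set E : Finset ℤ := I.filter (fun x => x % 2 = 0) with hE
    set O : Finset ℤ := I.filter (fun x => ¬ x % 2 = 0) with hO
    have hsum : E.card + O.card = I.card := by
      rw [hE, hO]
      exact Finset.card_filter_add_card_filter_not (s := I) (fun x => x % 2 = 0)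
    -- the sum over an injective image
    have himg : ∀ (J : Finset ℤ) (φ : ℤ → ℤ), J ⊆ I →
        (∀ x ∈ J, ∀ y ∈ J, (2 : ℤ) ^ m ∣ φ x - φ y → (2 : ℤ) ^ (m + 1) ∣ x - y) →
        J.card ≤ 2 ^ m ∧ (J.card = 2 ^ m → ∀ D', 2 ^ m * H m D' ≤
          ∑ s ∈ J, f (m + t) (D', φ s)) := by
      intro J φ hJI hφ
      have hinj : Set.InjOn φ (J : Set ℤ) := by
        intro x hx y hy hxy
        apply hI x (hJI hx) y (hJI hy)
        apply hφ x hx y hy
        rw [hxy, sub_self]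
        exact dvd_zero _
      have hmod : InjMod m (J.image φ) := by
        intro a ha b hb hab
        obtain ⟨x, hx, rfl⟩ := Finset.mem_image.mp ha
        obtain ⟨y, hy, rfl⟩ := Finset.mem_image.mp hb
        rw [hI x (hJI hx) y (hJI hy) (hφ x hx y hy hab)]
      have hci : (J.image φ).card = J.card := Finset.card_image_of_injOn hinj
      refine ⟨by rw [← hci]; exact hmod.card_le, fun hJ D' => ?_⟩
      have h3 := ih D' (J.image φ) hmod (by rw [hci, hJ])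
      rwa [Finset.sum_image (f := fun s => f (m + t) (D', s)) hinj] at h3
    have hEsub : E ⊆ I := Finset.filter_subset _ _
    have hOsub : O ⊆ I := Finset.filter_subset _ _
    have hEm : ∀ x ∈ E, x % 2 = 0 := fun x hx => (Finset.mem_filter.mp hx).2
    have hOm : ∀ x ∈ O, ¬ x % 2 = 0 := fun x hx => (Finset.mem_filter.mp hx).2
    have c1 : IsCoprime (2 : ℤ) 1 := isCoprime_one_right
    have c3 : IsCoprime (2 : ℤ) 3 := ⟨-1, 1, by norm_num⟩
    have cm3 : IsCoprime (2 : ℤ) (-3) := ⟨-1, -1, by norm_num⟩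
    have hE1 := himg E (fun s => s / 2) hEsub (fun x hx y hy h =>
      half_dvd (c := 1) (d := 0) c1 (φ := fun s => s / 2)
        (by have := hEm x hx; show 2 * (x / 2) = 1 * x + 0; omega)
        (by have := hEm y hy; show 2 * (y / 2) = 1 * y + 0; omega) h)
    have hO1 := himg O (fun s => (3 * s - 1) / 2) hOsub (fun x hx y hy h =>
      half_dvd (c := 3) (d := -1) c3 (φ := fun s => (3 * s - 1) / 2)
        (by have := hOm x hx; show 2 * ((3 * x - 1) / 2) = 3 * x + -1; omega)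
        (by have := hOm y hy; show 2 * ((3 * y - 1) / 2) = 3 * y + -1; omega) h)
    have hEc : E.card = 2 ^ m := by
      have := hE1.1
      have := hO1.1
      rw [hcard, pow_succ] at hsum
      omega
    have hOc : O.card = 2 ^ m := by
      have := hE1.1
      have := hO1.1
      rw [hcard, pow_succ] at hsum
      omega
    obtain ⟨l, hl⟩ : ∃ l : ℤ, (3 : ℤ) ^ D = 2 * l + 1 := by
      have h3 : (3 : ℤ) ^ D % 2 = 1 := by
        have : Odd ((3 : ℤ) ^ D) := Odd.pow (by decide)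
        exact Int.odd_iff.mp this
      exact ⟨(3 : ℤ) ^ D / 2, by omega⟩
    have hE2 := himg E (fun s => (3 * s + 3 ^ D - 1) / 2) hEsub (fun x hx y hy h =>
      half_dvd (c := 3) (d := 2 * l) c3 (φ := fun s => (3 * s + 3 ^ D - 1) / 2)
        (by have := hEm x hx; show 2 * ((3 * x + 3 ^ D - 1) / 2) = 3 * x + 2 * l; rw [hl]; omega)
        (by have := hEm y hy; show 2 * ((3 * y + 3 ^ D - 1) / 2) = 3 * y + 2 * l; rw [hl]; omega)
        h)
    have eE : ∑ s ∈ E, f (m + 1 + t) (D, s) =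
        (∑ s ∈ E, f (m + t) (D, s / 2) + ∑ s ∈ E, f (m + t) (D, (3 * s + 3 ^ D - 1) / 2)) / 2 := by
      rw [← Finset.sum_add_distrib, Finset.sum_div]
      apply Finset.sum_congr rfl
      intro s hs
      rw [show m + 1 + t = (m + t) + 1 by omega, f_step, st_false_even (hEm s hs),
        st_true_even (hEm s hs)]
    have hsplit : ∑ s ∈ I, f (m + 1 + t) (D, s) =
        ∑ s ∈ E, f (m + 1 + t) (D, s) + ∑ s ∈ O, f (m + 1 + t) (D, s) := by
      rw [hE, hO, Finset.sum_filter_add_sum_filter_not]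
    have g1 := hE1.2 hEc D
    have g2 := hE2.2 hEc D
    have hp : (0 : ℝ) < 2 ^ m := by positivity
    rcases D with _ | D
    · -- `D = 0`
      have hO2 := himg O (fun s => -((3 * s + 1) / 2)) hOsub (fun x hx y hy h =>
        half_dvd (c := -3) (d := -1) cm3 (φ := fun s => -((3 * s + 1) / 2))
          (by have := hOm x hx; show 2 * (-((3 * x + 1) / 2)) = -3 * x + -1; omega)
          (by have := hOm y hy; show 2 * (-((3 * y + 1) / 2)) = -3 * y + -1; omega) h)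
      have eO : ∑ s ∈ O, f (m + 1 + t) (0, s) =
          (∑ s ∈ O, f (m + t) (1, (3 * s - 1) / 2) +
            ∑ s ∈ O, f (m + t) (1, -((3 * s + 1) / 2))) / 2 := by
        rw [← Finset.sum_add_distrib, Finset.sum_div]
        apply Finset.sum_congr rfl
        intro s hs
        rw [show m + 1 + t = (m + t) + 1 by omega, f_step, st_false_odd (hOm s hs),
          st_true_odd_zero (hOm s hs)]
      have g3 := hO1.2 hOc 1
      have g4 := hO2.2 hOc 1
      have g5 := mul_le_mul_of_nonneg_left (h2 m) hp.le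
      rw [hsplit, eE, eO, pow_succ]
      linarith
    · have hO2 := himg O (fun s => (s + 3 ^ D) / 2) hOsub (fun x hx y hy h => by
        obtain ⟨k, hk⟩ : ∃ k : ℤ, (3 : ℤ) ^ D = 2 * k + 1 := by
          have h3 : (3 : ℤ) ^ D % 2 = 1 := by
            have : Odd ((3 : ℤ) ^ D) := Odd.pow (by decide)
            exact Int.odd_iff.mp this
          exact ⟨(3 : ℤ) ^ D / 2, by omega⟩
        exact half_dvd (c := 1) (d := 2 * k + 1) c1 (φ := fun s => (s + 3 ^ D) / 2)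
          (by have := hOm x hx; show 2 * ((x + 3 ^ D) / 2) = 1 * x + (2 * k + 1); rw [hk]; omega)
          (by have := hOm y hy; show 2 * ((y + 3 ^ D) / 2) = 1 * y + (2 * k + 1); rw [hk]; omega)
          h)
      have eO : ∑ s ∈ O, f (m + 1 + t) (D + 1, s) =
          (∑ s ∈ O, f (m + t) (D + 1 + 1, (3 * s - 1) / 2) +
            ∑ s ∈ O, f (m + t) (D, (s + 3 ^ D) / 2)) / 2 := by
        rw [← Finset.sum_add_distrib, Finset.sum_div]
        apply Finset.sum_congr rfl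
        intro s hs
        rw [show m + 1 + t = (m + t) + 1 by omega, f_step, st_false_odd (hOm s hs),
          st_true_odd (hOm s hs)]
      have g3 := hO1.2 hOc (D + 1 + 1)
      have g4 := hO2.2 hOc D
      have g5 := mul_le_mul_of_nonneg_left (h1 m D) hp.le
      rw [hsplit, eE, eO, pow_succ]
      have e3 : D + 2 = D + 1 + 1 := rfl
      rw [e3] at g5
      linarith

/-- An even polynomial below `f`. -/
theorem f_ge_even (t D : ℕ) (s : ℤ) (ht : 1 ≤ t) (q : ℝ) (hq : 0 < q) (hqt : q ^ 2 ≤ t) :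
    ((D : ℝ) ^ 2 / q - (D : ℝ) ^ 4 / (4 * q ^ 3)) / Real.sqrt (6 * t) ≤ f t (D, s) := by
  have htR : (1 : ℝ) ≤ t := by exact_mod_cast ht
  have hpos : (0 : ℝ) < 6 * t := by positivity
  set a : ℝ := Real.sqrt (6 * t) with ha
  have ha0 : 0 < a := Real.sqrt_pos.mpr hpos
  have ha2 : a ^ 2 = 6 * t := Real.sq_sqrt hpos.le
  refine le_trans ?_ (mart_le ha0 t D s)
  have h1 : mart a t (D : ℝ) = (5 / 4 * (D : ℝ) - (D : ℝ) ^ 3 / (12 * t)) / a := by
    unfold mart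
    rw [ha2]
    field_simp
    ring
  rw [h1]
  apply div_le_div_of_nonneg_right _ ha0.le
  obtain ⟨u, hu, hD⟩ : ∃ u : ℝ, 0 ≤ u ∧ (D : ℝ) = u * q := ⟨D / q, by positivity, by field_simp⟩
  rw [hD]
  have e1 : (u * q) ^ 2 / q - (u * q) ^ 4 / (4 * q ^ 3) = q * (u ^ 2 - u ^ 4 / 4) := by
    field_simp
  have e2 : (u * q) ^ 3 / (12 * t) ≤ q * (u ^ 3 / 12) := by
    rw [div_le_iff₀ (by positivity)]
    have : q * (u ^ 3 / 12) * (12 * (t : ℝ)) - (u * q) ^ 3 = u ^ 3 * q * (t - q ^ 2) := by ring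
    have h3 : 0 ≤ u ^ 3 * q * (t - q ^ 2) := by
      apply mul_nonneg (by positivity)
      linarith
    linarith
  rw [e1]
  have e3 : u ^ 2 - u ^ 4 / 4 ≤ 5 / 4 * u - u ^ 3 / 12 := by
    have h4 : 5 / 4 * u - u ^ 3 / 12 - (u ^ 2 - u ^ 4 / 4) =
        u * (1 / 4 * (u ^ 3 - u ^ 2 / 3 - 4 * u + 5)) := by ring
    have h5 : 0 ≤ u ^ 3 - u ^ 2 / 3 - 4 * u + 5 := by
      nlinarith [mul_nonneg hu (sq_nonneg (u - 1)), sq_nonneg (u - 1), sq_nonneg (u - 6 / 5),
        mul_nonneg hu (sq_nonneg (u - 6 / 5)), mul_nonneg hu (sq_nonneg (u - 5 / 4))]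
    have h6 : 0 ≤ u * (1 / 4 * (u ^ 3 - u ^ 2 / 3 - 4 * u + 5)) := by positivity
    linarith
  have e4 := mul_le_mul_of_nonneg_left e3 hq.le
  linarith

/-- The average of `f` over a complete residue system modulo `2 ^ m`. -/
theorem avg_f (t m D : ℕ) (ht : 1 ≤ t) (hN : 3 * ((D : ℝ) ^ 2 + m / 2) ≤ 2 * t) (I : Finset ℤ)
    (hI : InjMod m I) (hc : I.card = 2 ^ m) :
    2 ^ m * (1 / 6 * Real.sqrt (((D : ℝ) ^ 2 + m / 2) / t)) ≤ ∑ s ∈ I, f (m + t) (D, s) := by
  have htR : (1 : ℝ) ≤ t := by exact_mod_cast ht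
  set N : ℝ := (D : ℝ) ^ 2 + m / 2 with hNdef
  have hN0 : 0 ≤ N := by positivity
  rcases hN0.lt_or_eq with hNp | hN00
  swap
  · rw [← hN00]
    simp only [zero_div, Real.sqrt_zero, mul_zero]
    exact Finset.sum_nonneg fun s _ => f_nonneg _ _
  set q : ℝ := Real.sqrt (3 / 2 * N) with hq
  have hq0 : 0 < q := Real.sqrt_pos.mpr (by positivity)
  have hq2 : q ^ 2 = 3 / 2 * N := Real.sq_sqrt (by positivity)
  have hpos : (0 : ℝ) < 6 * t := by positivity
  set a : ℝ := Real.sqrt (6 * t) with ha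
  have ha0 : 0 < a := Real.sqrt_pos.mpr hpos
  have key := avg_gen t (fun m D => (((D : ℝ) ^ 2 + m / 2) / q -
      ((D : ℝ) ^ 4 + 3 * m * (D : ℝ) ^ 2 + 3 / 4 * (m : ℝ) ^ 2) / (4 * q ^ 3)) / a)
    (by
      intro D s
      have h := f_ge_even t D s ht q hq0 (by rw [hq2]; linarith)
      rw [← ha] at h
      refine le_trans (le_of_eq ?_) h
      push_cast
      ring)
    (by
      intro m D
      have e : ((((D + 1 : ℕ) : ℝ) ^ 2 + (m : ℝ) / 2) / q -
          (((D + 1 : ℕ) : ℝ) ^ 4 + 3 * m * ((D + 1 : ℕ) : ℝ) ^ 2 + 3 / 4 * (m : ℝ) ^ 2) /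
            (4 * q ^ 3)) / a / 2 +
          (((((D + 2 : ℕ) : ℝ) ^ 2 + (m : ℝ) / 2) / q -
          (((D + 2 : ℕ) : ℝ) ^ 4 + 3 * m * ((D + 2 : ℕ) : ℝ) ^ 2 + 3 / 4 * (m : ℝ) ^ 2) /
            (4 * q ^ 3)) / a +
          (((D : ℝ) ^ 2 + (m : ℝ) / 2) / q -
          ((D : ℝ) ^ 4 + 3 * m * (D : ℝ) ^ 2 + 3 / 4 * (m : ℝ) ^ 2) /
            (4 * q ^ 3)) / a) / 4 -
          ((((D + 1 : ℕ) : ℝ) ^ 2 + ((m + 1 : ℕ) : ℝ) / 2) / q -
          (((D + 1 : ℕ) : ℝ) ^ 4 + 3 * ((m + 1 : ℕ) : ℝ) * ((D + 1 : ℕ) : ℝ) ^ 2 +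
            3 / 4 * ((m + 1 : ℕ) : ℝ) ^ 2) / (4 * q ^ 3)) / a = 1 / (16 * q ^ 3 * a) := by
        push_cast
        field_simp
        ring
      have h3 : 0 ≤ 1 / (16 * q ^ 3 * a) := by positivity
      linarith)
    (by
      intro m
      have e : ((((0 : ℕ) : ℝ) ^ 2 + (m : ℝ) / 2) / q -
          (((0 : ℕ) : ℝ) ^ 4 + 3 * m * ((0 : ℕ) : ℝ) ^ 2 + 3 / 4 * (m : ℝ) ^ 2) /
            (4 * q ^ 3)) / a / 2 +
          ((((1 : ℕ) : ℝ) ^ 2 + (m : ℝ) / 2) / q -
          (((1 : ℕ) : ℝ) ^ 4 + 3 * m * ((1 : ℕ) : ℝ) ^ 2 + 3 / 4 * (m : ℝ) ^ 2) /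
            (4 * q ^ 3)) / a / 2 -
          ((((0 : ℕ) : ℝ) ^ 2 + ((m + 1 : ℕ) : ℝ) / 2) / q -
          (((0 : ℕ) : ℝ) ^ 4 + 3 * ((m + 1 : ℕ) : ℝ) * ((0 : ℕ) : ℝ) ^ 2 +
            3 / 4 * ((m + 1 : ℕ) : ℝ) ^ 2) / (4 * q ^ 3)) / a = 1 / (16 * q ^ 3 * a) := by
        push_cast
        field_simp
        ring
      have h3 : 0 ≤ 1 / (16 * q ^ 3 * a) := by positivity
      linarith)
    m D I hI hc
  refine le_trans (mul_le_mul_of_nonneg_left ?_ (by positivity)) key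
  -- the numerical part
  have h1 : (D : ℝ) ^ 4 + 3 * m * (D : ℝ) ^ 2 + 3 / 4 * (m : ℝ) ^ 2 ≤ 3 * N ^ 2 := by
    rw [hNdef]
    have : (0 : ℝ) ≤ (D : ℝ) ^ 4 := by positivity
    nlinarith
  have h2 : N / (2 * q) ≤ N / q -
      ((D : ℝ) ^ 4 + 3 * m * (D : ℝ) ^ 2 + 3 / 4 * (m : ℝ) ^ 2) / (4 * q ^ 3) := by
    have h3 : ((D : ℝ) ^ 4 + 3 * m * (D : ℝ) ^ 2 + 3 / 4 * (m : ℝ) ^ 2) / (4 * q ^ 3) ≤
        3 * N ^ 2 / (4 * q ^ 3) := div_le_div_of_nonneg_right h1 (by positivity)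
    have h4 : 3 * N ^ 2 / (4 * q ^ 3) = N / (2 * q) := by
      have : q ^ 3 = q * (3 / 2 * N) := by rw [← hq2]; ring
      rw [this]
      field_simp
      ring
    have h5 : N / q = N / (2 * q) + N / (2 * q) := by
      field_simp
      ring
    rw [h4] at h3
    linarith
  have h6 : 1 / 6 * Real.sqrt (N / t) = N / (2 * q) / a := by
    have e1 : q * a = 3 * Real.sqrt (N * t) := by
      rw [hq, ha, ← Real.sqrt_mul (by positivity)]
      rw [show 3 / 2 * N * (6 * (t : ℝ)) = 3 ^ 2 * (N * t) by ring,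
        Real.sqrt_mul (by positivity), Real.sqrt_sq (by norm_num)]
    have e2 : Real.sqrt (N / t) * Real.sqrt (N * t) = N := by
      rw [← Real.sqrt_mul (by positivity)]
      rw [show N / t * (N * t) = N ^ 2 by field_simp, Real.sqrt_sq hN0]
    rw [div_div, eq_div_iff (by positivity)]
    calc 1 / 6 * Real.sqrt (N / t) * (2 * q * a) = 1 / 3 * Real.sqrt (N / t) * (q * a) := by ring
      _ = Real.sqrt (N / t) * Real.sqrt (N * t) := by rw [e1]; ring
      _ = N := e2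
  rw [h6]
  exact div_le_div_of_nonneg_right h2 ha0.le

/-- The block counted by `count`. -/
theorem block_le_count {e : ℤ} (he : e = 1 ∨ e = -1) {t : ℕ} {X : ℝ} (ht1 : (2 : ℝ) ^ t ≤ X)
    (ht2 : X < 2 ^ (t + 1)) {a : ℤ}
    (ha : ∀ n ∈ Finset.Ico a (a + 2 ^ t), 0 < e * n ∧ e * n ≤ 2 ^ t) (j : ℕ) (b : ℤ) :
    open Classical in
    (((Finset.Ico a (a + 2 ^ t)).filter
        (fun n : ℤ => ∀ i ≤ t, T^[i] n ≠ T^[i] (3 ^ j * n + b))).card : ℝ) ≤
      count e {n : ℤ | ∀ i : ℕ, (2 : ℝ) ^ i ≤ X → T^[i] n ≠ T^[i] (3 ^ j * n + b)} X := by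
  classical
  set G := (Finset.Ico a (a + 2 ^ t)).filter
        (fun n : ℤ => ∀ i ≤ t, T^[i] n ≠ T^[i] (3 ^ j * n + b)) with hG
  unfold count
  have hfin : {x : ℤ | x ∈ {n : ℤ | ∀ i : ℕ, (2 : ℝ) ^ i ≤ X →
      T^[i] n ≠ T^[i] (3 ^ j * n + b)} ∧ 0 < e * x ∧ ((e * x : ℤ) : ℝ) ≤ X}.Finite := by
    apply Set.Finite.subset (Set.finite_Icc (-⌊X⌋ : ℤ) ⌊X⌋)
    intro n hn
    obtain ⟨_, h3, h4⟩ := hn
    have h5 := Int.le_floor.mpr h4
    rw [Set.mem_Icc]
    rcases he with rfl | rfl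
    · constructor <;> omega
    · constructor <;> omega
  have h3 : G.card = ((G : Set ℤ)).ncard := (Set.ncard_coe_finset G).symm
  rw [h3]
  have h4 : ((G : Set ℤ)).ncard ≤ {x : ℤ | x ∈ {n : ℤ | ∀ i : ℕ, (2 : ℝ) ^ i ≤ X →
      T^[i] n ≠ T^[i] (3 ^ j * n + b)} ∧ 0 < e * x ∧ ((e * x : ℤ) : ℝ) ≤ X}.ncard := by
    apply Set.ncard_le_ncard _ hfin
    intro n hn
    rw [Finset.mem_coe, hG, Finset.mem_filter] at hn
    obtain ⟨h5, h6⟩ := ha n hn.1
    refine ⟨?_, h5, ?_⟩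
    · intro i hi
      apply hn.2 i
      have h7 : (2 : ℝ) ^ i < 2 ^ (t + 1) := lt_of_le_of_lt hi ht2
      have h8 := (pow_lt_pow_iff_right₀ (by norm_num : (1 : ℝ) < 2)).mp h7
      omega
    · have h7 : ((e * n : ℤ) : ℝ) ≤ ((2 ^ t : ℤ) : ℝ) := by exact_mod_cast h6
      push_cast at h7 ⊢
      linarith
  exact_mod_cast h4

theorem low_avg : LowAvgStatement := by
  classical
  obtain ⟨T₀, hT₀⟩ := exp_large
  refine ⟨1 / 54, 2 ^ (T₀ + 8), by norm_num, ?_, ?_⟩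
  · calc (2 : ℝ) = 2 ^ 1 := by norm_num
      _ ≤ 2 ^ (T₀ + 8) := pow_le_pow_right₀ (by norm_num) (by omega)
  intro e he j m a X hX hjm hb
  have hX1 : (1 : ℝ) ≤ X := le_trans (one_le_pow₀ (by norm_num)) hX
  have hX0 : 0 < X := by linarith
  rcases Nat.eq_zero_or_pos (j + m) with hz | hpos
  · -- `j = m = 0`: the bound is `0`
    have hj0 : j = 0 := by omega
    have hm0 : m = 0 := by omega
    subst hj0 hm0
    simp only [Nat.cast_zero, ne_eq, OfNat.ofNat_ne_zero, not_false_eq_true, zero_pow, add_zero,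
      zero_div, Real.sqrt_zero, mul_zero, zero_mul]
    exact Finset.sum_nonneg fun b _ => by unfold count; positivity
  -- the scale
  obtain ⟨τ, ht1, ht2⟩ : ∃ t : ℕ, (2 : ℝ) ^ t ≤ X ∧ X < 2 ^ (t + 1) :=
    exists_nat_pow_near hX1 (by norm_num)
  have htT : T₀ + 8 ≤ τ := by
    by_contra hlt
    have : τ + 1 ≤ T₀ + 8 := by omega
    have h1 : (2 : ℝ) ^ (τ + 1) ≤ 2 ^ (T₀ + 8) := pow_le_pow_right₀ (by norm_num) this
    linarith
  have htR : (8 : ℝ) ≤ τ := by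
    have : 8 ≤ τ := by omega
    exact_mod_cast this
  have hl2 : Real.log 2 < 0.7 := by
    have := Real.log_two_lt_d9
    linarith
  have hl2' : (0.69 : ℝ) < Real.log 2 := by
    have := Real.log_two_gt_d9
    linarith
  have hlogX : Real.log X ≤ 4 / 5 * τ := by
    have h1 : Real.log X ≤ Real.log (2 ^ (τ + 1)) := Real.log_le_log hX0 ht2.le
    rw [Real.log_pow] at h1
    push_cast at h1
    nlinarith
  have hlogX2 : (τ : ℝ) ≤ 9 / 4 * Real.log X := by
    have h1 : Real.log (2 ^ τ) ≤ Real.log X := Real.log_le_log (by positivity) ht1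
    rw [Real.log_pow] at h1
    nlinarith
  have hlog0 : 0 < Real.log X := by linarith
  have hp : (0 : ℝ) < 2 ^ τ := by positivity
  have hpm : (0 : ℝ) < 2 ^ m := by positivity
  have hX2 : X ≤ 2 * 2 ^ τ := by
    rw [pow_succ] at ht2
    linarith
  have hjj : (0 : ℝ) ≤ (j : ℝ) ^ 2 := by positivity
  have hm0 : (0 : ℝ) ≤ m := Nat.cast_nonneg m
  have hmτ : (m : ℝ) ≤ 2 / 5 * τ := by linarith
  have hmle : m ≤ τ := by
    have : (m : ℝ) ≤ τ := by linarith
    exact_mod_cast this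
  obtain ⟨t, rfl⟩ : ∃ t, τ = m + t := ⟨τ - m, by omega⟩
  have htm : ((m + t : ℕ) : ℝ) = m + t := by push_cast; ring
  have ht1R : (1 : ℝ) ≤ t := by
    rw [htm] at htR hmτ
    linarith
  have ht1' : 1 ≤ t := by exact_mod_cast ht1R
  set S : ℝ := (j : ℝ) ^ 2 + m with hS
  have hS1 : 1 ≤ S := by
    rw [hS]
    rcases Nat.eq_zero_or_pos j with h | h
    · have h1 : 1 ≤ m := by omega
      have h2 : (1 : ℝ) ≤ m := by exact_mod_cast h1
      linarith
    · have h2 : (1 : ℝ) ≤ j := by exact_mod_cast h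
      nlinarith
  set τR : ℝ := ((m + t : ℕ) : ℝ) with hτR
  have hτ0 : 0 < τR := by linarith
  -- the block of the first numbers
  obtain ⟨a', ha, hsm⟩ : ∃ a' : ℤ,
      (∀ n ∈ Finset.Ico a' (a' + 2 ^ (m + t)), 0 < e * n ∧ e * n ≤ 2 ^ (m + t)) ∧
      ∀ Y : ℝ, 0 ≤ Y →
      (((Finset.Ico a' (a' + 2 ^ (m + t))).filter (fun n : ℤ => |(n : ℝ)| ≤ Y)).card : ℝ) ≤ Y := by
    rcases he with rfl | rfl
    · refine ⟨1, ?_, small_pos (m + t)⟩
      intro n hn
      rw [Finset.mem_Ico] at hn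
      constructor <;> linarith [hn.1, hn.2]
    · refine ⟨-2 ^ (m + t), ?_, small_neg (m + t)⟩
      intro n hn
      rw [Finset.mem_Ico] at hn
      constructor <;> linarith [hn.1, hn.2]
  -- the threshold
  set R : ℝ := Real.sqrt (S / τR) with hR
  have hR0 : 0 < R := Real.sqrt_pos.mpr (by positivity)
  have hR2 : R ^ 2 = S / τR := Real.sq_sqrt (by positivity)
  set Y : ℝ := 2 ^ (m + t) * R / 36 with hYdef
  have hY : 0 < Y := by positivity
  have hbig := hT₀ (m + t) (by omega)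
  rw [← hτR] at hbig
  have h43 : ((4 : ℝ) / 3) ^ (m + t) ≤ 2 ^ (m + t) :=
    pow_le_pow_left₀ (by norm_num) (by norm_num) _
  have hbY : ∀ b ∈ Finset.Ico a (a + 2 ^ m), 3 * |(b : ℝ)| ≤ Y := by
    intro b hbm
    apply abs_le_of_sq_le_sq' _ hY.le |>.2
    have e1 : (3 * |(b : ℝ)|) ^ 2 = 9 * (b : ℝ) ^ 2 := by
      rw [mul_pow, sq_abs]
      norm_num
    have e0 : (b : ℝ) ^ 2 ≤ X := by
      have h1 : |(b : ℝ)| ^ 2 ≤ (Real.sqrt X) ^ 2 :=
        pow_le_pow_left₀ (abs_nonneg _) (hb b hbm) 2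
      rwa [sq_abs, Real.sq_sqrt hX0.le] at h1
    have e2 : Y ^ 2 = 2 ^ (m + t) * (2 ^ (m + t) * S) / (1296 * τR) := by
      rw [hYdef, div_pow, mul_pow, hR2]
      field_simp
      ring
    rw [e1, e2, le_div_iff₀ (by positivity)]
    have e4 : (32400 : ℝ) * τR ≤ 2 ^ (m + t) * S := by
      calc (32400 : ℝ) * τR ≤ 2 ^ (m + t) * 1 := by linarith
        _ ≤ _ := mul_le_mul_of_nonneg_left hS1 hp.le
    calc 9 * (b : ℝ) ^ 2 * (1296 * τR) ≤ 9 * (2 * 2 ^ (m + t)) * (1296 * τR) := by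
          apply mul_le_mul_of_nonneg_right _ (by positivity)
          linarith
      _ = 2 ^ (m + t) * (23328 * τR) := by ring
      _ ≤ 2 ^ (m + t) * (32400 * τR) := by
        apply mul_le_mul_of_nonneg_left _ hp.le
        linarith
      _ ≤ _ := mul_le_mul_of_nonneg_left e4 hp.le
  have hacc : 18 * 3 ^ (m + t) / Y ≤ 2 ^ (m + t) * R / 36 := by
    rw [div_le_iff₀ hY, hYdef]
    have e1 : 2 ^ (m + t) * R / 36 * (2 ^ (m + t) * R / 36) =
        2 ^ (m + t) * 2 ^ (m + t) * S / (1296 * τR) := by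
      calc 2 ^ (m + t) * R / 36 * (2 ^ (m + t) * R / 36) =
          2 ^ (m + t) * 2 ^ (m + t) * R ^ 2 / 1296 := by ring
        _ = _ := by rw [hR2]; field_simp
    rw [e1, le_div_iff₀ (by positivity)]
    have e4 : (2 : ℝ) ^ (m + t) * 2 ^ (m + t) = 3 ^ (m + t) * (4 / 3) ^ (m + t) := by
      rw [← mul_pow, ← mul_pow]
      norm_num
    have hq : (0 : ℝ) < 3 ^ (m + t) := by positivity
    calc (18 : ℝ) * 3 ^ (m + t) * (1296 * τR) = 3 ^ (m + t) * (23328 * τR) := by ring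
      _ ≤ 3 ^ (m + t) * (4 / 3) ^ (m + t) := by
        apply mul_le_mul_of_nonneg_left _ hq.le
        linarith
      _ = 2 ^ (m + t) * 2 ^ (m + t) * 1 := by rw [e4, mul_one]
      _ ≤ _ := mul_le_mul_of_nonneg_left hS1 (by positivity)
  -- the sum over the block of shifts
  have hterm : ∀ b ∈ Finset.Ico a (a + 2 ^ m),
      2 ^ (m + t) * f (m + t) (j, -b) - 2 ^ (m + t) * R / 18 ≤
        count e {n : ℤ | ∀ i : ℕ, (2 : ℝ) ^ i ≤ X → T^[i] n ≠ T^[i] (3 ^ j * n + b)} X := by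
    intro b hbm
    have h1 := low_block (m + t) j b a' Y hY (hbY b hbm) (hsm Y hY.le)
    have h2 := block_le_count he ht1 ht2 ha j b
    have h3 : Y = 2 ^ (m + t) * R / 36 := hYdef
    linarith
  refine le_trans ?_ (Finset.sum_le_sum hterm)
  rw [Finset.sum_sub_distrib, ← Finset.mul_sum, Finset.sum_const, nsmul_eq_mul]
  have hcard : (Finset.Ico a (a + 2 ^ m)).card = 2 ^ m := by
    rw [Int.card_Ico, add_sub_cancel_left]
    have : ((2 : ℤ) ^ m) = ((2 ^ m : ℕ) : ℤ) := by push_cast; rfl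
    rw [this, Int.toNat_natCast]
  rw [hcard]
  push_cast
  -- the average of `f`
  have hneg : ∑ b ∈ Finset.Ico a (a + 2 ^ m), f (m + t) (j, -b) =
      ∑ s ∈ (Finset.Ico a (a + 2 ^ m)).image (fun b => -b), f (m + t) (j, s) := by
    rw [Finset.sum_image]
    intro x _ y _ hxy
    exact neg_injective hxy
  have hImod : InjMod m ((Finset.Ico a (a + 2 ^ m)).image (fun b => -b)) := by
    intro x' hx' y' hy' hxy
    obtain ⟨x, hx, rfl⟩ := Finset.mem_image.mp hx'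
    obtain ⟨y, hy, rfl⟩ := Finset.mem_image.mp hy'
    have h1 : (2 : ℤ) ^ m ∣ y - x := by
      have : -x - -y = y - x := by ring
      rwa [this] at hxy
    rw [injMod_Ico m a y hy x hx h1]
  have hIc : ((Finset.Ico a (a + 2 ^ m)).image (fun b => -b)).card = 2 ^ m := by
    rw [Finset.card_image_of_injective _ neg_injective, hcard]
  have hN : 3 * ((j : ℝ) ^ 2 + m / 2) ≤ 2 * t := by
    rw [htm] at hlogX hmτ
    linarith
  have havg := avg_f t m j ht1' hN _ hImod hIc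
  rw [← hneg] at havg
  have hsq : R / 9 ≤ 1 / 6 * Real.sqrt (((j : ℝ) ^ 2 + m / 2) / t) := by
    have h1 : (2 / 3 * R) ^ 2 ≤ ((j : ℝ) ^ 2 + m / 2) / t := by
      rw [mul_pow, hR2, le_div_iff₀ (by linarith)]
      have h2 : S / τR * t ≤ S := by
        rw [div_mul_eq_mul_div, div_le_iff₀ hτ0]
        apply mul_le_mul_of_nonneg_left _ (by linarith)
        rw [htm]
        linarith
      nlinarith
    have h2 : 2 / 3 * R ≤ Real.sqrt (((j : ℝ) ^ 2 + m / 2) / t) := Real.le_sqrt_of_sq_le h1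
    linarith
  have h9 : 2 ^ (m + t) * (2 ^ m * (R / 9)) ≤
      2 ^ (m + t) * ∑ b ∈ Finset.Ico a (a + 2 ^ m), f (m + t) (j, -b) := by
    apply mul_le_mul_of_nonneg_left _ hp.le
    exact le_trans (mul_le_mul_of_nonneg_left hsq hpm.le) havg
  have h10 : Real.sqrt (S / Real.log X) ≤ 3 / 2 * R := by
    rw [hR, show (3 : ℝ) / 2 = Real.sqrt (9 / 4) by
      rw [show (9 : ℝ) / 4 = (3 / 2) ^ 2 by norm_num, Real.sqrt_sq (by norm_num)],
      ← Real.sqrt_mul (by norm_num)]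
    apply Real.sqrt_le_sqrt
    rw [div_le_iff₀ hlog0]
    have h11 : S ≤ 9 / 4 * S * (Real.log X / τR) := by
      have h12 : 1 ≤ 9 / 4 * (Real.log X / τR) := by
        rw [← mul_div_assoc, le_div_iff₀ hτ0]
        linarith
      nlinarith
    calc S ≤ 9 / 4 * S * (Real.log X / τR) := h11
      _ = _ := by ring
  have h13 : 1 / 54 * X * Real.sqrt (S / Real.log X) * 2 ^ m ≤
      1 / 54 * (2 * 2 ^ (m + t)) * (3 / 2 * R) * 2 ^ m := by
    apply mul_le_mul_of_nonneg_right _ hpm.le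
    apply mul_le_mul _ h10 (Real.sqrt_nonneg _) (by positivity)
    linarith
  refine le_trans h13 ?_
  linarith

end Pool.Agent.Lib.MP_edb5be_nt.CO
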