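import Pool.Agent.Lib.MP_edb5be_nt.CO.LowAvg

/-!
# The exact order of the number of pairs that do not meet, in all parameters

Row LOWUNI: for `2 ^ m` consecutive `b` the mean number of `n` up to `X` for which the trajectories
of `n` and `2 ^ i * 3 ^ j * n + b` do not meet with the delay `i` is at least
`c X min (1, √((1 + (min i m + j) ^ 2 + m) / log X))`.
-/

set_option autoImplicit false

namespace Pool.Agent.Lib.MP_edb5be_nt.CO

open Filter Topology

/-- ROW LOWUNI. -/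
def LowUniStatement : Prop := ∃ c X₀ : ℝ, 0 < c ∧ 2 ≤ X₀ ∧ ∀ e : ℤ, e = 1 ∨ e = -1 →
  ∀ (i j m : ℕ) (a : ℤ) (X : ℝ), (j ≠ 0 ∨ m ≠ 0 ∨ a ≠ 0) → X₀ ≤ X →
    (∀ b ∈ Finset.Ico a (a + 2 ^ m), (3 / 2 : ℝ) ^ i * |(b : ℝ)| ≤ Real.sqrt X) →
      c * X * min 1 (Real.sqrt ((1 + ((min i m : ℕ) + (j : ℝ)) ^ 2 + m) / Real.log X)) * 2 ^ m ≤
        ∑ b ∈ Finset.Ico a (a + 2 ^ m), count e {n : ℤ | ∀ t : ℕ, (2 : ℝ) ^ t ≤ X →
          T^[t] n ≠ T^[t + i] (2 ^ i * 3 ^ j * n + b)} X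

/-! ## The lower bound for one state -/

theorem f_pt0 (τ D : ℕ) (s : ℤ) (hτ : 1 ≤ τ) :
    1 / 4 * min 1 ((D : ℝ) / Real.sqrt τ) ≤ f τ (D, s) := by
  have hτR : (1 : ℝ) ≤ τ := by exact_mod_cast hτ
  have hs0 : 0 < Real.sqrt τ := Real.sqrt_pos.mpr (by linarith)
  have hss : Real.sqrt τ * Real.sqrt τ = τ := Real.mul_self_sqrt (by linarith)
  have hD0 : (0 : ℝ) ≤ D := Nat.cast_nonneg D
  refine le_trans ?_ (f_lower_D τ D s)
  have hpos : (0 : ℝ) < (D : ℝ) ^ 2 + 3 * τ := by positivity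
  have hr0 : 0 < Real.sqrt ((D : ℝ) ^ 2 + 3 * τ) := Real.sqrt_pos.mpr hpos
  rw [le_div_iff₀ hr0]
  rcases le_total (D : ℝ) (Real.sqrt τ) with h | h
  · have h1 : Real.sqrt ((D : ℝ) ^ 2 + 3 * τ) ≤ 2 * Real.sqrt τ := by
      rw [Real.sqrt_le_left (by positivity)]
      nlinarith
    have h2 : min 1 ((D : ℝ) / Real.sqrt τ) ≤ (D : ℝ) / Real.sqrt τ := min_le_right _ _
    have h3 : 0 ≤ (D : ℝ) / Real.sqrt τ := by positivity
    calc 1 / 4 * min 1 ((D : ℝ) / Real.sqrt τ) * Real.sqrt ((D : ℝ) ^ 2 + 3 * τ)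
        ≤ 1 / 4 * ((D : ℝ) / Real.sqrt τ) * (2 * Real.sqrt τ) := by
          apply mul_le_mul _ h1 hr0.le (by positivity)
          linarith
      _ = 1 / 2 * (D : ℝ) := by field_simp; ring
      _ ≤ D := by linarith
  · have h1 : Real.sqrt ((D : ℝ) ^ 2 + 3 * τ) ≤ 2 * (D : ℝ) := by
      rw [Real.sqrt_le_left (by positivity)]
      nlinarith
    have h2 : min 1 ((D : ℝ) / Real.sqrt τ) ≤ 1 := min_le_left _ _
    calc 1 / 4 * min 1 ((D : ℝ) / Real.sqrt τ) * Real.sqrt ((D : ℝ) ^ 2 + 3 * τ)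
        ≤ 1 / 4 * 1 * (2 * (D : ℝ)) := by
          apply mul_le_mul _ h1 hr0.le (by positivity)
          linarith
      _ ≤ D := by linarith

theorem f_pt (τ D : ℕ) (s : ℤ) (hτ : 1 ≤ τ) (hp : (D, s) ≠ ((0 : ℕ), (0 : ℤ))) :
    1 / 8 * min 1 ((1 + (D : ℝ)) / Real.sqrt τ) ≤ f τ (D, s) := by
  have hτR : (1 : ℝ) ≤ τ := by exact_mod_cast hτ
  have hs0 : 0 < Real.sqrt τ := Real.sqrt_pos.mpr (by linarith)
  have hss : Real.sqrt τ * Real.sqrt τ = τ := Real.mul_self_sqrt (by linarith)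
  rcases Nat.eq_zero_or_pos D with rfl | hD
  · have hs : s ≠ 0 := fun h => hp (by rw [h])
    refine le_trans ?_ (f_lower_0 τ s hs)
    have hr0 : 0 < Real.sqrt (1 + 3 * (τ : ℝ)) := Real.sqrt_pos.mpr (by positivity)
    have h1 : Real.sqrt (1 + 3 * (τ : ℝ)) ≤ 2 * Real.sqrt τ := by
      rw [Real.sqrt_le_left (by positivity)]
      nlinarith
    rw [le_div_iff₀ hr0]
    have h2 : min 1 ((1 + ((0 : ℕ) : ℝ)) / Real.sqrt τ) ≤ 1 / Real.sqrt τ := by
      refine le_trans (min_le_right _ _) (le_of_eq ?_)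
      simp
    calc 1 / 8 * min 1 ((1 + ((0 : ℕ) : ℝ)) / Real.sqrt τ) * Real.sqrt (1 + 3 * (τ : ℝ))
        ≤ 1 / 8 * (1 / Real.sqrt τ) * (2 * Real.sqrt τ) := by
          apply mul_le_mul _ h1 hr0.le (by positivity)
          linarith
      _ = 1 / 4 := by field_simp; norm_num
      _ ≤ 1 := by norm_num
  · refine le_trans ?_ (f_pt0 τ D s hτ)
    have hD1 : (1 : ℝ) ≤ D := by exact_mod_cast hD
    have h1 : (1 + (D : ℝ)) / Real.sqrt τ ≤ 2 * ((D : ℝ) / Real.sqrt τ) := by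
      rw [← mul_div_assoc]
      apply div_le_div_of_nonneg_right _ hs0.le
      linarith
    have h2 : min 1 ((1 + (D : ℝ)) / Real.sqrt τ) ≤ 2 * min 1 ((D : ℝ) / Real.sqrt τ) := by
      rcases min_cases 1 ((D : ℝ) / Real.sqrt τ) with ⟨h3, _⟩ | ⟨h3, _⟩
      · rw [h3]
        have := min_le_left 1 ((1 + (D : ℝ)) / Real.sqrt τ)
        linarith
      · rw [h3]
        have := min_le_right 1 ((1 + (D : ℝ)) / Real.sqrt τ)
        linarith
    linarith

/-- The mean of `f` over a complete residue system modulo `2 ^ M`, without a condition on `D`. -/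
theorem avg_all (τ M D : ℕ) (hτ : 1 ≤ τ) (hM : 20 * M ≤ 11 * τ) (I : Finset ℤ)
    (hI : InjMod M I) (hc : I.card = 2 ^ M) :
    2 ^ M * (1 / 12 * min 1 (Real.sqrt (((D : ℝ) ^ 2 + M) / τ))) ≤ ∑ s ∈ I, f τ (D, s) := by
  have hτR : (1 : ℝ) ≤ τ := by exact_mod_cast hτ
  have hMR : (20 : ℝ) * M ≤ 11 * τ := by exact_mod_cast hM
  have hp : (0 : ℝ) < 2 ^ M := by positivity
  obtain ⟨t, rfl⟩ : ∃ t, τ = M + t := ⟨τ - M, by omega⟩
  have ht1 : 1 ≤ t := by omega
  have ht1R : (1 : ℝ) ≤ t := by exact_mod_cast ht1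
  push_cast at hMR hτR
  have hM0 : (0 : ℝ) ≤ M := Nat.cast_nonneg M
  by_cases hcase : 3 * ((D : ℝ) ^ 2 + M / 2) ≤ 2 * t
  · refine le_trans ?_ (avg_f t M D ht1 hcase I hI hc)
    apply mul_le_mul_of_nonneg_left _ hp.le
    have h1 : min 1 (Real.sqrt (((D : ℝ) ^ 2 + M) / ((M + t : ℕ) : ℝ))) ≤
        2 * Real.sqrt (((D : ℝ) ^ 2 + M / 2) / t) := by
      refine le_trans (min_le_right _ _) ?_
      rw [show (2 : ℝ) = Real.sqrt 4 by
        rw [show (4 : ℝ) = 2 ^ 2 by norm_num, Real.sqrt_sq (by norm_num)],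
        ← Real.sqrt_mul (by norm_num)]
      apply Real.sqrt_le_sqrt
      push_cast
      rw [← mul_div_assoc]
      apply div_le_div₀ (by positivity) _ (by linarith) (by linarith)
      rw [show Real.sqrt 4 = 2 by
        rw [show (4 : ℝ) = 2 ^ 2 by norm_num, Real.sqrt_sq (by norm_num)]]
      nlinarith [sq_nonneg (D : ℝ)]
    linarith
  · -- `D` is large
    have hD2 : ((M : ℝ) + t) ≤ 40 * (D : ℝ) ^ 2 := by
      push Not at hcase
      nlinarith
    have hD0 : (0 : ℝ) ≤ D := Nat.cast_nonneg D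
    have hDpos : 0 < (D : ℝ) := by
      rcases hD0.lt_or_eq with h | h
      · exact h
      · rw [← h] at hD2
        nlinarith
    have hpt : ∀ s : ℤ, (1 / 12 : ℝ) ≤ f (M + t) (D, s) := by
      intro s
      refine le_trans ?_ (f_lower_D (M + t) D s)
      have hr0 : 0 < Real.sqrt ((D : ℝ) ^ 2 + 3 * ((M + t : ℕ) : ℝ)) :=
        Real.sqrt_pos.mpr (by positivity)
      rw [le_div_iff₀ hr0]
      have h1 : Real.sqrt ((D : ℝ) ^ 2 + 3 * ((M + t : ℕ) : ℝ)) ≤ 12 * (D : ℝ) := by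
        rw [Real.sqrt_le_left (by positivity)]
        push_cast
        nlinarith
      linarith
    have hsum : ∑ s ∈ I, (1 / 12 : ℝ) ≤ ∑ s ∈ I, f (M + t) (D, s) :=
      Finset.sum_le_sum fun s _ => hpt s
    refine le_trans ?_ hsum
    rw [Finset.sum_const, hc, nsmul_eq_mul]
    push_cast
    apply mul_le_mul_of_nonneg_left _ hp.le
    have := min_le_left 1 (Real.sqrt (((D : ℝ) ^ 2 + M) / ((M : ℝ) + t)))
    linarith

/-! ## The reduction of the delay `i` -/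

theorem iter_od (i : ℕ) : ∀ x b : ℤ, T^[i] (2 ^ i * x + b) = 3 ^ od i b * x + T^[i] b := by
  induction i with
  | zero => intro x b; simp [od]
  | succ i ih =>
    intro x b
    rw [Function.iterate_succ_apply, Function.iterate_succ_apply, od_succ]
    rcases Int.even_or_odd' b with ⟨c, rfl | rfl⟩
    · have e1 : T (2 ^ (i + 1) * x + 2 * c) = 2 ^ i * x + c := by
        have : (2 : ℤ) ^ (i + 1) * x + 2 * c = 2 * (2 ^ i * x + c) := by rw [pow_succ]; ring
        rw [this]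
        simp [T]
      have e2 : T (2 * c) = c := by simp [T]
      have e3 : ob (2 * c) = 0 := by simp [ob]
      rw [e1, e2, e3, ih, zero_add]
    · have e1 : T (2 ^ (i + 1) * x + (2 * c + 1)) = 2 ^ i * (3 * x) + (3 * c + 2) := by
        have : (2 : ℤ) ^ (i + 1) * x + (2 * c + 1) = 2 * (2 ^ i * x + c) + 1 := by
          rw [pow_succ]; ring
        rw [this]
        unfold T
        rw [if_neg (by omega)]
        have h : (3 * (2 * (2 ^ i * x + c) + 1) + 1) / 2 = 3 * (2 ^ i * x + c) + 2 := by omega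
        rw [h]
        ring
      have e2 : T (2 * c + 1) = 3 * c + 2 := by
        unfold T
        rw [if_neg (by omega)]
        omega
      have e3 : ob (2 * c + 1) = 1 := by
        unfold ob
        rw [if_neg (by omega)]
      rw [e1, e2, e3, ih, pow_add, pow_one]
      ring

theorem delay_set (i j : ℕ) (b : ℤ) (X : ℝ) :
    {n : ℤ | ∀ t : ℕ, (2 : ℝ) ^ t ≤ X → T^[t] n ≠ T^[t + i] (2 ^ i * 3 ^ j * n + b)} =
      {n : ℤ | ∀ t : ℕ, (2 : ℝ) ^ t ≤ X →
        T^[t] n ≠ T^[t] (3 ^ (j + od i b) * n + T^[i] b)} := by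
  ext n
  have h : ∀ t : ℕ, T^[t + i] (2 ^ i * 3 ^ j * n + b) =
      T^[t] (3 ^ (j + od i b) * n + T^[i] b) := by
    intro t
    rw [Function.iterate_add_apply]
    have e : (2 : ℤ) ^ i * 3 ^ j * n + b = 2 ^ i * (3 ^ j * n) + b := by ring
    rw [e, iter_od, pow_add]
    congr 1
    ring
  simp only [Set.mem_ofPred_eq, h]

theorem T_abs (x : ℤ) : |((T x : ℤ) : ℝ)| + 1 ≤ 3 / 2 * (|(x : ℝ)| + 1) := by
  rcases Int.even_or_odd' x with ⟨c, rfl | rfl⟩
  · have e2 : T (2 * c) = c := by simp [T]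
    rw [e2]
    push_cast
    rw [abs_mul, abs_of_pos (by norm_num : (0 : ℝ) < 2)]
    have := abs_nonneg (c : ℝ)
    linarith
  · have e2 : T (2 * c + 1) = 3 * c + 2 := by
      unfold T
      rw [if_neg (by omega)]
      omega
    rw [e2]
    push_cast
    have h1 : (3 : ℝ) * c + 2 = 3 / 2 * (2 * c + 1) + 1 / 2 := by ring
    rw [h1]
    have h2 := abs_add_le (3 / 2 * (2 * (c : ℝ) + 1)) (1 / 2)
    rw [abs_mul, abs_of_pos (by norm_num : (0 : ℝ) < 3 / 2),
      abs_of_pos (by norm_num : (0 : ℝ) < 1 / 2)] at h2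
    linarith

theorem iter_abs (i : ℕ) (x : ℤ) :
    |((T^[i] x : ℤ) : ℝ)| + 1 ≤ (3 / 2 : ℝ) ^ i * (|(x : ℝ)| + 1) := by
  induction i with
  | zero => simp
  | succ i ih =>
    rw [Function.iterate_succ_apply', pow_succ]
    have h1 := T_abs (T^[i] x)
    linarith

theorem iter_zero (i : ℕ) : T^[i] 0 = 0 := by
  induction i with
  | zero => rfl
  | succ i ih =>
    rw [Function.iterate_succ_apply', ih]
    simp [T]

theorem iter_small (i : ℕ) (b : ℤ) (X : ℝ) (h : (3 / 2 : ℝ) ^ i * |(b : ℝ)| ≤ Real.sqrt X) :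
    |((T^[i] b : ℤ) : ℝ)| ≤ 2 * Real.sqrt X := by
  by_cases hb : b = 0
  · subst hb
    rw [iter_zero]
    simp
  · have h1 : (1 : ℝ) ≤ |(b : ℝ)| := by
      have : (1 : ℤ) ≤ |b| := Int.one_le_abs hb
      exact_mod_cast this
    have h2 := iter_abs i b
    have h3 : (0 : ℝ) < (3 / 2 : ℝ) ^ i := by positivity
    nlinarith

/-! ## The sums over complete residue systems, with the delay -/

/-- The sum of the probabilities over the shifts of a finite set, with the delay `i`. -/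
noncomputable def Phi (τ i j : ℕ) (I : Finset ℤ) : ℝ := ∑ b ∈ I, f τ (j + od i b, -T^[i] b)

/-- The concave minorant. -/
noncomputable def hh (A S : ℝ) (j : ℕ) : ℝ := min 1 ((A + j) / S)

theorem hh_concave {A S : ℝ} (hS : 0 < S) (j i : ℕ) :
    hh A S j + hh A S (j + i + 1) ≤ hh A S (j + 1) + hh A S (j + i) := by
  unfold hh
  have hj : (0 : ℝ) ≤ j := Nat.cast_nonneg j
  have hi : (0 : ℝ) ≤ i := Nat.cast_nonneg i
  have e0 : ∀ x : ℝ, min 1 (x / S) = min S x / S := by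
    intro x
    rw [← div_self hS.ne', min_div_div_right hS.le]
  rw [e0, e0, e0, e0, ← add_div, ← add_div]
  apply div_le_div_of_nonneg_right _ hS.le
  push_cast
  rcases min_cases S (A + (j : ℝ)) with ⟨h1, h1'⟩ | ⟨h1, h1'⟩ <;>
  rcases min_cases S (A + ((j : ℝ) + i + 1)) with ⟨h2, h2'⟩ | ⟨h2, h2'⟩ <;>
  rcases min_cases S (A + ((j : ℝ) + 1)) with ⟨h3, h3'⟩ | ⟨h3, h3'⟩ <;>
  rcases min_cases S (A + ((j : ℝ) + i)) with ⟨h4, h4'⟩ | ⟨h4, h4'⟩ <;>
  rw [h1, h2, h3, h4] <;> linarith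

theorem phi_gen (τ M i₀ : ℕ) (c A S : ℝ) (hc : 0 ≤ c) (hS : 0 < S)
    (base : ∀ (j : ℕ) (I : Finset ℤ), InjMod M I → I.card = 2 ^ M →
      2 ^ M * (c * hh A S j) ≤ Phi τ i₀ j I) (μ : ℕ) :
    ∀ (j : ℕ) (I : Finset ℤ), InjMod (M + μ) I → I.card = 2 ^ (M + μ) →
      2 ^ (M + μ) * (c * ((hh A S j + hh A S (j + μ)) / 2)) ≤ Phi τ (μ + i₀) j I := by
  classical
  induction μ with
  | zero =>
    intro j I hI hcard
    have h1 := base j I hI hcard
    rw [zero_add, Nat.add_zero, Nat.add_zero]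
    have e : (hh A S j + hh A S j) / 2 = hh A S j := by ring
    rw [e]
    exact h1
  | succ μ ih =>
    intro j I hI hcard
    set E : Finset ℤ := I.filter (fun x => x % 2 = 0) with hE
    set O : Finset ℤ := I.filter (fun x => ¬ x % 2 = 0) with hO
    have hsum : E.card + O.card = I.card := by
      rw [hE, hO]
      exact Finset.card_filter_add_card_filter_not (s := I) (fun x => x % 2 = 0)
    have hEm : ∀ x ∈ E, x % 2 = 0 := fun x hx => (Finset.mem_filter.mp hx).2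
    have hOm : ∀ x ∈ O, ¬ x % 2 = 0 := fun x hx => (Finset.mem_filter.mp hx).2
    have hEd : ∀ x ∈ E, ∀ y ∈ E, (2 : ℤ) ^ (M + μ) ∣ T x - T y → x = y := by
      intro x hx y hy hxy
      apply hI x (Finset.filter_subset _ _ hx) y (Finset.filter_subset _ _ hy)
      apply two_pow_dvd_even (hEm x hx) (hEm y hy)
      rw [← nx_one, ← nx_one, nx_even (hEm x hx), nx_even (hEm y hy)] at hxy
      exact hxy
    have hOd : ∀ x ∈ O, ∀ y ∈ O, (2 : ℤ) ^ (M + μ) ∣ T x - T y → x = y := by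
      intro x hx y hy hxy
      apply hI x (Finset.filter_subset _ _ hx) y (Finset.filter_subset _ _ hy)
      apply two_pow_dvd_odd (p := (1, 0)) (hOm x hx) (hOm y hy)
      rw [nx_one, nx_one]
      exact hxy
    have himg : ∀ J : Finset ℤ, (∀ x ∈ J, ∀ y ∈ J, (2 : ℤ) ^ (M + μ) ∣ T x - T y → x = y) →
        Set.InjOn T (J : Set ℤ) ∧ InjMod (M + μ) (J.image T) := by
      intro J hJ
      constructor
      · intro x hx y hy hxy
        apply hJ x hx y hy
        rw [hxy, sub_self]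
        exact dvd_zero _
      · intro a ha b hb hab
        obtain ⟨x, hx, rfl⟩ := Finset.mem_image.mp ha
        obtain ⟨y, hy, rfl⟩ := Finset.mem_image.mp hb
        rw [hJ x hx y hy hab]
    obtain ⟨hEi, hEM⟩ := himg E hEd
    obtain ⟨hOi, hOM⟩ := himg O hOd
    have hEc1 : E.card ≤ 2 ^ (M + μ) := by
      rw [← Finset.card_image_of_injOn hEi]
      exact hEM.card_le
    have hOc1 : O.card ≤ 2 ^ (M + μ) := by
      rw [← Finset.card_image_of_injOn hOi]
      exact hOM.card_le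
    have hpow : (2 : ℕ) ^ (M + (μ + 1)) = 2 * 2 ^ (M + μ) := by
      rw [← Nat.add_assoc, pow_succ]
      ring
    rw [hcard, hpow] at hsum
    have hEc : E.card = 2 ^ (M + μ) := by omega
    have hOc : O.card = 2 ^ (M + μ) := by omega
    have g1 := ih j (E.image T) hEM (by rw [Finset.card_image_of_injOn hEi, hEc])
    have g2 := ih (j + 1) (O.image T) hOM (by rw [Finset.card_image_of_injOn hOi, hOc])
    have e1 : Phi τ (μ + 1 + i₀) j I = Phi τ (μ + i₀) j (E.image T) +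
        Phi τ (μ + i₀) (j + 1) (O.image T) := by
      unfold Phi
      rw [Finset.sum_image (f := fun b => f τ (j + od (μ + i₀) b, -T^[μ + i₀] b)) hEi,
        Finset.sum_image (f := fun b => f τ (j + 1 + od (μ + i₀) b, -T^[μ + i₀] b)) hOi,
        show μ + 1 + i₀ = (μ + i₀) + 1 by omega]
      rw [hE, hO, ← Finset.sum_filter_add_sum_filter_not I (fun x => x % 2 = 0)]
      congr 1
      · apply Finset.sum_congr rfl
        intro b hb
        have hb2 : b % 2 = 0 := (Finset.mem_filter.mp hb).2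
        rw [od_succ, Function.iterate_succ_apply]
        have : ob b = 0 := by unfold ob; rw [if_pos hb2]
        rw [this, zero_add]
      · apply Finset.sum_congr rfl
        intro b hb
        have hb2 : ¬ b % 2 = 0 := (Finset.mem_filter.mp hb).2
        rw [od_succ, Function.iterate_succ_apply]
        have : ob b = 1 := by unfold ob; rw [if_neg hb2]
        rw [this, ← Nat.add_assoc]
    rw [e1]
    have hcv := hh_concave (A := A) hS j μ
    have e2 : j + 1 + μ = j + μ + 1 := by omega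
    rw [e2] at g2
    have e3 : j + (μ + 1) = j + μ + 1 := by omega
    have e4 : (2 : ℝ) ^ (M + (μ + 1)) = 2 * 2 ^ (M + μ) := by
      rw [← Nat.add_assoc, pow_succ]
      ring
    rw [e3, e4]
    have hp : (0 : ℝ) < 2 ^ (M + μ) := by positivity
    have hcp : 0 ≤ 2 ^ (M + μ) * c := by positivity
    have := mul_le_mul_of_nonneg_left hcv hcp
    linarith

/-- The sum over a complete residue system modulo `2 ^ m`, with any delay `i`. -/
theorem phi_lower (τ i j m : ℕ) (hτ : 1 ≤ τ) (hm : 20 * m ≤ 11 * τ) (I : Finset ℤ)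
    (hI : InjMod m I) (hc : I.card = 2 ^ m) :
    2 ^ m * (1 / 96 * min 1 (Real.sqrt ((((min i m : ℕ) + (j : ℝ)) ^ 2 + m) / τ))) ≤
      Phi τ i j I := by
  have hτR : (1 : ℝ) ≤ τ := by exact_mod_cast hτ
  have hs0 : 0 < Real.sqrt τ := Real.sqrt_pos.mpr (by linarith)
  have hp : (0 : ℝ) < 2 ^ m := by positivity
  have hj0 : (0 : ℝ) ≤ j := Nat.cast_nonneg j
  -- the numerical step: `M + (μ + j) ^ 2 ≥ (m + (μ + j) ^ 2) / 2`
  have hnum : ∀ M μ : ℕ, M + μ = m →
      min 1 (Real.sqrt ((((μ : ℕ) + (j : ℝ)) ^ 2 + m) / τ)) ≤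
        2 * hh (Real.sqrt M) (Real.sqrt τ) (j + μ) := by
    intro M μ hMμ
    have hμ0 : (0 : ℝ) ≤ μ := Nat.cast_nonneg μ
    have hM0 : (0 : ℝ) ≤ M := Nat.cast_nonneg M
    have hmR : (m : ℝ) = M + μ := by rw [← hMμ]; push_cast; ring
    have hμ2 : (μ : ℝ) ≤ (μ : ℝ) ^ 2 := by
      rcases Nat.eq_zero_or_pos μ with h | h
      · rw [h]; norm_num
      · have : (1 : ℝ) ≤ μ := by exact_mod_cast h
        nlinarith
    have hsM : Real.sqrt M * Real.sqrt M = M := Real.mul_self_sqrt hM0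
    have hsM0 : 0 ≤ Real.sqrt M := Real.sqrt_nonneg _
    have h1 : Real.sqrt ((((μ : ℕ) + (j : ℝ)) ^ 2 + m) / τ) ≤
        2 * ((Real.sqrt M + ((j + μ : ℕ) : ℝ)) / Real.sqrt τ) := by
      rw [Real.sqrt_div (by positivity), ← mul_div_assoc]
      apply div_le_div_of_nonneg_right _ hs0.le
      rw [Real.sqrt_le_left (by positivity), hmR]
      push_cast
      nlinarith [mul_nonneg hsM0 hj0, mul_nonneg hsM0 hμ0, mul_nonneg hj0 hμ0]
    unfold hh
    rcases min_cases 1 ((Real.sqrt M + ((j + μ : ℕ) : ℝ)) / Real.sqrt τ) with ⟨h3, _⟩ | ⟨h3, _⟩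
    · rw [h3]
      have := min_le_left 1 (Real.sqrt ((((μ : ℕ) + (j : ℝ)) ^ 2 + m) / τ))
      linarith
    · rw [h3]
      exact le_trans (min_le_right _ _) h1
  have hh0 : ∀ (A : ℝ) (k : ℕ), 0 ≤ A → 0 ≤ hh A (Real.sqrt τ) k := by
    intro A k hA
    unfold hh
    have : (0 : ℝ) ≤ k := Nat.cast_nonneg k
    positivity
  rcases le_total i m with him | hmi
  · -- `i ≤ m`
    obtain ⟨M, rfl⟩ : ∃ M, m = M + i := ⟨m - i, by omega⟩
    rw [min_eq_left him]
    have base : ∀ (j : ℕ) (I : Finset ℤ), InjMod M I → I.card = 2 ^ M →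
        2 ^ M * (1 / 24 * hh (Real.sqrt M) (Real.sqrt τ) j) ≤ Phi τ 0 j I := by
      intro j I hI hc
      have e : Phi τ 0 j I = ∑ s ∈ I.image (fun b => -b), f τ (j, s) := by
        rw [Finset.sum_image (fun x _ y _ hxy => neg_injective hxy)]
        rfl
      rw [e]
      have h1 := avg_all τ M j hτ (by omega) (I.image (fun b => -b)) (by
        intro x' hx' y' hy' hxy
        obtain ⟨x, hx, rfl⟩ := Finset.mem_image.mp hx'
        obtain ⟨y, hy, rfl⟩ := Finset.mem_image.mp hy'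
        have h1 : (2 : ℤ) ^ M ∣ y - x := by
          have : -x - -y = y - x := by ring
          rwa [this] at hxy
        rw [hI y hy x hx h1]) (by rw [Finset.card_image_of_injective _ neg_injective, hc])
      refine le_trans (mul_le_mul_of_nonneg_left ?_ (by positivity)) h1
      have hj0 : (0 : ℝ) ≤ j := Nat.cast_nonneg j
      have hM0 : (0 : ℝ) ≤ M := Nat.cast_nonneg M
      have hsM : Real.sqrt M * Real.sqrt M = M := Real.mul_self_sqrt hM0
      have hsM0 : 0 ≤ Real.sqrt M := Real.sqrt_nonneg _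
      have h2 : (Real.sqrt M + (j : ℝ)) / Real.sqrt τ ≤
          2 * Real.sqrt (((j : ℝ) ^ 2 + M) / τ) := by
        rw [Real.sqrt_div (by positivity), ← mul_div_assoc]
        apply div_le_div_of_nonneg_right _ hs0.le
        rw [show (2 : ℝ) = Real.sqrt 4 by
          rw [show (4 : ℝ) = 2 ^ 2 by norm_num, Real.sqrt_sq (by norm_num)],
          ← Real.sqrt_mul (by norm_num)]
        apply Real.le_sqrt_of_sq_le
        nlinarith [sq_nonneg (Real.sqrt M - (j : ℝ))]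
      unfold hh
      have h3 : min 1 ((Real.sqrt M + (j : ℝ)) / Real.sqrt τ) ≤
          2 * min 1 (Real.sqrt (((j : ℝ) ^ 2 + M) / τ)) := by
        rcases min_cases 1 (Real.sqrt (((j : ℝ) ^ 2 + M) / τ)) with ⟨h3, _⟩ | ⟨h3, _⟩
        · rw [h3]
          have := min_le_left 1 ((Real.sqrt M + (j : ℝ)) / Real.sqrt τ)
          linarith
        · rw [h3]
          exact le_trans (min_le_right _ _) h2
      linarith
    have key := phi_gen τ M 0 (1 / 24) (Real.sqrt M) (Real.sqrt τ) (by norm_num)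
      hs0 base i j I hI hc
    rw [Nat.add_zero] at key
    refine le_trans (mul_le_mul_of_nonneg_left ?_ hp.le) key
    have h1 := hnum M i rfl
    have h2 := hh0 (Real.sqrt M) j (Real.sqrt_nonneg _)
    linarith
  · -- `m ≤ i`
    obtain ⟨i₀, rfl⟩ : ∃ i₀, i = m + i₀ := ⟨i - m, by omega⟩
    rw [min_eq_right hmi]
    have base : ∀ (j : ℕ) (I : Finset ℤ), InjMod 0 I → I.card = 2 ^ 0 →
        2 ^ 0 * (1 / 24 * hh 0 (Real.sqrt τ) j) ≤ Phi τ i₀ j I := by
      intro j I _ hc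
      obtain ⟨b, rfl⟩ := Finset.card_eq_one.mp (by simpa using hc)
      unfold Phi
      rw [Finset.sum_singleton, pow_zero, one_mul]
      refine le_trans ?_ (f_pt0 τ (j + od i₀ b) (-T^[i₀] b) hτ)
      unfold hh
      rw [zero_add]
      have hj0 : (0 : ℝ) ≤ j := Nat.cast_nonneg j
      have h1 : min 1 ((j : ℝ) / Real.sqrt τ) ≤
          min 1 (((j + od i₀ b : ℕ) : ℝ) / Real.sqrt τ) := by
        apply min_le_min le_rfl
        apply div_le_div_of_nonneg_right _ hs0.le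
        push_cast
        have : (0 : ℝ) ≤ od i₀ b := Nat.cast_nonneg _
        linarith
      have h2 : (0 : ℝ) ≤ min 1 ((j : ℝ) / Real.sqrt τ) := by positivity
      linarith
    have hI' : InjMod (0 + m) I := by rwa [zero_add]
    have hc' : I.card = 2 ^ (0 + m) := by rwa [zero_add]
    have key := phi_gen τ 0 i₀ (1 / 24) 0 (Real.sqrt τ) (by norm_num)
      hs0 base m j I hI' hc'
    rw [zero_add] at key
    refine le_trans (mul_le_mul_of_nonneg_left ?_ hp.le) key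
    have h1 := hnum 0 m (zero_add m)
    rw [Nat.cast_zero, Real.sqrt_zero] at h1
    have h2 := hh0 0 j le_rfl
    linarith

/-! ## The count -/

theorem exp_large_gen (K : ℝ) (hK : 0 < K) : ∃ T₀ : ℕ, ∀ t ≥ T₀, K * (t : ℝ) ≤ (4 / 3) ^ t := by
  have h := tendsto_pow_const_div_const_pow_of_one_lt 1 (r := (4 / 3 : ℝ)) (by norm_num)
  have h1 : ∀ᶠ n : ℕ in atTop, (n : ℝ) ^ 1 / (4 / 3) ^ n < 1 / K :=
    h.eventually_lt_const (by positivity)
  obtain ⟨T₀, hT⟩ := Filter.eventually_atTop.mp h1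
  refine ⟨T₀, fun t ht => ?_⟩
  have h2 := hT t ht
  rw [pow_one, div_lt_div_iff₀ (by positivity) hK] at h2
  linarith

/-- The sum over a block of shifts, with the delay `i`; only the pair `(n, 2 ^ i n)` is excluded. -/
theorem phi_block (τ i j m : ℕ) (a : ℤ) (hτ : 1 ≤ τ) (hm : 20 * m ≤ 11 * τ)
    (hne : j ≠ 0 ∨ m ≠ 0 ∨ a ≠ 0) :
    2 ^ m * (1 / 192 * min 1 (Real.sqrt ((1 + ((min i m : ℕ) + (j : ℝ)) ^ 2 + m) / τ))) ≤
      Phi τ i j (Finset.Ico a (a + 2 ^ m)) := by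
  have hτR : (1 : ℝ) ≤ τ := by exact_mod_cast hτ
  have hp : (0 : ℝ) < 2 ^ m := by positivity
  have hcard : (Finset.Ico a (a + 2 ^ m)).card = 2 ^ m := by
    rw [Int.card_Ico, add_sub_cancel_left]
    have : ((2 : ℤ) ^ m) = ((2 ^ m : ℕ) : ℤ) := by push_cast; rfl
    rw [this, Int.toNat_natCast]
  by_cases hz : j = 0 ∧ m = 0
  · obtain ⟨rfl, rfl⟩ := hz
    have ha : a ≠ 0 := by
      rcases hne with h | h | h
      · exact absurd rfl h
      · exact absurd rfl h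
      · exact h
    have e1 : Finset.Ico a (a + 2 ^ 0) = {a} := by
      ext x
      rw [Finset.mem_Ico, Finset.mem_singleton, pow_zero]
      omega
    rw [e1]
    unfold Phi
    rw [Finset.sum_singleton]
    have hstate : (0 + od i a, -T^[i] a) ≠ ((0 : ℕ), (0 : ℤ)) := by
      intro h
      have h1 : 0 + od i a = 0 := (Prod.mk.inj h).1
      have h2 : -T^[i] a = 0 := (Prod.mk.inj h).2
      have h1' : od i a = 0 := by omega
      have h2' : T^[i] a = 0 := by omega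
      obtain ⟨c, hc0, hc1, hc2⟩ := affine i a
      rw [h1', pow_zero, pow_zero] at hc2
      rw [h1', pow_zero, h2'] at hc1
      have : c ≤ 0 := by
        have : (1 : ℤ) * c ≤ (1 - 1) * 2 ^ i := hc2
        simpa using this
      have hc : c = 0 := le_antisymm this hc0
      rw [hc] at hc1
      apply ha
      linarith
    have h1 := f_pt τ (0 + od i a) (-T^[i] a) hτ hstate
    refine le_trans ?_ h1
    have hs0 : 0 < Real.sqrt τ := Real.sqrt_pos.mpr (by linarith)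
    have h2 : min 1 (Real.sqrt ((1 + ((min i 0 : ℕ) + ((0 : ℕ) : ℝ)) ^ 2 + ((0 : ℕ) : ℝ)) / τ)) ≤
        min 1 ((1 + ((0 + od i a : ℕ) : ℝ)) / Real.sqrt τ) := by
      apply min_le_min le_rfl
      have e2 : (1 + ((min i 0 : ℕ) + ((0 : ℕ) : ℝ)) ^ 2 + ((0 : ℕ) : ℝ)) / (τ : ℝ) = 1 / τ := by
        rw [Nat.min_zero]
        norm_num
      rw [e2, Real.sqrt_div (by norm_num), Real.sqrt_one]
      apply div_le_div_of_nonneg_right _ hs0.le
      have : (0 : ℝ) ≤ ((0 + od i a : ℕ) : ℝ) := Nat.cast_nonneg _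
      linarith
    have h3 : (0 : ℝ) ≤ min 1 (Real.sqrt ((1 + ((min i 0 : ℕ) + ((0 : ℕ) : ℝ)) ^ 2 +
        ((0 : ℕ) : ℝ)) / τ)) := by positivity
    rw [pow_zero, one_mul]
    linarith
  · refine le_trans (mul_le_mul_of_nonneg_left ?_ hp.le)
      (phi_lower τ i j m hτ hm _ (injMod_Ico m a) hcard)
    have hS1 : (1 : ℝ) ≤ ((min i m : ℕ) + (j : ℝ)) ^ 2 + m := by
      have hj0 : (0 : ℝ) ≤ j := Nat.cast_nonneg j
      have hm0 : (0 : ℝ) ≤ m := Nat.cast_nonneg m
      have hi0 : (0 : ℝ) ≤ ((min i m : ℕ) : ℝ) := Nat.cast_nonneg _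
      rcases Nat.eq_zero_or_pos j with h | h
      · have h1 : 1 ≤ m := by omega
        have h2 : (1 : ℝ) ≤ m := by exact_mod_cast h1
        have h3 : 0 ≤ (((min i m : ℕ) : ℝ) + (j : ℝ)) ^ 2 := by positivity
        linarith
      · have h2 : (1 : ℝ) ≤ j := by exact_mod_cast h
        nlinarith
    set S0 : ℝ := ((min i m : ℕ) + (j : ℝ)) ^ 2 + m with hS0
    have e0 : 1 + ((min i m : ℕ) + (j : ℝ)) ^ 2 + m = 1 + S0 := by rw [hS0]; ring
    rw [e0]
    have h1 : Real.sqrt ((1 + S0) / τ) ≤ 2 * Real.sqrt (S0 / τ) := by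
      rw [show (2 : ℝ) = Real.sqrt 4 by
        rw [show (4 : ℝ) = 2 ^ 2 by norm_num, Real.sqrt_sq (by norm_num)],
        ← Real.sqrt_mul (by norm_num)]
      apply Real.sqrt_le_sqrt
      rw [← mul_div_assoc]
      apply div_le_div_of_nonneg_right _ (by linarith)
      linarith
    have h2 : min 1 (Real.sqrt ((1 + S0) / τ)) ≤ 2 * min 1 (Real.sqrt (S0 / τ)) := by
      rcases min_cases 1 (Real.sqrt (S0 / τ)) with ⟨h3, _⟩ | ⟨h3, _⟩
      · rw [h3]
        have := min_le_left 1 (Real.sqrt ((1 + S0) / τ))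
        linarith
      · rw [h3]
        exact le_trans (min_le_right _ _) h1
    linarith

theorem low_uni : LowUniStatement := by
  classical
  obtain ⟨T₀, hT₀⟩ := exp_large_gen 30000000 (by norm_num)
  refine ⟨1 / 1800, 2 ^ (T₀ + 60), by norm_num, ?_, ?_⟩
  · calc (2 : ℝ) = 2 ^ 1 := by norm_num
      _ ≤ 2 ^ (T₀ + 60) := pow_le_pow_right₀ (by norm_num) (by omega)
  intro e he i j m a X hne hX hb
  have hX1 : (1 : ℝ) ≤ X := le_trans (one_le_pow₀ (by norm_num)) hX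
  have hX0 : 0 < X := by linarith
  -- the scale
  obtain ⟨τ, ht1, ht2⟩ : ∃ t : ℕ, (2 : ℝ) ^ t ≤ X ∧ X < 2 ^ (t + 1) :=
    exists_nat_pow_near hX1 (by norm_num)
  have htT : T₀ + 60 ≤ τ := by
    by_contra hlt
    have : τ + 1 ≤ T₀ + 60 := by omega
    have h1 : (2 : ℝ) ^ (τ + 1) ≤ 2 ^ (T₀ + 60) := pow_le_pow_right₀ (by norm_num) this
    linarith
  have hτ1 : 1 ≤ τ := by omega
  have htR : (60 : ℝ) ≤ τ := by
    have : 60 ≤ τ := by omega
    exact_mod_cast this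
  have hτ0 : (0 : ℝ) < τ := by linarith
  have hl2' : (0.69 : ℝ) < Real.log 2 := by
    have := Real.log_two_gt_d9
    linarith
  have hlogX2 : (τ : ℝ) ≤ 9 / 4 * Real.log X := by
    have h1 : Real.log (2 ^ τ) ≤ Real.log X := Real.log_le_log (by positivity) ht1
    rw [Real.log_pow] at h1
    nlinarith
  have hlog0 : 0 < Real.log X := by linarith
  have hp : (0 : ℝ) < 2 ^ τ := by positivity
  have hpm : (0 : ℝ) < 2 ^ m := by positivity
  have hX2 : X ≤ 2 * 2 ^ τ := by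
    rw [pow_succ] at ht2
    linarith
  -- the length of the block of shifts
  have hsX1 : 1 ≤ Real.sqrt X := Real.one_le_sqrt.mpr hX1
  have hbX : ∀ b ∈ Finset.Ico a (a + 2 ^ m), |(b : ℝ)| ≤ Real.sqrt X := by
    intro b hbm
    refine le_trans ?_ (hb b hbm)
    have h1 : (1 : ℝ) ≤ (3 / 2 : ℝ) ^ i := one_le_pow₀ (by norm_num)
    nlinarith [abs_nonneg (b : ℝ)]
  have hm : 20 * m ≤ 11 * τ := by
    have hpmZ : (1 : ℤ) ≤ 2 ^ m := by
      have : (0 : ℤ) < 2 ^ m := by positivity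
      omega
    have h1 := hbX a (by rw [Finset.mem_Ico]; constructor <;> omega)
    have h2 := hbX (a + 2 ^ m - 1) (by rw [Finset.mem_Ico]; constructor <;> omega)
    push_cast at h2
    have h3 : (2 : ℝ) ^ m ≤ 3 * Real.sqrt X := by
      have h4 := (abs_le.mp h1).1
      have h5 := (abs_le.mp h2).2
      linarith
    have h4 : ((2 : ℝ) ^ m) ^ 2 ≤ 9 * X := by
      have h5 := pow_le_pow_left₀ hpm.le h3 2
      rw [mul_pow, Real.sq_sqrt hX0.le] at h5
      linarith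
    have h5 : (2 : ℝ) ^ (2 * m) < 2 ^ (τ + 5) := by
      rw [mul_comm, pow_mul]
      calc ((2 : ℝ) ^ m) ^ 2 ≤ 9 * X := h4
        _ ≤ 9 * (2 * 2 ^ τ) := by linarith
        _ < 2 ^ (τ + 5) := by rw [pow_add]; linarith
    have h6 := (pow_lt_pow_iff_right₀ (by norm_num : (1 : ℝ) < 2)).mp h5
    omega
  set S : ℝ := 1 + ((min i m : ℕ) + (j : ℝ)) ^ 2 + m with hS
  have hS1 : 1 ≤ S := by
    have h1 : 0 ≤ (((min i m : ℕ) : ℝ) + (j : ℝ)) ^ 2 := by positivity
    have h2 : (0 : ℝ) ≤ m := Nat.cast_nonneg m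
    linarith
  -- the block of the first numbers
  obtain ⟨a', ha, hsm⟩ : ∃ a' : ℤ,
      (∀ n ∈ Finset.Ico a' (a' + 2 ^ τ), 0 < e * n ∧ e * n ≤ 2 ^ τ) ∧
      ∀ Y : ℝ, 0 ≤ Y →
      (((Finset.Ico a' (a' + 2 ^ τ)).filter (fun n : ℤ => |(n : ℝ)| ≤ Y)).card : ℝ) ≤ Y := by
    rcases he with rfl | rfl
    · refine ⟨1, ?_, small_pos τ⟩
      intro n hn
      rw [Finset.mem_Ico] at hn
      constructor <;> linarith [hn.1, hn.2]
    · refine ⟨-2 ^ τ, ?_, small_neg τ⟩
      intro n hn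
      rw [Finset.mem_Ico] at hn
      constructor <;> linarith [hn.1, hn.2]
  -- the threshold
  set R : ℝ := min 1 (Real.sqrt (S / τ)) with hR
  have hST : 0 < Real.sqrt (S / τ) := Real.sqrt_pos.mpr (by positivity)
  have hR0 : 0 < R := lt_min one_pos hST
  have hR2 : 1 ≤ R ^ 2 * τ := by
    rcases min_cases 1 (Real.sqrt (S / τ)) with ⟨h3, _⟩ | ⟨h3, _⟩
    · rw [hR, h3]
      linarith
    · rw [hR, h3, Real.sq_sqrt (by positivity), div_mul_cancel₀ _ hτ0.ne']
      exact hS1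
  set Y : ℝ := 2 ^ τ * R / 600 with hYdef
  have hY : 0 < Y := by positivity
  have hbig := hT₀ τ (by omega)
  have h43 : ((4 : ℝ) / 3) ^ τ ≤ 2 ^ τ :=
    pow_le_pow_left₀ (by norm_num) (by norm_num) _
  have hbY : ∀ b ∈ Finset.Ico a (a + 2 ^ m), 3 * |((T^[i] b : ℤ) : ℝ)| ≤ Y := by
    intro b hbm
    apply abs_le_of_sq_le_sq' _ hY.le |>.2
    have e0 := iter_small i b X (hb b hbm)
    have e1 : (3 * |((T^[i] b : ℤ) : ℝ)|) ^ 2 ≤ 36 * X := by
      have h1 : |((T^[i] b : ℤ) : ℝ)| ^ 2 ≤ (2 * Real.sqrt X) ^ 2 :=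
        pow_le_pow_left₀ (abs_nonneg _) e0 2
      rw [mul_pow, Real.sq_sqrt hX0.le] at h1
      rw [mul_pow]
      linarith
    refine le_trans e1 ?_
    have e2 : Y ^ 2 = 2 ^ τ * (2 ^ τ * R ^ 2) / 360000 := by
      rw [hYdef, div_pow, mul_pow]
      ring
    rw [e2, le_div_iff₀ (by norm_num)]
    have e4 : (25920000 : ℝ) ≤ 2 ^ τ * R ^ 2 := by
      have h1 : (25920000 : ℝ) * τ ≤ 2 ^ τ * (R ^ 2 * τ) := by
        calc (25920000 : ℝ) * τ ≤ 2 ^ τ * 1 := by linarith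
          _ ≤ _ := mul_le_mul_of_nonneg_left hR2 hp.le
      have h2 : (25920000 : ℝ) * τ ≤ (2 ^ τ * R ^ 2) * τ := by linarith
      exact le_of_mul_le_mul_right h2 hτ0
    calc 36 * X * 360000 ≤ 36 * (2 * 2 ^ τ) * 360000 := by linarith
      _ = 2 ^ τ * 25920000 := by ring
      _ ≤ _ := mul_le_mul_of_nonneg_left e4 hp.le
  have hacc : 18 * 3 ^ τ / Y ≤ 2 ^ τ * R / 600 := by
    rw [div_le_iff₀ hY, hYdef]
    have e1 : 2 ^ τ * R / 600 * (2 ^ τ * R / 600) =
        3 ^ τ * ((4 / 3) ^ τ * R ^ 2 / 360000) := by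
      have e4 : (2 : ℝ) ^ τ * 2 ^ τ = 3 ^ τ * (4 / 3) ^ τ := by
        rw [← mul_pow, ← mul_pow]
        norm_num
      calc 2 ^ τ * R / 600 * (2 ^ τ * R / 600) = (2 ^ τ * 2 ^ τ) * (R ^ 2 / 360000) := by ring
        _ = _ := by rw [e4]; ring
    rw [e1]
    have e2 : (6480000 : ℝ) ≤ (4 / 3) ^ τ * R ^ 2 := by
      have hq : (0 : ℝ) < (4 / 3) ^ τ := by positivity
      have h1 : (6480000 : ℝ) * τ ≤ (4 / 3) ^ τ * (R ^ 2 * τ) := by
        calc (6480000 : ℝ) * τ ≤ (4 / 3) ^ τ * 1 := by linarith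
          _ ≤ _ := mul_le_mul_of_nonneg_left hR2 hq.le
      have h2 : (6480000 : ℝ) * τ ≤ ((4 / 3) ^ τ * R ^ 2) * τ := by linarith
      exact le_of_mul_le_mul_right h2 hτ0
    have hq : (0 : ℝ) < 3 ^ τ := by positivity
    calc (18 : ℝ) * 3 ^ τ = 3 ^ τ * 18 := by ring
      _ ≤ 3 ^ τ * ((4 / 3) ^ τ * R ^ 2 / 360000) := by
        apply mul_le_mul_of_nonneg_left _ hq.le
        linarith
  -- the sum over the block of shifts
  have hterm : ∀ b ∈ Finset.Ico a (a + 2 ^ m),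
      2 ^ τ * f τ (j + od i b, -T^[i] b) - 2 ^ τ * R / 300 ≤
        count e {n : ℤ | ∀ t : ℕ, (2 : ℝ) ^ t ≤ X →
          T^[t] n ≠ T^[t + i] (2 ^ i * 3 ^ j * n + b)} X := by
    intro b hbm
    rw [delay_set]
    have h1 := low_block τ (j + od i b) (T^[i] b) a' Y hY (hbY b hbm) (hsm Y hY.le)
    have h2 := block_le_count he ht1 ht2 ha (j + od i b) (T^[i] b)
    have h3 : Y = 2 ^ τ * R / 600 := hYdef
    linarith
  refine le_trans ?_ (Finset.sum_le_sum hterm)
  rw [Finset.sum_sub_distrib, ← Finset.mul_sum, Finset.sum_const, nsmul_eq_mul]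
  have hcard : (Finset.Ico a (a + 2 ^ m)).card = 2 ^ m := by
    rw [Int.card_Ico, add_sub_cancel_left]
    have : ((2 : ℤ) ^ m) = ((2 ^ m : ℕ) : ℤ) := by push_cast; rfl
    rw [this, Int.toNat_natCast]
  rw [hcard]
  push_cast
  have hphi := phi_block τ i j m a hτ1 hm hne
  rw [← hS, ← hR] at hphi
  unfold Phi at hphi
  have h9 : 2 ^ τ * (2 ^ m * (1 / 192 * R)) ≤
      2 ^ τ * ∑ b ∈ Finset.Ico a (a + 2 ^ m), f τ (j + od i b, -T^[i] b) :=
    mul_le_mul_of_nonneg_left hphi hp.le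
  have h10 : min 1 (Real.sqrt (S / Real.log X)) ≤ 3 / 2 * R := by
    have h11 : Real.sqrt (S / Real.log X) ≤ 3 / 2 * Real.sqrt (S / τ) := by
      rw [show (3 : ℝ) / 2 = Real.sqrt (9 / 4) by
        rw [show (9 : ℝ) / 4 = (3 / 2) ^ 2 by norm_num, Real.sqrt_sq (by norm_num)],
        ← Real.sqrt_mul (by norm_num)]
      apply Real.sqrt_le_sqrt
      rw [div_le_iff₀ hlog0]
      have h12 : 1 ≤ 9 / 4 * (Real.log X / τ) := by
        rw [← mul_div_assoc, le_div_iff₀ hτ0]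
        linarith
      calc S = S * 1 := by ring
        _ ≤ S * (9 / 4 * (Real.log X / τ)) := mul_le_mul_of_nonneg_left h12 (by linarith)
        _ = _ := by ring
    rcases min_cases 1 (Real.sqrt (S / τ)) with ⟨h3, _⟩ | ⟨h3, _⟩
    · rw [hR, h3]
      have := min_le_left 1 (Real.sqrt (S / Real.log X))
      linarith
    · rw [hR, h3]
      exact le_trans (min_le_right _ _) h11
  have h13 : 1 / 1800 * X * min 1 (Real.sqrt (S / Real.log X)) * 2 ^ m ≤
      1 / 1800 * (2 * 2 ^ τ) * (3 / 2 * R) * 2 ^ m := by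
    apply mul_le_mul_of_nonneg_right _ hpm.le
    apply mul_le_mul _ h10 (by positivity) (by positivity)
    linarith
  refine le_trans h13 ?_
  have h14 : 0 < 2 ^ τ * (2 ^ m * R) := by positivity
  linarith

end Pool.Agent.Lib.MP_edb5be_nt.CO
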