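import Pool.Agent.Lib.MP_edb5be_nt.CO.State

/-!
# From every state `(0, s)` the state `(0, 0)` is reached with positive probability
-/

namespace Pool.Agent.Lib.MP_edb5be_nt.CO

theorem lt_of_step {p : ℕ × ℤ} {b : Bool} {n : ℕ} (h : f n (st b p) < 1) : f (n + 1) p < 1 := by
  by_cases hp : p = (0, 0)
  · subst hp; rw [f_zero_state]; norm_num
  · rw [f_succ hp]
    have h1 := f_le_one n (st false p)
    have h2 := f_le_one n (st true p)
    cases b <;> linarith

theorem st_even {D : ℕ} {s : ℤ} (h : s % 2 = 0) : st false (D, s) = (D, s / 2) := by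
  simp [st, h]

theorem st_odd_false {D : ℕ} {s : ℤ} (h : s % 2 ≠ 0) :
    st false (D, s) = (D + 1, (3 * s - 1) / 2) := by
  simp [st, h]

theorem st_odd_true {D : ℕ} {s : ℤ} (h : s % 2 ≠ 0) :
    st true (D + 1, s) = (D, (s + 3 ^ D) / 2) := by
  simp [st, h]

theorem st_odd_zero {s : ℤ} (h : s % 2 ≠ 0) : st true (0, s) = (1, -((3 * s + 1) / 2)) := by
  simp [st, h]

/-- from `(1, m)` one can go down to `(0, s')` with small `s'` -/
theorem down (m : ℤ) (hm : m ≠ 0) : ∃ s' : ℤ, 2 * |s'| ≤ |m| + 1 ∧ (m < 0 → 2 * |s'| < |m|) ∧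
    ∀ n, f n (0, s') < 1 → ∃ n', f n' (1, m) < 1 := by
  obtain ⟨N, hN⟩ : ∃ N : ℕ, |m| ≤ N := ⟨m.natAbs, by simp⟩
  induction N generalizing m with
  | zero =>
    exfalso
    apply hm
    have := abs_nonneg m
    have h : |m| = 0 := le_antisymm (by exact_mod_cast hN) this
    exact abs_eq_zero.1 h
  | succ N ih =>
    by_cases h2 : m % 2 = 0
    · have hm2 : m / 2 ≠ 0 := by omega
      have h3 : |m / 2| ≤ N := by
        rw [abs_le]
        push_cast at hN
        have := abs_le.1 hN
        constructor <;> omega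
      obtain ⟨s', hs1, hs2, hs3⟩ := ih (m / 2) hm2 h3
      have h4 : 2 * |m / 2| = |m| := by
        rcases abs_cases m with ⟨h, _⟩ | ⟨h, _⟩ <;> rcases abs_cases (m / 2) with ⟨h', _⟩ | ⟨h', _⟩ <;>
          omega
      have h5 := abs_nonneg (m / 2)
      have h6 : 1 ≤ |m / 2| := Int.one_le_abs hm2
      refine ⟨s', by omega, fun hneg => ?_, fun n hn => ?_⟩
      · have := hs2 (by omega)
        omega
      · obtain ⟨n', hn'⟩ := hs3 n hn
        refine ⟨n' + 1, lt_of_step (b := false) ?_⟩
        rwa [st_even h2]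
    · refine ⟨(m + 1) / 2, ?_, ?_, fun n hn => ⟨n + 1, lt_of_step (b := true) ?_⟩⟩
      · rcases abs_cases m with ⟨h, _⟩ | ⟨h, _⟩ <;>
          rcases abs_cases ((m + 1) / 2) with ⟨h', _⟩ | ⟨h', _⟩ <;> omega
      · intro hneg
        rcases abs_cases m with ⟨h, _⟩ | ⟨h, _⟩ <;>
          rcases abs_cases ((m + 1) / 2) with ⟨h', _⟩ | ⟨h', _⟩ <;> omega
      · have h := st_odd_true (D := 0) h2
        rw [pow_zero] at h
        rw [show ((1 : ℕ), m) = (0 + 1, m) from rfl, h]
        exact hn

/-- from every `(0, s)` the state `(0, 0)` is reached with positive probability -/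
theorem paths (s : ℤ) : ∃ n, f n (0, s) < 1 := by
  obtain ⟨N, hN⟩ : ∃ N : ℕ, |s| ≤ N := ⟨s.natAbs, by simp⟩
  induction N using Nat.strong_induction_on generalizing s with
  | _ N ih =>
    by_cases h0 : s = 0
    · subst h0
      exact ⟨0, by rw [f_zero_state]; norm_num⟩
    have hs := abs_nonneg s
    by_cases h2 : s % 2 = 0
    · have h3 : |s / 2| < |s| := by
        rcases abs_cases s with ⟨h, _⟩ | ⟨h, _⟩ <;> rcases abs_cases (s / 2) with ⟨h', _⟩ | ⟨h', _⟩ <;>
          omega
      have h5 := abs_nonneg (s / 2)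
      obtain ⟨n, hn⟩ := ih (|s / 2|).toNat (by omega) (s / 2) (by omega)
      refine ⟨n + 1, lt_of_step (b := false) ?_⟩
      rwa [st_even h2]
    · by_cases h1 : s = 1
      · subst h1
        -- (0,1) -> (1,-2) -> (1,-1) -> (0,0)
        refine ⟨3, lt_of_step (b := true) ?_⟩
        rw [st_odd_zero (by norm_num)]
        refine lt_of_step (b := false) ?_
        norm_num
        rw [st_even (by norm_num)]
        norm_num
        refine lt_of_step (b := true) ?_
        have h := st_odd_true (D := 0) (s := -1) (by norm_num)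
        rw [pow_zero] at h
        rw [show ((1 : ℕ), (-1 : ℤ)) = (0 + 1, -1) from rfl, h]
        norm_num
        rw [f_zero_state]
        norm_num
      · -- first step to `(1, (3 s - 1) / 2)`
        have hm : (3 * s - 1) / 2 ≠ 0 := by omega
        obtain ⟨s', hs1, hs2, hs3⟩ := down ((3 * s - 1) / 2) hm
        have h4 : |s'| < |s| := by
          rcases lt_trichotomy s 0 with hneg | hz | hpos
          · have := hs2 (by omega)
            rw [abs_of_neg (show (3 * s - 1) / 2 < 0 by omega)] at this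
            rw [abs_of_neg hneg]
            omega
          · exact absurd hz h0
          · rw [abs_of_pos (show 0 < (3 * s - 1) / 2 by omega)] at hs1
            rw [abs_of_pos hpos]
            omega
        have h5 := abs_nonneg s'
        obtain ⟨n, hn⟩ := ih (|s'|).toNat (by omega) s' (by omega)
        obtain ⟨n', hn'⟩ := hs3 n hn
        refine ⟨n' + 1, lt_of_step (b := false) ?_⟩
        rw [st_odd_false h2]
        exact hn'

end Pool.Agent.Lib.MP_edb5be_nt.CO
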