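import Mathlib

/-!
# Pairs of trajectories of the 3x+1 map: the states of a pair and the probability of not merging

The state `(D, s)` of a pair of integers `(x, y)` means `y = 3 ^ D x - s`.
-/

namespace Pool.Agent.Lib.MP_edb5be_nt.CO

/-- One step of the state; `b` is the parity of the first number of the pair (`true` for odd).
For `D = 0`, `s` odd and `b = true` the two numbers of the pair are exchanged. -/
def st (b : Bool) (p : ℕ × ℤ) : ℕ × ℤ :=
  if p.2 % 2 = 0 then
    (if b then (p.1, (3 * p.2 + 3 ^ p.1 - 1) / 2) else (p.1, p.2 / 2))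
  else
    (if b then (if p.1 = 0 then (1, -((3 * p.2 + 1) / 2))
      else (p.1 - 1, (p.2 + 3 ^ (p.1 - 1)) / 2))
    else (p.1 + 1, (3 * p.2 - 1) / 2))

/-- The probability that the state `(0, 0)` is not reached within `t` steps from `p`. -/
noncomputable def f : ℕ → ℕ × ℤ → ℝ
  | 0, p => if p = (0, 0) then 0 else 1
  | t + 1, p => if p = (0, 0) then 0 else (f t (st false p) + f t (st true p)) / 2

/-- The first number of the pair after one step from the state `p` and the first number `x`. -/
def nx (p : ℕ × ℤ) (x : ℤ) : ℤ :=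
  if x % 2 = 0 then x / 2 else if p.2 % 2 ≠ 0 ∧ p.1 = 0 then (x - p.2) / 2 else (3 * x + 1) / 2

/-- The state `(0, 0)` is not reached within `t` steps from the state `p` with first number `x`. -/
def nm : ℕ → ℕ × ℤ → ℤ → Prop
  | 0, p, _ => p ≠ (0, 0)
  | t + 1, p, x => p ≠ (0, 0) ∧ nm t (st (decide (x % 2 ≠ 0)) p) (nx p x)

theorem f_zero_state (t : ℕ) : f t (0, 0) = 0 := by
  cases t <;> simp [f]

theorem f_zero {p : ℕ × ℤ} (hp : p ≠ (0, 0)) : f 0 p = 1 := by simp [f, hp]

theorem f_succ {p : ℕ × ℤ} (hp : p ≠ (0, 0)) (t : ℕ) :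
    f (t + 1) p = (f t (st false p) + f t (st true p)) / 2 := by simp [f, hp]

theorem f_nonneg (t : ℕ) (p : ℕ × ℤ) : 0 ≤ f t p := by
  induction t generalizing p with
  | zero => rw [f]; split_ifs <;> norm_num
  | succ t ih =>
    rw [f]
    split_ifs
    · exact le_rfl
    · have h1 := ih (st false p)
      have h2 := ih (st true p)
      positivity

theorem f_le_one (t : ℕ) (p : ℕ × ℤ) : f t p ≤ 1 := by
  induction t generalizing p with
  | zero => rw [f]; split_ifs <;> norm_num
  | succ t ih =>
    rw [f]
    split_ifs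
    · norm_num
    · have h1 := ih (st false p)
      have h2 := ih (st true p)
      linarith

theorem f_succ_le (t : ℕ) (p : ℕ × ℤ) : f (t + 1) p ≤ f t p := by
  induction t generalizing p with
  | zero =>
    by_cases hp : p = (0, 0)
    · subst hp; rw [f_zero_state, f_zero_state]
    · rw [f_zero hp]; exact f_le_one _ _
  | succ t ih =>
    by_cases hp : p = (0, 0)
    · subst hp; rw [f_zero_state, f_zero_state]
    · rw [f_succ hp, f_succ hp]
      have h1 := ih (st false p)
      have h2 := ih (st true p)
      linarith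

theorem f_antitone (p : ℕ × ℤ) : Antitone (fun t => f t p) :=
  antitone_nat_of_succ_le (fun t => f_succ_le t p)

end Pool.Agent.Lib.MP_edb5be_nt.CO
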